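import Pool.Agent.Lib.MP_e3689b_an.Mg.G021

section

set_option autoImplicit false

namespace Pool.Agent.DAng

open MvPolynomial

/-- The form. -/
noncomputable def S4_B {N : ℕ} (v w : Option (Fin N) → ℂ) : ℂ :=
  ∑ j, sg j * (v j * (starRingEnd ℂ) (w j))

theorem S4_B_eq {N : ℕ} (v w : Option (Fin N) → ℂ) : S4_B v w =
    v none * (starRingEnd ℂ) (w none) - ∑ j : Fin N, v (some j) * (starRingEnd ℂ) (w (some j)) := by
  unfold S4_B
  rw [Fintype.sum_option]
  simp only [sg, one_mul, neg_mul, Finset.sum_neg_distrib]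
  ring

theorem S4_B_lin {N ρ : ℕ} (a : Fin ρ → ℂ) (v : Fin ρ → Option (Fin N) → ℂ)
    (w : Option (Fin N) → ℂ) : S4_B (∑ β, a β • v β) w = ∑ β, a β * S4_B (v β) w := by
  unfold S4_B
  simp only [Finset.mul_sum, Finset.sum_apply, Pi.smul_apply, smul_eq_mul, Finset.sum_mul]
  rw [Finset.sum_comm]
  refine Finset.sum_congr rfl fun β _ => Finset.sum_congr rfl fun j _ => ?_
  ring

theorem S4_B_conj {N : ℕ} (v w : Option (Fin N) → ℂ) : S4_B w v = (starRingEnd ℂ) (S4_B v w) := by
  unfold S4_B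
  rw [map_sum]
  refine Finset.sum_congr rfl fun j _ => ?_
  rw [map_mul, map_mul, Complex.conj_conj]
  have h : (starRingEnd ℂ) (sg j) = sg j := by
    cases j <;> simp [sg]
  rw [h]
  ring

/-- The projection. -/
noncomputable def S4_pi {N : ℕ} (c : Option (Fin N) → ℂ) :
    (Option (Fin N) → ℂ) →ₗ[ℂ] EuclideanSpace ℂ (Fin N) where
  toFun v := WithLp.toLp 2 (fun j => v (some j) - v none / c none * c (some j))
  map_add' v w := by
    ext j
    simp
    ring
  map_smul' a v := by
    ext j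
    simp
    ring

theorem S4_pi_apply {N : ℕ} (c v : Option (Fin N) → ℂ) (j : Fin N) :
    S4_pi c v j = v (some j) - v none / c none * c (some j) := rfl

theorem S4_inner {N : ℕ} {c : Option (Fin N) → ℂ} (hc0 : c none ≠ 0) (hc : S4_B c c = 0)
    {v w : Option (Fin N) → ℂ} (hv : S4_B v c = 0) (hw : S4_B w c = 0) (h : S4_B v w = 0) :
    ∑ j, S4_pi c v j * (starRingEnd ℂ) (S4_pi c w j) = 0 := by
  have hcw : S4_B c w = 0 := by rw [S4_B_conj, hw, map_zero]
  rw [S4_B_eq] at hc hv hcw h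
  have hc1 : (starRingEnd ℂ) (c none) ≠ 0 := by
    intro h0
    exact hc0 ((map_eq_zero _).1 h0)
  have e : ∀ j, S4_pi c v j * (starRingEnd ℂ) (S4_pi c w j) =
      v (some j) * (starRingEnd ℂ) (w (some j))
      - (starRingEnd ℂ) (w none) / (starRingEnd ℂ) (c none) *
        (v (some j) * (starRingEnd ℂ) (c (some j)))
      - v none / c none * (c (some j) * (starRingEnd ℂ) (w (some j)))
      + v none / c none * ((starRingEnd ℂ) (w none) / (starRingEnd ℂ) (c none)) *
        (c (some j) * (starRingEnd ℂ) (c (some j))) := by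
    intro j
    rw [S4_pi_apply, S4_pi_apply, map_sub, map_mul, map_div₀]
    ring
  rw [Finset.sum_congr rfl fun j _ => e j, Finset.sum_add_distrib, Finset.sum_sub_distrib,
    Finset.sum_sub_distrib, ← Finset.mul_sum, ← Finset.mul_sum, ← Finset.mul_sum]
  rw [← sub_eq_zero.1 hc, ← sub_eq_zero.1 hv, ← sub_eq_zero.1 hcw, ← sub_eq_zero.1 h]
  field_simp
  ring

theorem S4_inner_c {N : ℕ} {c : Option (Fin N) → ℂ} (hc0 : c none ≠ 0) (hc : S4_B c c = 0)
    {v : Option (Fin N) → ℂ} (hv : S4_B v c = 0) :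
    ∑ j, S4_pi c v j * (starRingEnd ℂ) (c (some j)) = 0 := by
  rw [S4_B_eq] at hc hv
  have e : ∀ j, S4_pi c v j * (starRingEnd ℂ) (c (some j)) =
      v (some j) * (starRingEnd ℂ) (c (some j))
      - v none / c none * (c (some j) * (starRingEnd ℂ) (c (some j))) := by
    intro j
    rw [S4_pi_apply]
    ring
  rw [Finset.sum_congr rfl fun j _ => e j, Finset.sum_sub_distrib, ← Finset.mul_sum,
    ← sub_eq_zero.1 hc, ← sub_eq_zero.1 hv]
  field_simp
  ring

theorem S4_rank {N ρ : ℕ} {c : Option (Fin N) → ℂ} {v : Fin ρ → Option (Fin N) → ℂ}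
    (hli : LinearIndependent ℂ v) :
    ρ - 1 ≤ Module.finrank ℂ
      (LinearMap.range ((S4_pi c).comp (Fintype.linearCombination ℂ v))) := by
  obtain ⟨T, hT⟩ : ∃ T, T = (S4_pi c).comp (Fintype.linearCombination ℂ v) := ⟨_, rfl⟩
  rw [← hT]
  have hTx : ∀ x, T x = S4_pi c (Fintype.linearCombination ℂ v x) := by
    intro x
    rw [hT]
    rfl
  have h1 := LinearMap.finrank_range_add_finrank_ker T
  have h2 : Module.finrank ℂ (Fin ρ → ℂ) = ρ := by simp
  have h3 : Module.finrank ℂ (LinearMap.ker T) ≤ 1 := by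
    have h4 : Function.Injective (((LinearMap.proj none : (Option (Fin N) → ℂ) →ₗ[ℂ] ℂ).comp
        (Fintype.linearCombination ℂ v)).comp (LinearMap.ker T).subtype) := by
      rw [← LinearMap.ker_eq_bot, LinearMap.ker_eq_bot']
      intro a ha
      have h5 : T (a : Fin ρ → ℂ) = 0 := a.2
      have h6 : (Fintype.linearCombination ℂ v (a : Fin ρ → ℂ)) none = 0 := ha
      have h7 : Fintype.linearCombination ℂ v (a : Fin ρ → ℂ) = 0 := by
        funext j
        cases j with
        | none => exact h6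
        | some j =>
          have h8 : S4_pi c (Fintype.linearCombination ℂ v (a : Fin ρ → ℂ)) j = 0 := by
            rw [hTx] at h5
            have h9 := congrArg (fun x : EuclideanSpace ℂ (Fin N) => x j) h5
            exact h9
          rw [S4_pi_apply, h6] at h8
          simpa using h8
      have h8 := (Fintype.linearIndependent_iff.1 hli) (a : Fin ρ → ℂ)
        (by rw [Fintype.linearCombination_apply] at h7; exact h7)
      apply Subtype.ext
      funext β
      exact h8 β
    have h5 := LinearMap.finrank_le_finrank_of_injective h4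
    rwa [Module.finrank_self] at h5
  omega

/-- Linear algebra in signature `(1, N)`. Let `⟨v, w⟩ = v_none conj w_none - ∑_j v_j conj w_j` on `ℂ^{Option (Fin N)}`. Let `c` be a null vector with
`c none ≠ 0`, orthogonal to all `v i β` (`i : Fin m`, `β : Fin ρ`), for each `i` the family `v i` is linearly independent, and `⟨v i β, v i' β'⟩ = 0` for `i ≠ i'`. Then
`m (ρ - 1) + 1 ≤ N`.
PROOF. `π v := v' - (v_none/c_none) c' ∈ ℂ^N` (`v'` the components `some j`), a linear map into `EuclideanSpace ℂ (Fin N)`. For `v, w` orthogonal to `c`: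
`⟨π v, c'⟩_E = 0` and `⟨π v, π w⟩_E = -⟨v, w⟩` (use `|c'|² = |c_none|²`). Let `A_i = span (v i)`, dimension `ρ`, contained in the orthogonal complement of `c`. The kernel
of `π` on `A_i` is contained in `ℂ c` (`π v = 0` implies `v = (v_none/c_none) c`), so `dim π(A_i) ≥ ρ - 1`. The subspaces `π(A_i)` are mutually orthogonal and orthogonal
to `c' ≠ 0`. So the sum of their dimensions plus one is at most `N` (`OrthogonalFamily.independent`, or choose orthonormal bases). -/
theorem S4 {m N ρ : ℕ} (c : Option (Fin N) → ℂ) (hc0 : c none ≠ 0)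
    (hc : ∑ j, sg j * (c j * (starRingEnd ℂ) (c j)) = 0)
    (v : Fin m → Fin ρ → Option (Fin N) → ℂ) (hli : ∀ i, LinearIndependent ℂ (v i))
    (hvc : ∀ i β, ∑ j, sg j * (v i β j * (starRingEnd ℂ) (c j)) = 0)
    (hvv : ∀ i i' β β', i ≠ i' → ∑ j, sg j * (v i β j * (starRingEnd ℂ) (v i' β' j)) = 0) :
    m * (ρ - 1) + 1 ≤ N := by
  classical
  have hc' : S4_B c c = 0 := hc
  obtain ⟨c', hcd⟩ : ∃ c' : EuclideanSpace ℂ (Fin N), ∀ j, c' j = c (some j) :=
    ⟨WithLp.toLp 2 (fun j => c (some j)), fun _ => rfl⟩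
  have hcne : c' ≠ 0 := by
    intro h0
    have h1 : ∀ j, c (some j) = 0 := by
      intro j
      rw [← hcd, h0]
      rfl
    rw [S4_B_eq] at hc'
    simp only [h1, zero_mul, Finset.sum_const_zero, sub_zero] at hc'
    rcases mul_eq_zero.1 hc' with h2 | h2
    · exact hc0 h2
    · exact hc0 ((map_eq_zero _).1 h2)
  obtain ⟨T, hT⟩ : ∃ T : Fin m → ((Fin ρ → ℂ) →ₗ[ℂ] EuclideanSpace ℂ (Fin N)),
      ∀ i, T i = (S4_pi c).comp (Fintype.linearCombination ℂ (v i)) := ⟨_, fun _ => rfl⟩
  have hTa : ∀ i a, T i a = S4_pi c (∑ β, a β • v i β) := by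
    intro i a
    rw [hT, LinearMap.comp_apply, Fintype.linearCombination_apply]
  have hBc : ∀ i (a : Fin ρ → ℂ), S4_B (∑ β, a β • v i β) c = 0 := by
    intro i a
    rw [S4_B_lin]
    refine Finset.sum_eq_zero fun β _ => ?_
    have h1 : S4_B (v i β) c = 0 := hvc i β
    rw [h1, mul_zero]
  have hBB : ∀ i i' (a a' : Fin ρ → ℂ), i ≠ i' →
      S4_B (∑ β, a β • v i β) (∑ β, a' β • v i' β) = 0 := by
    intro i i' a a' hii
    rw [S4_B_lin]
    refine Finset.sum_eq_zero fun β _ => ?_
    have h1 : S4_B (v i β) (∑ β, a' β • v i' β) = 0 := by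
      rw [S4_B_conj, S4_B_lin]
      rw [Finset.sum_eq_zero, map_zero]
      intro β' _
      have h2 : S4_B (v i' β') (v i β) = 0 := hvv i' i β' β hii.symm
      rw [h2, mul_zero]
    rw [h1, mul_zero]
  obtain ⟨p, hp0, hp1⟩ : ∃ p : Option (Fin m) → Submodule ℂ (EuclideanSpace ℂ (Fin N)),
      p none = Submodule.span ℂ {c'} ∧ ∀ i, p (some i) = LinearMap.range (T i) :=
    ⟨fun o => match o with
      | none => Submodule.span ℂ {c'}
      | some i => LinearMap.range (T i), rfl, fun _ => rfl⟩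
  have hin : ∀ i (a : Fin ρ → ℂ), inner ℂ c' (T i a) = 0 := by
    intro i a
    rw [PiLp.inner_apply, hTa]
    have h1 := S4_inner_c hc0 hc' (hBc i a)
    rw [← h1]
    refine Finset.sum_congr rfl fun j _ => ?_
    rw [RCLike.inner_apply, hcd]
  have hin2 : ∀ i i' (a a' : Fin ρ → ℂ), i ≠ i' → inner ℂ (T i a) (T i' a') = 0 := by
    intro i i' a a' hii
    rw [PiLp.inner_apply, hTa, hTa]
    have h1 := S4_inner hc0 hc' (hBc i' a') (hBc i a) (hBB i' i a' a hii.symm)
    rw [← h1]
    refine Finset.sum_congr rfl fun j _ => ?_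
    rw [RCLike.inner_apply]
  have hpo : ∀ o o', o ≠ o' → ∀ x ∈ p o, ∀ y ∈ p o', inner ℂ x y = 0 := by
    intro o o' hoo x hx y hy
    cases o with
    | none =>
      cases o' with
      | none => exact absurd rfl hoo
      | some i' =>
        rw [hp0] at hx
        rw [hp1] at hy
        obtain ⟨z, rfl⟩ := Submodule.mem_span_singleton.1 hx
        obtain ⟨a, rfl⟩ := hy
        rw [inner_smul_left, hin, mul_zero]
    | some i =>
      rw [hp1] at hx
      obtain ⟨a, rfl⟩ := hx
      cases o' with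
      | none =>
        rw [hp0] at hy
        obtain ⟨z, rfl⟩ := Submodule.mem_span_singleton.1 hy
        rw [inner_smul_right, ← inner_conj_symm, hin, map_zero, mul_zero]
      | some i' =>
        rw [hp1] at hy
        obtain ⟨a', rfl⟩ := hy
        exact hin2 i i' a a' fun e => hoo (by rw [e])
  have hV : OrthogonalFamily ℂ (fun o => p o) (fun o => (p o).subtypeₗᵢ) := by
    intro o o' hoo x y
    exact hpo o o' hoo x x.2 y y.2
  have hON := hV.orthonormal_sigma_orthonormal
    (v_family := fun o => ⇑(stdOrthonormalBasis ℂ (p o)))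
    (fun o => (stdOrthonormalBasis ℂ (p o)).orthonormal)
  have hcard := hON.linearIndependent.fintype_card_le_finrank
  rw [finrank_euclideanSpace_fin, Fintype.card_sigma] at hcard
  simp only [Fintype.card_fin] at hcard
  rw [Fintype.sum_option] at hcard
  have h1 : Module.finrank ℂ (p none) = 1 := by
    rw [hp0]
    exact finrank_span_singleton hcne
  have h2 : ∀ i : Fin m, ρ - 1 ≤ Module.finrank ℂ (p (some i)) := by
    intro i
    rw [hp1, hT]
    exact S4_rank (hli i)
  have h3 : m * (ρ - 1) ≤ ∑ i : Fin m, Module.finrank ℂ (p (some i)) := by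
    have h4 := Finset.sum_le_sum fun (i : Fin m) (_ : i ∈ Finset.univ) => h2 i
    rw [Finset.sum_const, Finset.card_univ, Fintype.card_fin, smul_eq_mul] at h4
    exact h4
  omega

end Pool.Agent.DAng
end

section

set_option autoImplicit false

namespace Pool.Agent.DAng

open MvPolynomial

theorem Z2_aux {n : ℕ} (P : MvPolynomial (Fin n ⊕ Fin n) ℂ) (x y : Fin n → ℂ) :
    ∃ (Q : Polynomial ℂ) (D : ℕ), ∀ l : ℂ, l ≠ 0 →
      Q.eval l = l ^ D * eval (Sum.elim (fun i => l * x i) (fun i => l⁻¹ * y i)) P := by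
  induction P using MvPolynomial.induction_on with
  | C a => exact ⟨Polynomial.C a, 0, fun l _ => by simp⟩
  | add p q hp hq =>
    obtain ⟨Q1, D1, h1⟩ := hp
    obtain ⟨Q2, D2, h2⟩ := hq
    refine ⟨Polynomial.X ^ D2 * Q1 + Polynomial.X ^ D1 * Q2, D1 + D2, fun l hl => ?_⟩
    rw [Polynomial.eval_add, Polynomial.eval_mul, Polynomial.eval_mul, h1 l hl, h2 l hl,
      Polynomial.eval_pow, Polynomial.eval_pow, Polynomial.eval_X, map_add]
    ring
  | mul_X p i hp =>
    obtain ⟨Q1, D1, h1⟩ := hp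
    rcases i with i | i
    · refine ⟨Q1 * (Polynomial.X * Polynomial.C (x i)), D1, fun l hl => ?_⟩
      rw [Polynomial.eval_mul, h1 l hl, map_mul, eval_X, Sum.elim_inl, Polynomial.eval_mul,
        Polynomial.eval_X, Polynomial.eval_C]
      ring
    · refine ⟨Q1 * Polynomial.C (y i), D1 + 1, fun l hl => ?_⟩
      rw [Polynomial.eval_mul, h1 l hl, map_mul, eval_X, Sum.elim_inr, Polynomial.eval_C, pow_succ]
      field_simp

theorem Z2_inf : Set.Infinite {l : ℂ | ‖l‖ = 1} := by
  have h1 : Set.InjOn (fun t : ℝ => Complex.exp (t * Complex.I)) (Set.Icc (0 : ℝ) 1) := by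
    intro s hs t ht hst
    simp only at hst
    have h2 := Complex.exp_eq_exp_iff_exists_int.mp hst
    obtain ⟨k, hk⟩ := h2
    have h3 : (s : ℂ) = t + k * (2 * Real.pi) := by
      have hI : (Complex.I : ℂ) ≠ 0 := Complex.I_ne_zero
      have : (s : ℂ) * Complex.I = (t + k * (2 * Real.pi)) * Complex.I := by
        rw [hk]; ring
      exact mul_right_cancel₀ hI this
    have h4 : s = t + k * (2 * Real.pi) := by exact_mod_cast h3
    have hpi := Real.pi_gt_three
    have hk0 : k = 0 := by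
      by_contra hne
      rcases lt_or_gt_of_ne hne with h | h
      · have : (k : ℝ) ≤ -1 := by exact_mod_cast Int.le_sub_one_of_lt h
        nlinarith [hs.1, hs.2, ht.1, ht.2]
      · have : (1 : ℝ) ≤ k := by exact_mod_cast h
        nlinarith [hs.1, hs.2, ht.1, ht.2]
    rw [h4, hk0]; simp
  have h5 : (Set.Icc (0 : ℝ) 1).Infinite := Set.Icc_infinite zero_lt_one
  refine (h5.image h1).mono ?_
  rintro _ ⟨t, _, rfl⟩
  exact Complex.norm_exp_ofReal_mul_I t

/-- If `P(λ x, λ⁻¹ y)` vanishes for all `|λ| = 1` then it vanishes for all `λ ≠ 0`.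
PROOF. There is a one variable polynomial `Q` and `D` with `Q(λ) = λ^D P(λ x, λ⁻¹ y)` for all `λ ≠ 0`
(by `MvPolynomial.induction_on`: for constants `D = 0`; sums: take `D = max`, i.e. multiply by powers of `λ`;
product with a variable `X (inl i)`: multiply `Q` by `λ x_i`; with `X (inr i)`: `D + 1`, multiply `Q` by `y_i`).
`Q` vanishes on the unit circle, which is infinite, so `Q = 0`. -/
theorem Z2 {n : ℕ} (P : MvPolynomial (Fin n ⊕ Fin n) ℂ) (x y : Fin n → ℂ)
    (h : ∀ l : ℂ, ‖l‖ = 1 → eval (Sum.elim (fun i => l * x i) (fun i => l⁻¹ * y i)) P = 0)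
    (l : ℂ) (hl : l ≠ 0) :
    eval (Sum.elim (fun i => l * x i) (fun i => l⁻¹ * y i)) P = 0 := by
  obtain ⟨Q, D, hQ⟩ := Z2_aux P x y
  have hQ0 : Q = 0 := by
    apply Polynomial.eq_zero_of_infinite_isRoot
    refine Z2_inf.mono ?_
    intro t ht
    have ht' : ‖t‖ = 1 := ht
    have ht0 : t ≠ 0 := by
      rintro rfl
      simp at ht'
    change Q.eval t = 0
    rw [hQ t ht0, h t ht', mul_zero]
  have h1 := hQ l hl
  rw [hQ0, Polynomial.eval_zero] at h1
  rcases mul_eq_zero.mp h1.symm with h2 | h2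
  · exact absurd h2 (pow_ne_zero D hl)
  · exact h2

end Pool.Agent.DAng
end

section

set_option autoImplicit false

namespace Pool.Agent.DAng

open MvPolynomial

/-- A polynomial in `(z, w)` vanishing at all `(z, z̄)`, `|z| = 1`, vanishes at all `(z, z̄/|z|²)`, `z ≠ 0`.
PROOF. Let `ρ = √(∑ ‖z i‖²) > 0`, `x = z/ρ`, `y = z̄/ρ`. For `|λ| = 1` the point `λ x` is on the unit sphere
and its conjugate is `λ⁻¹ y` (as `λ̄ = λ⁻¹`), so `Z2` applies with `l = ρ`: `ρ x = z`, `ρ⁻¹ y = z̄/ρ²`. -/
theorem Z3 {n : ℕ} (P : MvPolynomial (Fin n ⊕ Fin n) ℂ)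
    (h : ∀ z : Fin n → ℂ, ∑ i, ‖z i‖ ^ 2 = 1 →
      eval (Sum.elim z (fun i => (starRingEnd ℂ) (z i))) P = 0)
    (z : Fin n → ℂ) (hz : z ≠ 0) :
    eval (Sum.elim z (fun i => (starRingEnd ℂ) (z i) / (∑ i, z i * (starRingEnd ℂ) (z i)))) P = 0 := by
  set S : ℝ := ∑ i, ‖z i‖ ^ 2 with hS
  have hSpos : 0 < S := by
    obtain ⟨i, hi⟩ := Function.ne_iff.mp hz
    have h1 : 0 < ‖z i‖ ^ 2 := by
      have : 0 < ‖z i‖ := norm_pos_iff.mpr hi
      positivity
    exact lt_of_lt_of_le h1 (Finset.single_le_sum (f := fun i => ‖z i‖ ^ 2)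
      (fun j _ => sq_nonneg _) (Finset.mem_univ i))
  set r : ℝ := Real.sqrt S with hr
  have hrpos : 0 < r := Real.sqrt_pos.mpr hSpos
  have hr2 : r ^ 2 = S := Real.sq_sqrt hSpos.le
  have hrC : (r : ℂ) ≠ 0 := by exact_mod_cast hrpos.ne'
  have hsum : (∑ i, z i * (starRingEnd ℂ) (z i)) = (r : ℂ) ^ 2 := by
    have : ∀ i, z i * (starRingEnd ℂ) (z i) = ((‖z i‖ ^ 2 : ℝ) : ℂ) := by
      intro i
      rw [Complex.mul_conj, Complex.normSq_eq_norm_sq]
    rw [Finset.sum_congr rfl (fun i _ => this i), ← Complex.ofReal_sum, ← hS, ← hr2]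
    push_cast
    rfl
  have key := Z2 P (fun i => z i / r) (fun i => (starRingEnd ℂ) (z i) / r) (by
    intro l hl
    have hl0 : l ≠ 0 := by
      rintro rfl
      simp at hl
    have hinv : l⁻¹ = (starRingEnd ℂ) l := by
      rw [Complex.inv_def, Complex.normSq_eq_norm_sq, hl]
      simp
    have h2 := h (fun i => l * (z i / r)) (by
      have : ∀ i, ‖l * (z i / r)‖ ^ 2 = ‖z i‖ ^ 2 / S := by
        intro i
        rw [norm_mul, hl, one_mul, norm_div, div_pow, Complex.norm_real, Real.norm_eq_abs, sq_abs, hr2]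
      rw [Finset.sum_congr rfl (fun i _ => this i), ← Finset.sum_div, ← hS]
      exact div_self hSpos.ne')
    rw [← h2]
    congr 1
    congr 1
    funext i
    congr 1
    funext j
    rw [hinv, map_mul, map_div₀, Complex.conj_ofReal]) r hrC
  rw [← key]
  congr 1
  congr 1
  funext i
  rcases i with i | i
  · simp only [Sum.elim_inl]
    field_simp
  · simp only [Sum.elim_inr]
    rw [hsum]
    field_simp

end Pool.Agent.DAng
end
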