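import Mathlib

section

set_option autoImplicit false

/-!
# Rational sphere maps (D'Angelo's degree conjecture): common definitions

`f = p / q : ℂⁿ → ℂᴺ`, `n = m + 1`. The family `F : Option (Fin N) → ℂ[z]` is `F none = q`,
`F (some j) = p j`.
-/

namespace Pool.Agent.DAng

open MvPolynomial

/-- The polynomial with conjugated coefficients. -/
noncomputable def cj {τ : Type*} (p : MvPolynomial τ ℂ) : MvPolynomial τ ℂ :=
  map (starRingEnd ℂ) p

/-- Signs: `1` for the denominator (index `none`), `-1` for the numerators. -/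
def sg {J : Type*} : Option J → ℂ
  | none => 1
  | some _ => -1

/-- The polarised sphere identity `q(z) q̄(w) = ∑ p_j(z) p̄_j(w)` on `∑ z_i w_i = 1`. -/
def Quad {n N : ℕ} (F : Option (Fin N) → MvPolynomial (Fin n) ℂ) : Prop :=
  ∀ z w : Fin n → ℂ, ∑ i, z i * w i = 1 →
    ∑ j, sg j * (eval z (F j) * eval w (cj (F j))) = 0

/-! ## Dual variables, coefficientwise derivations -/

/-- apply `α : A → A` to all coefficients of a polynomial -/
noncomputable def cmap {σ A : Type*} [CommRing A] (α : A → A) (P : MvPolynomial σ A) :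
    MvPolynomial σ A :=
  ∑ M ∈ P.support, monomial M (α (coeff M P))

/-- The total derivation: derivative of the coefficients plus `X_i * ∂/∂X_s`. -/
noncomputable def Dt {σ A : Type*} [CommRing A] [Algebra ℂ A] (α : Derivation ℂ A A) (i s : σ)
    (P : MvPolynomial σ A) : MvPolynomial σ A :=
  cmap α P + X i * pderiv s P

open Classical in
/-- all products of one variable from `T` with one monomial of `S` (exponent vectors) -/
noncomputable def bdT {σ : Type*} (T : Finset σ) (S : Finset (σ →₀ ℕ)) : Finset (σ →₀ ℕ) :=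
  T.biUnion (fun s : σ => S.image (fun M => M + Finsupp.single s 1))

/-- all products of one variable with one monomial of `S` (exponent vectors) -/
noncomputable def bd {σ : Type*} [Fintype σ] (S : Finset (σ →₀ ℕ)) : Finset (σ →₀ ℕ) :=
  bdT Finset.univ S

/-! ## The chart of lines `t ↦ (t, a + t b)` -/

/-- coefficient ring: polynomials in `a_i = X (inl i)`, `b_i = X (inr i)`, `i : Fin m` -/
abbrev CA (m : ℕ) := MvPolynomial (Fin m ⊕ Fin m) ℂ

/-- index type of the dual variables: first `X_i` (`i : Fin m`), then `X_0`, `X_1` (smallest) -/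
abbrev Sg (m : ℕ) := Lex (Fin m ⊕ Fin 2)

/-- the index of `X_i` -/
def xi {m : ℕ} (i : Fin m) : Sg m := toLex (Sum.inl i)
/-- the index of `X_0` -/
def x0 {m : ℕ} : Sg m := toLex (Sum.inr 0)
/-- the index of `X_1` -/
def x1 {m : ℕ} : Sg m := toLex (Sum.inr 1)

/-- polynomials in the dual variables over `CA m` -/
abbrev CR (m : ℕ) := MvPolynomial (Sg m) (CA m)

/-- restriction of a polynomial to the line `t ↦ (t, a + t b)` -/
noncomputable def phi (m : ℕ) : MvPolynomial (Fin (m + 1)) ℂ →ₐ[ℂ] Polynomial (CA m) :=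
  aeval (Fin.cons Polynomial.X
    (fun i : Fin m => Polynomial.C (X (Sum.inl i)) + Polynomial.X * Polynomial.C (X (Sum.inr i))))

/-- the point with parameter `t` of the line with parameters `a`, `b` -/
def pt {m : ℕ} (a b : Fin m → ℂ) (t : ℂ) : Fin (m + 1) → ℂ :=
  Fin.cons t (fun i => a i + t * b i)

/-- evaluation of an element of `CA m` -/
noncomputable def evA {m : ℕ} (a b : Fin m → ℂ) : CA m →+* ℂ := eval (Sum.elim a b)

/-- evaluation of an element of `CR m` -/
noncomputable def evR {m : ℕ} (a b : Fin m → ℂ) (x : Sg m → ℂ) : CR m →+* ℂ :=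
  eval₂Hom (evA a b) x

/-- `w_0 = X_0 - ∑ a_i X_i` -/
noncomputable def w0 (m : ℕ) : CR m := X x0 - ∑ i : Fin m, C (X (Sum.inl i)) * X (xi i)

/-- `w_1 = X_1 - ∑ b_i X_i` (index `0`) and `w_i = X_i` -/
noncomputable def ww (m : ℕ) : Fin (m + 1) → CR m :=
  Fin.cons (X x1 - ∑ i : Fin m, C (X (Sum.inr i)) * X (xi i)) (fun i => X (xi i))

/-- the conjugate polynomial, homogenised in degree `d` by `w_0`, at `-w` -/
noncomputable def gam (m d : ℕ) (G : MvPolynomial (Fin (m + 1)) ℂ) : CR m :=
  ∑ e ∈ Finset.range (d + 1),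
    w0 m ^ (d - e) * aeval (fun i => - ww m i) (homogeneousComponent e (cj G))

/-- the coefficient of `t^k` of `F(z) · G(w)` -/
noncomputable def Pik (m d : ℕ) {N : ℕ} (F : Option (Fin N) → MvPolynomial (Fin (m + 1)) ℂ)
    (k : ℕ) : CR m :=
  ∑ j, C (C (sg j) * (phi m (F j)).coeff k) * gam m d (F j)

/-- `u` is the sequence of coefficients of the quotient of `F(z)·G(w)` by `X_0 + t X_1` -/
def IsQuot (m d : ℕ) {N : ℕ} (F : Option (Fin N) → MvPolynomial (Fin (m + 1)) ℂ)
    (u : ℕ → CR m) : Prop :=
  (∀ k, d ≤ k → u k = 0) ∧ Pik m d F 0 = X x0 * u 0 ∧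
    ∀ k, Pik m d F (k + 1) = X x0 * u (k + 1) + X x1 * u k

/-- the values of the dual variables at the point of the line with parameter `s` -/
noncomputable def Xs {m : ℕ} (a b : Fin m → ℂ) (s : ℂ) : Sg m → ℂ := fun v =>
  match ofLex v with
  | Sum.inl i => - (starRingEnd ℂ) (a i + s * b i)
  | Sum.inr 0 => 1 - ∑ i, a i * (starRingEnd ℂ) (a i + s * b i)
  | Sum.inr 1 => - (starRingEnd ℂ) s - ∑ i, b i * (starRingEnd ℂ) (a i + s * b i)

end Pool.Agent.DAng
end

section

set_option autoImplicit false

namespace Pool.Agent.DAng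

open MvPolynomial

/-- the coefficients in the polynomials in `b` over `ℂ[z]` -/
noncomputable def B1_f (m : ℕ) : CA m →+* MvPolynomial (Fin m) (MvPolynomial (Fin (m + 1)) ℂ) :=
  eval₂Hom ((C : MvPolynomial (Fin (m + 1)) ℂ →+* MvPolynomial (Fin m) (MvPolynomial (Fin (m + 1)) ℂ)).comp
      (C : ℂ →+* MvPolynomial (Fin (m + 1)) ℂ))
    (Sum.elim (fun i : Fin m => C (X i.succ) - C (X 0) * X i) (fun i : Fin m => X i))

/-- the ring homomorphism `ψ` -/
noncomputable def B1_psi (m : ℕ) :
    Polynomial (CA m) →+* MvPolynomial (Fin m) (MvPolynomial (Fin (m + 1)) ℂ) :=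
  Polynomial.eval₂RingHom (B1_f m) (C (X 0))

/-- the ring homomorphism `ψ'` -/
noncomputable def B1_psi' (m : ℕ) :
    MvPolynomial (Fin m) (MvPolynomial (Fin (m + 1)) ℂ) →+* Polynomial (CA m) :=
  eval₂Hom (phi m : MvPolynomial (Fin (m + 1)) ℂ →+* Polynomial (CA m))
    (fun i : Fin m => Polynomial.C (X (Sum.inr i)))

theorem B1_phi_C {m : ℕ} (c : ℂ) : phi m (C c) = Polynomial.C (C c) := by
  rw [phi, aeval_C]
  rfl

theorem B1_phi_zero {m : ℕ} : phi m (X 0) = Polynomial.X := by
  rw [phi, aeval_X, Fin.cons_zero]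

theorem B1_phi_succ {m : ℕ} (i : Fin m) : phi m (X i.succ)
    = Polynomial.C (X (Sum.inl i)) + Polynomial.X * Polynomial.C (X (Sum.inr i)) := by
  rw [phi, aeval_X, Fin.cons_succ]

theorem B1_psi_C {m : ℕ} (c : CA m) : B1_psi m (Polynomial.C c) = B1_f m c := by
  rw [B1_psi, Polynomial.coe_eval₂RingHom, Polynomial.eval₂_C]

theorem B1_psi_X {m : ℕ} : B1_psi m Polynomial.X = C (X 0) := by
  rw [B1_psi, Polynomial.coe_eval₂RingHom, Polynomial.eval₂_X]

theorem B1_f_C {m : ℕ} (c : ℂ) : B1_f m (C c) = C (C c) := by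
  rw [B1_f, eval₂Hom_C]
  rfl

theorem B1_f_inl {m : ℕ} (i : Fin m) : B1_f m (X (Sum.inl i)) = C (X i.succ) - C (X 0) * X i := by
  rw [B1_f, eval₂Hom_X', Sum.elim_inl]

theorem B1_f_inr {m : ℕ} (i : Fin m) : B1_f m (X (Sum.inr i)) = X i := by
  rw [B1_f, eval₂Hom_X', Sum.elim_inr]

theorem B1_psi'_C {m : ℕ} (G : MvPolynomial (Fin (m + 1)) ℂ) : B1_psi' m (C G) = phi m G := by
  rw [B1_psi', eval₂Hom_C]
  rfl

theorem B1_psi'_X {m : ℕ} (i : Fin m) : B1_psi' m (X i) = Polynomial.C (X (Sum.inr i)) := by
  rw [B1_psi', eval₂Hom_X']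

theorem B1_comp1 {m : ℕ} (G : MvPolynomial (Fin (m + 1)) ℂ) : B1_psi m (phi m G) = C G := by
  have h : (B1_psi m).comp (phi m : MvPolynomial (Fin (m + 1)) ℂ →+* Polynomial (CA m))
      = (C : MvPolynomial (Fin (m + 1)) ℂ →+* MvPolynomial (Fin m) (MvPolynomial (Fin (m + 1)) ℂ)) := by
    apply MvPolynomial.ringHom_ext
    · intro c
      rw [RingHom.comp_apply]
      change B1_psi m (phi m (C c)) = _
      rw [B1_phi_C, B1_psi_C, B1_f_C]
    · intro i
      rw [RingHom.comp_apply]
      change B1_psi m (phi m (X i)) = _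
      refine Fin.cases ?_ (fun i => ?_) i
      · rw [B1_phi_zero, B1_psi_X]
      · rw [B1_phi_succ, map_add, map_mul, B1_psi_C, B1_psi_C, B1_psi_X, B1_f_inl, B1_f_inr,
          sub_add_cancel]
  have h2 := congrArg (fun k => k G) h
  exact h2

theorem B1_comp2 {m : ℕ} (g : Polynomial (CA m)) : B1_psi' m (B1_psi m g) = g := by
  have h : (B1_psi' m).comp (B1_psi m) = RingHom.id (Polynomial (CA m)) := by
    apply Polynomial.ringHom_ext
    · intro c
      rw [RingHom.comp_apply, B1_psi_C, RingHom.id_apply]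
      have h1 : (B1_psi' m).comp (B1_f m) = (Polynomial.C : CA m →+* Polynomial (CA m)) := by
        apply MvPolynomial.ringHom_ext
        · intro c
          rw [RingHom.comp_apply, B1_f_C, B1_psi'_C, B1_phi_C]
        · intro i
          rw [RingHom.comp_apply]
          rcases i with i | i
          · rw [B1_f_inl, map_sub, map_mul, B1_psi'_C, B1_psi'_C, B1_psi'_X, B1_phi_zero, B1_phi_succ,
              add_sub_cancel_right]
          · rw [B1_f_inr, B1_psi'_X]
      exact congrArg (fun k => k c) h1
    · rw [RingHom.comp_apply, B1_psi_X, B1_psi'_C, B1_phi_zero, RingHom.id_apply]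
  exact congrArg (fun k => k g) h

/-- Common divisors of the restrictions to the generic line are units.
PROOF. Let `R' = MvPolynomial (Fin m) (MvPolynomial (Fin (m+1)) ℂ)` (polynomials in `b` over `ℂ[z]`) and let `ψ : Polynomial (CA m) →+* R'` be the ring
homomorphism with `t ↦ C (X 0)`, `b_i ↦ X i`, `a_i ↦ C (X (succ i)) - C (X 0) * X i` (constants to constants), and `ψ' : R' →+* Polynomial (CA m)` with
`X 0 ↦ t`, `X (succ i) ↦ a_i + t b_i` (that is `phi m`), `b_i ↦ b_i`. Then `ψ' ∘ ψ = id` (check on generators), and `ψ (phi m G) = C G`.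
Let `g ∣ phi m (F j)` for all `j`. Then `ψ g ∣ C (F j)` for all `j`. Some `F j ≠ 0` (`hne`), so `ψ g` has total degree `0` (in a domain the
total degree is additive), `ψ g = C h`, and `h ∣ F j` for all `j` (`C_dvd_C`-type statement: take coefficient `0`). So `h` is a unit by `hred`, `ψ g` is a unit
and `g = ψ' (ψ g)` is a unit. -/
theorem B1 {m N : ℕ} (F : Option (Fin N) → MvPolynomial (Fin (m + 1)) ℂ)
    (hred : ∀ r : MvPolynomial (Fin (m + 1)) ℂ, (∀ j, r ∣ F j) → IsUnit r)
    (hne : ∃ j, F j ≠ 0) (g : Polynomial (CA m)) (hg : ∀ j, g ∣ phi m (F j)) : IsUnit g := by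
  have hd : ∀ j, B1_psi m g ∣ C (F j) := by
    intro j
    rw [← B1_comp1]
    exact map_dvd _ (hg j)
  obtain ⟨j0, hj0⟩ := hne
  have h0 : (B1_psi m g).totalDegree = 0 := by
    obtain ⟨k, hk⟩ := hd j0
    have hC : (C (F j0) : MvPolynomial (Fin m) (MvPolynomial (Fin (m + 1)) ℂ)) ≠ 0 := by
      rw [Ne, C_eq_zero]
      exact hj0
    have h1 : B1_psi m g ≠ 0 := by
      intro h
      rw [h, zero_mul] at hk
      exact hC hk
    have h2 : k ≠ 0 := by
      intro h
      rw [h, mul_zero] at hk
      exact hC hk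
    have h3 := totalDegree_mul_of_isDomain h1 h2
    rw [← hk, totalDegree_C] at h3
    omega
  have h1 : B1_psi m g = C (coeff 0 (B1_psi m g)) := (totalDegree_eq_zero_iff_eq_C).1 h0
  have h2 : IsUnit (coeff 0 (B1_psi m g)) := by
    apply hred
    intro j
    obtain ⟨k, hk⟩ := hd j
    refine ⟨coeff 0 k, ?_⟩
    have h3 := congrArg (coeff 0) hk
    rw [h1, coeff_C_mul, coeff_zero_C] at h3
    exact h3
  rw [← B1_comp2 g, h1]
  exact (h2.map C).map (B1_psi' m)

end Pool.Agent.DAng
end

section

set_option autoImplicit false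

namespace Pool.Agent.DAng

open MvPolynomial

/-- Gauss lemma and Bezout: over a unique factorisation domain `A`, finitely many polynomials of `A[t]`, not all zero, without a common nonunit divisor
generate an ideal containing a nonzero constant.
PROOF. Let `K = FractionRing A`. The ideal of `K[t]` generated by the images is principal, generated by `g ≠ 0`. If `g` is a unit, clear denominators in
`1 = ∑ β_j f_j`. Otherwise `deg g > 0`; multiplying `g` by an element of `K` we may assume that it is the image of a primitive polynomial `g' ∈ A[t]`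
(`IsLocalization.integerNormalization`, `Polynomial.primPart`, with `UniqueFactorizationMonoid.toNormalizedGCDMonoid`/`NormalizedGCDMonoid`); then `g' ∣ f_j` in `A[t]`
by `Polynomial.IsPrimitive.dvd_iff_fraction_map_dvd_fraction_map` (or `IsPrimitive.dvd_of_fraction_map_dvd_fraction_map`), so `g'` is a unit of `A[t]`, of degree `0`:
contradiction. -/
theorem B2 {A : Type*} [CommRing A] [IsDomain A] [UniqueFactorizationMonoid A] {J : Type*} [Fintype J]
    (f : J → Polynomial A) (hne : ∃ j, f j ≠ 0)
    (h : ∀ g : Polynomial A, (∀ j, g ∣ f j) → IsUnit g) :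
    ∃ (α : J → Polynomial A) (r : A), r ≠ 0 ∧ ∑ j, α j * f j = Polynomial.C r := by
  classical
  have hinj : Function.Injective (algebraMap A (FractionRing A)) := IsFractionRing.injective A _
  have hφ : Function.Injective (Polynomial.map (algebraMap A (FractionRing A))) :=
    Polynomial.map_injective _ hinj
  let I : Ideal (Polynomial (FractionRing A)) :=
    Ideal.span (Set.range fun j => (f j).map (algebraMap A (FractionRing A)))
  let g : Polynomial (FractionRing A) := Submodule.IsPrincipal.generator I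
  have hgI : g ∈ I := Submodule.IsPrincipal.generator_mem I
  have hgdvd : ∀ j, g ∣ (f j).map (algebraMap A (FractionRing A)) := fun j =>
    (Submodule.IsPrincipal.mem_iff_generator_dvd I).1 (Ideal.subset_span ⟨j, rfl⟩)
  have hg0 : g ≠ 0 := by
    intro h0
    obtain ⟨j, hj⟩ := hne
    have h1 := hgdvd j
    rw [h0, zero_dvd_iff] at h1
    exact hj (hφ (by rw [h1, Polynomial.map_zero]))
  obtain ⟨β, hβ⟩ := (Ideal.mem_span_range_iff_exists_fun).1 hgI
  -- the primitive polynomial
  let nG : NormalizedGCDMonoid A := Nonempty.some inferInstance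
  let P : Polynomial A := IsLocalization.integerNormalization (nonZeroDivisors A) g
  obtain ⟨b, hbm, hb⟩ := IsLocalization.integerNormalization_spec (nonZeroDivisors A) g
  have hb0 : (b : A) ≠ 0 := nonZeroDivisors.ne_zero hbm
  have hb1 : algebraMap A (FractionRing A) (b : A) ≠ 0 := by
    intro h0
    exact hb0 (hinj (by rw [h0, map_zero]))
  have hsm : (b : A) • g = Polynomial.C (algebraMap A (FractionRing A) (b : A)) * g := by
    rw [← Polynomial.smul_eq_C_mul, algebraMap_smul]
  rw [hsm] at hb
  have hPm : P.map (algebraMap A (FractionRing A)) =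
      Polynomial.C (algebraMap A (FractionRing A) (b : A)) * g := hb
  have hP : P = Polynomial.C P.content * P.primPart := P.eq_C_content_mul_primPart
  have hg1 : g = Polynomial.C ((algebraMap A (FractionRing A) (b : A))⁻¹ *
      algebraMap A (FractionRing A) P.content) *
        P.primPart.map (algebraMap A (FractionRing A)) := by
    have h1 : Polynomial.C (algebraMap A (FractionRing A) P.content) *
        P.primPart.map (algebraMap A (FractionRing A)) =
          Polynomial.C (algebraMap A (FractionRing A) (b : A)) * g := by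
      rw [← hPm]
      nth_rewrite 3 [hP]
      rw [Polynomial.map_mul, Polynomial.map_C]
    rw [Polynomial.C_mul, mul_assoc, h1, ← mul_assoc, ← Polynomial.C_mul, inv_mul_cancel₀ hb1,
      Polynomial.C_1, one_mul]
  have hprim : P.primPart.IsPrimitive := P.isPrimitive_primPart
  have hdvd : ∀ j, P.primPart ∣ f j := by
    intro j
    refine hprim.dvd_of_fraction_map_dvd_fraction_map (K := FractionRing A) ?_
    refine dvd_trans ?_ (hgdvd j)
    rw [hg1]
    exact dvd_mul_left _ _
  have hu := h _ hdvd
  have hu2 : IsUnit (P.primPart.map (algebraMap A (FractionRing A))) :=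
    (Polynomial.mapRingHom (algebraMap A (FractionRing A))).isUnit_map hu
  have hcoef : (algebraMap A (FractionRing A) (b : A))⁻¹ *
      algebraMap A (FractionRing A) P.content ≠ 0 := by
    intro h0
    rw [h0, Polynomial.C_0, zero_mul] at hg1
    exact hg0 hg1
  have hgu : IsUnit g := by
    rw [hg1]
    exact (Polynomial.isUnit_C.2 (isUnit_iff_ne_zero.2 hcoef)).mul hu2
  obtain ⟨ginv, hginv⟩ := hgu.exists_left_inv
  have hspec : ∀ p : Polynomial (FractionRing A), ∃ (c : A) (q : Polynomial A), c ≠ 0 ∧
      q.map (algebraMap A (FractionRing A)) =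
        Polynomial.C (algebraMap A (FractionRing A) c) * p := by
    intro p
    obtain ⟨c, hcm, hc⟩ := IsLocalization.integerNormalization_spec (nonZeroDivisors A) p
    refine ⟨c, _, nonZeroDivisors.ne_zero hcm, hc.trans ?_⟩
    rw [← Polynomial.smul_eq_C_mul, algebraMap_smul]
  choose c q hc hq using fun j => hspec (ginv * β j)
  refine ⟨fun j => Polynomial.C (∏ i ∈ Finset.univ.erase j, c i) * q j, ∏ i, c i,
    Finset.prod_ne_zero_iff.2 fun i _ => hc i, hφ ?_⟩
  rw [Polynomial.map_C, Polynomial.map_sum]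
  have h2 : ∀ j, (Polynomial.C (∏ i ∈ Finset.univ.erase j, c i) * q j * f j).map
      (algebraMap A (FractionRing A)) =
        Polynomial.C (algebraMap A (FractionRing A) (∏ i, c i)) * ginv *
          (β j * (f j).map (algebraMap A (FractionRing A))) := by
    intro j
    rw [Polynomial.map_mul, Polynomial.map_mul, Polynomial.map_C, hq,
      ← Finset.prod_erase_mul Finset.univ c (Finset.mem_univ j), map_mul, Polynomial.C_mul]
    ring
  rw [Finset.sum_congr rfl fun j _ => h2 j, ← Finset.mul_sum, hβ, mul_assoc, hginv, mul_one]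

end Pool.Agent.DAng
end

section

set_option autoImplicit false

namespace Pool.Agent.DAng

open MvPolynomial

/-- A nonzero element of `CA m` has a nonzero value at some `(a, b)` with `|a| < 1`.
PROOF. `MvPolynomial.funext_set` with the infinite sets `{z | ‖z‖ < 1/(m+1)}` for all variables: if all values on the box vanished, the polynomial
would be `0`. On the box `∑ ‖a i‖² ≤ m/(m+1)² < 1`. -/
theorem B3 {m : ℕ} (r : CA m) (hr : r ≠ 0) :
    ∃ a b : Fin m → ℂ, ∑ i, ‖a i‖ ^ 2 < 1 ∧ evA a b r ≠ 0 := by
  by_contra hcon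
  push Not at hcon
  apply hr
  have hm : (0 : ℝ) < (m : ℝ) + 1 := by positivity
  refine funext_set (fun _ => Metric.ball (0 : ℂ) (1 / ((m : ℝ) + 1)))
    (fun _ => infinite_of_mem_nhds (0 : ℂ) (Metric.ball_mem_nhds _ (by positivity))) (fun x hx => ?_)
  rw [map_zero]
  have hb : ∀ v, ‖x v‖ < 1 / ((m : ℝ) + 1) := by
    intro v
    have h1 := hx v (Set.mem_univ v)
    rwa [Metric.mem_ball, dist_zero_right] at h1
  have h2 : ∑ i, ‖x (Sum.inl i)‖ ^ 2 < 1 := by
    have h3 : ∑ i : Fin m, ‖x (Sum.inl i)‖ ^ 2 ≤ ∑ _i : Fin m, (1 / ((m : ℝ) + 1)) ^ 2 :=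
      Finset.sum_le_sum (fun i _ => pow_le_pow_left₀ (norm_nonneg _) (hb _).le 2)
    rw [Finset.sum_const, Finset.card_univ, Fintype.card_fin, nsmul_eq_mul] at h3
    refine h3.trans_lt ?_
    rw [div_pow, one_pow, mul_one_div, div_lt_one (by positivity)]
    have hm0 : (0 : ℝ) ≤ m := Nat.cast_nonneg m
    nlinarith
  have h4 := hcon (fun i => x (Sum.inl i)) (fun i => x (Sum.inr i)) h2
  unfold evA at h4
  have h5 : Sum.elim (fun i => x (Sum.inl i)) (fun i => x (Sum.inr i)) = x := Sum.elim_comp_inl_inr x
  rw [h5] at h4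
  exact h4

end Pool.Agent.DAng
end

section

set_option autoImplicit false

namespace Pool.Agent.DAng

open MvPolynomial

/-- PROOF. Both sides are ring homomorphisms in `G` (`Polynomial.eval t` after `Polynomial.map`, composed with `phi`),
they agree on constants and on the variables (`Fin.cases`): `MvPolynomial.induction_on` or `MvPolynomial.ringHom_ext`. -/
theorem phi_eval {m : ℕ} (a b : Fin m → ℂ) (t : ℂ) (G : MvPolynomial (Fin (m + 1)) ℂ) :
    ((phi m G).map (evA a b)).eval t = eval (pt a b t) G := by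
  induction G using MvPolynomial.induction_on with
  | C c =>
    have h1 : phi m (C c) = Polynomial.C (C c) := by
      unfold phi
      rw [aeval_C]
      rfl
    rw [h1, Polynomial.map_C, Polynomial.eval_C, eval_C]
    unfold evA
    rw [eval_C]
  | add p q hp hq =>
    rw [map_add, Polynomial.map_add, Polynomial.eval_add, hp, hq, map_add]
  | mul_X p i hp =>
    rw [map_mul, Polynomial.map_mul, Polynomial.eval_mul, hp, map_mul]
    congr 1
    unfold phi
    rw [aeval_X, eval_X]
    refine Fin.cases ?_ (fun k => ?_) i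
    · simp [pt]
    · simp [pt, evA]
      ring

/-- PROOF. `phi` of a monomial is a product of linear factors in `t`, degree at most the total degree; sums. -/
theorem phi_natDegree {m : ℕ} (G : MvPolynomial (Fin (m + 1)) ℂ) :
    (phi m G).natDegree ≤ G.totalDegree := by
  classical
  unfold phi
  rw [aeval_def, eval₂_eq]
  apply Polynomial.natDegree_sum_le_of_forall_le
  intro M hM
  refine (Polynomial.natDegree_C_mul_le _ _).trans ?_
  refine (Polynomial.natDegree_prod_le _ _).trans ?_
  refine (Finset.sum_le_sum (g := fun i => M i) ?_).trans ?_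
  · intro i _
    refine (Polynomial.natDegree_pow_le).trans ?_
    have h1 : ((Fin.cons Polynomial.X
        (fun i : Fin m => Polynomial.C (X (Sum.inl i)) + Polynomial.X * Polynomial.C (X (Sum.inr i))) :
        Fin (m + 1) → Polynomial (CA m)) i).natDegree ≤ 1 := by
      refine Fin.cases ?_ (fun k => ?_) i
      · simp
      · rw [Fin.cons_succ]
        refine (Polynomial.natDegree_add_le _ _).trans ?_
        rw [Polynomial.natDegree_C]
        refine max_le (by norm_num) ?_
        refine (Polynomial.natDegree_mul_le).trans ?_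
        rw [Polynomial.natDegree_X, Polynomial.natDegree_C]
    calc _ ≤ M i * 1 := Nat.mul_le_mul_left _ h1
      _ = M i := mul_one _
  · exact le_totalDegree hM

end Pool.Agent.DAng
end

section

set_option autoImplicit false

namespace Pool.Agent.DAng

open MvPolynomial

theorem H5_aeval {m : ℕ} (a b : Fin m → ℂ) (x : Sg m → ℂ) (f : Fin (m + 1) → CR m)
    (P : MvPolynomial (Fin (m + 1)) ℂ) :
    evR a b x (aeval f P) = eval (fun i => evR a b x (f i)) P := by
  rw [aeval_def, eval₂_comp_left (evR a b x)]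
  have h1 : (evR a b x).comp (algebraMap ℂ (CR m)) = RingHom.id ℂ := by
    ext c
    · rw [RingHom.comp_apply, IsScalarTower.algebraMap_apply ℂ (CA m) (CR m), algebraMap_eq,
        algebraMap_eq, evR, eval₂Hom_C, evA, eval_C, RingHom.id_apply]
  rw [h1]
  rfl

theorem H5_hom {n : ℕ} (P : MvPolynomial (Fin n) ℂ) {e : ℕ} (hP : P.IsHomogeneous e) (c : ℂ)
    (y : Fin n → ℂ) : eval (fun i => c * y i) P = c ^ e * eval y P := by
  rw [eval_eq', eval_eq', Finset.mul_sum]
  refine Finset.sum_congr rfl (fun d hd => ?_)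
  have h1 : ∑ i, d i = e := by
    have h2 := hP (mem_support_iff.1 hd)
    rw [← Finsupp.degree_eq_sum, Finsupp.degree_eq_weight_one]
    exact h2
  have h3 : ∏ i, (c * y i) ^ d i = c ^ e * ∏ i, y i ^ d i := by
    simp only [mul_pow]
    rw [Finset.prod_mul_distrib, Finset.prod_pow_eq_pow_sum, h1]
  rw [h3]
  ring

/-- Values of `gam`: if `w_0 ≠ 0` then `gam(G) = w_0^d * Ḡ(-w/w_0)`; here for `totalDegree G ≤ d`.
PROOF. `evR` is a ring homomorphism over `ℂ`; each homogeneous component `P` of degree `e ≤ d` satisfies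
`P(-w) = w_0^e P(-w/w_0)` (`IsHomogeneous.eval₂`/`MvPolynomial.IsHomogeneous.eval_smul`-type lemma), and the sum of the homogeneous
components of `cj G` up to its total degree is `cj G` (`sum_homogeneousComponent`, components above vanish). -/
theorem gam_eval {m d : ℕ} (G : MvPolynomial (Fin (m + 1)) ℂ) (hG : G.totalDegree ≤ d)
    (a b : Fin m → ℂ) (x : Sg m → ℂ) (h0 : evR a b x (w0 m) ≠ 0) :
    evR a b x (gam m d G) = evR a b x (w0 m) ^ d *
      eval (fun i => - evR a b x (ww m i) / evR a b x (w0 m)) (cj G) := by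
  have hdeg : (cj G).totalDegree ≤ d := by
    refine le_trans ?_ hG
    rw [cj, totalDegree, totalDegree]
    exact Finset.sup_mono (support_map_subset _ _)
  have hsum : ∑ e ∈ Finset.range (d + 1), homogeneousComponent e (cj G) = cj G := by
    conv_rhs => rw [← sum_homogeneousComponent (cj G)]
    symm
    apply Finset.sum_subset
    · intro e he
      rw [Finset.mem_range] at he ⊢
      omega
    · intro e _ he
      apply homogeneousComponent_eq_zero
      rw [Finset.mem_range] at he
      omega
  conv_rhs => rw [← hsum]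
  rw [gam, map_sum, map_sum, Finset.mul_sum]
  refine Finset.sum_congr rfl (fun e he => ?_)
  rw [map_mul, map_pow, H5_aeval]
  have h1 : (fun i => evR a b x (- ww m i))
      = (fun i => evR a b x (w0 m) * (- evR a b x (ww m i) / evR a b x (w0 m))) := by
    funext i
    rw [map_neg, mul_div_cancel₀ _ h0]
  rw [h1, H5_hom _ (homogeneousComponent_isHomogeneous e (cj G)), ← mul_assoc, ← pow_add]
  have h2 : d - e + e = d := by
    rw [Finset.mem_range] at he
    omega
  rw [h2]

end Pool.Agent.DAng
end
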