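import Mathlib
import Pool.Agent.Lib.MP_e3689b_an.Mg.G020
import Pool.Agent.Lib.MP_e3689b_an.Mg.G021

section

set_option autoImplicit false

namespace Pool.Agent.DAng

open MvPolynomial

/-- PROOF. Same computation as `S4_inner` without the last hypothesis. -/
theorem GL02_inner {N : ℕ} {c : Option (Fin N) → ℂ} (hc0 : c none ≠ 0) (hc : S4_B c c = 0)
    {v w : Option (Fin N) → ℂ} (hv : S4_B v c = 0) (hw : S4_B w c = 0) :
    ∑ j, S4_pi c v j * (starRingEnd ℂ) (S4_pi c w j) = -S4_B v w := by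
  have hcw : S4_B c w = 0 := by rw [S4_B_conj, hw, map_zero]
  rw [S4_B_eq v w]
  rw [S4_B_eq] at hc hv hcw
  have hc1 : (starRingEnd ℂ) (c none) ≠ 0 := by
    intro h0
    exact hc0 ((map_eq_zero _).1 h0)
  have e : ∀ j, S4_pi c v j * (starRingEnd ℂ) (S4_pi c w j) =
      v (some j) * (starRingEnd ℂ) (w (some j))
      - (starRingEnd ℂ) (w none) / (starRingEnd ℂ) (c none) *
        (v (some j) * (starRingEnd ℂ) (c (some j)))
      - v none / c none * (c (some j) * (starRingEnd ℂ) (w (some j)))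
      + v none / c none * ((starRingEnd ℂ) (w none) / (starRingEnd ℂ) (c none)) *
        (c (some j) * (starRingEnd ℂ) (c (some j))) := by
    intro j
    rw [S4_pi_apply, S4_pi_apply, map_sub, map_mul, map_div₀]
    ring
  rw [Finset.sum_congr rfl fun j _ => e j, Finset.sum_add_distrib, Finset.sum_sub_distrib,
    Finset.sum_sub_distrib, ← Finset.mul_sum, ← Finset.mul_sum, ← Finset.mul_sum]
  rw [← sub_eq_zero.1 hc, ← sub_eq_zero.1 hv, ← sub_eq_zero.1 hcw]
  field_simp
  ring

/-- PROOF. `S4_pi c v = 0` means `v (some j) = v none / c none * c (some j)`. -/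
theorem GL02_ker {N : ℕ} {c : Option (Fin N) → ℂ} (hc0 : c none ≠ 0)
    (v : Option (Fin N) → ℂ) (h : S4_pi c v = 0) : ∀ j, v j = v none / c none * c j := by
  intro j
  cases j with
  | none => field_simp
  | some j =>
    have h8 : S4_pi c v j = 0 := by
      have h9 := congrArg (fun x : EuclideanSpace ℂ (Fin N) => x j) h
      exact h9
    rw [S4_pi_apply] at h8
    exact sub_eq_zero.1 h8

private theorem GL02_dim {N : ℕ} (c : Option (Fin N) → ℂ) (hc0 : c none ≠ 0) (hc : S4_B c c = 0)
    (S : Submodule ℂ (Option (Fin N) → ℂ)) (hS : ∀ v ∈ S, S4_B v c = 0) :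
    Module.finrank ℂ (S.map (S4_pi c)) + 1 ≤ N := by
  obtain ⟨c', hcd⟩ : ∃ c' : EuclideanSpace ℂ (Fin N), ∀ j, c' j = c (some j) :=
    ⟨WithLp.toLp 2 (fun j => c (some j)), fun _ => rfl⟩
  have hcne : c' ≠ 0 := by
    intro h0
    have h1 : ∀ j, c (some j) = 0 := by
      intro j
      rw [← hcd, h0]
      rfl
    rw [S4_B_eq] at hc
    simp only [h1, zero_mul, Finset.sum_const_zero, sub_zero] at hc
    rcases mul_eq_zero.1 hc with h2 | h2
    · exact hc0 h2
    · exact hc0 ((map_eq_zero _).1 h2)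
  have hle : S.map (S4_pi c) ≤ (Submodule.span ℂ {c'})ᗮ := by
    rintro x ⟨v, hv, rfl⟩
    rw [Submodule.mem_orthogonal_singleton_iff_inner_right, PiLp.inner_apply]
    have h1 := S4_inner_c hc0 hc (hS v hv)
    rw [← h1]
    refine Finset.sum_congr rfl fun j _ => ?_
    rw [RCLike.inner_apply, hcd]
  have h1 := Submodule.finrank_mono hle
  have h2 := Submodule.finrank_add_finrank_orthogonal (Submodule.span ℂ {c'})
  rw [finrank_span_singleton hcne, finrank_euclideanSpace_fin] at h2
  omega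

/-- ORTHONORMAL BASIS OF `S / c`. `E := S.map (S4_pi c)`, a subspace of `EuclideanSpace ℂ (Fin N)`; `M := finrank E`; orthonormal basis `e` of `E` (`stdOrthonormalBasis ℂ E`); choose
`s i ∈ S` with `S4_pi c (s i) = e i`. For `v ∈ S`: `S4_pi c v = ∑_i <e_i, S4_pi c v> e_i` (`OrthonormalBasis.sum_repr'`), and `<e_i, S4_pi c v> = ∑_j S4_pi c v j * conj (S4_pi c (s i) j) = -S4_B v (s i)`
(`GL02_inner`); so `v - ∑_i (-S4_B v (s i)) • s i` is in the kernel of `S4_pi c` (linear), `GL02_ker`.
`M + 1 ≤ N`: the vector `c' = (c (some j))_j` is not zero (`|c none|^2 = ∑ |c (some j)|^2` from `hc`, `S4_B_eq`), and every element of `E` is orthogonal to it (`S4_inner_c`), so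
`E` is contained in the orthogonal complement of `ℂ c'`, a proper subspace (or: `E ⊔ span {c'}` has dimension `M + 1`; compare the end of the proof of `S4`). -/
theorem GL02 {N : ℕ} (c : Option (Fin N) → ℂ) (hc0 : c none ≠ 0) (hc : S4_B c c = 0)
    (S : Submodule ℂ (Option (Fin N) → ℂ)) (hS : ∀ v ∈ S, S4_B v c = 0) :
    ∃ (M : ℕ) (s : Fin M → Option (Fin N) → ℂ), M + 1 ≤ N ∧ (∀ i, s i ∈ S) ∧
      ∀ v ∈ S, ∃ α : ℂ, ∀ j, v j = ∑ i, (-S4_B v (s i)) * s i j + α * c j := by
  have b := stdOrthonormalBasis ℂ (S.map (S4_pi c))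
  have hex : ∀ i, ∃ v, v ∈ S ∧ S4_pi c v = (b i : EuclideanSpace ℂ (Fin N)) := by
    intro i
    obtain ⟨v, hv, hv2⟩ := (b i).2
    exact ⟨v, hv, hv2⟩
  choose s hs hs2 using hex
  refine ⟨_, s, GL02_dim c hc0 hc S hS, hs, ?_⟩
  intro v hv
  have h1 := b.sum_repr' ⟨S4_pi c v, Submodule.mem_map_of_mem hv⟩
  have h2 := congrArg (Subtype.val) h1
  rw [Submodule.coe_sum] at h2
  have h3 : ∀ i, inner ℂ (b i) (⟨S4_pi c v, Submodule.mem_map_of_mem hv⟩ : S.map (S4_pi c)) =
      -S4_B v (s i) := by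
    intro i
    rw [Submodule.coe_inner, PiLp.inner_apply, ← GL02_inner hc0 hc (hS v hv) (hS _ (hs i))]
    refine Finset.sum_congr rfl fun j _ => ?_
    rw [RCLike.inner_apply, hs2]
  have h4 : S4_pi c (v - ∑ i, (-S4_B v (s i)) • s i) = 0 := by
    rw [map_sub, map_sum, sub_eq_zero]
    refine Eq.trans h2.symm ?_
    refine Finset.sum_congr rfl fun i _ => ?_
    rw [h3, map_smul, hs2]
    rfl
  refine ⟨(v - ∑ i, (-S4_B v (s i)) • s i) none / c none, fun j => ?_⟩
  have h5 := GL02_ker hc0 _ h4 j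
  rw [Pi.sub_apply v, sub_eq_iff_eq_add'] at h5
  refine h5.trans ?_
  rw [Finset.sum_apply]
  rfl

/-- PROOF. `v'` is the combination of `hex`; the second argument of `S4_B` is conjugate linear: `S4_B v v' = ∑_i conj(-S4_B v' (s i)) * S4_B v (s i) + conj α * S4_B v c`. -/
theorem GL02_iso {N M : ℕ} (c : Option (Fin N) → ℂ) (s : Fin M → Option (Fin N) → ℂ)
    (v v' : Option (Fin N) → ℂ) (hv : S4_B v c = 0)
    (hex : ∃ α : ℂ, ∀ j, v' j = ∑ i, (-S4_B v' (s i)) * s i j + α * c j) :
    ∑ i, (-S4_B v (s i)) * (starRingEnd ℂ) (-S4_B v' (s i)) = -S4_B v v' := by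
  obtain ⟨α, hα⟩ := hex
  have h1 : S4_B v v' = ∑ i, (starRingEnd ℂ) (-S4_B v' (s i)) * S4_B v (s i) +
      (starRingEnd ℂ) α * S4_B v c := by
    have h2 : S4_B v v' = ∑ j, sg j * (v j * (starRingEnd ℂ)
        (∑ i, (-S4_B v' (s i)) * s i j + α * c j)) := by
      conv_lhs => unfold S4_B
      refine Finset.sum_congr rfl fun j _ => ?_
      rw [hα j]
    rw [h2]
    obtain ⟨a, ha⟩ : ∃ a : Fin M → ℂ, ∀ i, a i = -S4_B v' (s i) := ⟨_, fun _ => rfl⟩
    simp only [← ha]
    unfold S4_B
    simp only [Finset.mul_sum, map_add, map_sum, map_mul, mul_add, Finset.sum_add_distrib]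
    rw [Finset.sum_comm]
    congr 1
    · refine Finset.sum_congr rfl fun i _ => Finset.sum_congr rfl fun j _ => ?_
      ring
    · refine Finset.sum_congr rfl fun j _ => ?_
      ring
  rw [h1, hv, mul_zero, add_zero, ← Finset.sum_neg_distrib]
  refine Finset.sum_congr rfl fun i _ => ?_
  ring

end Pool.Agent.DAng
end

section

set_option autoImplicit false

namespace Pool.Agent.DAng

/-- The coefficient vectors of polynomials are in the span of the vectors of values.
PROOF. Otherwise there is a linear functional `φ` on `J → ℂ` vanishing on the span and not at the coefficient vector `v` (`Submodule.exists_le_ker_of_notMem` or a similar lemma);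
`φ w = ∑ j, w j * φ (Pi.single j 1)`. The polynomial `∑ j, C (φ (Pi.single j 1)) * G j` vanishes at all `t`, so it is `0` (`Polynomial.funext`), and its coefficient `k` is `φ v`. -/
theorem V17 {J : Type} [Fintype J] (G : J → Polynomial ℂ) (k : ℕ) :
    (fun j => (G j).coeff k) ∈
      Submodule.span ℂ (Set.range (fun (t : ℂ) (j : J) => (G j).eval t)) := by
  classical
  by_contra hv
  obtain ⟨φ, hφ, hker⟩ := Submodule.exists_le_ker_of_notMem hv
  have hsum : ∀ w : J → ℂ, φ w = ∑ j, w j * φ (Pi.single j 1) := by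
    intro w
    conv_lhs => rw [pi_eq_sum_univ' w]
    rw [map_sum]
    apply Finset.sum_congr rfl
    intro j _
    rw [map_smul, smul_eq_mul]
  have hzero : ∑ j, Polynomial.C (φ (Pi.single j 1)) * G j = 0 := by
    apply Polynomial.funext
    intro t
    rw [Polynomial.eval_finsetSum, Polynomial.eval_zero]
    have h1 : (fun j => (G j).eval t) ∈ Submodule.span ℂ (Set.range (fun (t : ℂ) (j : J) => (G j).eval t)) :=
      Submodule.subset_span ⟨t, rfl⟩
    have h2 : φ (fun j => (G j).eval t) = 0 := hker h1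
    rw [hsum] at h2
    rw [← h2]
    apply Finset.sum_congr rfl
    intro j _
    rw [Polynomial.eval_mul, Polynomial.eval_C, mul_comm]
  apply hφ
  rw [hsum]
  have := congrArg (fun p => Polynomial.coeff p k) hzero
  simp only [Polynomial.finsetSum_coeff, Polynomial.coeff_C_mul, Polynomial.coeff_zero] at this
  rw [← this]
  apply Finset.sum_congr rfl
  intro j _
  rw [mul_comm]

end Pool.Agent.DAng
end

section

set_option autoImplicit false

/-!
# Growth of sets of monomials (Macaulay), I: binomial numbers and slices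
-/

namespace Pool.Agent.DAng

/-- the number of monomials of degree `i` in `m + 1` variables -/
def pc (m i : ℕ) : ℤ := ((m + i).choose i : ℕ)

theorem pc_zero (m : ℕ) : pc m 0 = 1 := by simp [pc]

theorem pc_zero_left (i : ℕ) : pc 0 i = 1 := by simp [pc]

theorem pc_one_left (i : ℕ) : pc 1 i = i + 1 := by
  unfold pc
  rw [Nat.choose_symm_of_eq_add (a := i) (b := 1) (by omega), Nat.choose_one_right]
  push_cast
  ring

theorem pc_pos (m i : ℕ) : 0 < pc m i := by
  unfold pc
  exact_mod_cast Nat.choose_pos (by omega)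

theorem pc_pascal (m i : ℕ) : pc (m + 1) (i + 1) = pc (m + 1) i + pc m (i + 1) := by
  unfold pc
  have h1 : m + 1 + (i + 1) = (m + 1 + i) + 1 := by ring
  have h2 : m + (i + 1) = m + 1 + i := by ring
  rw [h1, h2, Nat.choose_succ_succ]
  push_cast
  ring

theorem pc_mul (m i : ℕ) : ((i : ℤ) + 1) * pc m (i + 1) = (m + 1) * pc (m + 1) i := by
  unfold pc
  have h1 : (m + (i + 1)).choose (i + 1) * (i + 1) = (m + i + 1) * (m + i).choose i := by
    rw [show m + (i + 1) = m + i + 1 by ring]
    exact (Nat.add_one_mul_choose_eq (m + i) i).symm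
  have h2 : (m + i).choose i * (m + i + 1) = (m + 1 + i).choose i * (m + 1) := by
    have h3 := Nat.choose_mul_succ_eq (m + i) i
    rw [show m + i + 1 - i = m + 1 by omega] at h3
    rw [show m + 1 + i = m + i + 1 by ring]
    exact h3
  have h4 : ((i + 1 : ℕ) : ℤ) * ((m + (i + 1)).choose (i + 1) : ℕ) =
      ((m + 1 : ℕ) : ℤ) * ((m + 1 + i).choose i : ℕ) := by
    have h5 : (i + 1) * (m + (i + 1)).choose (i + 1) = (m + 1) * (m + 1 + i).choose i := by
      calc (i + 1) * (m + (i + 1)).choose (i + 1) = (m + (i + 1)).choose (i + 1) * (i + 1) := by ring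
        _ = (m + i + 1) * (m + i).choose i := h1
        _ = (m + i).choose i * (m + i + 1) := by ring
        _ = (m + 1 + i).choose i * (m + 1) := h2
        _ = _ := by ring
    exact_mod_cast h5
  push_cast at h4 ⊢
  exact h4

theorem pc_mono_right (m i : ℕ) : pc m i ≤ pc m (i + 1) := by
  cases m with
  | zero => rw [pc_zero_left, pc_zero_left]
  | succ m =>
    rw [pc_pascal]
    have := pc_pos m (i + 1)
    omega

theorem pc_mono (m : ℕ) {i j : ℕ} (h : i ≤ j) : pc m i ≤ pc m j := by
  induction j, h using Nat.le_induction with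
  | base => exact le_refl _
  | succ j _ ih => exact ih.trans (pc_mono_right m j)

theorem pc_mono_left (m i : ℕ) : pc m i ≤ pc (m + 1) i := by
  cases i with
  | zero => rw [pc_zero, pc_zero]
  | succ i =>
    rw [pc_pascal]
    have := pc_pos (m + 1) i
    omega

theorem pc_ge (m i : ℕ) : (i : ℤ) + 1 ≤ pc (m + 1) i := by
  induction i with
  | zero => rw [pc_zero]; simp
  | succ i ih =>
    rw [pc_pascal]
    have := pc_pos m (i + 1)
    push_cast
    omega

theorem mem_bdT {σ : Type*} (T : Finset σ) (S : Finset (σ →₀ ℕ)) (x : σ →₀ ℕ) :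
    x ∈ bdT T S ↔ ∃ s ∈ T, ∃ M ∈ S, M + Finsupp.single s 1 = x := by
  classical
  unfold bdT
  simp only [Finset.mem_biUnion, Finset.mem_image]

theorem bdT_mono {σ : Type*} {T T' : Finset σ} {S S' : Finset (σ →₀ ℕ)} (hT : T ⊆ T')
    (hS : S ⊆ S') : bdT T S ⊆ bdT T' S' := by
  intro x hx
  rw [mem_bdT] at hx ⊢
  obtain ⟨s, hs, M, hM, rfl⟩ := hx
  exact ⟨s, hT hs, M, hS hM, rfl⟩

theorem card_le_bdT {σ : Type*} (T : Finset σ) (hT : T.Nonempty) (S : Finset (σ →₀ ℕ)) :
    S.card ≤ (bdT T S).card := by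
  classical
  obtain ⟨s, hs⟩ := hT
  refine Finset.card_le_card_of_injOn (fun M => M + Finsupp.single s 1) ?_ ?_
  · intro M hM
    exact (mem_bdT T S _).2 ⟨s, hs, M, hM, rfl⟩
  · intro M _ M' _ h
    exact add_right_cancel h

theorem bdT_nonempty {σ : Type*} (T : Finset σ) (hT : T.Nonempty) (S : Finset (σ →₀ ℕ))
    (hS : S.Nonempty) : 1 ≤ (bdT T S).card :=
  (Finset.card_pos.2 hS).trans_le (card_le_bdT T hT S)

/-- The slice with the smallest exponent of the variable `s`. -/
theorem G1_slice {σ : Type*} [DecidableEq σ] (T : Finset σ) (s : σ) (hs : s ∉ T)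
    (S : Finset (σ →₀ ℕ)) (hS : S.Nonempty) :
    ∃ S0 S' : Finset (σ →₀ ℕ), S0.Nonempty ∧ S0.card + S'.card = S.card ∧
      (bdT T S0).card + S.card ≤ (bdT (insert s T) S).card ∧
      (bdT T S0).card + (bdT (insert s T) S').card ≤ (bdT (insert s T) S).card := by
  classical
  obtain ⟨M0, hM0, hmin⟩ := Finset.exists_min_image S (fun M => M s) hS
  have hS0 : ∀ x ∈ bdT T (S.filter fun M => M s = M0 s), x s = M0 s := by
    intro x hx
    obtain ⟨t, ht, M, hM, rfl⟩ := (mem_bdT _ _ _).1 hx
    have hts : t ≠ s := fun h => hs (h ▸ ht)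
    rw [Finsupp.add_apply, Finsupp.single_eq_of_ne hts.symm, add_zero]
    exact (Finset.mem_filter.1 hM).2
  have hsub0 : bdT T (S.filter fun M => M s = M0 s) ⊆ bdT (insert s T) S :=
    bdT_mono (Finset.subset_insert s T) (Finset.filter_subset _ _)
  refine ⟨S.filter fun M => M s = M0 s, S.filter fun M => ¬ (M s = M0 s), ?_, ?_, ?_, ?_⟩
  · exact ⟨M0, Finset.mem_filter.2 ⟨hM0, rfl⟩⟩
  · exact Finset.card_filter_add_card_filter_not _
  · have hinj : (S.image fun M => M + Finsupp.single s 1).card = S.card :=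
      Finset.card_image_of_injective _ fun M M' h => add_right_cancel h
    rw [← hinj, ← Finset.card_union_of_disjoint]
    · refine Finset.card_le_card (Finset.union_subset hsub0 ?_)
      intro x hx
      obtain ⟨M, hM, rfl⟩ := Finset.mem_image.1 hx
      exact (mem_bdT _ _ _).2 ⟨s, Finset.mem_insert_self s T, M, hM, rfl⟩
    · rw [Finset.disjoint_left]
      intro x hx hx'
      obtain ⟨M, hM, rfl⟩ := Finset.mem_image.1 hx'
      have h1 := hS0 _ hx
      have h2 := hmin M hM
      rw [Finsupp.add_apply, Finsupp.single_eq_same] at h1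
      omega
  · rw [← Finset.card_union_of_disjoint]
    · exact Finset.card_le_card (Finset.union_subset hsub0
        (bdT_mono (Finset.Subset.refl _) (Finset.filter_subset _ _)))
    · rw [Finset.disjoint_left]
      intro x hx hx'
      obtain ⟨t, ht, M, hM, rfl⟩ := (mem_bdT _ _ _).1 hx'
      have h1 := hS0 _ hx
      have h2 := hmin M (Finset.mem_filter.1 hM).1
      have h3 := (Finset.mem_filter.1 hM).2
      rw [Finsupp.add_apply] at h1
      omega

end Pool.Agent.DAng
end
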