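import Pool.Agent.Lib.MP_e3689b_an.Mg.G015
import Pool.Agent.Lib.MP_e3689b_an.Mg.G021

section

set_option autoImplicit false

namespace Pool.Agent.DAng

open MvPolynomial

theorem C6_coeff {σ A : Type*} [CommRing A] (s : σ) (H : MvPolynomial σ A) (M : σ →₀ ℕ) :
    coeff M (X s * pderiv s H) = (M s : A) * coeff M H := by
  classical
  induction H using MvPolynomial.induction_on' with
  | monomial m r =>
    rw [X_mul_pderiv_monomial, coeff_smul, coeff_monomial]
    split_ifs with h
    · rw [h, nsmul_eq_mul]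
    · rw [smul_zero, mul_zero]
  | add p q hp hq =>
    rw [map_add, mul_add, coeff_add, coeff_add, hp, hq, mul_add]

theorem C6_aux {σ A : Type*} [CommRing A] [IsDomain A] [Algebra ℂ A] (s0 s1 : σ)
    (H : MvPolynomial σ A) (M : σ →₀ ℕ) :
    coeff M (2 * H + X s0 * pderiv s0 H + X s1 * pderiv s1 H) =
      ((2 + M s0 + M s1 : ℕ) : A) * coeff M H := by
  have h2 : (2 : MvPolynomial σ A) * H = H + H := two_mul H
  rw [coeff_add, coeff_add, C6_coeff, C6_coeff, h2, coeff_add]
  push_cast
  ring

theorem C6_cmap {σ A : Type*} [CommRing A] [Algebra ℂ A] (mo : MonomialOrder σ)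
    (α : Derivation ℂ A A) (H : MvPolynomial σ A) :
    mo.toSyn (mo.degree (cmap α H)) ≤ mo.toSyn (mo.degree H) := by
  rw [mo.degree_le_iff]
  intro b hb
  apply mo.le_degree
  rw [mem_support_iff, coeff_cmap _ (map_zero α)] at hb
  rw [mem_support_iff]
  intro h
  apply hb
  rw [h, map_zero]

theorem C6_small {σ A : Type*} [CommRing A] [IsDomain A] [Algebra ℂ A] (mo : MonomialOrder σ)
    (α : Derivation ℂ A A) (i s : σ)
    (ho : mo.toSyn (Finsupp.single s 1) < mo.toSyn (Finsupp.single i 1))
    (H : MvPolynomial σ A) :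
    mo.toSyn (mo.degree (X s * cmap α H)) <
      mo.toSyn (Finsupp.single i 1 + mo.degree H) := by
  refine lt_of_le_of_lt mo.degree_mul_le ?_
  rw [mo.degree_X, map_add, map_add]
  exact add_lt_add_of_lt_of_le ho (C6_cmap mo α H)

/-- Leading monomial of `2 X_i H + X_0 D_a H + X_1 D_b H` when `X_i` is larger than `X_0` and `X_1`.
PROOF. By definition of `Dt` the element is
`X_i (2 H + X_0 ∂_0 H + X_1 ∂_1 H) + X_0 cmap α H + X_1 cmap β H`. Let `M = mo.degree H`, `c = leadingCoeff ≠ 0`. The coefficient of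
`X_0 ∂_0 H` at `M'` is `M'(s0) * coeff M' H` (`coeff_X_mul..`, or `pderiv_monomial`), so `E := 2H + X_0∂_0H + X_1∂_1H` has support in the
support of `H` and coefficient `(2 + M(s0) + M(s1)) c ≠ 0` at `M` (`A` has characteristic `0` since it is a nontrivial
`ℂ`-algebra), hence `mo.degree E = M` and `mo.degree (X_i E) = M + single i 1`. The supports of `cmap α H`, `cmap β H`
are contained in the support of `H`, so `X_0 cmap α H` has degree `≼ M + single s0 1 ≺ M + single i 1` (or it is zero), the
same for `X_1`. Conclude with `degree_add_of_lt` (careful when the smaller terms are zero: `mo.degree 0 = 0`;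
it is simplest to show directly that the coefficient at `M + single i 1` is nonzero and that every monomial in the
support is `≼ M + single i 1`, then use antisymmetry with `le_degree` / `degree_le_iff`). -/
theorem C6 {σ A : Type*} [CommRing A] [IsDomain A] [Algebra ℂ A] (mo : MonomialOrder σ)
    (α β : Derivation ℂ A A) (i s0 s1 : σ) (h01 : s0 ≠ s1) (hi0 : i ≠ s0) (hi1 : i ≠ s1)
    (ho0 : mo.toSyn (Finsupp.single s0 1) < mo.toSyn (Finsupp.single i 1))
    (ho1 : mo.toSyn (Finsupp.single s1 1) < mo.toSyn (Finsupp.single i 1))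
    (H : MvPolynomial σ A) (hH : H ≠ 0) :
    2 * X i * H + X s0 * Dt α i s0 H + X s1 * Dt β i s1 H ≠ 0 ∧
    mo.degree (2 * X i * H + X s0 * Dt α i s0 H + X s1 * Dt β i s1 H) =
      mo.degree H + Finsupp.single i 1 := by
  classical
  obtain ⟨E, hE⟩ : ∃ E, E = 2 * H + X s0 * pderiv s0 H + X s1 * pderiv s1 H := ⟨_, rfl⟩
  obtain ⟨G, hG⟩ : ∃ G, G = X s0 * cmap α H + X s1 * cmap β H := ⟨_, rfl⟩
  have hT : 2 * X i * H + X s0 * Dt α i s0 H + X s1 * Dt β i s1 H = X i * E + G := by
    rw [hE, hG]
    unfold Dt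
    ring
  have : CharZero A := charZero_of_injective_algebraMap (algebraMap ℂ A).injective
  have hEc : ∀ M, coeff M E = ((2 + M s0 + M s1 : ℕ) : A) * coeff M H := by
    intro M
    rw [hE, C6_aux]
  have hEc0 : ∀ M, coeff M E = 0 ↔ coeff M H = 0 := by
    intro M
    rw [hEc M, mul_eq_zero]
    constructor
    · rintro (h | h)
      · exfalso
        have h1 : (2 + M s0 + M s1 : ℕ) = 0 := by exact_mod_cast h
        omega
      · exact h
    · exact fun h => Or.inr h
  have hsupp : E.support = H.support := by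
    ext M
    rw [mem_support_iff, mem_support_iff, not_iff_not]
    exact hEc0 M
  have hEdeg : mo.degree E = mo.degree H := by
    unfold MonomialOrder.degree
    rw [hsupp]
  have hE0 : E ≠ 0 := by
    intro h
    apply hH
    rw [← support_eq_empty, ← hsupp, h, support_zero]
  have hX0 : (X i : MvPolynomial σ A) ≠ 0 := X_ne_zero i
  have hXE : mo.degree (X i * E) = Finsupp.single i 1 + mo.degree H := by
    rw [mo.degree_mul hX0 hE0, mo.degree_X, hEdeg]
  have hlt : mo.toSyn (mo.degree G) < mo.toSyn (mo.degree (X i * E)) := by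
    rw [hXE, hG]
    refine lt_of_le_of_lt mo.degree_add_le ?_
    exact max_lt (C6_small mo α i s0 ho0 H) (C6_small mo β i s1 ho1 H)
  rw [hT]
  constructor
  · have h1 := mo.leadingCoeff_add_of_lt hlt
    intro h
    rw [h, mo.leadingCoeff_zero] at h1
    exact mo.leadingCoeff_ne_zero_iff.mpr (mul_ne_zero hX0 hE0) h1.symm
  · rw [mo.degree_add_of_lt hlt, hXE, add_comm]

end Pool.Agent.DAng
end

section

set_option autoImplicit false

namespace Pool.Agent.DAng

open MvPolynomial

/-- the submodule of the relations -/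
private noncomputable def C7_V {σ A : Type*} [CommRing A] (s0 s1 : σ) (d : ℕ)
    (u : ℕ → MvPolynomial σ A) : Submodule A (MvPolynomial σ A) where
  carrier := {H | ∃ θ : ℕ → A, ∑ k ∈ Finset.range d, C (θ k) * u k = X s1 * H ∧
    ∑ k ∈ Finset.range d, C (θ (k + 1)) * u k = -(X s0 * H)}
  add_mem' := by
    rintro H H' ⟨θ, h1, h2⟩ ⟨θ', h1', h2'⟩
    refine ⟨fun k => θ k + θ' k, ?_, ?_⟩
    · simp only [map_add, add_mul, Finset.sum_add_distrib, h1, h1', mul_add]
    · simp only [map_add, add_mul, Finset.sum_add_distrib, h2, h2', mul_add]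
      ring
  zero_mem' := ⟨fun _ => 0, by simp, by simp⟩
  smul_mem' := by
    rintro c H ⟨θ, h1, h2⟩
    refine ⟨fun k => c * θ k, ?_, ?_⟩
    · simp only [map_mul, mul_assoc, ← Finset.mul_sum, h1, smul_eq_C_mul]
      ring
    · simp only [map_mul, mul_assoc, ← Finset.mul_sum, h2, smul_eq_C_mul]
      ring

private theorem C7_mem {σ A : Type*} [CommRing A] (d : ℕ) (u : ℕ → MvPolynomial σ A)
    (θ : ℕ → A) : ∑ k ∈ Finset.range d, C (θ k) * u k ∈
      Submodule.span A (Set.range (fun k : Fin d => u k)) := by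
  refine Submodule.sum_mem _ fun k hk => ?_
  rw [← smul_eq_C_mul]
  exact Submodule.smul_mem _ _ (Submodule.subset_span ⟨⟨k, Finset.mem_range.1 hk⟩, rfl⟩)

private theorem C7_zero {σ A : Type*} [CommRing A] (d : ℕ) (u : ℕ → MvPolynomial σ A)
    (hli : LinearIndependent A (fun k : Fin d => u k)) (θ : ℕ → A)
    (h : ∑ k ∈ Finset.range d, C (θ k) * u k = 0) : ∀ k, k < d → θ k = 0 := by
  intro k hk
  have h1 : ∑ j : Fin d, θ j • u j = 0 := by
    rw [← h, Finset.sum_range]
    exact Finset.sum_congr rfl fun j _ => smul_eq_C_mul _ _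
  exact Fintype.linearIndependent_iff.1 hli (fun j => θ j) h1 ⟨k, hk⟩

/-- THE ALGEBRAIC CORE.
PROOF. Let `U = span (u_0..u_{d-1})` and let `V` be the submodule of all `H` such that there is `θ : ℕ → A` with
`∑_{k<d} C (θ k) * u k = X s1 * H` and `∑_{k<d} C (θ (k+1)) * u k = -(X s0 * H)` (closed under sums and scalars).
Put `T = {mo.degree H | H ∈ V, H ≠ 0}`. For `M ∈ T` and every `s : σ` the monomial `M + single s 1` is the degree of a nonzero
element of `U`: for `s = s1`: `X s1 * H ∈ U`; `s = s0`: `X s0 * H ∈ U` (`MonomialOrder.degree_mul`, `degree_X`); otherwise `C5` and `C6`.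
By `C1`, every finite set of such monomials has at most `d` elements; in particular `T` is finite (the map
`M ↦ M + single s0 1` is injective) and for `S = T.toFinset` we get `(bd S).card ≤ d`.
For each `l` let `a = ∑_{k<d} C (θ l k) * u k`, `b = ∑_{k<d} C (θ l (k+1)) * u k`; `hrel` and `C3` (`s = s0`, `t = s1`) give `h l` with `a = X s1 * h l`,
`b = -(X s0 * h l)`, so `h l ∈ V`. The `h l` are linearly independent: if `∑ c_l h_l = 0` then
`∑_k (∑_l c_l θ_l(k)) u_k = 0` and `∑_k (∑_l c_l θ_l(k+1)) u_k = 0` (sums over `k < d`), so by `hli` `∑_l c_l θ_l(k) = 0` for all `k ≤ d`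
(`d ≥ 1`), and for `k > d` by `hθd`; so `c = 0` by `hθ`. By `C2` `r ≤ S.card`. -/
theorem C7 {σ A : Type*} [Fintype σ] [CommRing A] [IsDomain A] [Algebra ℂ A]
    (mo : MonomialOrder σ) (s0 s1 : σ) (h01 : s0 ≠ s1)
    (ho : ∀ i, i ≠ s0 → i ≠ s1 → mo.toSyn (Finsupp.single s0 1) < mo.toSyn (Finsupp.single i 1) ∧
      mo.toSyn (Finsupp.single s1 1) < mo.toSyn (Finsupp.single i 1))
    (α β : σ → Derivation ℂ A A) (d : ℕ) (hd : 0 < d)
    (u : ℕ → MvPolynomial σ A) (hud : ∀ k, d ≤ k → u k = 0)
    (hli : LinearIndependent A (fun k : Fin d => u k))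
    (hD0 : ∀ i, i ≠ s0 → i ≠ s1 → Dt (β i) i s1 (u 0) = 0)
    (hD : ∀ i, i ≠ s0 → i ≠ s1 → ∀ k, Dt (β i) i s1 (u (k + 1)) = Dt (α i) i s0 (u k))
    (r : ℕ) (θ : Fin r → ℕ → A) (hθd : ∀ l k, d < k → θ l k = 0) (hθ : LinearIndependent A θ)
    (hrel : ∀ l, X s0 * (∑ k ∈ Finset.range d, C (θ l k) * u k) +
      X s1 * (∑ k ∈ Finset.range d, C (θ l (k + 1)) * u k) = 0) :
    ∃ S : Finset (σ →₀ ℕ), r ≤ S.card ∧ (bd S).card ≤ d := by
  have key : ∀ H ∈ C7_V s0 s1 d u, H ≠ 0 → ∀ s, ∃ P ∈ Submodule.span A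
      (Set.range (fun k : Fin d => u k)), P ≠ 0 ∧ mo.degree P = mo.degree H + Finsupp.single s 1 := by
    rintro H ⟨θ', h1, h2⟩ hH s
    by_cases hs1 : s = s1
    · subst hs1
      refine ⟨X s * H, ?_, mul_ne_zero (X_ne_zero s) hH, ?_⟩
      · rw [← h1]
        exact C7_mem d u θ'
      · rw [mo.degree_mul (X_ne_zero s) hH, mo.degree_X, add_comm]
    by_cases hs0 : s = s0
    · subst hs0
      refine ⟨X s * H, ?_, mul_ne_zero (X_ne_zero s) hH, ?_⟩
      · have h3 : X s * H = -(∑ k ∈ Finset.range d, C (θ' (k + 1)) * u k) := by rw [h2, neg_neg]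
        rw [h3]
        exact Submodule.neg_mem _ (C7_mem d u fun k => θ' (k + 1))
      · rw [mo.degree_mul (X_ne_zero s) hH, mo.degree_X, add_comm]
    · have h5 := C5 (α s) (β s) s s0 s1 h01 hs0 hs1 d u hud (hD0 s hs0 hs1) (hD s hs0 hs1) θ' H h1 h2
      have h6 := C6 mo (α s) (β s) s s0 s1 h01 hs0 hs1 (ho s hs0 hs1).1 (ho s hs0 hs1).2 H hH
      refine ⟨_, ?_, h6.1, h6.2⟩
      rw [h5]
      exact C7_mem d u fun k => (β s) (θ' k) - (α s) (θ' (k + 1))
  have hT : ∀ S : Finset (σ →₀ ℕ),
      (∀ M ∈ S, ∃ H ∈ C7_V s0 s1 d u, H ≠ 0 ∧ mo.degree H = M) → (bd S).card ≤ d := by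
    intro S hS
    refine C1 mo d (fun k : Fin d => u k) (bd S) fun M' hM' => ?_
    simp only [bd, bdT, Finset.mem_biUnion, Finset.mem_image] at hM'
    obtain ⟨s, _, M, hM, rfl⟩ := hM'
    obtain ⟨H, hHV, hH, rfl⟩ := hS M hM
    exact key H hHV hH s
  have hle : ∀ S : Finset (σ →₀ ℕ), S.card ≤ (bd S).card := by
    intro S
    refine Finset.card_le_card_of_injOn (fun M => M + Finsupp.single s0 1) ?_ ?_
    · intro M hM
      simp only [bd, bdT, Finset.coe_biUnion, Set.mem_iUnion, Finset.coe_image, Set.mem_image]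
      exact ⟨s0, Finset.mem_coe.2 (Finset.mem_univ s0), M, hM, rfl⟩
    · intro M _ M' _ h
      exact add_right_cancel h
  have hfin : {M : σ →₀ ℕ | ∃ H ∈ C7_V s0 s1 d u, H ≠ 0 ∧ mo.degree H = M}.Finite := by
    by_contra hinf
    obtain ⟨S, hSsub, hScard⟩ := Set.Infinite.exists_subset_card_eq hinf (d + 1)
    have h1 := hT S fun M hM => hSsub hM
    have h2 := hle S
    omega
  refine ⟨hfin.toFinset, ?_, hT _ fun M hM => by simpa using hM⟩
  have hex : ∀ l, ∃ H : MvPolynomial σ A,
      (∑ k ∈ Finset.range d, C (θ l k) * u k) = X s1 * H ∧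
      (∑ k ∈ Finset.range d, C (θ l (k + 1)) * u k) = -(X s0 * H) := fun l =>
    C3 s0 s1 h01 _ _ (hrel l)
  choose h hh1 hh2 using hex
  refine C2 mo r (C7_V s0 s1 d u) h ?_ (fun l => ⟨θ l, hh1 l, hh2 l⟩) _ ?_
  · rw [Fintype.linearIndependent_iff]
    intro c hc
    have hc' : ∑ l, C (c l) * h l = 0 := by
      rw [← hc]
      exact Finset.sum_congr rfl fun l _ => (smul_eq_C_mul _ _).symm
    have e1 : ∑ k ∈ Finset.range d, C (∑ l, c l * θ l k) * u k = 0 := by
      have : ∑ k ∈ Finset.range d, C (∑ l, c l * θ l k) * u k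
          = ∑ l, C (c l) * ∑ k ∈ Finset.range d, C (θ l k) * u k := by
        simp only [map_sum, map_mul, Finset.sum_mul, Finset.mul_sum, mul_assoc]
        rw [Finset.sum_comm]
      rw [this]
      simp only [hh1]
      have h3 : ∑ l, C (c l) * (X s1 * h l) = X s1 * ∑ l, C (c l) * h l := by
        rw [Finset.mul_sum]
        exact Finset.sum_congr rfl fun l _ => by ring
      rw [h3, hc', mul_zero]
    have e2 : ∑ k ∈ Finset.range d, C (∑ l, c l * θ l (k + 1)) * u k = 0 := by
      have : ∑ k ∈ Finset.range d, C (∑ l, c l * θ l (k + 1)) * u k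
          = ∑ l, C (c l) * ∑ k ∈ Finset.range d, C (θ l (k + 1)) * u k := by
        simp only [map_sum, map_mul, Finset.sum_mul, Finset.mul_sum, mul_assoc]
        rw [Finset.sum_comm]
      rw [this]
      simp only [hh2]
      have h3 : ∑ l, C (c l) * (-(X s0 * h l)) = -(X s0 * ∑ l, C (c l) * h l) := by
        rw [Finset.mul_sum, ← Finset.sum_neg_distrib]
        exact Finset.sum_congr rfl fun l _ => by ring
      rw [h3, hc', mul_zero, neg_zero]
    have z1 := C7_zero d u hli (fun k => ∑ l, c l * θ l k) e1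
    have z2 := C7_zero d u hli (fun k => ∑ l, c l * θ l (k + 1)) e2
    have z : ∑ l, c l • θ l = 0 := by
      funext k
      rw [Finset.sum_apply]
      simp only [Pi.smul_apply, smul_eq_mul, Pi.zero_apply]
      rcases Nat.eq_zero_or_pos k with hk | hk
      · subst hk
        exact z1 0 hd
      · by_cases hkd : k ≤ d
        · have := z2 (k - 1) (by omega)
          simp only [Nat.sub_add_cancel hk] at this
          exact this
        · refine Finset.sum_eq_zero fun l _ => ?_
          rw [hθd l k (by omega), mul_zero]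
    exact Fintype.linearIndependent_iff.1 hθ c z
  · intro P hP hP0
    rw [Set.Finite.mem_toFinset]
    exact ⟨P, hP, hP0, rfl⟩

end Pool.Agent.DAng
end

section

set_option autoImplicit false

namespace Pool.Agent.DAng

open MvPolynomial

/-- restriction to the line `t ↦ x + t y` -/
noncomputable def lin {n : ℕ} (x y : Fin n → ℂ) (G : MvPolynomial (Fin n) ℂ) : Polynomial ℂ :=
  aeval (fun i => Polynomial.C (x i) + Polynomial.X * Polynomial.C (y i)) G

/-- PROOF. ring homomorphisms agreeing on generators. -/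
theorem lin_eval {n : ℕ} (x y : Fin n → ℂ) (G : MvPolynomial (Fin n) ℂ) (t : ℂ) :
    (lin x y G).eval t = eval (fun i => x i + t * y i) G := by
  unfold lin
  induction G using MvPolynomial.induction_on with
  | C a => simp
  | add p q hp hq => rw [map_add, Polynomial.eval_add, hp, hq, map_add]
  | mul_X p i hp =>
    rw [map_mul, Polynomial.eval_mul, hp, map_mul, aeval_X, eval_X, Polynomial.eval_add,
      Polynomial.eval_mul, Polynomial.eval_C, Polynomial.eval_C, Polynomial.eval_X]

/-- The coefficients of `lin x y G` are polynomials in `(x, y)`.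
PROOF. `Q := (aeval (fun i => Polynomial.C (X (inl i)) + Polynomial.X * Polynomial.C (X (inr i))) G).coeff k`
(in `Polynomial (MvPolynomial (Fin n ⊕ Fin n) ℂ)`); evaluation commutes with taking coefficients (`Polynomial.coeff_map`), ring homomorphisms
agree on generators. -/
theorem lin_coeff {n : ℕ} (G : MvPolynomial (Fin n) ℂ) (k : ℕ) :
    ∃ Q : MvPolynomial (Fin n ⊕ Fin n) ℂ, ∀ x y : Fin n → ℂ,
      eval (Sum.elim x y) Q = (lin x y G).coeff k := by
  let P : Polynomial (MvPolynomial (Fin n ⊕ Fin n) ℂ) :=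
    aeval (fun i : Fin n => (Polynomial.C (X (Sum.inl i)) + Polynomial.X * Polynomial.C (X (Sum.inr i)) :
      Polynomial (MvPolynomial (Fin n ⊕ Fin n) ℂ))) G
  refine ⟨P.coeff k, fun x y => ?_⟩
  have h : Polynomial.map (eval (Sum.elim x y)) P = lin x y G := by
    unfold lin
    simp only [P]
    induction G using MvPolynomial.induction_on with
    | C a =>
      simp only [MvPolynomial.algHom_C, Polynomial.algebraMap_apply, Polynomial.map_C]
      simp
    | add p q hp hq => simp only [map_add, Polynomial.map_add, hp, hq]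
    | mul_X p i hp =>
      simp only [map_mul, Polynomial.map_mul, hp, aeval_X]
      simp
  rw [← h, Polynomial.coeff_map]

/-- The chart line. PROOF. `pt a b t = x + t y` with `x = (0, a)`, `y = (1, b)`; compare `phi` mapped by `evA a b` with `lin`
(ring homomorphisms agreeing on generators) and take coefficients. -/
theorem lin_phi {m : ℕ} (a b : Fin m → ℂ) (G : MvPolynomial (Fin (m + 1)) ℂ) (k : ℕ) :
    (lin (Fin.cons 0 a : Fin (m + 1) → ℂ) (Fin.cons 1 b) G).coeff k = evA a b ((phi m G).coeff k) := by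
  have h : Polynomial.map (evA a b) (phi m G) =
      lin (Fin.cons 0 a : Fin (m + 1) → ℂ) (Fin.cons 1 b) G := by
    unfold lin phi evA
    induction G using MvPolynomial.induction_on with
    | C c =>
      simp only [MvPolynomial.algHom_C, Polynomial.algebraMap_apply, Polynomial.map_C]
      simp
    | add p q hp hq => simp only [map_add, Polynomial.map_add, hp, hq]
    | mul_X p i hp =>
      simp only [map_mul, Polynomial.map_mul, hp, aeval_X]
      congr 1
      refine Fin.cases ?_ (fun j => ?_) i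
      · simp
      · simp
  rw [← h, Polynomial.coeff_map]

end Pool.Agent.DAng
end

section

set_option autoImplicit false

namespace Pool.Agent.DAng

open MvPolynomial

theorem S3_evcj {n : ℕ} (z : Fin n → ℂ) (G : MvPolynomial (Fin n) ℂ) :
    eval (fun i => (starRingEnd ℂ) (z i)) (cj G) = (starRingEnd ℂ) (eval z G) := by
  unfold cj
  induction G using MvPolynomial.induction_on with
  | C a => simp
  | add p q hp hq => simp [hp, hq]
  | mul_X p i hp => simp [hp]

/-- If `∑_i x_i conj(x'_i) = 1`-type pairing is constant on two lines then the coefficient vectors are orthogonal.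
Hypothesis: `⟨x + s y, x' + t y'⟩ = 1` for all `s, t`.
PROOF. `Quad` for `z = x + s y` and `w = conj (x' + t y')` gives `∑_j sg j (lin x y F_j)(s) conj((lin x' y' F_j)(t)) = 0` for all `s, t`
(`eval (conj z) (cj G) = conj (eval z G)`, `lin_eval`). Fix `t`: a polynomial in `s` vanishing everywhere, so each coefficient
`∑_j sg j (lin x y F_j).coeff k * conj((lin x' y' F_j)(t)) = 0` for all `t`; conjugating, a polynomial in `t` vanishing everywhere, so all its coefficients vanish. -/
theorem S3 {n N : ℕ} (F : Option (Fin N) → MvPolynomial (Fin n) ℂ) (hQ : Quad F)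
    (x y x' y' : Fin n → ℂ)
    (h : ∀ s t : ℂ, ∑ i, (x i + s * y i) * (starRingEnd ℂ) (x' i + t * y' i) = 1) (k l : ℕ) :
    ∑ j, sg j * ((lin x y (F j)).coeff k * (starRingEnd ℂ) ((lin x' y' (F j)).coeff l)) = 0 := by
  have h1 : ∀ s t : ℂ, ∑ j, sg j * ((lin x y (F j)).eval s *
      (starRingEnd ℂ) ((lin x' y' (F j)).eval t)) = 0 := by
    intro s t
    have h2 := hQ (fun i => x i + s * y i) (fun i => (starRingEnd ℂ) (x' i + t * y' i)) (h s t)
    rw [← h2]
    apply Finset.sum_congr rfl
    intro j _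
    rw [lin_eval, lin_eval, ← S3_evcj]
  have h3 : ∀ t : ℂ, ∑ j, sg j * ((lin x y (F j)).coeff k *
      (starRingEnd ℂ) ((lin x' y' (F j)).eval t)) = 0 := by
    intro t
    have h4 : (∑ j, Polynomial.C (sg j * (starRingEnd ℂ) ((lin x' y' (F j)).eval t)) *
        lin x y (F j)) = 0 := by
      apply Polynomial.funext
      intro s
      rw [Polynomial.eval_finsetSum, Polynomial.eval_zero, ← h1 s t]
      apply Finset.sum_congr rfl
      intro j _
      rw [Polynomial.eval_mul, Polynomial.eval_C]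
      ring
    have h5 := congrArg (fun P => Polynomial.coeff P k) h4
    simp only [Polynomial.finsetSum_coeff, Polynomial.coeff_C_mul, Polynomial.coeff_zero] at h5
    rw [← h5]
    apply Finset.sum_congr rfl
    intro j _
    ring
  have h6 : (∑ j, Polynomial.C ((starRingEnd ℂ) (sg j * (lin x y (F j)).coeff k)) *
      lin x' y' (F j)) = 0 := by
    apply Polynomial.funext
    intro t
    rw [Polynomial.eval_finsetSum, Polynomial.eval_zero]
    have h7 := congrArg (starRingEnd ℂ) (h3 t)
    rw [map_sum, map_zero] at h7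
    rw [← h7]
    apply Finset.sum_congr rfl
    intro j _
    rw [Polynomial.eval_mul, Polynomial.eval_C, map_mul, map_mul, map_mul, Complex.conj_conj]
    ring
  have h8 := congrArg (fun P => (starRingEnd ℂ) (Polynomial.coeff P l)) h6
  simp only [Polynomial.finsetSum_coeff, Polynomial.coeff_C_mul, Polynomial.coeff_zero] at h8
  simp only [map_sum, map_mul, map_zero, Complex.conj_conj] at h8
  rw [← h8]
  apply Finset.sum_congr rfl
  intro j _
  ring

end Pool.Agent.DAng
end
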