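import Pool.Agent.Lib.MP_e3689b_an.VD
import Pool.Agent.Lib.MP_e3689b_an.TD
import Pool.Agent.Lib.MP_e3689b_an.Mg.G020
import Pool.Agent.Lib.MP_e3689b_an.Mg.G021
import Pool.Agent.Lib.MP_e3689b_an.Mg.G016

section

set_option autoImplicit false

namespace Pool.Agent.DAng

open MvPolynomial

/-!
# Definitions for the exponential range (Theorem T), global part
`V` is a unitary matrix; its column `i0` is the base point `a*` of the sphere of `ℂ^m` (the null
vector is `z_0 = (0, a*)`), the other columns are an orthonormal basis of `(a*)^⊥`.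
-/

/-- the specialisation `a ↦ a* = V e_{i0}`, `b ↦ ∑_{l ≠ i0} y_l V e_l` -/
noncomputable def ps {m : ℕ} (V : Matrix (Fin m) (Fin m) ℂ) (i0 : Fin m) :
    CA m →ₐ[ℂ] MvPolynomial (Fin m) ℂ :=
  aeval (Sum.elim (fun i => C (V i i0)) (fun i => ∑ l ∈ Finset.univ.erase i0, C (V i l) * X l))

/-- the substitution `y_{i0} ↦ y_{i0}`, `y_l ↦ y_{i0} y_l` (`l ≠ i0`) -/
noncomputable def sgm {m : ℕ} (i0 : Fin m) : MvPolynomial (Fin m) ℂ →ₐ[ℂ] MvPolynomial (Fin m) ℂ :=
  aeval (fun l => if l = i0 then X i0 else X i0 * X l)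

/-- the vector `∑_{l < d} θ_l F_{l+1}(a, b)` -/
noncomputable def vec {m N : ℕ} (d : ℕ) (F : Option (Fin N) → MvPolynomial (Fin (m + 1)) ℂ)
    (θ : ℕ → CA m) : Option (Fin N) → CA m :=
  fun j => ∑ l ∈ Finset.range d, θ l * (phi m (F j)).coeff (l + 1)

/-- the vectors `∑ θ_l F_{l+1}` with `∑ θ_l u_l = X_1^k H`, `H ∈ U_k` -/
def WW {m N : ℕ} (d : ℕ) (F : Option (Fin N) → MvPolynomial (Fin (m + 1)) ℂ) (u : ℕ → CR m)
    (k : ℕ) : Set (Option (Fin N) → CA m) :=
  {v | ∃ (θ : ℕ → CA m) (H : CR m), v = vec d F θ ∧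
    ∑ l ∈ Finset.range d, C (θ l) * u l = X x1 ^ k * H ∧ io H ∈ Uk (UU d u) k}

/-- `H' = (k+2) X_i H + X_0 D^a_i H + X_1 D^b_i H` -/
noncomputable def HH {m : ℕ} (i : Fin m) (k : ℕ) (H : CR m) : CR m :=
  ((k + 2 : ℕ) : CR m) * X (xi i) * H +
    X x0 * Dt (pderiv (Sum.inl i) : Derivation ℂ (CA m) (CA m)) (xi i) x0 H +
    X x1 * Dt (pderiv (Sum.inr i) : Derivation ℂ (CA m) (CA m)) (xi i) x1 H

/-- what we know about the family `u` -/
structure Ctx {m N : ℕ} (d : ℕ) (F : Option (Fin N) → MvPolynomial (Fin (m + 1)) ℂ)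
    (u : ℕ → CR m) : Prop where
  quot : IsQuot m d F u
  li : LinearIndependent (CA m) (fun k : Fin d => u k)
  P : ∀ H, X x0 * H ∈ UU d u → X x1 * H ∈ UU d u
  rel : ∀ H : CR m, X x0 * io H ∈ UU d u → ∃ (c : CA m) (θ : ℕ → CA m), c ≠ 0 ∧
    ∑ k ∈ Finset.range d, C (θ k) * u k = X x1 * (C c * H) ∧
    ∑ k ∈ Finset.range d, C (θ (k + 1)) * u k = -(X x0 * (C c * H))

/-- the linear map `λ`: coordinates `-B(x, s_i)` -/
noncomputable def la {m N M : ℕ} (s : Fin M → Option (Fin N) → ℂ)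
    (x : Option (Fin N) → MvPolynomial (Fin m) ℂ) : PV m M :=
  fun i => -∑ j, C (sg j * (starRingEnd ℂ) (s i j)) * x j

/-- the affine points of the hyperplane `z_0^⊥` -/
def Zp {m : ℕ} (V : Matrix (Fin m) (Fin m) ℂ) (i0 : Fin m) (w : Fin (m + 1) → ℂ) : Prop :=
  ∑ i, V i i0 * (starRingEnd ℂ) (w i.succ) = 1

/-- the base point `(0, a*)` -/
def zz {m : ℕ} (V : Matrix (Fin m) (Fin m) ℂ) (i0 : Fin m) : Fin (m + 1) → ℂ :=
  Fin.cons 0 (fun i => V i i0)

/-- the direction `b = ∑_{l ≠ i0} η_l V e_l` -/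
noncomputable def bb {m : ℕ} (V : Matrix (Fin m) (Fin m) ℂ) (i0 : Fin m) (η : Fin m → ℂ) :
    Fin m → ℂ := fun i => ∑ l ∈ Finset.univ.erase i0, V i l * η l

/-- the span of the values of `F` on `z_0^⊥` -/
noncomputable def SS {m N : ℕ} (F : Option (Fin N) → MvPolynomial (Fin (m + 1)) ℂ)
    (V : Matrix (Fin m) (Fin m) ℂ) (i0 : Fin m) : Submodule ℂ (Option (Fin N) → ℂ) :=
  Submodule.span ℂ {v | ∃ w, Zp V i0 w ∧ v = fun j => eval w (F j)}

/-- `s` is an orthonormal basis of `SS` modulo `F(z_0)` -/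
structure Fra {m N M : ℕ} (F : Option (Fin N) → MvPolynomial (Fin (m + 1)) ℂ)
    (V : Matrix (Fin m) (Fin m) ℂ) (i0 : Fin m) (s : Fin M → Option (Fin N) → ℂ) : Prop where
  mem : ∀ i, s i ∈ SS F V i0
  ex : ∀ v ∈ SS F V i0, ∃ α : ℂ, ∀ j, v j = ∑ i, (-S4_B v (s i)) * s i j +
    α * eval (zz V i0) (F j)

/-- the specialised vectors -/
def GW {m N M : ℕ} (d : ℕ) (F : Option (Fin N) → MvPolynomial (Fin (m + 1)) ℂ) (u : ℕ → CR m)
    (V : Matrix (Fin m) (Fin m) ℂ) (i0 : Fin m) (s : Fin M → Option (Fin N) → ℂ) (k : ℕ) :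
    Set (PV m M) :=
  {x | ∃ v ∈ WW d F u k, x = la s (fun j => ps V i0 (v j))}

/-- the saturation of a submodule -/
def sat {m M : ℕ} (W : Submodule (MvPolynomial (Fin m) ℂ) (PV m M)) :
    Submodule (MvPolynomial (Fin m) ℂ) (PV m M) where
  carrier := {x | ∃ p : MvPolynomial (Fin m) ℂ, p ≠ 0 ∧ p • x ∈ W}
  zero_mem' := ⟨1, one_ne_zero, by rw [smul_zero]; exact W.zero_mem⟩
  add_mem' := by
    rintro x y ⟨p, hp, hx⟩ ⟨q, hq, hy⟩
    refine ⟨p * q, mul_ne_zero hp hq, ?_⟩
    rw [smul_add]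
    refine W.add_mem ?_ ?_
    · rw [mul_comm, mul_smul]
      exact W.smul_mem q hx
    · rw [mul_smul]
      exact W.smul_mem p hy
  smul_mem' := by
    rintro c x ⟨p, hp, hx⟩
    refine ⟨p, hp, ?_⟩
    rw [smul_comm]
    exact W.smul_mem c hx

/-- the modules `Fc^{k+1}` -/
def FcG {m M : ℕ} (i0 : Fin m) (A : Set (PV m M)) :
    Submodule (MvPolynomial (Fin m) ℂ) (PV m M) where
  carrier := {v | (fun a => sgm i0 (v a)) ∈ sat (Submodule.span (MvPolynomial (Fin m) ℂ) A)}
  zero_mem' := by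
    have h : (fun a : Fin M => sgm i0 ((0 : PV m M) a)) = (0 : PV m M) := by
      funext a
      exact map_zero _
    rw [Set.mem_setOf_eq, h]
    exact Submodule.zero_mem _
  add_mem' := by
    intro x y hx hy
    rw [Set.mem_setOf_eq] at hx hy ⊢
    have h : (fun a : Fin M => sgm i0 ((x + y) a)) =
        ((fun a => sgm i0 (x a)) + (fun a => sgm i0 (y a)) : PV m M) := by
      funext a
      exact map_add _ _ _
    rw [h]
    exact Submodule.add_mem _ hx hy
  smul_mem' := by
    intro c x hx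
    rw [Set.mem_setOf_eq] at hx ⊢
    have h : (fun a : Fin M => sgm i0 ((c • x) a)) =
        (sgm i0 c • (fun a => sgm i0 (x a)) : PV m M) := by
      funext a
      exact map_mul _ _ _
    rw [h]
    exact Submodule.smul_mem _ _ hx

/-- evaluation of the dual variables: `X_0 ↦ 0`, `X_i ↦ x_i`, `X_1 ↦ ξ + ∑ x_i b_i` -/
noncomputable def ee {m : ℕ} (V : Matrix (Fin m) (Fin m) ℂ) (i0 : Fin m) (x : Fin m → ℂ) (ξ : ℂ) :
    CR m →+* MvPolynomial (Fin m) ℂ :=
  eval₂Hom (ps V i0 : CA m →+* MvPolynomial (Fin m) ℂ)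
    (fun v => Sum.elim (fun i => C (x i))
      (fun r => if r = 0 then 0 else C ξ + ∑ i, C (x i) * ps V i0 (X (Sum.inr i))) (ofLex v))

end Pool.Agent.DAng
end

section

set_option autoImplicit false

namespace Pool.Agent.DAng

open MvPolynomial

section
variable {m : ℕ} {B : Type} [CommRing B]

theorem V01_ne10 : (x1 : Sg m) ≠ x0 := by
  unfold x0 x1
  intro h
  have h1 := toLex.injective h
  simp at h1

theorem V01_nei0 (i : Fin m) : (xi i : Sg m) ≠ x0 := by
  unfold x0 xi
  intro h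
  have h1 := toLex.injective h
  simp at h1

theorem V01_cases (v : Sg m) : (∃ i, v = xi i) ∨ v = x0 ∨ v = x1 := by
  match hv : ofLex v with
  | Sum.inl i =>
    refine Or.inl ⟨i, ?_⟩
    unfold xi
    rw [← hv, toLex_ofLex]
  | Sum.inr j =>
    refine Or.inr ?_
    have hj : j = 0 ∨ j = 1 := by
      fin_cases j
      · exact Or.inl rfl
      · exact Or.inr rfl
    rcases hj with hj | hj
    · refine Or.inl ?_
      unfold x0
      rw [← hj, ← hv, toLex_ofLex]
    · refine Or.inr ?_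
      unfold x1
      rw [← hj, ← hv, toLex_ofLex]

/-- PROOF. `aeval_X`, `if_pos`. -/
theorem e0_X0 : e0 (X x0 : MvPolynomial (Sg m) B) = 0 := by
  unfold e0
  rw [aeval_X, if_pos rfl]

/-- PROOF. `aeval_X`, `if_neg` (`x1 ≠ x0`). -/
theorem e0_X1 : e0 (X x1 : MvPolynomial (Sg m) B) = X x1 := by
  unfold e0
  rw [aeval_X, if_neg V01_ne10]

theorem V01_e0_xi (i : Fin m) : e0 (X (xi i) : MvPolynomial (Sg m) B) = X (xi i) := by
  unfold e0
  rw [aeval_X, if_neg (V01_nei0 i)]

theorem V01_e0_C (c : B) : e0 (C c : MvPolynomial (Sg m) B) = C c := by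
  unfold e0
  rw [aeval_C]
  rfl

theorem V01_kap_C (c : B) : kap (C c : MvPolynomial (Sg m) B) = C c := by
  unfold kap
  rw [aeval_C]
  rfl

/-- PROOF. as above. -/
theorem kap_X0 : kap (X x0 : MvPolynomial (Sg m) B) = 0 := by
  unfold kap
  rw [aeval_X]
  rfl

theorem kap_X1 : kap (X x1 : MvPolynomial (Sg m) B) = 0 := by
  unfold kap
  rw [aeval_X]
  rfl

theorem kap_xi (i : Fin m) : kap (X (xi i) : MvPolynomial (Sg m) B) = X i := by
  unfold kap
  rw [aeval_X]
  rfl

/-- PROOF. Induction on `P` (`MvPolynomial.induction_on`), or: modulo the ideal `(X_0)` the two ring homomorphisms `mk` and `mk ∘ e0` agree on the generators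
(see `H7_dvd` in H7.lean for this technique). -/
theorem e0_decomp (P : MvPolynomial (Sg m) B) : ∃ Q, P = X x0 * Q + e0 P := by
  induction P using MvPolynomial.induction_on with
  | C a => exact ⟨0, by rw [V01_e0_C, mul_zero, zero_add]⟩
  | add p q hp hq =>
    obtain ⟨P', hP⟩ := hp
    obtain ⟨Q', hQ⟩ := hq
    refine ⟨P' + Q', ?_⟩
    rw [map_add, mul_add, add_add_add_comm, ← hP, ← hQ]
  | mul_X p v hp =>
    obtain ⟨P', hP⟩ := hp
    by_cases hv : v = x0
    · refine ⟨p, ?_⟩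
      rw [hv, map_mul, e0_X0, mul_zero, add_zero, mul_comm]
    · refine ⟨P' * X v, ?_⟩
      have h1 : e0 (X v : MvPolynomial (Sg m) B) = X v := by
        unfold e0
        rw [aeval_X, if_neg hv]
      rw [map_mul, h1, ← mul_assoc, ← add_mul, ← hP]

/-- PROOF. two algebra homomorphisms agreeing on generators. -/
theorem e0_e0 (P : MvPolynomial (Sg m) B) : e0 (e0 P) = e0 P := by
  have h : (e0 : MvPolynomial (Sg m) B →ₐ[B] MvPolynomial (Sg m) B).comp e0 = e0 := by
    apply MvPolynomial.algHom_ext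
    intro v
    rw [AlgHom.comp_apply]
    rcases V01_cases v with ⟨i, h⟩ | h | h
    · rw [h, V01_e0_xi, V01_e0_xi]
    · rw [h, e0_X0, map_zero]
    · rw [h, e0_X1, e0_X1]
  exact DFunLike.congr_fun h P

/-- PROOF. two algebra homomorphisms agreeing on generators. -/
theorem kap_e0 (P : MvPolynomial (Sg m) B) : kap (e0 P) = kap P := by
  have h : (kap : MvPolynomial (Sg m) B →ₐ[B] MvPolynomial (Fin m) B).comp e0 = kap := by
    apply MvPolynomial.algHom_ext
    intro v
    rw [AlgHom.comp_apply]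
    rcases V01_cases v with ⟨i, h⟩ | h | h
    · rw [h, V01_e0_xi]
    · rw [h, e0_X0, map_zero, kap_X0]
    · rw [h, e0_X1]
  exact DFunLike.congr_fun h P

theorem V01_dec (P : MvPolynomial (Sg m) B) :
    ∃ Q R, P = X x0 * Q + X x1 * R + rename xi (kap P) := by
  induction P using MvPolynomial.induction_on with
  | C a => exact ⟨0, 0, by rw [V01_kap_C, rename_C]; ring⟩
  | add p q hp hq =>
    obtain ⟨P', P2, hP⟩ := hp
    obtain ⟨Q', Q2, hQ⟩ := hq
    refine ⟨P' + Q', P2 + Q2, ?_⟩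
    rw [map_add, map_add]
    linear_combination hP + hQ
  | mul_X p v hp =>
    obtain ⟨P', P2, hP⟩ := hp
    rcases V01_cases v with ⟨i, h⟩ | h | h
    · refine ⟨P' * X v, P2 * X v, ?_⟩
      rw [h, map_mul, map_mul, kap_xi, rename_X]
      linear_combination (X (xi i) : MvPolynomial (Sg m) B) * hP
    · refine ⟨p, 0, ?_⟩
      rw [h, map_mul, kap_X0, mul_zero (kap p), map_zero]
      ring
    · refine ⟨0, p, ?_⟩
      rw [h, map_mul, kap_X1, mul_zero (kap p), map_zero]
      ring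

/-- PROOF. First show `∃ Q R, P = X x0 * Q + X x1 * R + (rename xi (kap P))` for all `P` (induction, or `mk` technique as in `e0_decomp`). If `kap P = 0` and `e0 P = P` then
`P = e0 P = X x1 * e0 R` (`e0_X0`, `e0_X1`, `map_mul`); take `Q := e0 R` (`e0_e0`). -/
theorem kap_decomp (P : MvPolynomial (Sg m) B) (h : kap P = 0) (he : e0 P = P) :
    ∃ Q, e0 Q = Q ∧ P = X x1 * Q := by
  obtain ⟨Q, R, hQ⟩ := V01_dec P
  rw [h, map_zero, add_zero] at hQ
  refine ⟨e0 R, e0_e0 R, ?_⟩
  have h1 := congrArg (e0 : MvPolynomial (Sg m) B →ₐ[B] MvPolynomial (Sg m) B) hQ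
  rw [he, map_add, map_mul, map_mul, e0_X0, e0_X1, zero_mul, zero_add] at h1
  exact h1
end

/-- PROOF. `map` of an injective ring homomorphism is injective (`MvPolynomial.map_injective`, `IsFractionRing.injective`). -/
theorem io_inj {m : ℕ} {σ : Type} : Function.Injective (io : MvPolynomial σ (CA m) →+* MvPolynomial σ (KA m)) :=
  MvPolynomial.map_injective _ (IsFractionRing.injective (CA m) (KA m))

theorem V01_io_X {m : ℕ} {σ : Type} (v : σ) : io (X v : MvPolynomial σ (CA m)) = X v :=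
  map_X _ v

theorem V01_io_C {m : ℕ} {σ : Type} (c : CA m) :
    io (C c : MvPolynomial σ (CA m)) = C (algebraMap (CA m) (KA m) c) :=
  map_C _ c

/-- PROOF. ring homomorphisms agreeing on constants and variables. -/
theorem io_e0 {m : ℕ} (P : CR m) : e0 (io P) = io (e0 P) := by
  have h : (e0 : MvPolynomial (Sg m) (KA m) →ₐ[KA m] MvPolynomial (Sg m) (KA m)).toRingHom.comp
      (io : CR m →+* MvPolynomial (Sg m) (KA m)) =
      (io : CR m →+* MvPolynomial (Sg m) (KA m)).comp
        (e0 : CR m →ₐ[CA m] CR m).toRingHom := by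
    apply MvPolynomial.ringHom_ext
    · intro c
      show e0 (io (C c)) = io (e0 (C c))
      rw [V01_e0_C, V01_io_C, V01_e0_C]
    · intro v
      show e0 (io (X v)) = io (e0 (X v))
      rcases V01_cases v with ⟨i, h⟩ | h | h
      · rw [h, V01_e0_xi, V01_io_X, V01_e0_xi]
      · rw [h, e0_X0, V01_io_X, e0_X0, map_zero]
      · rw [h, e0_X1, V01_io_X, e0_X1]
  exact DFunLike.congr_fun h P

/-- PROOF. ring homomorphisms agreeing on constants and variables. -/
theorem io_kap {m : ℕ} (P : CR m) : kap (io P) = io (kap P) := by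
  have h : (kap : MvPolynomial (Sg m) (KA m) →ₐ[KA m] MvPolynomial (Fin m) (KA m)).toRingHom.comp
      (io : CR m →+* MvPolynomial (Sg m) (KA m)) =
      (io : MvPolynomial (Fin m) (CA m) →+* MvPolynomial (Fin m) (KA m)).comp
        (kap : CR m →ₐ[CA m] MvPolynomial (Fin m) (CA m)).toRingHom := by
    apply MvPolynomial.ringHom_ext
    · intro c
      show kap (io (C c)) = io (kap (C c))
      rw [V01_kap_C, V01_io_C, V01_kap_C, V01_io_C]
    · intro v
      show kap (io (X v)) = io (kap (X v))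
      rcases V01_cases v with ⟨i, h⟩ | h | h
      · rw [h, kap_xi, V01_io_X, kap_xi, V01_io_X]
      · rw [h, kap_X0, V01_io_X, kap_X0, map_zero]
      · rw [h, kap_X1, V01_io_X, kap_X1, map_zero]
  exact DFunLike.congr_fun h P

theorem io_X {m : ℕ} {σ : Type} (v : σ) : io (X v : MvPolynomial σ (CA m)) = X v :=
  V01_io_X v

theorem io_C {m : ℕ} {σ : Type} (c : CA m) : io (C c : MvPolynomial σ (CA m)) = C (algebraMap (CA m) (KA m) c) :=
  V01_io_C c

end Pool.Agent.DAng
end

section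

set_option autoImplicit false

namespace Pool.Agent.DAng

open MvPolynomial

section
variable {m : ℕ} {K : Type} [Field K]

theorem V03_fin_aux {M : Type} [AddCommGroup M] [Module K M] (W : Submodule K M)
    [FiniteDimensional K W] (L : M →ₗ[K] M) (hL : Function.Injective L) :
    FiniteDimensional K (W.comap L) := by
  refine Module.Finite.of_injective
    (LinearMap.codRestrict W (L.domRestrict (W.comap L)) fun w => w.2) ?_
  intro a b h
  have h1 : L a.1 = L b.1 := congrArg Subtype.val h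
  exact Subtype.ext (hL h1)

theorem V03_rank_aux {M N : Type} [AddCommGroup M] [Module K M] [AddCommGroup N] [Module K N]
    (W W' : Submodule K M) [FiniteDimensional K W] (f : M →ₗ[K] N) (L : M →ₗ[K] M)
    (hL : Function.Injective L) (h1 : ∀ g ∈ W', L g ∈ W ∧ f (L g) = 0)
    (h2 : ∀ w ∈ W, f w = 0 → ∃ g ∈ W', w = L g) :
    Module.finrank K W = Module.finrank K (W.map f) + Module.finrank K W' := by
  have h3 := LinearMap.finrank_range_add_finrank_ker (f.domRestrict W)
  rw [LinearMap.range_domRestrict] at h3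
  have h4 : (LinearMap.ker (f.domRestrict W)).map W.subtype = W'.map L := by
    ext w
    constructor
    · rintro ⟨u, hu, rfl⟩
      have hu' : f u.1 = 0 := hu
      obtain ⟨g, hg, hgu⟩ := h2 u.1 u.2 hu'
      exact ⟨g, hg, hgu.symm⟩
    · rintro ⟨g, hg, rfl⟩
      obtain ⟨h5, h6⟩ := h1 g hg
      exact ⟨⟨L g, h5⟩, h6, rfl⟩
  have h5 := (Submodule.equivMapOfInjective W.subtype W.injective_subtype
    (LinearMap.ker (f.domRestrict W))).finrank_eq
  have h6 := (Submodule.equivMapOfInjective L hL W').finrank_eq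
  rw [h4, ← h6] at h5
  rw [← h3, h5]

theorem V03_inj (v : Sg m) (k : ℕ) :
    Function.Injective (LinearMap.mulLeft K (X v ^ k : MvPolynomial (Sg m) K)) := by
  intro a b h
  have h1 : (X v ^ k : MvPolynomial (Sg m) K) * a = X v ^ k * b := h
  exact mul_left_cancel₀ (pow_ne_zero k (X_ne_zero v)) h1

theorem V03_fix (U : Submodule K (MvPolynomial (Sg m) K)) (k : ℕ) (g : MvPolynomial (Sg m) K)
    (hg : g ∈ Rk U k) : e0 g = g := by
  obtain ⟨f, _, hf⟩ := hg
  have h1 : e0 f = X x1 ^ k * g := hf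
  have h2 : e0 (X x1 ^ k * g) = X x1 ^ k * g := by rw [← h1, e0_e0]
  rw [map_mul, map_pow, e0_X1] at h2
  exact mul_left_cancel₀ (pow_ne_zero k (X_ne_zero x1)) h2

/-- `U_k` is finite dimensional. PROOF. Multiplication by `X_0^k` is an injective linear map `U_k → U` (`FiniteDimensional.of_injective` or
`Module.Finite.of_injective`; restrict `LinearMap.mulLeft K (X x0 ^ k)` to `U_k`, codomain `U`). -/
theorem V03_fin (U : Submodule K (MvPolynomial (Sg m) K)) [FiniteDimensional K U] (k : ℕ) :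
    FiniteDimensional K (Uk U k) := by
  exact V03_fin_aux U (LinearMap.mulLeft K (X x0 ^ k)) (V03_inj x0 k)

/-- `R_k` is finite dimensional. PROOF. the same, with `X_1^k` and the finite dimensional space `U.map e0`. -/
theorem V03_finR (U : Submodule K (MvPolynomial (Sg m) K)) [FiniteDimensional K U] (k : ℕ) :
    FiniteDimensional K (Rk U k) := by
  exact V03_fin_aux (U.map e0.toLinearMap) (LinearMap.mulLeft K (X x1 ^ k)) (V03_inj x1 k)

/-- `dim U_k = dim e0(U_k) + dim U_{k+1}`.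
PROOF. Rank-nullity for `e0` restricted to `U_k`; its kernel is `X_0 · U_{k+1}`: if `f ∈ U_k`, `e0 f = 0` then `f = X_0 g` (`e0_decomp`) and
`X_0^{k+1} g = X_0^k f ∈ U`, i.e. `g ∈ U_{k+1}`; conversely for `g ∈ U_{k+1}` `X_0 g ∈ U_k` and `e0 (X_0 g) = 0` (`e0_X0`).
Multiplication by `X_0` is injective so the kernel has dimension `dim U_{k+1}`. One way: `LinearMap.finrank_range_add_finrank_ker` for
`e0.toLinearMap.domRestrict (Uk U k)`, range = `(Uk U k).map e0`, and a `LinearEquiv` (or two injections) between the kernel and `Uk U (k+1)`. -/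
theorem V03 (U : Submodule K (MvPolynomial (Sg m) K)) [FiniteDimensional K U] (k : ℕ) :
    Module.finrank K (Uk U k) =
      Module.finrank K ((Uk U k).map (e0 (m := m) (B := K)).toLinearMap) +
        Module.finrank K (Uk U (k + 1)) := by
  have := V03_fin U k
  refine V03_rank_aux (Uk U k) (Uk U (k + 1)) (e0 (m := m) (B := K)).toLinearMap
    (LinearMap.mulLeft K (X x0 ^ 1)) (V03_inj x0 1) ?_ ?_
  · intro g hg
    have hg' : X x0 ^ (k + 1) * g ∈ U := hg
    refine ⟨?_, ?_⟩
    · show X x0 ^ k * (X x0 ^ 1 * g) ∈ U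
      rw [← mul_assoc, ← pow_add]
      exact hg'
    · rw [AlgHom.toLinearMap_apply, LinearMap.mulLeft_apply, map_mul, map_pow, e0_X0, pow_one,
        zero_mul]
  · intro w hw h0
    have hw' : X x0 ^ k * w ∈ U := hw
    have h0' : e0 w = 0 := by
      rw [← AlgHom.toLinearMap_apply]
      exact h0
    obtain ⟨Q, hQ⟩ := e0_decomp w
    rw [h0', add_zero] at hQ
    refine ⟨Q, ?_, ?_⟩
    · show X x0 ^ (k + 1) * Q ∈ U
      rw [pow_succ, mul_assoc, ← hQ]
      exact hw'
    · show w = X x0 ^ 1 * Q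
      rw [pow_one]
      exact hQ

/-- PROOF. By induction on `k`, for all `f` with `X_0^k f ∈ U`: `X_1^k f ∈ U`. Step: `X_0^{k+1} f = X_0 (X_0^k f) ∈ U`, so `X_1 X_0^k f ∈ U` by `hP`, i.e.
`X_0^k (X_1 f) ∈ U`, so `X_1^k (X_1 f) ∈ U`. Hence for `f ∈ U_k`: `X_1^k e0(f) = e0 (X_1^k f) ∈ e0(U)`. -/
theorem V03_le (U : Submodule K (MvPolynomial (Sg m) K))
    (hP : ∀ H, X x0 * H ∈ U → X x1 * H ∈ U) (k : ℕ) :
    (Uk U k).map (e0 (m := m) (B := K)).toLinearMap ≤ Rk U k := by
  have key : ∀ (k : ℕ) (f : MvPolynomial (Sg m) K), X x0 ^ k * f ∈ U → X x1 ^ k * f ∈ U := by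
    intro k
    induction k with
    | zero =>
      intro f hf
      simpa using hf
    | succ k ih =>
      intro f hf
      have h1 : X x0 * (X x0 ^ k * f) ∈ U := by
        rw [← mul_assoc, ← pow_succ']
        exact hf
      have h2 := hP _ h1
      have h3 : X x0 ^ k * (X x1 * f) ∈ U := by
        have e : X x0 ^ k * (X x1 * f) = X x1 * (X x0 ^ k * f) := by ring
        rw [e]
        exact h2
      have h4 := ih _ h3
      rw [pow_succ, mul_assoc]
      exact h4
  rintro _ ⟨f, hf, rfl⟩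
  have hf' : X x0 ^ k * f ∈ U := hf
  refine ⟨X x1 ^ k * f, key k f hf', ?_⟩
  show e0 (X x1 ^ k * f) = X x1 ^ k * e0 f
  rw [map_mul, map_pow, e0_X1]

/-- `dim R_k = dim H_k + dim R_{k+1}`.
PROOF. Elements of `R_k` are fixed by `e0`: `X_1^k g = e0 f` gives `X_1^k (e0 g - g) = 0` (`e0_e0`, `e0_X1`), so `e0 g = g`. Rank-nullity for `kap` restricted to
`R_k`: range `H_k` (by definition), kernel `= X_1 · R_{k+1}`: if `g ∈ R_k`, `kap g = 0` then `g = X_1 h` (`kap_decomp`) and `X_1^{k+1} h = X_1^k g`. Conversely `h ∈ R_{k+1}` gives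
`X_1 h ∈ R_k`, `kap (X_1 h) = 0` (`kap_X1`). -/
theorem V03_R (U : Submodule K (MvPolynomial (Sg m) K)) [FiniteDimensional K U] (k : ℕ) :
    Module.finrank K (Rk U k) = Module.finrank K (Hb U k) + Module.finrank K (Rk U (k + 1)) := by
  have := V03_finR U k
  refine V03_rank_aux (Rk U k) (Rk U (k + 1)) (kap (m := m) (B := K)).toLinearMap
    (LinearMap.mulLeft K (X x1 ^ 1)) (V03_inj x1 1) ?_ ?_
  · intro g hg
    have hg' : X x1 ^ (k + 1) * g ∈ U.map e0.toLinearMap := hg
    refine ⟨?_, ?_⟩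
    · show X x1 ^ k * (X x1 ^ 1 * g) ∈ U.map e0.toLinearMap
      rw [← mul_assoc, ← pow_add]
      exact hg'
    · rw [AlgHom.toLinearMap_apply, LinearMap.mulLeft_apply, map_mul, map_pow, kap_X1, pow_one,
        zero_mul]
  · intro w hw h0
    have hw' : X x1 ^ k * w ∈ U.map e0.toLinearMap := hw
    have h0' : kap w = 0 := by
      rw [← AlgHom.toLinearMap_apply]
      exact h0
    obtain ⟨Q, _, hQ⟩ := kap_decomp w h0' (V03_fix U k w hw)
    refine ⟨Q, ?_, ?_⟩
    · show X x1 ^ (k + 1) * Q ∈ U.map e0.toLinearMap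
      rw [pow_succ, mul_assoc, ← hQ]
      exact hw'
    · show w = X x1 ^ 1 * Q
      rw [pow_one]
      exact hQ
end

end Pool.Agent.DAng
end

section

set_option autoImplicit false

namespace Pool.Agent.DAng

open MvPolynomial

private theorem GL06_aux {m : ℕ} {K : Type} [Field K] (U : Submodule K (MvPolynomial (Sg m) K))
    (hP : ∀ H, X x0 * H ∈ U → X x1 * H ∈ U) (k : ℕ) (H : MvPolynomial (Sg m) K)
    (h : H ∈ Uk U (k + 1)) : X x1 * H ∈ Uk U k := by
  have h1 : X x0 ^ (k + 1) * H ∈ U := h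
  have h2 : X x1 * (X x0 ^ k * H) ∈ U := by
    apply hP
    rw [← mul_assoc, ← pow_succ']
    exact h1
  change X x0 ^ k * (X x1 * H) ∈ U
  rw [mul_left_comm]
  exact h2

/-- PROOF. Induction: for `j ≤ k`, `X_1^j X_0^{k-j} H ∈ U`; step: `X_0 (X_1^j X_0^{k-j-1} H) ∈ U` so `X_1 (..) ∈ U` by `hP`. -/
theorem GL06_pow {m : ℕ} {K : Type} [Field K] (U : Submodule K (MvPolynomial (Sg m) K))
    (hP : ∀ H, X x0 * H ∈ U → X x1 * H ∈ U) (k : ℕ) (H : MvPolynomial (Sg m) K)
    (h : H ∈ Uk U k) : X x1 ^ k * H ∈ U := by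
  induction k generalizing H with
  | zero =>
    have h1 : X x0 ^ 0 * H ∈ U := h
    rw [pow_zero] at h1 ⊢
    exact h1
  | succ k ih =>
    rw [pow_succ, mul_assoc]
    exact ih _ (GL06_aux U hP k H h)

/-- PROOF. `X_0 (X_0^k H) ∈ U`, so `X_1 (X_0^k H) ∈ U`. -/
theorem GL06_X {m : ℕ} {K : Type} [Field K] (U : Submodule K (MvPolynomial (Sg m) K))
    (hP : ∀ H, X x0 * H ∈ U → X x1 * H ∈ U) (k : ℕ) (H : MvPolynomial (Sg m) K)
    (h : H ∈ Uk U (k + 1)) : X x1 * H ∈ Uk U k := by
  exact GL06_aux U hP k H h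

/-- PROOF. `∑ θ u = X_1^{k+1} H = X_1^k (X_1 H)`, `io (X_1 H) = X_1 io H ∈ U_k` (`GL06_X`, `io_X`). -/
theorem GL06_WW {m N d : ℕ} (F : Option (Fin N) → MvPolynomial (Fin (m + 1)) ℂ) (u : ℕ → CR m)
    (hC : Ctx d F u) (k : ℕ) : WW d F u (k + 1) ⊆ WW d F u k := by
  rintro v ⟨θ, H, h1, h2, h3⟩
  refine ⟨θ, X x1 * H, h1, ?_, ?_⟩
  · rw [h2, pow_succ, mul_assoc]
  · rw [map_mul, V01_io_X]
    exact GL06_X _ hC.P k _ h3

end Pool.Agent.DAng
end

section

set_option autoImplicit false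

namespace Pool.Agent.DAng

open MvPolynomial

theorem GL09_X0 {m : ℕ} (V : Matrix (Fin m) (Fin m) ℂ) (i0 : Fin m) (x : Fin m → ℂ) (ξ : ℂ) :
    ee V i0 x ξ (X x0) = 0 := by
  unfold ee
  rw [eval₂Hom_X']
  rfl

theorem GL09_xi {m : ℕ} (V : Matrix (Fin m) (Fin m) ℂ) (i0 : Fin m) (x : Fin m → ℂ) (ξ : ℂ)
    (i : Fin m) : ee V i0 x ξ (X (xi i)) = C (x i) := by
  unfold ee
  rw [eval₂Hom_X']
  rfl

theorem GL09_X1 {m : ℕ} (V : Matrix (Fin m) (Fin m) ℂ) (i0 : Fin m) (x : Fin m → ℂ) (ξ : ℂ) :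
    ee V i0 x ξ (X x1) = C ξ + ∑ i, C (x i) * ps V i0 (X (Sum.inr i)) := by
  unfold ee
  rw [eval₂Hom_X']
  rfl

theorem GL09_C {m : ℕ} (V : Matrix (Fin m) (Fin m) ℂ) (i0 : Fin m) (x : Fin m → ℂ) (ξ : ℂ)
    (c : CA m) : ee V i0 x ξ (C c) = ps V i0 c := by
  unfold ee
  rw [eval₂Hom_C]
  rfl

/-- PROOF. Induction on `P` (or `MvPolynomial` algebra hom ext): both sides are ring homomorphisms, `e0 X_0 = 0`. -/
theorem GL09_e0 {m : ℕ} (V : Matrix (Fin m) (Fin m) ℂ) (i0 : Fin m) (x : Fin m → ℂ) (ξ : ℂ)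
    (P : CR m) : ee V i0 x ξ (e0 P) = ee V i0 x ξ P := by
  have h : (ee V i0 x ξ).comp (e0 : CR m →ₐ[CA m] CR m).toRingHom = ee V i0 x ξ := by
    apply MvPolynomial.ringHom_ext
    · intro c
      change ee V i0 x ξ (e0 (C c)) = _
      rw [e0, ← algebraMap_eq, AlgHom.commutes]
    · intro v
      change ee V i0 x ξ (e0 (X v)) = _
      rw [e0, aeval_X]
      by_cases hv : v = x0
      · rw [if_pos hv, hv, GL09_X0, map_zero]
      · rw [if_neg hv]
  exact RingHom.congr_fun h P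

private theorem GL09_w0 {m : ℕ} (V : Matrix (Fin m) (Fin m) ℂ) (i0 : Fin m) (x : Fin m → ℂ)
    (ξ ω : ℂ) (hω : ω = -∑ i, V i i0 * x i) : ee V i0 x ξ (w0 m) = C ω := by
  rw [w0, map_sub, map_sum, GL09_X0, hω, zero_sub, map_neg, map_sum]
  congr 1
  refine Finset.sum_congr rfl fun i _ => ?_
  rw [map_mul, GL09_C, GL09_xi, ps, aeval_X, Sum.elim_inl, map_mul]

private theorem GL09_ww {m : ℕ} (V : Matrix (Fin m) (Fin m) ℂ) (i0 : Fin m) (x : Fin m → ℂ)
    (ξ : ℂ) (i : Fin (m + 1)) :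
    ee V i0 x ξ (ww m i) = C ((Fin.cons ξ x : Fin (m + 1) → ℂ) i) := by
  refine Fin.cases ?_ (fun i => ?_) i
  · rw [ww, Fin.cons_zero, Fin.cons_zero, map_sub, map_sum, GL09_X1]
    have h : ∑ i, ee V i0 x ξ (C (X (Sum.inr i)) * X (xi i)) =
        ∑ i, C (x i) * ps V i0 (X (Sum.inr i)) := by
      refine Finset.sum_congr rfl fun i _ => ?_
      rw [map_mul, GL09_C, GL09_xi, mul_comm]
    rw [h, add_sub_cancel_right]
  · rw [ww, Fin.cons_succ, Fin.cons_succ, GL09_xi]

private theorem GL09_aeval {m : ℕ} (V : Matrix (Fin m) (Fin m) ℂ) (i0 : Fin m) (x : Fin m → ℂ)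
    (ξ : ℂ) (P : MvPolynomial (Fin (m + 1)) ℂ) :
    ee V i0 x ξ (aeval (fun i => - ww m i) P) =
      C (eval (fun i => - (Fin.cons ξ x : Fin (m + 1) → ℂ) i) P) := by
  induction P using MvPolynomial.induction_on with
  | C a =>
    rw [← algebraMap_eq, AlgHom.commutes, algebraMap_eq, eval_C,
      IsScalarTower.algebraMap_apply ℂ (CA m) (CR m), algebraMap_eq, algebraMap_eq, GL09_C,
      ← algebraMap_eq, AlgHom.commutes, algebraMap_eq]
  | add p q hp hq => rw [map_add, map_add, map_add, map_add, hp, hq]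
  | mul_X p i hp =>
    rw [map_mul, map_mul, map_mul, map_mul, hp, aeval_X, eval_X, map_neg, map_neg, GL09_ww]

/-- PROOF. `ee (w0 m) = 0 - ∑ C (V i i0) C (x i) = C ω`, `ee (ww m 0) = C ξ` and `ee (ww m i.succ) = C (x i)`. For a polynomial `P` with complex coefficients `ee (aeval f P) = aeval (ee ∘ f) P`, and
`aeval (fun i => C (y i)) P = C (eval y P)`. `gam` is the sum over the homogeneous components `e ≤ d`: `ω^{d-e} * eval (- y) (hom_e) = ω^d * eval (-y/ω) (hom_e)` (`H5_hom`), and the sum of the components of degree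
`≤ d` is `cj G` (compare the proof of `gam_eval` in H5.lean). Finally `eval w̃ (cj G) = conj (eval (conj w̃) G)` (`S3_evcj`). -/
theorem GL09_gam {m d : ℕ} (V : Matrix (Fin m) (Fin m) ℂ) (i0 : Fin m) (x : Fin m → ℂ) (ξ ω : ℂ)
    (hω : ω = -∑ i, V i i0 * x i) (h0 : ω ≠ 0) (G : MvPolynomial (Fin (m + 1)) ℂ)
    (hG : G.totalDegree ≤ d) :
    ee V i0 x ξ (gam m d G) = C (ω ^ d * (starRingEnd ℂ) (eval (fun i => (starRingEnd ℂ)
      ((Fin.cons (-ξ / ω) (fun i => -x i / ω) : Fin (m + 1) → ℂ) i)) G)) := by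
  have hdeg : (cj G).totalDegree ≤ d := by
    refine le_trans ?_ hG
    rw [cj, totalDegree, totalDegree]
    exact Finset.sup_mono (support_map_subset _ _)
  have hsum : ∑ e ∈ Finset.range (d + 1), homogeneousComponent e (cj G) = cj G := by
    conv_rhs => rw [← sum_homogeneousComponent (cj G)]
    symm
    apply Finset.sum_subset
    · intro e he
      rw [Finset.mem_range] at he ⊢
      omega
    · intro e _ he
      apply homogeneousComponent_eq_zero
      rw [Finset.mem_range] at he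
      omega
  have hy : ∀ i, (Fin.cons (-ξ / ω) (fun i => -x i / ω) : Fin (m + 1) → ℂ) i =
      ω⁻¹ * - (Fin.cons ξ x : Fin (m + 1) → ℂ) i := by
    intro i
    refine Fin.cases ?_ (fun i => ?_) i
    · rw [Fin.cons_zero, Fin.cons_zero, div_eq_inv_mul]
    · rw [Fin.cons_succ, Fin.cons_succ, div_eq_inv_mul]
  rw [← S3_evcj]
  simp only [starRingEnd_self_apply]
  conv_rhs => rw [← hsum]
  rw [gam, map_sum, map_sum, Finset.mul_sum, map_sum]
  refine Finset.sum_congr rfl (fun e he => ?_)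
  rw [map_mul, map_pow, GL09_w0 V i0 x ξ ω hω, GL09_aeval, ← map_pow, ← map_mul]
  congr 1
  rw [funext hy, H5_hom _ (homogeneousComponent_isHomogeneous e (cj G)), ← mul_assoc]
  congr 1
  have h2 : d - e + e = d := by
    rw [Finset.mem_range] at he
    omega
  conv_rhs => rw [← h2]
  rw [pow_add, mul_assoc, ← mul_pow, mul_inv_cancel₀ h0, one_pow, mul_one]

/-- PROOF. `∑ V i i0 * conj (conj (-x i / ω)) = -(∑ V i i0 x i)/ω = 1`. -/
theorem GL09_Zp {m : ℕ} (V : Matrix (Fin m) (Fin m) ℂ) (i0 : Fin m) (x : Fin m → ℂ) (ξ ω : ℂ)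
    (hω : ω = -∑ i, V i i0 * x i) (h0 : ω ≠ 0) :
    Zp V i0 (fun i => (starRingEnd ℂ)
      ((Fin.cons (-ξ / ω) (fun i => -x i / ω) : Fin (m + 1) → ℂ) i)) := by
  unfold Zp
  have h1 : ∀ i : Fin m, V i i0 * (starRingEnd ℂ) ((starRingEnd ℂ)
      ((Fin.cons (-ξ / ω) (fun i => -x i / ω) : Fin (m + 1) → ℂ) i.succ)) =
      -(V i i0 * x i) * ω⁻¹ := by
    intro i
    rw [starRingEnd_self_apply, Fin.cons_succ, div_eq_mul_inv]
    ring
  rw [Finset.sum_congr rfl fun i _ => h1 i, ← Finset.sum_mul, Finset.sum_neg_distrib, ← hω,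
    mul_inv_cancel₀ h0]

end Pool.Agent.DAng
end

section

set_option autoImplicit false

namespace Pool.Agent.DAng

open MvPolynomial

theorem GL10_psC {m : ℕ} (V : Matrix (Fin m) (Fin m) ℂ) (i0 : Fin m) (c : ℂ) :
    ps V i0 (C c : CA m) = C c := by
  have h := (ps V i0).commutes c
  rw [MvPolynomial.algebraMap_eq, MvPolynomial.algebraMap_eq] at h
  exact h

theorem GL10_pt {m N d : ℕ} (F : Option (Fin N) → MvPolynomial (Fin (m + 1)) ℂ)
    (hF : ∀ j, (F j).totalDegree ≤ d) (V : Matrix (Fin m) (Fin m) ℂ) (i0 : Fin m)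
    (x : Option (Fin N) → CA m)
    (Q : CR m) (h : ∑ j, C (C (sg j) * x j) * gam m d (F j) = X x0 * Q)
    (w : Fin (m + 1) → ℂ) (hw : Zp V i0 w) :
    ∑ j, C (sg j * (starRingEnd ℂ) (eval w (F j))) * ps V i0 (x j) = 0 := by
  have hω : (1 : ℂ) = -∑ i, V i i0 * (-(starRingEnd ℂ) (w i.succ)) := by
    have h1 : ∑ i, V i i0 * (-(starRingEnd ℂ) (w i.succ)) =
        -∑ i, V i i0 * (starRingEnd ℂ) (w i.succ) := by
      rw [← Finset.sum_neg_distrib]
      exact Finset.sum_congr rfl fun i _ => by ring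
    have h2 : ∑ i, V i i0 * (starRingEnd ℂ) (w i.succ) = 1 := hw
    rw [h1, h2, neg_neg]
  have e := congrArg (ee V i0 (fun i => -(starRingEnd ℂ) (w i.succ)) (-(starRingEnd ℂ) (w 0))) h
  rw [map_mul, GL09_X0, zero_mul, map_sum] at e
  rw [← e]
  refine Finset.sum_congr rfl fun j _ => ?_
  rw [map_mul (ee V i0 _ _), GL09_C, GL09_gam V i0 _ _ 1 hω one_ne_zero (F j) (hF j),
    map_mul (ps V i0), GL10_psC, one_pow, one_mul]
  have hpt : (fun i => (starRingEnd ℂ)
      ((Fin.cons (-(-(starRingEnd ℂ) (w 0)) / 1) (fun i => -(-(starRingEnd ℂ) (w i.succ)) / 1) :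
        Fin (m + 1) → ℂ) i)) = w := by
    funext i
    refine Fin.cases ?_ (fun i => ?_) i
    · simp
    · simp
  rw [hpt, C_mul]
  ring

/-- PROOF. Let `w` with `Zp V i0 w`. Put `x i = -conj (w i.succ)`, `ξ = -conj (w 0)`, `ω = 1 = -∑ V i i0 x i`. Apply `ee V i0 x ξ` to `h` (`GL09_X0`, `GL09_C`, `GL09_gam`; the point is `w` itself,
`Fin.cons` and `conj conj`): `∑_j C (sg j) * ps (x_j) * C (conj (eval w (F j))) = 0`. So the `ℂ`-linear (in the second argument, via `conj`) condition `∑_j C (sg j * conj (v j)) * ps (x_j) = 0`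
holds for all `v` in the spanning set of `SS`, hence for `v = s i` (`Submodule.span_induction`). -/
theorem GL10 {m N M d : ℕ} (F : Option (Fin N) → MvPolynomial (Fin (m + 1)) ℂ)
    (hF : ∀ j, (F j).totalDegree ≤ d) (V : Matrix (Fin m) (Fin m) ℂ) (i0 : Fin m)
    (s : Fin M → Option (Fin N) → ℂ) (hs : ∀ i, s i ∈ SS F V i0) (x : Option (Fin N) → CA m)
    (Q : CR m) (h : ∑ j, C (C (sg j) * x j) * gam m d (F j) = X x0 * Q) :
    la s (fun j => ps V i0 (x j)) = 0 := by
  have key : ∀ v ∈ SS F V i0, ∑ j, C (sg j * (starRingEnd ℂ) (v j)) * ps V i0 (x j) = 0 := by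
    intro v hv
    unfold SS at hv
    induction hv using Submodule.span_induction with
    | mem v hv =>
      obtain ⟨w, hw, rfl⟩ := hv
      exact GL10_pt F hF V i0 x Q h w hw
    | zero =>
      simp
    | add v v' _ _ h1 h2 =>
      have e : ∑ j, C (sg j * (starRingEnd ℂ) ((v + v') j)) * ps V i0 (x j) =
          ∑ j, C (sg j * (starRingEnd ℂ) (v j)) * ps V i0 (x j) +
            ∑ j, C (sg j * (starRingEnd ℂ) (v' j)) * ps V i0 (x j) := by
        rw [← Finset.sum_add_distrib]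
        refine Finset.sum_congr rfl fun j _ => ?_
        rw [Pi.add_apply, map_add, mul_add, C_add, add_mul]
      rw [e, h1, h2, add_zero]
    | smul c v _ h1 =>
      have e : ∑ j, C (sg j * (starRingEnd ℂ) ((c • v) j)) * ps V i0 (x j) =
          C ((starRingEnd ℂ) c) * ∑ j, C (sg j * (starRingEnd ℂ) (v j)) * ps V i0 (x j) := by
        rw [Finset.mul_sum]
        refine Finset.sum_congr rfl fun j _ => ?_
        rw [Pi.smul_apply, smul_eq_mul, map_mul (starRingEnd ℂ), C_mul, C_mul, C_mul]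
        ring
      rw [e, h1, mul_zero]
  funext i
  show -∑ j, C (sg j * (starRingEnd ℂ) (s i j)) * ps V i0 (x j) = 0
  rw [key (s i) (hs i), neg_zero]

end Pool.Agent.DAng
end

section

set_option autoImplicit false

namespace Pool.Agent.DAng

open MvPolynomial

/-- CHAIN RULE. PROOF. Induction on `P` (`MvPolynomial.induction_on`): constants, sums, `P * X v`. For `X (inl i)`: both sides `0`. For `X (inr i)`: `pderiv l (∑_{l'} C (V i l') X l') = C (V i l)`. Leibniz rule. -/
theorem GL11 {m : ℕ} (V : Matrix (Fin m) (Fin m) ℂ) (i0 l : Fin m) (hl : l ≠ i0) (P : CA m) :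
    pderiv l (ps V i0 P) = ∑ i, C (V i l) * ps V i0 (pderiv (Sum.inr i) P) := by
  classical
  induction P using MvPolynomial.induction_on with
  | C a =>
    have h1 : ps V i0 (C a : CA m) = C a := by
      unfold ps
      rw [aeval_C]; rfl
    rw [h1, pderiv_C]
    symm
    apply Finset.sum_eq_zero
    intro i _
    rw [pderiv_C, map_zero, mul_zero]
  | add p q hp hq =>
    rw [map_add, map_add, hp, hq, ← Finset.sum_add_distrib]
    apply Finset.sum_congr rfl
    intro i _
    rw [map_add, map_add, mul_add]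
  | mul_X p v hp =>
    rw [map_mul, pderiv_mul, hp]
    have key : pderiv l (ps V i0 (X v : CA m)) =
        ∑ i, C (V i l) * ps V i0 (pderiv (Sum.inr i) (X v : CA m)) := by
      rcases v with a | b
      · have h1 : ps V i0 (X (Sum.inl a) : CA m) = C (V a i0) := by
          unfold ps
          rw [aeval_X]; rfl
        rw [h1, pderiv_C]
        symm
        apply Finset.sum_eq_zero
        intro i _
        rw [pderiv_X_of_ne (by simp), map_zero, mul_zero]
      · have h1 : ps V i0 (X (Sum.inr b) : CA m) =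
            ∑ l ∈ Finset.univ.erase i0, C (V b l) * X l := by
          unfold ps
          rw [aeval_X]; rfl
        rw [h1, map_sum, Finset.sum_eq_single l, Finset.sum_eq_single b]
        · rw [pderiv_X_self, map_one, mul_one, pderiv_mul, pderiv_C, zero_mul, zero_add,
            pderiv_X_self, mul_one]
        · intro i _ hi
          rw [pderiv_X_of_ne (by
            intro h
            exact hi (Sum.inr_injective h).symm), map_zero, mul_zero]
        · intro h
          exact absurd (Finset.mem_univ b) h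
        · intro l' _ hl'
          rw [pderiv_mul, pderiv_C, zero_mul, zero_add, pderiv_X_of_ne hl', mul_zero]
        · intro h
          exact absurd (Finset.mem_erase.2 ⟨hl, Finset.mem_univ l⟩) h
    rw [key, Finset.sum_mul, Finset.mul_sum, ← Finset.sum_add_distrib]
    apply Finset.sum_congr rfl
    intro i _
    rw [pderiv_mul, map_add, map_mul, map_mul]
    ring

/-- PROOF. Induction on `P`; the variable `i0` does not occur in the images of the variables. -/
theorem GL11_0 {m : ℕ} (V : Matrix (Fin m) (Fin m) ℂ) (i0 : Fin m) (P : CA m) :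
    pderiv i0 (ps V i0 P) = 0 := by
  classical
  induction P using MvPolynomial.induction_on with
  | C a =>
    have h1 : ps V i0 (C a : CA m) = C a := by
      unfold ps
      rw [aeval_C]; rfl
    rw [h1, pderiv_C]
  | add p q hp hq =>
    rw [map_add, map_add, hp, hq, add_zero]
  | mul_X p v hp =>
    rw [map_mul, pderiv_mul, hp, zero_mul, zero_add]
    have key : pderiv i0 (ps V i0 (X v : CA m)) = 0 := by
      rcases v with a | b
      · have h1 : ps V i0 (X (Sum.inl a) : CA m) = C (V a i0) := by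
          unfold ps
          rw [aeval_X]; rfl
        rw [h1, pderiv_C]
      · have h1 : ps V i0 (X (Sum.inr b) : CA m) =
            ∑ l ∈ Finset.univ.erase i0, C (V b l) * X l := by
          unfold ps
          rw [aeval_X]; rfl
        rw [h1, map_sum]
        apply Finset.sum_eq_zero
        intro l' hl'
        rw [pderiv_mul, pderiv_C, zero_mul, zero_add,
          pderiv_X_of_ne (Finset.ne_of_mem_erase hl'), mul_zero]
    rw [key, mul_zero]

end Pool.Agent.DAng
end

section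

set_option autoImplicit false

namespace Pool.Agent.DAng

open MvPolynomial

variable {m M : ℕ}

theorem sat_le (W : Submodule (MvPolynomial (Fin m) ℂ) (PV m M)) : W ≤ sat W := by
  intro x hx
  exact ⟨1, one_ne_zero, by rw [one_smul]; exact hx⟩

theorem sat_mono (W W' : Submodule (MvPolynomial (Fin m) ℂ) (PV m M)) (h : W ≤ W') :
    sat W ≤ sat W' := by
  rintro x ⟨q, hq, hx⟩
  exact ⟨q, hq, h hx⟩

/-- PROOF. `q • (p • x) = (q * p) • x`. -/
theorem sat_div (W : Submodule (MvPolynomial (Fin m) ℂ) (PV m M)) (p : MvPolynomial (Fin m) ℂ)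
    (hp : p ≠ 0) (x : PV m M) (hx : p • x ∈ sat W) : x ∈ sat W := by
  obtain ⟨q, hq, h⟩ := hx
  exact ⟨q * p, mul_ne_zero hq hp, by rw [mul_smul]; exact h⟩

private theorem GL13_D (l : Fin m) (c : MvPolynomial (Fin m) ℂ) (x : PV m M) :
    (fun a => pderiv l ((c • x) a)) = (pderiv l c) • x + c • (fun a => pderiv l (x a)) := by
  funext a
  show pderiv l (c * x a) = pderiv l c * x a + c * pderiv l (x a)
  rw [pderiv_mul]

/-- PROOF. Write `D x = fun a => pderiv l (x a)`; `D (c • x) = (pderiv l c) • x + c • D x`. First for `x ∈ span A` (`Submodule.span_induction`): `q • D x ∈ span B` (with `span A ≤ span B`).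
If `p • x ∈ span A`, `p ≠ 0`: `q • D (p • x) = (q * pderiv l p) • x + (q * p) • D x ∈ span B`; multiply by `p`: `(q * pderiv l p) • (p • x) ∈ span B`, so `(p * q * p) • D x ∈ span B`, and
`p * q * p ≠ 0`. -/
theorem sat_D (A B : Set (PV m M)) (q : MvPolynomial (Fin m) ℂ) (hq : q ≠ 0) (l : Fin m)
    (hAB : A ⊆ B) (hD : ∀ x ∈ A, q • (fun a => pderiv l (x a)) ∈
      Submodule.span (MvPolynomial (Fin m) ℂ) B) (x : PV m M)
    (hx : x ∈ sat (Submodule.span (MvPolynomial (Fin m) ℂ) A)) :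
    (fun a => pderiv l (x a)) ∈ sat (Submodule.span (MvPolynomial (Fin m) ℂ) B) := by
  have hle : Submodule.span (MvPolynomial (Fin m) ℂ) A ≤ Submodule.span (MvPolynomial (Fin m) ℂ) B :=
    Submodule.span_mono hAB
  have key : ∀ y ∈ Submodule.span (MvPolynomial (Fin m) ℂ) A,
      q • (fun a => pderiv l (y a)) ∈ Submodule.span (MvPolynomial (Fin m) ℂ) B := by
    intro y hy
    induction hy using Submodule.span_induction with
    | mem y hy => exact hD y hy
    | zero =>
      have e : (fun a => pderiv l ((0 : PV m M) a)) = (0 : PV m M) := by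
        funext a
        show pderiv l (0 : MvPolynomial (Fin m) ℂ) = 0
        exact map_zero _
      rw [e, smul_zero]
      exact Submodule.zero_mem _
    | add y z _ _ h1 h2 =>
      have e : (fun a => pderiv l ((y + z) a)) =
          (fun a => pderiv l (y a)) + (fun a => pderiv l (z a)) := by
        funext a
        show pderiv l (y a + z a) = pderiv l (y a) + pderiv l (z a)
        exact map_add _ _ _
      rw [e, smul_add]
      exact Submodule.add_mem _ h1 h2
    | smul c y hy h1 =>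
      rw [GL13_D, smul_add, smul_smul, smul_smul, mul_comm q c, mul_smul c q]
      exact Submodule.add_mem _ (Submodule.smul_mem _ _ (hle hy)) (Submodule.smul_mem _ _ h1)
  obtain ⟨p, hp, h⟩ := hx
  refine ⟨p * q * p, mul_ne_zero (mul_ne_zero hp hq) hp, ?_⟩
  have h1 := key _ h
  rw [GL13_D, smul_add] at h1
  have h2 := Submodule.smul_mem _ p h1
  have h3 : (q * pderiv l p) • (p • x) ∈ Submodule.span (MvPolynomial (Fin m) ℂ) B :=
    Submodule.smul_mem _ _ (hle h)
  have e : (p * q * p) • (fun a => pderiv l (x a)) =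
      p • (q • pderiv l p • x + q • p • (fun a => pderiv l (x a))) -
        (q * pderiv l p) • (p • x) := by
    simp only [smul_add, smul_smul]
    rw [show p * (q * pderiv l p) = q * pderiv l p * p by ring, show p * (q * p) = p * q * p by ring]
    rw [add_sub_cancel_left]
  rw [e]
  exact Submodule.sub_mem _ h2 h3

end Pool.Agent.DAng
end
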