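import Pool.Agent.Lib.MP_e3689b_an.Mg.G021

section

set_option autoImplicit false

namespace Pool.Agent.DAng

open MvPolynomial

/-- Elements with distinct leading monomials in the span of `d` vectors: at most `d`.
PROOF. Choose `P_M` in the span with `mo.degree P_M = M`, `P_M ≠ 0`, for `M ∈ S`. They are linearly independent over the
domain `A`: in a nontrivial combination `∑ c_M P_M`, let `M*` be the `mo`-largest `M` with `c_M ≠ 0`; the coefficient at
`M*` is `c_{M*} * leadingCoeff ≠ 0` (the other `P_M`, `M < M*`, have coefficient `0` there: `coeff_eq_zero_of_lt`).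
A linearly independent family in the span of `d` elements has at most `d` members (strong rank condition:
`linearIndependent_le_span'`-type lemma, or `LinearIndependent.fintype_card_le_finrank`/`finrank_span_le_card`
with `rank` for domains: `linearIndependent_le_span_finset`). -/
theorem C1 {σ A : Type*} [CommRing A] [IsDomain A] (mo : MonomialOrder σ) (d : ℕ)
    (v : Fin d → MvPolynomial σ A) (S : Finset (σ →₀ ℕ))
    (hS : ∀ M ∈ S, ∃ P ∈ Submodule.span A (Set.range v), P ≠ 0 ∧ mo.degree P = M) :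
    S.card ≤ d := by
  classical
  choose! P hP using hS
  have hli : LinearIndependent A (fun M : S => P M) := by
    rw [linearIndependent_iff']
    intro s g hg
    by_contra hcon
    push Not at hcon
    obtain ⟨i₀, hi₀, hgi₀⟩ := hcon
    set T := s.filter (fun i => g i ≠ 0) with hT
    have hTne : T.Nonempty := ⟨i₀, by rw [hT, Finset.mem_filter]; exact ⟨hi₀, hgi₀⟩⟩
    obtain ⟨M, hMT, hMmax⟩ := T.exists_max_image (fun i : S => mo.toSyn (i : σ →₀ ℕ)) hTne
    rw [hT, Finset.mem_filter] at hMT
    have h1 := congrArg (coeff (M : σ →₀ ℕ)) hg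
    rw [coeff_sum, coeff_zero, Finset.sum_eq_single M] at h1
    · rw [coeff_smul, smul_eq_mul] at h1
      rcases mul_eq_zero.1 h1 with h2 | h2
      · exact hMT.2 h2
      · have h3 := (hP M M.2).2.2
        have h4 : coeff (mo.degree (P M)) (P M) ≠ 0 :=
          (mo.coeff_degree_ne_zero_iff).2 (hP M M.2).2.1
        rw [h3] at h4
        exact h4 h2
    · intro i hi hiM
      rw [coeff_smul, smul_eq_mul]
      by_cases hgi : g i = 0
      · rw [hgi, zero_mul]
      · have hiT : i ∈ T := by
          rw [hT, Finset.mem_filter]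
          exact ⟨hi, hgi⟩
        have h5 : mo.toSyn (i : σ →₀ ℕ) ≤ mo.toSyn (M : σ →₀ ℕ) := hMmax i hiT
        have h6 : mo.toSyn (i : σ →₀ ℕ) ≠ mo.toSyn (M : σ →₀ ℕ) := fun e =>
          hiM (Subtype.ext (mo.toSyn.injective e))
        have h7 : mo.toSyn (i : σ →₀ ℕ) < mo.toSyn (M : σ →₀ ℕ) := lt_of_le_of_ne h5 h6
        have h8 : coeff (M : σ →₀ ℕ) (P i) = 0 := by
          refine mo.coeff_eq_zero_of_lt ?_
          rw [(hP i i.2).2.2]
          exact h7
        rw [h8, mul_zero]
    · intro hM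
      exact absurd hMT.1 hM
  have hspan : Set.range (fun M : S => P M) ≤ Submodule.span A (Set.range v) := by
    rintro _ ⟨M, rfl⟩
    exact (hP M M.2).1
  have h := linearIndependent_le_span' (fun M : S => P M) hli (Set.range v) hspan
  rw [Cardinal.mk_fintype, Fintype.card_coe] at h
  have h2 : S.card ≤ Fintype.card (Set.range v) := by exact_mod_cast h
  refine h2.trans ?_
  calc Fintype.card (Set.range v) ≤ Fintype.card (Fin d) := Fintype.card_range_le v
    _ = d := Fintype.card_fin d

end Pool.Agent.DAng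
end

section

set_option autoImplicit false

namespace Pool.Agent.DAng

open MvPolynomial

/-- If all nonzero elements of a submodule have leading monomial in the finite set `S` then its rank is at most `|S|`.
PROOF. The family `l ↦ (fun M : S => coeff M (h l)) : Fin r → (S → A)` is linearly independent: if `∑ c_l coeff_M(h_l) = 0`
for all `M ∈ S` and `H = ∑ c_l h_l ≠ 0` then `mo.degree H ∈ S` and the coefficient of `H` at `mo.degree H` is nonzero,
contradiction; so `H = 0` and `c = 0` as `h` is linearly independent. Hence `r ≤ |S|`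
(`LinearIndependent.fintype_card_le_finrank` for the free module `S → A`, `A` a domain, or
`Matrix`/`linearIndependent_le_span`). -/
theorem C2 {σ A : Type*} [CommRing A] [IsDomain A] (mo : MonomialOrder σ) (r : ℕ)
    (V : Submodule A (MvPolynomial σ A)) (h : Fin r → MvPolynomial σ A)
    (hli : LinearIndependent A h) (hV : ∀ l, h l ∈ V) (S : Finset (σ →₀ ℕ))
    (hS : ∀ P ∈ V, P ≠ 0 → mo.degree P ∈ S) : r ≤ S.card := by
  classical
  have hli2 : LinearIndependent A (fun l : Fin r => fun M : S => coeff (M : σ →₀ ℕ) (h l)) := by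
    rw [Fintype.linearIndependent_iff]
    intro c hc
    have hH : ∑ l, c l • h l = 0 := by
      by_contra hne
      have hmem : ∑ l, c l • h l ∈ V :=
        Submodule.sum_mem _ fun l _ => Submodule.smul_mem _ _ (hV l)
      have h1 := hS _ hmem hne
      have h2 : coeff (mo.degree (∑ l, c l • h l)) (∑ l, c l • h l) ≠ 0 :=
        (mo.coeff_degree_ne_zero_iff).2 hne
      have h3 := congrFun hc ⟨_, h1⟩
      apply h2
      rw [coeff_sum]
      rw [Finset.sum_apply] at h3
      simpa [coeff_smul] using h3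
    exact Fintype.linearIndependent_iff.1 hli c hH
  have h4 := hli2.fintype_card_le_finrank
  rw [Fintype.card_fin, Module.finrank_pi, Fintype.card_coe] at h4
  exact h4

end Pool.Agent.DAng
end

section

set_option autoImplicit false

namespace Pool.Agent.DAng

open MvPolynomial

/-- If `X_s a + X_t b = 0` with `s ≠ t` then `a = X_t H`, `b = - X_s H` for some `H`.
PROOF. `X_t ∣ X_s a` and `X_t` is prime (`MvPolynomial.prime_X` or `X_dvd_iff...`), and does not divide `X_s`
(`MvPolynomial.X_dvd_X`), so `a = X_t H`; cancel `X_t` in `X_s X_t H + X_t b = 0`. -/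
theorem C3 {σ A : Type*} [CommRing A] [IsDomain A] (s t : σ) (hst : s ≠ t)
    (a b : MvPolynomial σ A) (h : X s * a + X t * b = 0) :
    ∃ H : MvPolynomial σ A, a = X t * H ∧ b = -(X s * H) := by
  have h1 : (X t : MvPolynomial σ A) ∣ X s * a :=
    ⟨-b, by
      have : X s * a = -(X t * b) := eq_neg_of_add_eq_zero_left h
      rw [this]
      ring⟩
  have hp : Prime (X t : MvPolynomial σ A) := MvPolynomial.X_prime
  have h2 : ¬ (X t : MvPolynomial σ A) ∣ X s := by
    rw [MvPolynomial.X_dvd_X]
    exact fun e => hst e.symm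
  obtain ⟨H, hH⟩ := (hp.dvd_or_dvd h1).resolve_left h2
  refine ⟨H, hH, ?_⟩
  have h3 : X t * b = X t * (-(X s * H)) := by
    rw [hH] at h
    linear_combination h
  exact mul_left_cancel₀ hp.ne_zero h3

end Pool.Agent.DAng
end

section

set_option autoImplicit false

namespace Pool.Agent.DAng

open MvPolynomial

/-- coefficients of `cmap`. PROOF. `coeff M` of the sum of monomials; use `α 0 = 0` outside the support. -/
theorem coeff_cmap {σ A : Type*} [CommRing A] (α : A → A) (h0 : α 0 = 0) (P : MvPolynomial σ A)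
    (M : σ →₀ ℕ) : coeff M (cmap α P) = α (coeff M P) := by
  classical
  unfold cmap
  rw [coeff_sum]
  simp only [coeff_monomial]
  rw [Finset.sum_ite_eq']
  split_ifs with h
  · rfl
  · rw [notMem_support_iff.1 h, h0]

section
variable {σ A : Type*} [CommRing A] [Algebra ℂ A] (α : Derivation ℂ A A) (i s : σ)

/-- PROOF. coefficients. -/
theorem Dt_add (P Q : MvPolynomial σ A) : Dt α i s (P + Q) = Dt α i s P + Dt α i s Q := by
  have h : cmap α (P + Q) = cmap α P + cmap α Q := by
    ext M
    rw [coeff_add, coeff_cmap _ (map_zero α), coeff_cmap _ (map_zero α),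
      coeff_cmap _ (map_zero α), coeff_add, map_add]
  unfold Dt
  rw [h, map_add]
  ring

/-- PROOF. Leibniz: `cmap α (P Q) = cmap α P * Q + P * cmap α Q` by `coeff_mul` and the Leibniz rule for `α`;
`pderiv` is a derivation. -/
theorem Dt_mul (P Q : MvPolynomial σ A) :
    Dt α i s (P * Q) = Dt α i s P * Q + P * Dt α i s Q := by
  classical
  have h : cmap α (P * Q) = cmap α P * Q + P * cmap α Q := by
    ext M
    rw [coeff_add, coeff_cmap _ (map_zero α), coeff_mul, coeff_mul, coeff_mul, map_sum,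
      ← Finset.sum_add_distrib]
    refine Finset.sum_congr rfl fun x _ => ?_
    rw [Derivation.leibniz, coeff_cmap _ (map_zero α), coeff_cmap _ (map_zero α), smul_eq_mul,
      smul_eq_mul]
    ring
  unfold Dt
  rw [h, Derivation.leibniz, smul_eq_mul, smul_eq_mul]
  ring

/-- PROOF. `cmap α (C c) = C (α c)`, `pderiv s (C c) = 0`. -/
theorem Dt_C (c : A) : Dt α i s (C c) = C (α c) := by
  classical
  have h : cmap α (C c : MvPolynomial σ A) = C (α c) := by
    ext M
    rw [coeff_cmap _ (map_zero α), coeff_C, coeff_C]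
    split_ifs
    · rfl
    · exact map_zero α
  unfold Dt
  rw [h, pderiv_C, mul_zero, add_zero]

open Classical in
/-- PROOF. `cmap α (X t) = 0` because `α 1 = 0`, `α 0 = 0`; `pderiv s (X t) = Pi.single s 1 t`. -/
theorem Dt_X (t : σ) : Dt α i s (X t : MvPolynomial σ A) = if t = s then X i else 0 := by
  have h : cmap α (X t : MvPolynomial σ A) = 0 := by
    ext M
    rw [coeff_cmap _ (map_zero α), coeff_X', coeff_zero]
    split_ifs
    · exact α.map_one_eq_zero
    · exact map_zero α
  unfold Dt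
  rw [h, pderiv_X, zero_add, Pi.single_apply]
  split_ifs
  · rw [mul_one]
  · rw [mul_zero]

/-- PROOF. From `Dt_add`. -/
theorem Dt_zero : Dt α i s (0 : MvPolynomial σ A) = 0 := by
  have h := Dt_add α i s (0 : MvPolynomial σ A) 0
  rw [add_zero] at h
  exact left_eq_add.1 h

/-- PROOF. induction from `Dt_add`, `Dt_zero`. -/
theorem Dt_sum {ι : Type*} (T : Finset ι) (f : ι → MvPolynomial σ A) :
    Dt α i s (∑ k ∈ T, f k) = ∑ k ∈ T, Dt α i s (f k) := by
  classical
  induction T using Finset.induction_on with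
  | empty => rw [Finset.sum_empty, Finset.sum_empty, Dt_zero]
  | insert a T ha ih => rw [Finset.sum_insert ha, Finset.sum_insert ha, Dt_add, ih]

/-- PROOF. From `Dt_add`, `Dt_zero` (or coefficients). -/
theorem Dt_neg (P : MvPolynomial σ A) : Dt α i s (-P) = - Dt α i s P := by
  have h := Dt_add α i s P (-P)
  rw [add_neg_cancel, Dt_zero] at h
  exact (neg_eq_of_add_eq_zero_right h.symm).symm
end

end Pool.Agent.DAng
end

section

set_option autoImplicit false

namespace Pool.Agent.DAng

open MvPolynomial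

/-- THE IDENTITY. Let `D_b u_{k+1} = D_a u_k`, `D_b u_0 = 0`, `u_k = 0` for `k ≥ d`, and
`∑_{k<d} θ_k u_k = X_1 H`, `∑_{k<d} θ_{k+1} u_k = - X_0 H`. Then
`2 X_i H + X_0 D_a H + X_1 D_b H = ∑_{k<d} (β θ_k - α θ_{k+1}) u_k`, with `D_a = Dt α i s0`, `D_b = Dt β i s1`.
PROOF. Apply `D_b` to the first relation: `∑ (β θ_k) u_k + ∑ θ_k D_b u_k = X_i H + X_1 D_b H` (`Dt_mul`, `Dt_C`, `Dt_X`).
Apply `D_a` to the second: `∑ (α θ_{k+1}) u_k + ∑ θ_{k+1} D_a u_k = -(X_i H + X_0 D_a H)`. And
`∑_{k<d} θ_k D_b u_k = ∑_{k<d} θ_{k+1} D_a u_k`: shift the index (`Finset.sum_range_succ'`, term `k = 0` vanishes, and the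
term `θ_d D_a u_{d-1} = θ_d D_b u_d = 0`). Subtract. -/
theorem C5 {σ A : Type*} [CommRing A] [Algebra ℂ A] (α β : Derivation ℂ A A) (i s0 s1 : σ)
    (h01 : s0 ≠ s1) (hi0 : i ≠ s0) (hi1 : i ≠ s1) (d : ℕ)
    (u : ℕ → MvPolynomial σ A) (hud : ∀ k, d ≤ k → u k = 0)
    (hD0 : Dt β i s1 (u 0) = 0) (hD : ∀ k, Dt β i s1 (u (k + 1)) = Dt α i s0 (u k))
    (θ : ℕ → A) (H : MvPolynomial σ A)
    (h1 : ∑ k ∈ Finset.range d, C (θ k) * u k = X s1 * H)
    (h2 : ∑ k ∈ Finset.range d, C (θ (k + 1)) * u k = -(X s0 * H)) :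
    2 * X i * H + X s0 * Dt α i s0 H + X s1 * Dt β i s1 H =
      ∑ k ∈ Finset.range d, C (β (θ k) - α (θ (k + 1))) * u k := by
  classical
  have e1 := congrArg (Dt β i s1) h1
  have e2 := congrArg (Dt α i s0) h2
  rw [Dt_sum, Dt_mul, Dt_X, if_pos rfl] at e1
  rw [Dt_sum, Dt_neg, Dt_mul, Dt_X, if_pos rfl] at e2
  simp only [Dt_mul, Dt_C] at e1 e2
  rw [Finset.sum_add_distrib] at e1 e2
  have e3 : ∑ k ∈ Finset.range d, C (θ k) * Dt β i s1 (u k) =
      ∑ k ∈ Finset.range d, C (θ (k + 1)) * Dt α i s0 (u k) := by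
    have h3 := Finset.sum_range_succ (fun k => C (θ k) * Dt β i s1 (u k)) d
    have h4 := Finset.sum_range_succ' (fun k => C (θ k) * Dt β i s1 (u k)) d
    rw [hud d le_rfl, Dt_zero, mul_zero, add_zero] at h3
    rw [hD0, mul_zero, add_zero] at h4
    rw [← h3, h4]
    refine Finset.sum_congr rfl fun k _ => ?_
    rw [hD k]
  have e4 : ∑ k ∈ Finset.range d, C (β (θ k) - α (θ (k + 1))) * u k =
      ∑ k ∈ Finset.range d, C (β (θ k)) * u k - ∑ k ∈ Finset.range d, C (α (θ (k + 1))) * u k := by
    rw [← Finset.sum_sub_distrib]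
    refine Finset.sum_congr rfl fun k _ => ?_
    rw [C_sub, sub_mul]
  rw [e4]
  rw [e3] at e1
  linear_combination e2 - e1

end Pool.Agent.DAng
end
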