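import Pool.Agent.Lib.MP_e3689b_an.Mg.G021

section

set_option autoImplicit false

namespace Pool.Agent.DAng

open MvPolynomial

theorem H6_evR_Pik {m d N : ℕ} (F : Option (Fin N) → MvPolynomial (Fin (m + 1)) ℂ)
    (a b : Fin m → ℂ) (x : Sg m → ℂ) (k : ℕ) :
    evR a b x (Pik m d F k) =
      ∑ j, sg j * evA a b ((phi m (F j)).coeff k) * evR a b x (gam m d (F j)) := by
  unfold Pik
  rw [map_sum]
  refine Finset.sum_congr rfl fun j _ => ?_
  rw [map_mul]
  congr 1
  unfold evR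
  rw [coe_eval₂Hom, eval₂_C, map_mul]
  unfold evA
  rw [eval_C]

/-- The values of `∑_k Pik k t^k`.
PROOF. `evR` of `Pik` is `∑_j sg j * evA ((phi m (F j)).coeff k) * evR (gam (F j))`; multiply by `t^k`, sum over `k ≤ d`
(`phi_natDegree`, so this is the full evaluation `phi_eval`) and use `gam_eval`. -/
theorem Pik_eval {m d N : ℕ} (F : Option (Fin N) → MvPolynomial (Fin (m + 1)) ℂ)
    (hF : ∀ j, (F j).totalDegree ≤ d) (a b : Fin m → ℂ) (x : Sg m → ℂ) (t : ℂ)
    (h0 : evR a b x (w0 m) ≠ 0) :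
    ∑ k ∈ Finset.range (d + 1), evR a b x (Pik m d F k) * t ^ k =
      evR a b x (w0 m) ^ d * ∑ j, sg j * (eval (pt a b t) (F j) *
        eval (fun i => - evR a b x (ww m i) / evR a b x (w0 m)) (cj (F j))) := by
  have h1 : ∀ j, ∑ k ∈ Finset.range (d + 1), evA a b ((phi m (F j)).coeff k) * t ^ k =
      eval (pt a b t) (F j) := by
    intro j
    rw [← phi_eval a b t (F j), Polynomial.eval_eq_sum_range' (n := d + 1)]
    · exact Finset.sum_congr rfl fun k _ => by rw [Polynomial.coeff_map]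
    · refine Nat.lt_succ_of_le (le_trans Polynomial.natDegree_map_le ?_)
      exact le_trans (phi_natDegree (F j)) (hF j)
  have h2 : ∀ k ∈ Finset.range (d + 1), evR a b x (Pik m d F k) * t ^ k =
      ∑ j, sg j * (evA a b ((phi m (F j)).coeff k) * t ^ k) * evR a b x (gam m d (F j)) := by
    intro k _
    rw [H6_evR_Pik, Finset.sum_mul]
    exact Finset.sum_congr rfl fun j _ => by ring
  rw [Finset.sum_congr rfl h2, Finset.sum_comm, Finset.mul_sum]
  refine Finset.sum_congr rfl fun j _ => ?_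
  rw [← Finset.sum_mul, ← Finset.mul_sum, h1 j, gam_eval (F j) (hF j) a b x h0]
  ring

/-- `Pik k = 0` for `k > d`. PROOF. `phi_natDegree`. -/
theorem Pik_zero {m d N : ℕ} (F : Option (Fin N) → MvPolynomial (Fin (m + 1)) ℂ)
    (hF : ∀ j, (F j).totalDegree ≤ d) (k : ℕ) (hk : d < k) : Pik m d F k = 0 := by
  unfold Pik
  refine Finset.sum_eq_zero fun j _ => ?_
  rw [Polynomial.coeff_eq_zero_of_natDegree_lt
    (lt_of_le_of_lt (le_trans (phi_natDegree (F j)) (hF j)) hk), mul_zero, map_zero, zero_mul]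

end Pool.Agent.DAng
end

section

set_option autoImplicit false

namespace Pool.Agent.DAng

open MvPolynomial

private lemma L1_evR_X {m : ℕ} (a b : Fin m → ℂ) (x : Sg m → ℂ) (v : Sg m) :
    evR a b x (X v) = x v := by
  unfold evR
  rw [coe_eval₂Hom, eval₂_X]

private lemma L1_evR_C {m : ℕ} (a b : Fin m → ℂ) (x : Sg m → ℂ) (c : CA m) :
    evR a b x (C c) = evA a b c := by
  unfold evR
  rw [coe_eval₂Hom, eval₂_C]

private lemma L1_evA_inl {m : ℕ} (a b : Fin m → ℂ) (i : Fin m) : evA a b (X (Sum.inl i)) = a i := by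
  unfold evA
  rw [eval_X, Sum.elim_inl]

private lemma L1_evA_inr {m : ℕ} (a b : Fin m → ℂ) (i : Fin m) : evA a b (X (Sum.inr i)) = b i := by
  unfold evA
  rw [eval_X, Sum.elim_inr]

private lemma L1_Xs_xi {m : ℕ} (a b : Fin m → ℂ) (s : ℂ) (i : Fin m) :
    Xs a b s (xi i) = - (starRingEnd ℂ) (a i + s * b i) := rfl

private lemma L1_Xs_x0 {m : ℕ} (a b : Fin m → ℂ) (s : ℂ) :
    Xs a b s x0 = 1 - ∑ i, a i * (starRingEnd ℂ) (a i + s * b i) := rfl

private lemma L1_Xs_x1 {m : ℕ} (a b : Fin m → ℂ) (s : ℂ) :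
    Xs a b s x1 = - (starRingEnd ℂ) s - ∑ i, b i * (starRingEnd ℂ) (a i + s * b i) := rfl

/-- Values of the dual variables `Xs a b s`: `w_0 = 1`, `w = - conj (pt a b s)`, and
`x_0 + t x_1 = 1 - ∑ z_i conj ζ_i`, `z = pt a b t`, `ζ = pt a b s`.
PROOF. Unfold; `Fin.sum_univ_succ`. -/
theorem Xs_w {m : ℕ} (a b : Fin m → ℂ) (s : ℂ) :
    evR a b (Xs a b s) (w0 m) = 1 ∧
    ∀ i, evR a b (Xs a b s) (ww m i) = - (starRingEnd ℂ) (pt a b s i) := by
  constructor
  · unfold w0
    rw [map_sub, map_sum, L1_evR_X, L1_Xs_x0]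
    have h : ∀ i : Fin m, evR a b (Xs a b s) (C (X (Sum.inl i)) * X (xi i)) =
        - (a i * (starRingEnd ℂ) (a i + s * b i)) := by
      intro i
      rw [map_mul, L1_evR_C, L1_evA_inl, L1_evR_X, L1_Xs_xi, mul_neg]
    rw [Finset.sum_congr rfl fun i _ => h i, Finset.sum_neg_distrib]
    ring
  · intro i
    refine Fin.cases ?_ (fun j => ?_) i
    · unfold ww pt
      rw [Fin.cons_zero, Fin.cons_zero, map_sub, map_sum, L1_evR_X, L1_Xs_x1]
      have h : ∀ i : Fin m, evR a b (Xs a b s) (C (X (Sum.inr i)) * X (xi i)) =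
          - (b i * (starRingEnd ℂ) (a i + s * b i)) := by
        intro i
        rw [map_mul, L1_evR_C, L1_evA_inr, L1_evR_X, L1_Xs_xi, mul_neg]
      rw [Finset.sum_congr rfl fun i _ => h i, Finset.sum_neg_distrib]
      ring
    · unfold ww pt
      rw [Fin.cons_succ, Fin.cons_succ, L1_evR_X, L1_Xs_xi]

theorem Xs_x {m : ℕ} (a b : Fin m → ℂ) (s t : ℂ) :
    Xs a b s x0 + t * Xs a b s x1 =
      1 - ∑ i, pt a b t i * (starRingEnd ℂ) (pt a b s i) := by
  rw [L1_Xs_x0, L1_Xs_x1, Fin.sum_univ_succ]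
  unfold pt
  simp only [Fin.cons_zero, Fin.cons_succ]
  rw [mul_sub, Finset.mul_sum]
  have h : ∑ i : Fin m, (a i + t * b i) * (starRingEnd ℂ) (a i + s * b i) =
      ∑ i : Fin m, a i * (starRingEnd ℂ) (a i + s * b i) +
        ∑ i : Fin m, t * (b i * (starRingEnd ℂ) (a i + s * b i)) := by
    rw [← Finset.sum_add_distrib]
    refine Finset.sum_congr rfl fun i _ => ?_
    ring
  rw [h]
  ring

private lemma L1_cj {n : ℕ} (ζ : Fin n → ℂ) (G : MvPolynomial (Fin n) ℂ) :
    eval (fun i => (starRingEnd ℂ) (ζ i)) (cj G) = (starRingEnd ℂ) (eval ζ G) := by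
  unfold cj
  rw [eval_map]
  have h := eval₂_comp_left (starRingEnd ℂ) (RingHom.id ℂ) ζ G
  rw [RingHom.comp_id] at h
  exact h.symm

/-- The quotient on the line. PROOF. Multiply the defining relations of `IsQuot` by `t^k` and sum over `k ≤ d`:
`∑_k evR (Pik k) t^k = (x_0 + t x_1) ∑_{k<d} evR (u k) t^k`; use `Pik_eval` with `w_0 = 1` and `Xs_w`, `Xs_x`;
`eval (conj z) (cj G) = conj (eval z G)`. -/
theorem L1 {m d N : ℕ} (F : Option (Fin N) → MvPolynomial (Fin (m + 1)) ℂ)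
    (hF : ∀ j, (F j).totalDegree ≤ d) (u : ℕ → CR m) (hu : IsQuot m d F u)
    (a b : Fin m → ℂ) (t s : ℂ) :
    ∑ j, sg j * (eval (pt a b t) (F j) * (starRingEnd ℂ) (eval (pt a b s) (F j))) =
      (1 - ∑ i, pt a b t i * (starRingEnd ℂ) (pt a b s i)) *
        ∑ k ∈ Finset.range d, evR a b (Xs a b s) (u k) * t ^ k := by
  obtain ⟨hw0, hw⟩ := Xs_w a b s
  obtain ⟨hu1, hu2, hu3⟩ := hu
  have h1 := Pik_eval F hF a b (Xs a b s) t (by rw [hw0]; exact one_ne_zero)
  rw [hw0, one_pow, one_mul] at h1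
  have h2 : (fun i => - evR a b (Xs a b s) (ww m i) / 1) =
      fun i => (starRingEnd ℂ) (pt a b s i) := by
    funext i
    rw [hw i, neg_neg, div_one]
  rw [h2] at h1
  have h3 : ∑ j, sg j * (eval (pt a b t) (F j) * (starRingEnd ℂ) (eval (pt a b s) (F j))) =
      ∑ k ∈ Finset.range (d + 1), evR a b (Xs a b s) (Pik m d F k) * t ^ k := by
    rw [h1]
    refine Finset.sum_congr rfl fun j _ => ?_
    rw [L1_cj]
  rw [h3, ← Xs_x]
  have h4 : evR a b (Xs a b s) (u d) = 0 := by rw [hu1 d le_rfl, map_zero]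
  have h5 : ∑ k ∈ Finset.range (d + 1), evR a b (Xs a b s) (u k) * t ^ k =
      ∑ k ∈ Finset.range d, evR a b (Xs a b s) (u k) * t ^ k := by
    rw [Finset.sum_range_succ, h4, zero_mul, add_zero]
  have h6 : ∀ k, evR a b (Xs a b s) (Pik m d F (k + 1)) * t ^ (k + 1) =
      Xs a b s x0 * (evR a b (Xs a b s) (u (k + 1)) * t ^ (k + 1)) +
        t * Xs a b s x1 * (evR a b (Xs a b s) (u k) * t ^ k) := by
    intro k
    rw [hu3 k, map_add, map_mul, map_mul, L1_evR_X, L1_evR_X]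
    ring
  rw [Finset.sum_range_succ', Finset.sum_congr rfl fun k _ => h6 k, Finset.sum_add_distrib,
    ← Finset.mul_sum, ← Finset.mul_sum, hu2, map_mul, L1_evR_X, pow_zero, mul_one]
  rw [Finset.sum_range_succ', pow_zero, mul_one] at h5
  linear_combination (Xs a b s x0) * h5

end Pool.Agent.DAng
end

section

set_option autoImplicit false

namespace Pool.Agent.DAng

open MvPolynomial

/-- The line meets the ball in a disc: `1 - ⟨z(t), z(s)⟩ = κ (ρ² - (t - t0) conj (s - t0))`.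
PROOF. `κ = 1 + ∑ |b_i|²`, `t0 = -(∑ a_i conj b_i)/κ`, `ρ² = (1 - ∑ |a_i|²)/κ + |t0|² > 0`. Expand. -/
theorem L2 {m : ℕ} (a b : Fin m → ℂ) (ha : ∑ i, ‖a i‖ ^ 2 < 1) :
    ∃ (κ ρ : ℝ) (t0 : ℂ), 0 < κ ∧ 0 < ρ ∧ ∀ t s : ℂ,
      1 - ∑ i, pt a b t i * (starRingEnd ℂ) (pt a b s i) =
        κ * (ρ ^ 2 - (t - t0) * (starRingEnd ℂ) (s - t0)) := by
  have hB : 0 ≤ ∑ i, ‖b i‖ ^ 2 := Finset.sum_nonneg (fun i _ => by positivity)
  set κ : ℝ := 1 + ∑ i, ‖b i‖ ^ 2 with hκ
  have hκ0 : 0 < κ := by linarith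
  set t0 : ℂ := -(∑ i, a i * (starRingEnd ℂ) (b i)) / κ with ht0
  set r2 : ℝ := (1 - ∑ i, ‖a i‖ ^ 2) / κ + ‖t0‖ ^ 2 with hr2
  have hr2pos : 0 < r2 := by
    have h1 : 0 < (1 - ∑ i, ‖a i‖ ^ 2) / κ := div_pos (by linarith) hκ0
    have h2 : 0 ≤ ‖t0‖ ^ 2 := by positivity
    linarith
  refine ⟨κ, Real.sqrt r2, t0, hκ0, Real.sqrt_pos.mpr hr2pos, ?_⟩
  intro t s
  have hsq : ((Real.sqrt r2 : ℝ) : ℂ) ^ 2 = ((r2 : ℝ) : ℂ) := by
    rw [← Complex.ofReal_pow, Real.sq_sqrt hr2pos.le]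
  have hκC : (κ : ℂ) ≠ 0 := by exact_mod_cast hκ0.ne'
  have hnorm : ∀ z : ℂ, ((‖z‖ : ℝ) : ℂ) ^ 2 = z * (starRingEnd ℂ) z := by
    intro z
    rw [Complex.mul_conj, Complex.normSq_eq_norm_sq]
    push_cast
    rfl
  have hκe : (κ : ℂ) = 1 + ∑ i, b i * (starRingEnd ℂ) (b i) := by
    rw [hκ]
    push_cast
    congr 1
    exact Finset.sum_congr rfl (fun i _ => hnorm (b i))
  have hr2e : (κ : ℂ) * ((r2 : ℝ) : ℂ) = (1 - ∑ i, a i * (starRingEnd ℂ) (a i)) +
      κ * (t0 * (starRingEnd ℂ) t0) := by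
    rw [hr2]
    push_cast
    rw [mul_add, mul_div_cancel₀ _ hκC, hnorm]
    congr 2
    exact Finset.sum_congr rfl (fun i _ => hnorm (a i))
  have ht0e : (κ : ℂ) * t0 = -(∑ i, a i * (starRingEnd ℂ) (b i)) := by
    rw [ht0, mul_div_cancel₀ _ hκC]
  have ht0c : (κ : ℂ) * (starRingEnd ℂ) t0 = -(∑ i, b i * (starRingEnd ℂ) (a i)) := by
    have := congrArg (starRingEnd ℂ) ht0e
    rw [map_mul, Complex.conj_ofReal, map_neg, map_sum] at this
    rw [this]
    congr 1
    apply Finset.sum_congr rfl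
    intro i _
    rw [map_mul, Complex.conj_conj, mul_comm]
  rw [hsq, mul_sub, hr2e]
  have hexp : (κ : ℂ) * ((t - t0) * (starRingEnd ℂ) (s - t0)) =
      κ * (t * (starRingEnd ℂ) s) - t * (κ * (starRingEnd ℂ) t0) - (κ * t0) * (starRingEnd ℂ) s
        + κ * (t0 * (starRingEnd ℂ) t0) := by
    rw [map_sub]; ring
  rw [hexp, ht0c, ht0e, hκe]
  have hsum : ∑ i, pt a b t i * (starRingEnd ℂ) (pt a b s i) =
      t * (starRingEnd ℂ) s + ∑ i, a i * (starRingEnd ℂ) (a i)
        + t * (∑ i, b i * (starRingEnd ℂ) (a i))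
        + (∑ i, a i * (starRingEnd ℂ) (b i)) * (starRingEnd ℂ) s
        + (∑ i, b i * (starRingEnd ℂ) (b i)) * (t * (starRingEnd ℂ) s) := by
    rw [Fin.sum_univ_succ]
    simp only [pt, Fin.cons_zero, Fin.cons_succ]
    rw [Finset.mul_sum, Finset.sum_mul, Finset.sum_mul, add_assoc, add_assoc, add_assoc,
      ← Finset.sum_add_distrib, ← Finset.sum_add_distrib, ← Finset.sum_add_distrib]
    congr 1
    apply Finset.sum_congr rfl
    intro i _
    rw [map_add, map_mul]
    ring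
  rw [hsum]
  ring

end Pool.Agent.DAng
end

section

set_option autoImplicit false

namespace Pool.Agent.DAng

open MvPolynomial

open Metric Real in
/-- Cauchy formula against the Szegő kernel.
PROOF. On `|t| = 1`: `conj (1 / (1 - conj w * t)) = 1/(1 - w * conj t) = t/(t - w)` since `conj t = t⁻¹`. Use
`circleAverage_congr_sphere` and `DiffContOnCl.circleAverage_smul_div` (c = 0, R = 1). -/
theorem P1 (G : ℂ → ℂ) (hG : DiffContOnCl ℂ G (ball 0 1)) (w : ℂ) (hw : ‖w‖ < 1) :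
    circleAverage (fun t => G t * (starRingEnd ℂ) (1 / (1 - (starRingEnd ℂ) w * t))) 0 1 = G w := by
  have hw' : w ∈ ball (0 : ℂ) |(1 : ℝ)| := by
    rw [abs_one, mem_ball, dist_zero_right]
    exact hw
  have hG' : DiffContOnCl ℂ G (ball 0 |(1 : ℝ)|) := by rw [abs_one]; exact hG
  rw [← hG'.circleAverage_smul_div hw']
  apply circleAverage_congr_sphere
  intro t ht
  rw [abs_one, mem_sphere, dist_zero_right] at ht
  have ht0 : t ≠ 0 := by
    rintro rfl
    simp at ht
  have h1 : t * (starRingEnd ℂ) t = 1 := by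
    rw [Complex.mul_conj, Complex.normSq_eq_norm_sq, ht]
    norm_num
  have h2 : t - w ≠ 0 := by
    intro h
    rw [sub_eq_zero] at h
    rw [h] at ht
    linarith
  have h3 : 1 - w * (starRingEnd ℂ) t ≠ 0 := by
    intro h
    apply h2
    have h4 : t - w = t * (1 - w * (starRingEnd ℂ) t) := by
      linear_combination w * h1
    rw [h4, h, mul_zero]
  show G t * (starRingEnd ℂ) (1 / (1 - (starRingEnd ℂ) w * t)) = ((t - 0) / (t - w)) • G t
  rw [map_div₀, map_sub, map_one, map_mul, Complex.conj_conj, smul_eq_mul, sub_zero]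
  field_simp
  linear_combination (w * G t) * h1

open Metric Real in
/-- Rational functions without poles in the closed disc.
PROOF. `t ↦ (B t) / (q t)` is differentiable at every point with `q t ≠ 0`; so differentiable on the closed ball,
hence `DiffContOnCl` on the ball (`DifferentiableOn.diffContOnCl` with `closure (ball 0 1) = closedBall 0 1`). -/
theorem P1b (B q : Polynomial ℂ) (hq : ∀ t : ℂ, ‖t‖ ≤ 1 → q.eval t ≠ 0) (w : ℂ) (hw : ‖w‖ < 1) :
    DiffContOnCl ℂ (fun t => B.eval t / q.eval t * (1 / (1 - (starRingEnd ℂ) w * t))) (ball 0 1) := by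
  apply DifferentiableOn.diffContOnCl
  intro t ht
  rw [closure_ball (0 : ℂ) one_ne_zero, mem_closedBall, dist_zero_right] at ht
  apply DifferentiableAt.differentiableWithinAt
  have h1 : 1 - (starRingEnd ℂ) w * t ≠ 0 := by
    intro h
    have h2 : (starRingEnd ℂ) w * t = 1 := by linear_combination -h
    have h3 : ‖(starRingEnd ℂ) w * t‖ = 1 := by rw [h2, norm_one]
    rw [norm_mul, RCLike.norm_conj] at h3
    nlinarith [norm_nonneg w, norm_nonneg t]
  apply DifferentiableAt.mul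
  · exact (B.differentiable t).div (q.differentiable t) (hq t ht)
  · have h5 : DifferentiableAt ℂ (fun t : ℂ => 1 - (starRingEnd ℂ) w * t) t :=
      (differentiableAt_const _).sub (differentiableAt_id.const_mul _)
    exact (differentiableAt_const _).div h5 h1

end Pool.Agent.DAng
end

section

set_option autoImplicit false

namespace Pool.Agent.DAng

open MvPolynomial


open Metric in
private lemma P2_den {w t : ℂ} (hw : ‖w‖ < 1) (ht : ‖t‖ ≤ 1) :
    1 - (starRingEnd ℂ) w * t ≠ 0 := by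
  intro h
  have h2 : (starRingEnd ℂ) w * t = 1 := by linear_combination -h
  have h3 : ‖(starRingEnd ℂ) w * t‖ = 1 := by rw [h2, norm_one]
  rw [norm_mul, RCLike.norm_conj] at h3
  nlinarith [norm_nonneg w, norm_nonneg t]

open Metric in
private lemma P2_ker {w t : ℂ} (hw : ‖w‖ < 1) (ht : ‖t‖ ≤ 1) :
    DifferentiableAt ℂ (fun t : ℂ => 1 / (1 - (starRingEnd ℂ) w * t)) t := by
  have h5 : DifferentiableAt ℂ (fun t : ℂ => 1 - (starRingEnd ℂ) w * t) t :=
    (differentiableAt_const _).sub (differentiableAt_id.const_mul _)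
  exact (differentiableAt_const _).div h5 (P2_den hw ht)

open Metric in
private lemma P2_diff {d : ℕ} (w : Fin d → ℂ) (hw : ∀ i, ‖w i‖ < 1) (B q : Polynomial ℂ)
    (hq : ∀ t : ℂ, ‖t‖ ≤ 1 → q.eval t ≠ 0) (a : Fin d → ℂ) {t : ℂ} (ht : ‖t‖ ≤ 1) :
    DifferentiableAt ℂ (fun t => B.eval t / q.eval t *
      (∑ i, a i * (1 / (1 - (starRingEnd ℂ) (w i) * t)))) t := by
  apply DifferentiableAt.mul
  · exact (B.differentiable t).div (q.differentiable t) (hq t ht)
  · apply DifferentiableAt.fun_sum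
    intro i _
    exact (P2_ker (hw i) ht).const_mul _

open Metric Real in
/-- The basic inner products. `k_w(t) = 1/(1 - w̄ t)`.
Let `h = ∑ a_i k_{w_i}`, `h' = ∑ a'_i k_{w_i}` and `r = B/q` without poles in the closed disc. Then the circle average of
`r h conj(h')` is `∑_i conj(a'_i) r(w_i) h(w_i)`.
PROOF. Expand `conj(h')`, use additivity of the circle average (all functions are continuous on the circle,
hence circle integrable) and `P1` for `G = r h` (`P1b` for each term). -/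
theorem P2 {d : ℕ} (w : Fin d → ℂ) (hw : ∀ i, ‖w i‖ < 1) (B q : Polynomial ℂ)
    (hq : ∀ t : ℂ, ‖t‖ ≤ 1 → q.eval t ≠ 0) (a a' : Fin d → ℂ) :
    circleAverage (fun t => B.eval t / q.eval t * (∑ i, a i * (1 / (1 - (starRingEnd ℂ) (w i) * t))) *
      (starRingEnd ℂ) (∑ i, a' i * (1 / (1 - (starRingEnd ℂ) (w i) * t)))) 0 1 =
    ∑ i, (starRingEnd ℂ) (a' i) * (B.eval (w i) / q.eval (w i) *
      ∑ l, a l * (1 / (1 - (starRingEnd ℂ) (w l) * w i))) := by
  obtain ⟨G, hG⟩ : ∃ G : ℂ → ℂ, ∀ t, G t = B.eval t / q.eval t *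
      (∑ i, a i * (1 / (1 - (starRingEnd ℂ) (w i) * t))) := ⟨_, fun _ => rfl⟩
  have hGf : G = fun t => B.eval t / q.eval t *
      (∑ i, a i * (1 / (1 - (starRingEnd ℂ) (w i) * t))) := funext hG
  have hdiff : ∀ t : ℂ, ‖t‖ ≤ 1 → DifferentiableAt ℂ G t := by
    intro t ht
    rw [hGf]
    exact P2_diff w hw B q hq a ht
  have hGc : DiffContOnCl ℂ G (ball 0 1) := by
    apply DifferentiableOn.diffContOnCl
    intro t ht
    rw [closure_ball (0 : ℂ) one_ne_zero, mem_closedBall, dist_zero_right] at ht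
    exact (hdiff t ht).differentiableWithinAt
  have e1 : (fun t => B.eval t / q.eval t * (∑ i, a i * (1 / (1 - (starRingEnd ℂ) (w i) * t))) *
      (starRingEnd ℂ) (∑ i, a' i * (1 / (1 - (starRingEnd ℂ) (w i) * t)))) =
      fun t => ∑ i, (starRingEnd ℂ) (a' i) • (G t *
        (starRingEnd ℂ) (1 / (1 - (starRingEnd ℂ) (w i) * t))) := by
    funext t
    rw [← hG, map_sum, Finset.mul_sum]
    refine Finset.sum_congr rfl fun i _ => ?_
    rw [map_mul, smul_eq_mul]
    ring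
  have hci : ∀ i : Fin d, CircleIntegrable (fun t => G t *
        (starRingEnd ℂ) (1 / (1 - (starRingEnd ℂ) (w i) * t))) 0 1 := by
    intro i
    apply ContinuousOn.circleIntegrable zero_le_one
    intro t ht
    rw [mem_sphere, dist_zero_right] at ht
    apply ContinuousAt.continuousWithinAt
    apply ContinuousAt.mul (hdiff t ht.le).continuousAt
    exact Complex.continuous_conj.continuousAt.comp (P2_ker (hw i) ht.le).continuousAt
  have hci' : ∀ i ∈ (Finset.univ : Finset (Fin d)),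
      CircleIntegrable (fun t => (starRingEnd ℂ) (a' i) • (G t *
        (starRingEnd ℂ) (1 / (1 - (starRingEnd ℂ) (w i) * t)))) 0 1 :=
    fun i _ => (hci i).const_smul
  rw [e1, circleAverage_fun_sum hci']
  refine Finset.sum_congr rfl fun i _ => ?_
  rw [circleAverage_fun_smul, P1 G hGc (w i) (hw i), hG, smul_eq_mul]

end Pool.Agent.DAng
end
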