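import Pool.Agent.Lib.MP_e3689b_an.Mg.G021
import Pool.Agent.Lib.MP_e3689b_an.Mg.G023
import Pool.Agent.Lib.MP_e3689b_an.Mg.G015

section

set_option autoImplicit false

namespace Pool.Agent.DAng

open MvPolynomial

/-- the substitution `X_0 ↦ - t X_1` -/
noncomputable def H7_eps {σ A : Type} [CommRing A] [DecidableEq σ] (s0 s1 : σ) :
    Polynomial (MvPolynomial σ A) →+* Polynomial (MvPolynomial σ A) :=
  Polynomial.eval₂RingHom (eval₂Hom
    ((Polynomial.C : MvPolynomial σ A →+* Polynomial (MvPolynomial σ A)).comp C)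
    (fun v => if v = s0 then -(Polynomial.X * Polynomial.C (X s1)) else Polynomial.C (X v)))
    Polynomial.X

theorem H7_x0_ne_x1 {m : ℕ} : (x0 : Sg m) ≠ x1 := by
  intro h
  have h1 : (Sum.inr 0 : Fin m ⊕ Fin 2) = Sum.inr 1 := h
  simp at h1

section
variable {σ A : Type} [CommRing A] [DecidableEq σ] (s0 s1 : σ)

theorem H7_eps_X : H7_eps (A := A) s0 s1 Polynomial.X = Polynomial.X := by
  simp [H7_eps]

theorem H7_eps_CC (c : A) :
    H7_eps s0 s1 (Polynomial.C (C c)) = Polynomial.C (C c) := by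
  simp [H7_eps]

theorem H7_eps_CX (v : σ) :
    H7_eps (A := A) s0 s1 (Polynomial.C (X v)) =
      (if v = s0 then -(Polynomial.X * Polynomial.C (X s1)) else Polynomial.C (X v) :
        Polynomial (MvPolynomial σ A)) := by
  unfold H7_eps
  rw [Polynomial.coe_eval₂RingHom, Polynomial.eval₂_C, coe_eval₂Hom, eval₂_X]

theorem H7_dvd (P : Polynomial (MvPolynomial σ A)) :
    (Polynomial.C (X s0) + Polynomial.X * Polynomial.C (X s1) : Polynomial (MvPolynomial σ A)) ∣
      P - H7_eps s0 s1 P := by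
  rw [← Ideal.mem_span_singleton, ← Ideal.Quotient.mk_eq_mk_iff_sub_mem]
  set I : Ideal (Polynomial (MvPolynomial σ A)) :=
    Ideal.span {Polynomial.C (X s0) + Polynomial.X * Polynomial.C (X s1)} with hI
  have : (Ideal.Quotient.mk I) = (Ideal.Quotient.mk I).comp (H7_eps s0 s1) := by
    apply Polynomial.ringHom_ext'
    · apply MvPolynomial.ringHom_ext
      · intro c
        simp only [RingHom.comp_apply, H7_eps_CC]
      · intro v
        simp only [RingHom.comp_apply, H7_eps_CX]
        split_ifs with hv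
        · rw [Ideal.Quotient.mk_eq_mk_iff_sub_mem, hv, sub_neg_eq_add]
          exact Ideal.subset_span rfl
        · rfl
    · simp only [RingHom.comp_apply, H7_eps_X]
  exact congrArg (fun f => f P) this

theorem H7_val (f : A →+* ℂ) (x : σ → ℂ) (t : ℂ) (P : Polynomial (MvPolynomial σ A)) :
    ((H7_eps s0 s1 P).map (eval₂Hom f x)).eval t =
      (P.map (eval₂Hom f (Function.update x s0 (-(t * x s1))))).eval t := by
  rw [Polynomial.eval_map, Polynomial.eval_map]
  have : (Polynomial.eval₂RingHom (eval₂Hom f x) t).comp (H7_eps s0 s1) =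
      Polynomial.eval₂RingHom (eval₂Hom f (Function.update x s0 (-(t * x s1)))) t := by
    apply Polynomial.ringHom_ext'
    · apply MvPolynomial.ringHom_ext
      · intro c
        simp only [RingHom.comp_apply, H7_eps_CC]
        simp
      · intro v
        simp only [RingHom.comp_apply, H7_eps_CX]
        split_ifs with hv
        · simp [hv]
          ring
        · simp [hv]
    · simp only [RingHom.comp_apply, H7_eps_X]
      simp
  exact congrArg (fun f => f P) this

omit [DecidableEq σ] in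
theorem H7_zero {ι : Type} (f : ι → A →+* ℂ) (hf : ∀ a : A, (∀ i, f i a = 0) → a = 0)
    (P : Polynomial (MvPolynomial σ A))
    (h : ∀ (i : ι) (x : σ → ℂ) (t : ℂ), (P.map (eval₂Hom (f i) x)).eval t = 0) :
    P = 0 := by
  have h1 : ∀ (i : ι) (x : σ → ℂ), P.map (eval₂Hom (f i) x) = 0 := by
    intro i x
    apply Polynomial.funext
    intro t
    rw [h, Polynomial.eval_zero]
  ext1 k
  rw [Polynomial.coeff_zero]
  have h2 : ∀ (i : ι), MvPolynomial.map (f i) (P.coeff k) = 0 := by
    intro i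
    apply MvPolynomial.funext
    intro x
    rw [map_zero]
    have := congrArg (fun Q => Polynomial.coeff Q k) (h1 i x)
    simp only [Polynomial.coeff_map, Polynomial.coeff_zero] at this
    rw [coe_eval₂Hom] at this
    rw [eval_map]
    exact this
  ext1 M
  rw [coeff_zero]
  apply hf
  intro i
  have := congrArg (coeff M) (h2 i)
  rwa [coeff_map, coeff_zero] at this

theorem H7_main [IsDomain A] (h01 : s0 ≠ s1) {ι : Type} (f : ι → A →+* ℂ)
    (hf : ∀ a : A, (∀ i, f i a = 0) → a = 0)
    (W : MvPolynomial σ A) (i0 : ι) (y0 : σ → ℂ) (t0 : ℂ)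
    (hW : eval₂Hom (f i0) (Function.update y0 s0 (-(t0 * y0 s1))) W ≠ 0)
    (P : Polynomial (MvPolynomial σ A))
    (h : ∀ (i : ι) (x : σ → ℂ) (t : ℂ), x s0 + t * x s1 = 0 → eval₂Hom (f i) x W ≠ 0 →
      (P.map (eval₂Hom (f i) x)).eval t = 0) :
    ∃ U : Polynomial (MvPolynomial σ A),
      P = (Polynomial.C (X s0) + Polynomial.X * Polynomial.C (X s1)) * U := by
  have h1 : H7_eps s0 s1 P * H7_eps s0 s1 (Polynomial.C W) = 0 := by
    apply H7_zero f hf
    intro i x t
    rw [Polynomial.map_mul, Polynomial.eval_mul, H7_val, H7_val, Polynomial.map_C,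
      Polynomial.eval_C]
    by_cases hw : eval₂Hom (f i) (Function.update x s0 (-(t * x s1))) W = 0
    · rw [hw, mul_zero]
    · rw [h i _ t _ hw, zero_mul]
      rw [Function.update_self, Function.update_of_ne h01.symm]
      ring
  have h2 : H7_eps s0 s1 P = 0 := by
    rcases mul_eq_zero.mp h1 with h2 | h2
    · exact h2
    · exfalso
      have := H7_val s0 s1 (f i0) y0 t0 (Polynomial.C W)
      rw [h2, Polynomial.map_zero, Polynomial.eval_zero, Polynomial.map_C, Polynomial.eval_C] at this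
      exact hW this.symm
  have h3 := H7_dvd s0 s1 P
  rw [h2, sub_zero] at h3
  exact h3

end

/-- Division by `X_0 + t X_1`: if `P ∈ R[t]`, `R = CR m`, is such that for all complex values with `x_0 + t x_1 = 0` and `w_0 ≠ 0` it
vanishes, then `P = (X_0 + t X_1) U`.
PROOF. Let `ε : R[t] →+* R[t]` be the `CA m[t]`-algebra homomorphism with `X_0 ↦ - t X_1` and the other variables fixed
(`Polynomial.eval₂RingHom (eval₂Hom (Polynomial.C.comp C) (fun v => if v = x0 then -(Polynomial.X * Polynomial.C (X x1)) else Polynomial.C (X v))) Polynomial.X`).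
(i) `Λ = C X_0 + t C X_1` divides `P - ε P` for all `P`: modulo `Λ` the two ring homomorphisms `mk` and `mk ∘ ε` from `R[t]` agree
on the constants, on `t` and on the variables, hence are equal. (ii) For all complex `a, b, x, t`: the value of `ε P` at `(a,b,x,t)` is the value of
`P` at `(a,b,x',t)` with `x'_0 = - t x_1`, `x' = x` elsewhere. By hypothesis the product `ε P * ε (C (w0 m))` has all values `0`, so it is `0`
(a polynomial in `R[t]` with all values zero is zero: `Polynomial.funext` for fixed `a,b,x` gives `evR a b x (coeff k) = 0` for all `k`;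
then `MvPolynomial.funext` twice: write `evR a b x P = eval x (map (evA a b) P)`). `R[t]` is a domain and
`ε (C w0) = - t X_1 - ∑ a_i X_i ≠ 0` (e.g. its coefficient of `t^1` is `- X_1 ≠ 0`), so `ε P = 0` and `Λ ∣ P`. -/
theorem H7 {m : ℕ} (P : Polynomial (CR m))
    (h : ∀ (a b : Fin m → ℂ) (x : Sg m → ℂ) (t : ℂ), x x0 + t * x x1 = 0 →
      evR a b x (w0 m) ≠ 0 → (P.map (evR a b x)).eval t = 0) :
    ∃ U : Polynomial (CR m),
      P = (Polynomial.C (X x0) + Polynomial.X * Polynomial.C (X x1)) * U := by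
  refine H7_main (σ := Sg m) (A := CA m) x0 x1 H7_x0_ne_x1
    (ι := (Fin m → ℂ) × (Fin m → ℂ)) (fun p => evA p.1 p.2) ?_ (w0 m) (0, 0) (fun _ => 1) 1 ?_ P ?_
  · intro q hq
    apply MvPolynomial.funext
    intro y
    rw [map_zero]
    have := hq (fun i => y (Sum.inl i), fun i => y (Sum.inr i))
    rw [evA] at this
    rw [← this]
    congr 2
    funext s
    rcases s with s | s <;> rfl
  · simp [w0, evA]
  · intro p x t hx hw
    exact h p.1 p.2 x t hx hw

end Pool.Agent.DAng
end

section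

set_option autoImplicit false

namespace Pool.Agent.DAng

open MvPolynomial

/-- Existence of the quotient sequence `u`.
PROOF. `P := ∑ k ∈ range (d+1), C (Pik k) * X^k ∈ R[t]`. For complex values with `x_0 + t x_1 = 0`, `w_0 ≠ 0`: by `Pik_eval` the value is
`w_0^d * ∑_j sg j F_j(z) F̄_j(ω)` with `z = pt a b t`, `ω_i = -w_i/w_0`, and
`∑ z_i ω_i = -(t w_1 + ∑ (a_i + t b_i) x_i)/w_0 = -(t x_1 + ∑ a_i x_i)/w_0 = (x_0 - ∑ a_i x_i)/w_0 = 1`, so `Quad` gives `0`. By `H7`
`P = Λ U`. Put `u k = U.coeff k`. Comparing coefficients: `Pik 0 = X_0 u_0`, `Pik (k+1) = X_0 u_{k+1} + X_1 u_k` (for `k + 1 > d` both sides: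
`Pik_zero`). `natDegree U ≤ d - 1`: if `U ≠ 0`, `natDegree (Λ U) = 1 + natDegree U ≤ d` (`R` is a domain, `d ≥ 1`; for `U ≠ 0`), so `u k = 0` for `k ≥ d`. -/
theorem H8 {m d N : ℕ} (F : Option (Fin N) → MvPolynomial (Fin (m + 1)) ℂ)
    (hF : ∀ j, (F j).totalDegree ≤ d) (hQ : Quad F) : ∃ u : ℕ → CR m, IsQuot m d F u := by
  classical
  set P : Polynomial (CR m) := ∑ k ∈ Finset.range (d + 1),
    Polynomial.C (Pik m d F k) * Polynomial.X ^ k with hP
  have hcoeff : ∀ k, P.coeff k = Pik m d F k := by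
    intro k
    rw [hP, Polynomial.finsetSum_coeff]
    simp only [Polynomial.coeff_C_mul, Polynomial.coeff_X_pow, mul_ite, mul_one, mul_zero]
    rw [Finset.sum_ite_eq]
    split_ifs with hk
    · rfl
    · rw [Finset.mem_range, not_lt] at hk
      rw [Pik_zero F hF k (by omega)]
  have hdiv : ∀ (a b : Fin m → ℂ) (x : Sg m → ℂ) (t : ℂ), x x0 + t * x x1 = 0 →
      evR a b x (w0 m) ≠ 0 → (P.map (evR a b x)).eval t = 0 := by
    intro a b x t hx h0
    have h1 : (P.map (evR a b x)).eval t =
        ∑ k ∈ Finset.range (d + 1), evR a b x (Pik m d F k) * t ^ k := by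
      rw [hP, Polynomial.map_sum, Polynomial.eval_finsetSum]
      apply Finset.sum_congr rfl
      intro k _
      simp
    rw [h1, Pik_eval F hF a b x t h0]
    have hw0 : evR a b x (w0 m) = x x0 - ∑ i, a i * x (xi i) := by
      simp [w0, evR, evA]
    have hw1 : evR a b x (ww m 0) = x x1 - ∑ i, b i * x (xi i) := by
      simp [ww, evR, evA]
    have hws : ∀ i : Fin m, evR a b x (ww m i.succ) = x (xi i) := by
      intro i
      simp [ww, evR]
    have hq := hQ (pt a b t) (fun i => - evR a b x (ww m i) / evR a b x (w0 m)) ?_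
    · rw [hq, mul_zero]
    · rw [Fin.sum_univ_succ]
      simp only [pt, Fin.cons_zero, Fin.cons_succ, hw1, hws]
      have h2 : ∑ i : Fin m, (a i + t * b i) * (-x (xi i) / evR a b x (w0 m)) =
          -(∑ i, a i * x (xi i) + t * ∑ i, b i * x (xi i)) / evR a b x (w0 m) := by
        rw [Finset.mul_sum, ← Finset.sum_add_distrib, ← Finset.sum_neg_distrib, Finset.sum_div]
        apply Finset.sum_congr rfl
        intro i _
        ring
      rw [h2]
      field_simp
      rw [hw0]
      linear_combination -hx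
  obtain ⟨U, hU⟩ := H7 P hdiv
  have hx01 : (X x0 : CR m) ≠ 0 := X_ne_zero _
  have hx1 : (X x1 : CR m) ≠ 0 := X_ne_zero _
  have hrel : ∀ k, Pik m d F (k + 1) = X x0 * U.coeff (k + 1) + X x1 * U.coeff k := by
    intro k
    rw [← hcoeff (k + 1), hU, add_mul, Polynomial.coeff_add, Polynomial.coeff_C_mul, mul_assoc,
      Polynomial.coeff_X_mul, Polynomial.coeff_C_mul]
  refine ⟨fun k => U.coeff k, ?_, ?_, hrel⟩
  · by_cases hU0 : U = 0
    · intro k _
      simp [hU0]
    · intro k hk
      by_contra hne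
      have hkn : d ≤ U.natDegree := le_trans hk (Polynomial.le_natDegree_of_ne_zero hne)
      have h3 := hrel U.natDegree
      rw [Pik_zero F hF (U.natDegree + 1) (by omega), Polynomial.coeff_natDegree,
        Polynomial.coeff_eq_zero_of_natDegree_lt (Nat.lt_succ_self _), mul_zero, zero_add] at h3
      rcases mul_eq_zero.mp h3.symm with h | h
      · exact hx1 h
      · exact hU0 (Polynomial.leadingCoeff_eq_zero.mp h)
  · show Pik m d F 0 = X x0 * U.coeff 0
    rw [← hcoeff 0, hU, add_mul, Polynomial.coeff_add, Polynomial.coeff_C_mul, mul_assoc,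
      Polynomial.coeff_X_mul_zero, add_zero]

end Pool.Agent.DAng
end

section

set_option autoImplicit false

namespace Pool.Agent.DAng

open MvPolynomial

/-- `∂_{b_i} (F(t, a + t b)) = t ∂_{a_i} (F(t, a + t b))`, coefficientwise.
PROOF. Let `D_a` be the map `Polynomial (CA m) → Polynomial (CA m)` applying `pderiv (inl i)` to the coefficients, `D_b` likewise with
`pderiv (inr i)`; both satisfy the Leibniz rule. Claim `D_b (phi G) = X * D_a (phi G)` by `MvPolynomial.induction_on G`: constants: `0 = 0`;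
sums; product with a variable: `D_b (phi G * phi (X k)) = ...` and the claim for `phi (X 0) = X` (both derivatives `0`) and
`phi (X (succ k)) = C a_k + X C b_k` (`D_b = δ X`, `D_a = δ`). Read off the coefficients.
It may be easier to do the induction directly with the two coefficient statements
(`Polynomial.coeff_mul_X`, `coeff_mul_C`). -/
theorem phi_deriv {m : ℕ} (i : Fin m) (G : MvPolynomial (Fin (m + 1)) ℂ) :
    pderiv (Sum.inr i) ((phi m G).coeff 0) = 0 ∧
    ∀ k, pderiv (Sum.inr i) ((phi m G).coeff (k + 1)) = pderiv (Sum.inl i) ((phi m G).coeff k) := by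
  classical
  induction G using MvPolynomial.induction_on with
  | C c =>
    have h1 : phi m (C c) = Polynomial.C (C c) := by
      unfold phi
      rw [aeval_C]
      rfl
    rw [h1]
    refine ⟨by simp, fun k => ?_⟩
    rw [Polynomial.coeff_C_succ, map_zero]
    rcases k with _ | k
    · simp
    · rw [Polynomial.coeff_C_succ, map_zero]
  | add p q hp hq =>
    simp only [map_add, Polynomial.coeff_add]
    refine ⟨by rw [hp.1, hq.1, add_zero], fun k => ?_⟩
    rw [hp.2 k, hq.2 k]
  | mul_X p j hp =>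
    rw [map_mul]
    have hX : ∀ l : Fin (m + 1), phi m (X l) = (Fin.cons Polynomial.X
        (fun i : Fin m => Polynomial.C (X (Sum.inl i)) + Polynomial.X * Polynomial.C (X (Sum.inr i))) :
        Fin (m + 1) → Polynomial (CA m)) l := fun l => by
      unfold phi
      rw [aeval_X]
    rw [hX]
    refine Fin.cases ?_ (fun l => ?_) j
    · rw [Fin.cons_zero]
      refine ⟨by simp, fun k => ?_⟩
      rw [Polynomial.coeff_mul_X]
      rcases k with _ | k
      · rw [hp.1]
        simp
      · rw [Polynomial.coeff_mul_X, hp.2 k]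
    · rw [Fin.cons_succ]
      set P := phi m p with hP
      have e0 : (P * (Polynomial.C (X (Sum.inl l)) + Polynomial.X * Polynomial.C (X (Sum.inr l)))).coeff 0
          = P.coeff 0 * X (Sum.inl l) := by
        rw [mul_add, Polynomial.coeff_add, Polynomial.coeff_mul_C, ← mul_assoc,
          Polynomial.coeff_mul_C]
        simp
      have e1 : ∀ k, (P * (Polynomial.C (X (Sum.inl l)) +
          Polynomial.X * Polynomial.C (X (Sum.inr l)))).coeff (k + 1)
          = P.coeff (k + 1) * X (Sum.inl l) + P.coeff k * X (Sum.inr l) := by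
        intro k
        rw [mul_add, Polynomial.coeff_add, Polynomial.coeff_mul_C, ← mul_assoc,
          Polynomial.coeff_mul_C, Polynomial.coeff_mul_X]
      have d1 : pderiv (Sum.inr i) (X (Sum.inl l) : CA m) = 0 :=
        pderiv_X_of_ne (by simp)
      have d2 : pderiv (Sum.inl i) (X (Sum.inr l) : CA m) = 0 :=
        pderiv_X_of_ne (by simp)
      have d3 : pderiv (Sum.inr i) (X (Sum.inr l) : CA m) = pderiv (Sum.inl i) (X (Sum.inl l) : CA m) := by
        rw [pderiv_X, pderiv_X]
        by_cases h : i = l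
        · subst h; simp
        · have h1 : (Sum.inr i : Fin m ⊕ Fin m) ≠ Sum.inr l := fun h2 => h (Sum.inr_injective h2)
          have h3 : (Sum.inl i : Fin m ⊕ Fin m) ≠ Sum.inl l := fun h2 => h (Sum.inl_injective h2)
          rw [Pi.single_eq_of_ne (Ne.symm h1), Pi.single_eq_of_ne (Ne.symm h3)]
      refine ⟨?_, fun k => ?_⟩
      · rw [e0, Derivation.leibniz, hp.1, d1]
        simp
      · rw [e1]
        rcases k with _ | k
        · rw [e0]
          simp only [map_add, Derivation.leibniz, hp.1, hp.2, d1, d3]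
          simp only [smul_eq_mul, smul_zero]
          ring
        · rw [e1]
          simp only [map_add, Derivation.leibniz, hp.2, d1, d2, d3]
          simp only [smul_eq_mul, smul_zero]
          ring

end Pool.Agent.DAng
end

section

set_option autoImplicit false

namespace Pool.Agent.DAng

open MvPolynomial

section H4aux
variable {m : ℕ} (α : Derivation ℂ (CA m) (CA m)) (i s : Sg m)

lemma H4_one : Dt α i s (1 : CR m) = 0 := by
  have h := Dt_C α i s (1 : CA m)
  rw [C_1] at h
  rw [h]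
  simp

lemma H4_pow (P : CR m) (hP : Dt α i s P = 0) (k : ℕ) : Dt α i s (P ^ k) = 0 := by
  induction k with
  | zero => rw [pow_zero, H4_one]
  | succ k ih => rw [pow_succ, Dt_mul, ih, hP, zero_mul, mul_zero, add_zero]

lemma H4_aeval {τ : Type*} (f : τ → CR m) (hf : ∀ j, Dt α i s (f j) = 0) (p : MvPolynomial τ ℂ) :
    Dt α i s (aeval f p) = 0 := by
  induction p using MvPolynomial.induction_on with
  | C c =>
    have h1 : (aeval f (C c) : CR m) = C (C c) := by
      rw [aeval_C]
      rfl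
    rw [h1, Dt_C]
    have h2 : α (C c) = 0 := α.map_algebraMap c
    rw [h2, map_zero]
  | add p q hp hq => rw [map_add, Dt_add, hp, hq, add_zero]
  | mul_X p j hp => rw [map_mul, Dt_mul, hp, aeval_X, hf j, zero_mul, mul_zero, add_zero]

lemma H4_gam (h0 : Dt α i s (w0 m) = 0) (hw : ∀ j, Dt α i s (ww m j) = 0) (d : ℕ)
    (G : MvPolynomial (Fin (m + 1)) ℂ) : Dt α i s (gam m d G) = 0 := by
  unfold gam
  rw [Dt_sum]
  refine Finset.sum_eq_zero fun e _ => ?_
  rw [Dt_mul, H4_pow α i s _ h0, H4_aeval α i s _ (fun j => by rw [Dt_neg, hw j, neg_zero]),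
    zero_mul, mul_zero, add_zero]

lemma H4_sub (P Q : CR m) : Dt α i s (P - Q) = Dt α i s P - Dt α i s Q := by
  rw [sub_eq_add_neg, Dt_add, Dt_neg, ← sub_eq_add_neg]

end H4aux

lemma H4_xi_x0 {m : ℕ} (k : Fin m) : (xi k : Sg m) ≠ x0 := by
  unfold xi x0
  intro h
  have := toLex.injective h
  exact absurd this (by simp)

lemma H4_xi_x1 {m : ℕ} (k : Fin m) : (xi k : Sg m) ≠ x1 := by
  unfold xi x1
  intro h
  have := toLex.injective h
  exact absurd this (by simp)

lemma H4_x0_x1 {m : ℕ} : (x0 : Sg m) ≠ x1 := by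
  unfold x0 x1
  intro h
  have := toLex.injective h
  exact absurd this (by simp)

/-- The `gam`s are killed by the total derivations.
PROOF. `Dt` is a derivation over `ℂ` (`Dt_add`, `Dt_mul`, `Dt_C`), and kills `w0`: `Dt (∂_{a_i}) w0 = X_i - X_i = 0`, and
`ww 0 = X_1 - ∑ b_k X_k`: `∂_{a_i}` and `X_i ∂/∂X_0` kill it, `ww (succ k) = X_k`. Hence it kills every polynomial in these with
complex coefficients (induction: `MvPolynomial.induction_on` for `aeval`, powers by `Dt_mul`). -/
theorem gam_Da {m d : ℕ} (i : Fin m) (G : MvPolynomial (Fin (m + 1)) ℂ) :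
    Dt (pderiv (Sum.inl i) : Derivation ℂ (CA m) (CA m)) (xi i) x0 (gam m d G) = 0 := by
  classical
  apply H4_gam
  · unfold w0
    rw [H4_sub, Dt_X, if_pos rfl, Dt_sum, Finset.sum_eq_single i]
    · rw [Dt_mul, Dt_C, pderiv_X_self, Dt_X, if_neg (H4_xi_x0 i), C_1, one_mul, mul_zero, add_zero,
        sub_self]
    · intro k _ hk
      rw [Dt_mul, Dt_C, Dt_X, if_neg (H4_xi_x0 k), mul_zero, add_zero,
        pderiv_X_of_ne (fun h => hk (Sum.inl_injective h)), map_zero, zero_mul]
    · intro h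
      exact absurd (Finset.mem_univ i) h
  · intro j
    refine Fin.cases ?_ (fun k => ?_) j
    · unfold ww
      rw [Fin.cons_zero, H4_sub, Dt_X, if_neg (Ne.symm H4_x0_x1), Dt_sum, Finset.sum_eq_zero, sub_zero]
      intro k _
      rw [Dt_mul, Dt_C, Dt_X, if_neg (H4_xi_x0 k), mul_zero, add_zero,
        pderiv_X_of_ne (by simp), map_zero, zero_mul]
    · unfold ww
      rw [Fin.cons_succ, Dt_X, if_neg (H4_xi_x0 k)]

/-- PROOF. As `gam_Da`: `Dt (∂_{b_i})` with `X_i ∂/∂X_1` kills `w0 = X_0 - ∑ a_k X_k` and `ww 0 = X_1 - ∑ b_k X_k` (`X_i - X_i = 0`). -/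
theorem gam_Db {m d : ℕ} (i : Fin m) (G : MvPolynomial (Fin (m + 1)) ℂ) :
    Dt (pderiv (Sum.inr i) : Derivation ℂ (CA m) (CA m)) (xi i) x1 (gam m d G) = 0 := by
  classical
  apply H4_gam
  · unfold w0
    rw [H4_sub, Dt_X, if_neg H4_x0_x1, Dt_sum, Finset.sum_eq_zero, sub_zero]
    intro k _
    rw [Dt_mul, Dt_C, Dt_X, if_neg (H4_xi_x1 k), mul_zero, add_zero,
      pderiv_X_of_ne (by simp), map_zero, zero_mul]
  · intro j
    refine Fin.cases ?_ (fun k => ?_) j
    · unfold ww
      rw [Fin.cons_zero, H4_sub, Dt_X, if_pos rfl, Dt_sum, Finset.sum_eq_single i]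
      · rw [Dt_mul, Dt_C, pderiv_X_self, Dt_X, if_neg (H4_xi_x1 i), C_1, one_mul, mul_zero, add_zero,
          sub_self]
      · intro k _ hk
        rw [Dt_mul, Dt_C, Dt_X, if_neg (H4_xi_x1 k), mul_zero, add_zero,
          pderiv_X_of_ne (fun h => hk (Sum.inr_injective h)), map_zero, zero_mul]
      · intro h
        exact absurd (Finset.mem_univ i) h
    · unfold ww
      rw [Fin.cons_succ, Dt_X, if_neg (H4_xi_x1 k)]

end Pool.Agent.DAng
end

section

set_option autoImplicit false

namespace Pool.Agent.DAng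

open MvPolynomial

private theorem H9_P {m d N : ℕ} (F : Option (Fin N) → MvPolynomial (Fin (m + 1)) ℂ)
    (v : Fin m ⊕ Fin m) (i s : Sg m)
    (hg : ∀ G : MvPolynomial (Fin (m + 1)) ℂ,
      Dt (pderiv v : Derivation ℂ (CA m) (CA m)) i s (gam m d G) = 0) (k : ℕ) :
    Dt (pderiv v : Derivation ℂ (CA m) (CA m)) i s (Pik m d F k) =
      ∑ j, C (C (sg j) * pderiv v ((phi m (F j)).coeff k)) * gam m d (F j) := by
  unfold Pik
  rw [Dt_sum]
  apply Finset.sum_congr rfl
  intro j _
  rw [Dt_mul, hg, mul_zero, add_zero, Dt_C, pderiv_C_mul]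

/-- The relations for the total derivations of the quotient sequence.
PROOF. `D_b := Dt (pderiv (inr i)) (xi i) x1`, `D_a := Dt (pderiv (inl i)) (xi i) x0`. From `gam_Da`, `gam_Db`, `Dt_mul`, `Dt_C`, `phi_deriv`:
`D_b (Pik 0) = 0` and `D_b (Pik (k+1)) = D_a (Pik k)` (the constants `C (sg j)` are killed by the derivations of `CA m`).
With `D_a X_0 = X_i = D_b X_1`, `D_a X_1 = 0 = D_b X_0` (`Dt_X`; `xi`, `x0`, `x1` are different) and `IsQuot`:
`X_0 D_b u_0 = 0`, so `D_b u_0 = 0`. For `k ≥ 0`: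
`D_b (Pik (k+1)) = X_0 D_b u_{k+1} + X_i u_k + X_1 D_b u_k`, `D_a (Pik k) = X_i u_k + X_0 D_a u_k + X_1 D_a u_{k-1}` (without the last term if `k = 0`).
So with `e_{k+1} = D_b u_{k+1} - D_a u_k`, `e_0 = D_b u_0 = 0`: `X_0 e_{k+1} + X_1 e_k = 0`. Induction: `e_k = 0` for all `k` (`X_0` is a nonzerodivisor). -/
theorem H9 {m d N : ℕ} (F : Option (Fin N) → MvPolynomial (Fin (m + 1)) ℂ) (u : ℕ → CR m)
    (hu : IsQuot m d F u) (i : Fin m) :
    Dt (pderiv (Sum.inr i) : Derivation ℂ (CA m) (CA m)) (xi i) x1 (u 0) = 0 ∧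
    ∀ k, Dt (pderiv (Sum.inr i) : Derivation ℂ (CA m) (CA m)) (xi i) x1 (u (k + 1)) =
      Dt (pderiv (Sum.inl i) : Derivation ℂ (CA m) (CA m)) (xi i) x0 (u k) := by
  classical
  set Db : CR m → CR m := Dt (pderiv (Sum.inr i) : Derivation ℂ (CA m) (CA m)) (xi i) x1 with hDb
  set Da : CR m → CR m := Dt (pderiv (Sum.inl i) : Derivation ℂ (CA m) (CA m)) (xi i) x0 with hDa
  have hB0 : Db (Pik m d F 0) = 0 := by
    rw [hDb, H9_P F _ _ _ (gam_Db i)]
    apply Finset.sum_eq_zero
    intro j _
    rw [(phi_deriv i (F j)).1, mul_zero, C_0, zero_mul]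
  have hBA : ∀ k, Db (Pik m d F (k + 1)) = Da (Pik m d F k) := by
    intro k
    rw [hDb, hDa, H9_P F _ _ _ (gam_Db i), H9_P F _ _ _ (gam_Da i)]
    apply Finset.sum_congr rfl
    intro j _
    rw [(phi_deriv i (F j)).2 k]
  have h01 : (x0 : Sg m) ≠ x1 := by
    intro h
    have h2 := toLex.injective h
    simp at h2
  have a0 : Da (X x0) = X (xi i) := by rw [hDa, Dt_X, if_pos rfl]
  have a1 : Da (X x1) = 0 := by rw [hDa, Dt_X, if_neg h01.symm]
  have b0 : Db (X x0) = 0 := by rw [hDb, Dt_X, if_neg h01]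
  have b1 : Db (X x1) = X (xi i) := by rw [hDb, Dt_X, if_pos rfl]
  have am : ∀ P Q, Da (P * Q) = Da P * Q + P * Da Q := fun P Q => Dt_mul _ _ _ P Q
  have bm : ∀ P Q, Db (P * Q) = Db P * Q + P * Db Q := fun P Q => Dt_mul _ _ _ P Q
  have aa : ∀ P Q, Da (P + Q) = Da P + Da Q := fun P Q => Dt_add _ _ _ P Q
  have ba : ∀ P Q, Db (P + Q) = Db P + Db Q := fun P Q => Dt_add _ _ _ P Q
  have hX : (X x0 : CR m) ≠ 0 := X_ne_zero _
  have h0 : Db (u 0) = 0 := by
    have h1 := hB0
    rw [hu.2.1, bm, b0, zero_mul, zero_add] at h1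
    exact (mul_eq_zero.1 h1).resolve_left hX
  refine ⟨h0, fun k => ?_⟩
  induction k with
  | zero =>
    have h1 := hBA 0
    rw [hu.2.2 0, hu.2.1, ba, bm, bm, am, b0, b1, a0, h0] at h1
    apply mul_left_cancel₀ hX
    linear_combination h1
  | succ k ih =>
    have h1 := hBA (k + 1)
    rw [hu.2.2 (k + 1), hu.2.2 k, ba, bm, bm, aa, am, am, b0, b1, a0, a1, ih] at h1
    apply mul_left_cancel₀ hX
    linear_combination h1

end Pool.Agent.DAng
end
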