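import Pool.Agent.Lib.MP_e3689b_an.Mg.G021

section

set_option autoImplicit false

namespace Pool.Agent.DAng

open MvPolynomial

/-- Specialisation criterion for linear independence over `CA m`.
PROOF. Let `D : Matrix (Fin d) (Fin d) (CA m)`, `D k l = eval₂`-value of `u k` at the constants `x l`: i.e. `D k l = eval (fun v => C (x l v)) (u k)`
(`eval` in the coefficient ring `CA m`). `evA a b (D k l) = evR a b (x l) (u k)`, so `evA a b (det D) ≠ 0` and `det D ≠ 0`. If
`∑ c_k u_k = 0`, `c_k ∈ CA m`, evaluate: `∑_k c_k D k l = 0` for all `l`, i.e. `Matrix.vecMul c D = 0`, and `det D ≠ 0` in a domain gives `c = 0`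
(`Matrix.eq_zero_of_vecMul_eq_zero`). -/
theorem L4 {m d : ℕ} (u : ℕ → CR m) (a b : Fin m → ℂ) (x : Fin d → Sg m → ℂ)
    (h : (Matrix.of (fun k l : Fin d => evR a b (x l) (u k))).det ≠ 0) :
    LinearIndependent (CA m) (fun k : Fin d => u k) := by
  classical
  let D : Matrix (Fin d) (Fin d) (CA m) :=
    Matrix.of (fun k l : Fin d => eval (fun v => (C (x l v) : CA m)) (u k))
  have hev : ∀ (l : Fin d) (P : CR m),
      evA a b (eval (fun v => (C (x l v) : CA m)) P) = evR a b (x l) P := by
    intro l P
    have : ((evA a b).comp (eval (fun v => (C (x l v) : CA m)))) = evR a b (x l) := by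
      apply MvPolynomial.ringHom_ext
      · intro r
        simp [evR]
      · intro v
        simp [evR, evA]
    exact congrArg (fun f : CR m →+* ℂ => f P) this
  have hD : (evA a b).mapMatrix D = Matrix.of (fun k l : Fin d => evR a b (x l) (u k)) := by
    ext k l
    simp only [RingHom.mapMatrix_apply, Matrix.map_apply, Matrix.of_apply, D]
    exact hev l (u k)
  have hdet : D.det ≠ 0 := by
    intro h0
    apply h
    rw [← hD, ← RingHom.map_det, h0, map_zero]
  rw [Fintype.linearIndependent_iff]
  intro c hc
  have hv : Matrix.vecMul c D = 0 := by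
    funext l
    have h1 := congrArg (eval (fun v => (C (x l v) : CA m))) hc
    rw [map_sum, map_zero] at h1
    simp only [Matrix.vecMul, dotProduct, D, Matrix.of_apply, Pi.zero_apply]
    rw [← h1]
    apply Finset.sum_congr rfl
    intro k _
    rw [MvPolynomial.smul_eq_C_mul, map_mul, eval_C]
  have := Matrix.eq_zero_of_vecMul_eq_zero hdet hv
  intro i
  exact congrFun this i

end Pool.Agent.DAng
end

section

set_option autoImplicit false

namespace Pool.Agent.DAng

open MvPolynomial

theorem R1_sel {Q V ι : Type*} [Field Q] [AddCommGroup V] [Module Q V] [Finite ι] (v : ι → V)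
    (ρ : ℕ) (h : Module.finrank Q (Submodule.span Q (Set.range v)) = ρ) :
    ∃ g : Fin ρ → ι, LinearIndependent Q (v ∘ g) := by
  obtain ⟨κ, a, ha, hsp, hli⟩ := exists_linearIndependent' Q v
  have : Finite κ := Finite.of_injective a ha
  cases nonempty_fintype κ
  have hc : Fintype.card κ = ρ := by
    rw [← h, ← hsp]
    exact (finrank_span_eq_card hli).symm
  let e : Fin ρ ≃ κ := (Fintype.equivFinOfCardEq hc).symm
  exact ⟨a ∘ e, by simpa [Function.comp_assoc] using hli.comp e e.injective⟩

theorem R1_minor {Q J K : Type*} [Field Q] [Fintype J] [Fintype K] (M : Matrix J K Q) :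
    ∃ (f : Fin M.rank → J) (g : Fin M.rank → K), (M.submatrix f g).det ≠ 0 := by
  obtain ⟨g, hg⟩ := R1_sel M.col M.rank (Matrix.rank_eq_finrank_span_cols M).symm
  have hB : (M.submatrix id g).rank = M.rank := by
    rw [Matrix.rank_eq_finrank_span_cols (M.submatrix id g)]
    have h1 : (M.submatrix id g).col = M.col ∘ g := by
      funext i j
      rfl
    rw [h1, finrank_span_eq_card hg, Fintype.card_fin]
  obtain ⟨f, hf⟩ := R1_sel (M.submatrix id g).row M.rank (by
    rw [← Matrix.rank_eq_finrank_span_row, hB])
  refine ⟨f, g, ?_⟩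
  have h2 : (M.submatrix f g).row = (M.submatrix id g).row ∘ f := by
    funext i j
    rfl
  rw [← h2, Matrix.linearIndependent_rows_iff_isUnit, Matrix.isUnit_iff_isUnit_det] at hf
  exact hf.ne_zero

/-- Rank and relations over a domain. For a matrix over `A` with finite index types there is `ρ ≤ |K|` with a nonvanishing `ρ × ρ` minor and
`|K| - ρ` relations between the columns, linearly independent over `A`.
PROOF. Let `Q = FractionRing A`, `ρ` the rank of the matrix over `Q` (`ρ ≥ 1` if some entry is nonzero). Choose `ρ` columns which are linearly independent over `Q` and span the column space,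
then `ρ` rows of this submatrix that are linearly independent: the `ρ × ρ` submatrix has nonzero determinant over `Q`, and it is the image of the minor over
`A`. (E.g. `exists_linearIndependent'`, `Matrix.rank_transpose`.) The kernel of the matrix on `Q^K` has dimension `|K| - ρ`
(`LinearMap.finrank_range_add_finrank_ker`); take a basis and clear denominators (`IsLocalization.exist_integer_multiples_of_finite`): multiply each basis
vector by a common denominator; the resulting vectors in `A^K` are linearly independent over `A` and are killed by the matrix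
(`algebraMap` injective). -/
theorem R1 {A : Type*} [CommRing A] [IsDomain A] {J K : Type*} [Fintype J] [Fintype K]
    [DecidableEq K] (M : Matrix J K A) :
    ∃ ρ : ℕ, ρ ≤ Fintype.card K ∧ ((∃ j k, M j k ≠ 0) → 1 ≤ ρ) ∧
      (∃ (f : Fin ρ → J) (g : Fin ρ → K), (M.submatrix f g).det ≠ 0) ∧
      ∃ θ : Fin (Fintype.card K - ρ) → (K → A), LinearIndependent A θ ∧
        ∀ l, M.mulVec (θ l) = 0 := by
  let Q := FractionRing A
  have hinj : Function.Injective (algebraMap A Q) := IsFractionRing.injective A Q
  let MQ : Matrix J K Q := M.map (algebraMap A Q)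
  refine ⟨MQ.rank, MQ.rank_le_card_width, ?_, ?_, ?_⟩
  · rintro ⟨j, k, hjk⟩
    by_contra hlt
    have h0 : MQ.rank = 0 := by omega
    rw [Matrix.rank_eq_finrank_span_cols] at h0
    have h1 : Submodule.span Q (Set.range MQ.col) = ⊥ := Submodule.finrank_eq_zero.mp h0
    rw [Submodule.span_eq_bot] at h1
    have h2 := congrFun (h1 (MQ.col k) ⟨k, rfl⟩) j
    apply hjk
    apply hinj
    rw [map_zero]
    exact h2
  · obtain ⟨f, g, hfg⟩ := R1_minor MQ
    refine ⟨f, g, ?_⟩
    intro h0
    apply hfg
    have h1 : MQ.submatrix f g = (algebraMap A Q).mapMatrix (M.submatrix f g) := by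
      ext i j
      rfl
    rw [h1, ← RingHom.map_det, h0, map_zero]
  · have hker : Module.finrank Q (LinearMap.ker MQ.mulVecLin) = Fintype.card K - MQ.rank := by
      have h1 := LinearMap.finrank_range_add_finrank_ker MQ.mulVecLin
      rw [Module.finrank_fintype_fun_eq_card] at h1
      have h2 : Module.finrank Q (LinearMap.range MQ.mulVecLin) = MQ.rank := rfl
      omega
    let b := Module.finBasisOfFinrankEq Q (LinearMap.ker MQ.mulVecLin) hker
    have hden : ∀ l, ∃ s : nonZeroDivisors A, ∀ k,
        IsLocalization.IsInteger A ((s : A) • ((b l : K → Q) k)) := fun l =>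
      IsLocalization.exist_integer_multiples_of_finite (nonZeroDivisors A) (fun k => (b l : K → Q) k)
    choose s hs using hden
    choose θ hθ using hs
    refine ⟨θ, ?_, ?_⟩
    · rw [Fintype.linearIndependent_iff]
      intro c hc l
      have hb := b.linearIndependent
      rw [Fintype.linearIndependent_iff] at hb
      have h1 := hb (fun l => algebraMap A Q (c l * (s l : A))) (by
        apply Subtype.ext
        funext k
        have h2 := congrFun hc k
        simp only [Finset.sum_apply, Pi.smul_apply, Pi.zero_apply, smul_eq_mul] at h2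
        have h3 := congrArg (algebraMap A Q) h2
        rw [map_sum, map_zero] at h3
        simp only [Submodule.coe_sum, Submodule.coe_smul, Finset.sum_apply, Pi.smul_apply,
          smul_eq_mul, Submodule.coe_zero, Pi.zero_apply]
        rw [← h3]
        apply Finset.sum_congr rfl
        intro l _
        rw [map_mul, map_mul, hθ l k, Algebra.smul_def]
        ring) l
      have h4 : c l * (s l : A) = 0 := by
        apply hinj
        rw [map_zero]
        exact h1
      rcases mul_eq_zero.mp h4 with h5 | h5
      · exact h5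
      · exact absurd h5 (nonZeroDivisors.ne_zero (s l).2)
    · intro l
      funext j
      apply hinj
      have h1 : MQ.mulVec (b l : K → Q) = 0 := (b l).2
      have h2 := congrFun h1 j
      simp only [Matrix.mulVec, dotProduct, Pi.zero_apply] at h2 ⊢
      rw [map_sum, map_zero]
      have h3 : ∑ k, algebraMap A Q (M j k * θ l k) =
          algebraMap A Q (s l : A) * ∑ k, MQ j k * (b l : K → Q) k := by
        rw [Finset.mul_sum]
        apply Finset.sum_congr rfl
        intro k _
        rw [map_mul, hθ l k, Algebra.smul_def]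
        simp only [MQ, Matrix.map_apply]
        ring
      rw [h3, h2, mul_zero]

end Pool.Agent.DAng
end

section

set_option autoImplicit false

namespace Pool.Agent.DAng

open MvPolynomial

/-- A relation between the `F_k` gives the relation for `u`.
PROOF. `∑_{k ≤ d} θ_k Pik k = ∑_j sg j (∑_k θ_k (phi F_j).coeff k) gam_j = 0`. Insert `IsQuot`:
`∑_{k ≤ d} θ_k Pik k = X_0 ∑_{k ≤ d} θ_k u_k + X_1 ∑_{k < d} θ_{k+1} u_k`, and `u_d = 0`. -/
theorem R2 {m d N : ℕ} (F : Option (Fin N) → MvPolynomial (Fin (m + 1)) ℂ) (u : ℕ → CR m)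
    (hu : IsQuot m d F u) (θ : ℕ → CA m)
    (h : ∀ j, ∑ k ∈ Finset.range (d + 1), θ k * (phi m (F j)).coeff k = 0) :
    X x0 * (∑ k ∈ Finset.range d, C (θ k) * u k) +
      X x1 * (∑ k ∈ Finset.range d, C (θ (k + 1)) * u k) = 0 := by
  obtain ⟨h0, h1, h2⟩ := hu
  have hS : ∑ k ∈ Finset.range (d + 1), C (θ k) * Pik m d F k = 0 := by
    unfold Pik
    simp_rw [Finset.mul_sum]
    rw [Finset.sum_comm]
    apply Finset.sum_eq_zero
    intro j _
    have : ∀ k ∈ Finset.range (d + 1),
        C (θ k) * (C (C (sg j) * (phi m (F j)).coeff k) * gam m d (F j)) =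
          C (C (sg j)) * gam m d (F j) * C (θ k * (phi m (F j)).coeff k) := by
      intro k _
      rw [C_mul, C_mul]
      ring
    rw [Finset.sum_congr rfl this, ← Finset.mul_sum, ← map_sum, h j, map_zero, mul_zero]
  rw [Finset.sum_range_succ'] at hS
  have h3 : ∑ k ∈ Finset.range d, C (θ (k + 1)) * Pik m d F (k + 1) =
      X x0 * (∑ k ∈ Finset.range d, C (θ (k + 1)) * u (k + 1)) +
        X x1 * (∑ k ∈ Finset.range d, C (θ (k + 1)) * u k) := by
    rw [Finset.mul_sum, Finset.mul_sum, ← Finset.sum_add_distrib]
    apply Finset.sum_congr rfl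
    intro k _
    rw [h2 k]
    ring
  rw [h3, h1] at hS
  have h4 : ∑ k ∈ Finset.range d, C (θ k) * u k =
      ∑ k ∈ Finset.range d, C (θ (k + 1)) * u (k + 1) + C (θ 0) * u 0 := by
    have h5 := Finset.sum_range_succ' (fun k => (C (θ k) : CR m) * u k) d
    have h6 := Finset.sum_range_succ (fun k => (C (θ k) : CR m) * u k) d
    rw [h0 d le_rfl, mul_zero, add_zero] at h6
    rw [← h6, h5]
  rw [h4]
  linear_combination hS

end Pool.Agent.DAng
end

section

set_option autoImplicit false

namespace Pool.Agent.DAng

open MvPolynomial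

theorem U1_eval {τ : Type*} (u v : τ → ℂ) (P : MvPolynomial τ ℂ) (z : ℂ) :
    (aeval (fun t => Polynomial.C (u t) + Polynomial.X * Polynomial.C (v t)) P :
      Polynomial ℂ).eval z = eval (fun t => u t + z * v t) P := by
  induction P using MvPolynomial.induction_on with
  | C a => simp
  | add p q hp hq => rw [map_add, Polynomial.eval_add, hp, hq, map_add]
  | mul_X p i hp => rw [map_mul, Polynomial.eval_mul, hp, map_mul, aeval_X, eval_X]; simp; exact Or.inl (mul_comm _ _)

/-- A polynomial in the entries of a matrix which vanishes at all skew-Hermitian matrices is zero.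
PROOF. Fix skew-Hermitian `K₁, K₂`. The one variable polynomial `Q(λ) = P(K₁ + λ K₂)`
(`Q := aeval (fun ij => Polynomial.C (K₁ ij) + Polynomial.X * Polynomial.C (K₂ ij)) P`) vanishes at all real `λ`
(`K₁ + λ K₂` is skew-Hermitian), so it is `0` and `P(K₁ + i K₂) = Q(i) = 0`. Every matrix `M` is
`K₁ + i K₂` with `K₁ = (M - Mᴴ)/2`, `K₂ = (M + Mᴴ)/(2 i)`, both skew-Hermitian. `MvPolynomial.funext`. -/
theorem U1 {n : ℕ} (P : MvPolynomial (Fin n × Fin n) ℂ)
    (h : ∀ K : Matrix (Fin n) (Fin n) ℂ, K.conjTranspose = -K →
      eval (fun ij => K ij.1 ij.2) P = 0) : P = 0 := by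
  have key : ∀ K₁ K₂ : Matrix (Fin n) (Fin n) ℂ, K₁.conjTranspose = -K₁ →
      K₂.conjTranspose = -K₂ →
      ∀ z : ℂ, eval (fun ij => K₁ ij.1 ij.2 + z * K₂ ij.1 ij.2) P = 0 := by
    intro K₁ K₂ h1 h2 z
    obtain ⟨Q, hev⟩ : ∃ Q : Polynomial ℂ, ∀ z : ℂ,
        Q.eval z = eval (fun ij => K₁ ij.1 ij.2 + z * K₂ ij.1 ij.2) P :=
      ⟨_, fun z => U1_eval (fun ij : Fin n × Fin n => K₁ ij.1 ij.2) (fun ij => K₂ ij.1 ij.2) P z⟩
    have hz : Q = 0 := by
      apply Polynomial.eq_zero_of_infinite_isRoot
      refine Set.Infinite.mono (s := Set.range (fun r : ℝ => (r : ℂ))) ?_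
        (Set.infinite_range_of_injective Complex.ofReal_injective)
      rintro _ ⟨r, rfl⟩
      change Q.eval (r : ℂ) = 0
      rw [hev]
      have h3 := h (K₁ + (r : ℂ) • K₂) (by
        rw [Matrix.conjTranspose_add, Matrix.conjTranspose_smul, h1, h2]
        simp
        abel)
      simpa using h3
    rw [← hev, hz, Polynomial.eval_zero]
  apply MvPolynomial.funext
  intro M
  set M' : Matrix (Fin n) (Fin n) ℂ := Matrix.of (fun i j => M (i, j)) with hM'
  have h1 := key ((1 / 2 : ℂ) • (M' - M'.conjTranspose))
    ((-(Complex.I / 2)) • (M' + M'.conjTranspose)) ?_ ?_ Complex.I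
  · rw [map_zero, ← h1]
    refine congrArg (fun x => eval x P) ?_
    funext ij
    have e2 : M ij = M' ij.1 ij.2 := rfl
    rw [e2]
    simp only [Matrix.smul_apply, Matrix.sub_apply, Matrix.add_apply, smul_eq_mul]
    linear_combination ((1 / 2 : ℂ) * (M' ij.1 ij.2 + M'.conjTranspose ij.1 ij.2)) *
      (Complex.I_mul_I)
  · ext i j
    simp [Matrix.conjTranspose_apply]
    ring
  · ext i j
    simp [Matrix.conjTranspose_apply]
    ring

end Pool.Agent.DAng
end
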