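import Pool.Agent.Lib.MP_e3689b_an.Mg.G021
import Pool.Agent.Lib.MP_e3689b_an.Mg.G018
import Pool.Agent.Lib.MP_e3689b_an.Mg.G016
import Pool.Agent.Lib.MP_e3689b_an.Mg.G020

section

set_option autoImplicit false

namespace Pool.Agent.DAng

open MvPolynomial

open scoped ComplexOrder in
theorem U2_det {n : ℕ} (K : Matrix (Fin n) (Fin n) ℂ) (hK : K.conjTranspose = -K) :
    (1 - K).det ≠ 0 := by
  intro h0
  obtain ⟨v, hv, hv0⟩ := Matrix.exists_mulVec_eq_zero_iff.2 h0
  rw [Matrix.sub_mulVec, Matrix.one_mulVec, sub_eq_zero] at hv0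
  have h1 : star v ⬝ᵥ v = -(star v ⬝ᵥ v) := by
    calc star v ⬝ᵥ v = star v ⬝ᵥ (K.mulVec v) := by rw [← hv0]
      _ = (Matrix.vecMul (star v) K) ⬝ᵥ v := Matrix.dotProduct_mulVec _ _ _
      _ = -(star v ⬝ᵥ v) := by
        have h2 : Matrix.vecMul (star v) K = -(star v) := by
          have h3 : K = (-K).conjTranspose := by
            rw [← hK, Matrix.conjTranspose_conjTranspose]
          rw [h3, ← Matrix.star_mulVec, Matrix.neg_mulVec, ← hv0, star_neg]
        rw [h2, neg_dotProduct]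
  have h4 : star v ⬝ᵥ v = 0 := self_eq_neg.1 h1
  exact hv (dotProduct_star_self_eq_zero.1 h4)

/-- Cayley transform. For skew-Hermitian `K` the matrix `1 - K` is invertible and `(1 + K)(1 - K)⁻¹` is unitary.
PROOF. If `(1 - K) v = 0` then `v = K v`, `⟨v, v⟩ = ⟨v, K v⟩ = ⟨Kᴴ v, v⟩ = -⟨K v, v⟩ = -⟨v, v⟩` so `v = 0`
(with `star v ⬝ᵥ v`; use `Matrix.exists_mulVec_eq_zero_iff` for `det = 0`). Put `U = (1 + K)(1 - K)⁻¹`.
`Uᴴ = ((1 - K)ᴴ)⁻¹ (1 + K)ᴴ = (1 + K)⁻¹ (1 - K)`; (`1 + K` is invertible too: apply the first part to `-K`).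
As `(1 - K)` and `(1 + K)` commute, `Uᴴ U = (1 + K)⁻¹ (1 - K)(1 + K)(1 - K)⁻¹ = 1`. -/
theorem U2 {n : ℕ} (K : Matrix (Fin n) (Fin n) ℂ) (hK : K.conjTranspose = -K) :
    (1 - K).det ≠ 0 ∧ (1 + K) * (1 - K)⁻¹ ∈ Matrix.unitaryGroup (Fin n) ℂ := by
  have hd := U2_det K hK
  have hd' : (1 + K).det ≠ 0 := by
    have := U2_det (-K) (by rw [Matrix.conjTranspose_neg, hK])
    rwa [sub_neg_eq_add] at this
  refine ⟨hd, ?_⟩
  have hu : IsUnit (1 - K).det := isUnit_iff_ne_zero.2 hd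
  have hu' : IsUnit (1 + K).det := isUnit_iff_ne_zero.2 hd'
  rw [Matrix.mem_unitaryGroup_iff', Matrix.star_eq_conjTranspose, Matrix.conjTranspose_mul,
    Matrix.conjTranspose_nonsing_inv, Matrix.conjTranspose_sub, Matrix.conjTranspose_add,
    Matrix.conjTranspose_one, hK, sub_neg_eq_add, ← sub_eq_add_neg]
  have hc : (1 - K) * (1 + K) = (1 + K) * (1 - K) := by noncomm_ring
  calc (1 + K)⁻¹ * (1 - K) * ((1 + K) * (1 - K)⁻¹)
      = (1 + K)⁻¹ * ((1 - K) * (1 + K)) * (1 - K)⁻¹ := by simp only [mul_assoc]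
    _ = ((1 + K)⁻¹ * (1 + K)) * ((1 - K) * (1 - K)⁻¹) := by rw [hc]; simp only [mul_assoc]
    _ = 1 := by rw [Matrix.nonsing_inv_mul _ hu', Matrix.mul_nonsing_inv _ hu, one_mul]

end Pool.Agent.DAng
end

section

set_option autoImplicit false

namespace Pool.Agent.DAng

open MvPolynomial

/-- Clearing denominators: for polynomials `P` in `τ` variables, `g : τ → ℂ[σ]` and `c ∈ ℂ[σ]` there are `D` and `Q ∈ ℂ[σ]` with
`Q(x) = c(x)^D * P(g(x)/c(x))` for all `x` with `c(x) ≠ 0`.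
PROOF. Induction on `P` (`MvPolynomial.induction_on`): constant: `D = 0`; sum `P₁ + P₂`: `D = D₁ + D₂`,
`Q = c^D₂ Q₁ + c^D₁ Q₂`; `P * X_t`: `D + 1`, `Q * g t`. -/
theorem Z4 {τ σ : Type*} (P : MvPolynomial τ ℂ) (g : τ → MvPolynomial σ ℂ) (c : MvPolynomial σ ℂ) :
    ∃ (D : ℕ) (Q : MvPolynomial σ ℂ), ∀ x : σ → ℂ, eval x c ≠ 0 →
      eval x Q = (eval x c) ^ D * eval (fun t => eval x (g t) / eval x c) P := by
  induction P using MvPolynomial.induction_on with
  | C a =>
    refine ⟨0, C a, fun x _ => ?_⟩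
    simp
  | add p q hp hq =>
    obtain ⟨D₁, Q₁, h₁⟩ := hp
    obtain ⟨D₂, Q₂, h₂⟩ := hq
    refine ⟨D₁ + D₂, c ^ D₂ * Q₁ + c ^ D₁ * Q₂, fun x hx => ?_⟩
    rw [map_add, map_mul, map_mul, map_pow, map_pow, map_add, h₁ x hx, h₂ x hx]
    ring
  | mul_X p t hp =>
    obtain ⟨D₁, Q₁, h₁⟩ := hp
    refine ⟨D₁ + 1, Q₁ * g t, fun x hx => ?_⟩
    rw [map_mul, map_mul, h₁ x hx, eval_X, pow_succ]
    field_simp

end Pool.Agent.DAng
end

section

set_option autoImplicit false

namespace Pool.Agent.DAng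

open MvPolynomial

/-- the generic matrix -/
noncomputable def U3_Y (n : ℕ) : Matrix (Fin n) (Fin n) (MvPolynomial (Fin n × Fin n) ℂ) :=
  Matrix.of (fun i j => X (i, j))

theorem U3_map {n : ℕ} (K : Matrix (Fin n) (Fin n) ℂ) :
    (eval (fun ij : Fin n × Fin n => K ij.1 ij.2)).mapMatrix (U3_Y n) = K := by
  ext i j
  simp [U3_Y]

theorem U3_det {n : ℕ} (K : Matrix (Fin n) (Fin n) ℂ) :
    eval (fun ij : Fin n × Fin n => K ij.1 ij.2) (1 - U3_Y n).det = (1 - K).det := by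
  rw [RingHom.map_det, map_sub, map_one, U3_map]

theorem U3_det' {n : ℕ} (K : Matrix (Fin n) (Fin n) ℂ) :
    eval (fun ij : Fin n × Fin n => K ij.1 ij.2) (1 + U3_Y n).det = (1 + K).det := by
  rw [RingHom.map_det, map_add, map_one, U3_map]

theorem U3_g {n : ℕ} (K : Matrix (Fin n) (Fin n) ℂ) (i j : Fin n) :
    eval (fun ij : Fin n × Fin n => K ij.1 ij.2)
      (((1 + U3_Y n) * (1 - U3_Y n).adjugate) i j) = ((1 + K) * (1 - K).adjugate) i j := by
  have h1 : (eval (fun ij : Fin n × Fin n => K ij.1 ij.2)).mapMatrix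
      ((1 + U3_Y n) * (1 - U3_Y n).adjugate) = (1 + K) * (1 - K).adjugate := by
    rw [map_mul, RingHom.map_adjugate, map_add, map_sub, map_one, U3_map]
  exact congrFun (congrFun h1 i) j

theorem U3_div {n : ℕ} (K : Matrix (Fin n) (Fin n) ℂ) (i j : Fin n) :
    ((1 + K) * (1 - K).adjugate) i j / (1 - K).det = ((1 + K) * (1 - K)⁻¹) i j := by
  rw [Matrix.inv_def, Ring.inverse_eq_inv', Matrix.mul_smul, Matrix.smul_apply, smul_eq_mul,
    div_eq_inv_mul]

/-- The unitary group is Zariski dense in the matrices.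
PROOF. Let `Y = Matrix.of (fun i j => X (i, j))` be the generic matrix over `ℂ[X]`. The entries of
`(1 + Y) * (1 - Y).adjugate` are polynomials `g (i, j)`, and `c = (1 - Y).det`. By `Z4` (with this `g`, `c`) there are
`D`, `Q` with `Q(K) = det(1-K)^D P((1+K)(1-K)⁻¹)` whenever `det(1-K) ≠ 0` (as `(1-K)⁻¹ = adjugate/det`;
evaluating commutes with det and adjugate: `RingHom.map_det`, `RingHom.map_adjugate`). By `U2` and the
hypothesis, `Q` vanishes at all skew-Hermitian `K`, so `Q = 0` by `U1`. Let `g` be any matrix with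
`det(1 + g) ≠ 0`, and `K = (g - 1)(g + 1)⁻¹`. Then `1 - K = 2 (g+1)⁻¹` is invertible and
`(1 + K) = 2 g (g+1)⁻¹`, so `(1+K)(1-K)⁻¹ = g`, and `0 = Q(K) = det(1-K)^D P(g)` gives `P(g) = 0`. Hence
`P * (1 + Y).det` vanishes at all points, so it is `0`, and `(1 + Y).det ≠ 0` (value `1` at `0`), so `P = 0`. -/
theorem U3 {n : ℕ} (P : MvPolynomial (Fin n × Fin n) ℂ)
    (h : ∀ U : Matrix (Fin n) (Fin n) ℂ, U ∈ Matrix.unitaryGroup (Fin n) ℂ →
      eval (fun ij => U ij.1 ij.2) P = 0) : P = 0 := by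
  obtain ⟨D, Q, hQ⟩ := Z4 P
    (fun t : Fin n × Fin n => ((1 + U3_Y n) * (1 - U3_Y n).adjugate) t.1 t.2) (1 - U3_Y n).det
  have hQ' : ∀ K : Matrix (Fin n) (Fin n) ℂ, (1 - K).det ≠ 0 →
      eval (fun ij => K ij.1 ij.2) Q = (1 - K).det ^ D *
        eval (fun ij => ((1 + K) * (1 - K)⁻¹) ij.1 ij.2) P := by
    intro K hK
    have h1 := hQ (fun ij => K ij.1 ij.2) (by rw [U3_det]; exact hK)
    rw [h1, U3_det]
    refine congrArg (fun x => (1 - K).det ^ D * eval x P) ?_
    funext t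
    rw [U3_g, U3_div]
  have hQ0 : Q = 0 := U1 Q fun K hK => by
    obtain ⟨h1, h2⟩ := U2 K hK
    rw [hQ' K h1, h _ h2, mul_zero]
  have hP : ∀ g : Matrix (Fin n) (Fin n) ℂ, (1 + g).det ≠ 0 →
      eval (fun ij => g ij.1 ij.2) P = 0 := by
    intro g hg
    have hu : IsUnit (1 + g).det := isUnit_iff_ne_zero.2 hg
    set K : Matrix (Fin n) (Fin n) ℂ := (g - 1) * (1 + g)⁻¹ with hK
    have e0 : (1 + g) * (1 + g)⁻¹ = 1 := Matrix.mul_nonsing_inv _ hu
    have e0' : (1 + g)⁻¹ * (1 + g) = 1 := Matrix.nonsing_inv_mul _ hu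
    have e1 : 1 - K = (2 : ℂ) • (1 + g)⁻¹ := by
      have : (1 : Matrix (Fin n) (Fin n) ℂ) - K = ((1 + g) - (g - 1)) * (1 + g)⁻¹ := by
        rw [sub_mul, e0]
      rw [this]
      have e2 : (1 + g) - (g - 1) = (2 : ℂ) • (1 : Matrix (Fin n) (Fin n) ℂ) := by
        rw [two_smul]; abel
      rw [e2, Matrix.smul_mul, one_mul]
    have e3 : 1 + K = (2 : ℂ) • (g * (1 + g)⁻¹) := by
      have : (1 : Matrix (Fin n) (Fin n) ℂ) + K = ((1 + g) + (g - 1)) * (1 + g)⁻¹ := by
        rw [add_mul, e0]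
      rw [this]
      have e2 : (1 + g) + (g - 1) = (2 : ℂ) • g := by
        rw [two_smul]; abel
      rw [e2, Matrix.smul_mul]
    have e4 : (1 - K) * ((1 / 2 : ℂ) • (1 + g)) = 1 := by
      rw [e1, Matrix.smul_mul, Matrix.mul_smul, e0', smul_smul]
      norm_num
    have h1 : (1 - K).det ≠ 0 := by
      intro h0
      have := congrArg Matrix.det e4
      rw [Matrix.det_mul, h0, zero_mul, Matrix.det_one] at this
      exact zero_ne_one this
    have e5 : (1 - K)⁻¹ = (1 / 2 : ℂ) • (1 + g) := Matrix.inv_eq_right_inv e4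
    have e6 : (1 + K) * (1 - K)⁻¹ = g := by
      rw [e3, e5, Matrix.smul_mul, Matrix.mul_smul, mul_assoc, e0', mul_one, smul_smul]
      norm_num
    have h2 := hQ' K h1
    rw [hQ0, map_zero, e6] at h2
    exact (mul_eq_zero.1 h2.symm).resolve_left (pow_ne_zero _ h1)
  have hne : (1 + U3_Y n).det ≠ 0 := by
    intro h0
    have h1 := U3_det' (0 : Matrix (Fin n) (Fin n) ℂ)
    rw [h0, map_zero, add_zero, Matrix.det_one] at h1
    exact zero_ne_one h1
  have hz : P * (1 + U3_Y n).det = 0 := by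
    apply MvPolynomial.funext
    intro x
    have h1 : x = fun ij : Fin n × Fin n => (Matrix.of fun i j => x (i, j)) ij.1 ij.2 := rfl
    rw [h1, map_mul, U3_det', map_zero]
    by_cases hg : (1 + (Matrix.of fun i j => x (i, j) : Matrix (Fin n) (Fin n) ℂ)).det = 0
    · rw [hg, mul_zero]
    · rw [hP _ hg, zero_mul]
  exact (mul_eq_zero.1 hz).resolve_right hne

end Pool.Agent.DAng
end

section

set_option autoImplicit false

namespace Pool.Agent.DAng

open MvPolynomial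

/-- There is a unitary frame for which all the lines `x + t y_i` have a nonvanishing minor.
PROOF. By `lin_coeff` there is `Q : MvPolynomial (Fin (m+1) ⊕ Fin (m+1)) ℂ` with
`eval (Sum.elim x y) Q = det (fun α β => (lin x y (F (f α))).coeff (g β))` (determinant of the matrix of the polynomials, `RingHom.map_det`).
`Q ≠ 0`: the minor over `CA m` is nonzero, so it has a nonzero value at some `(a, b)` (`MvPolynomial.funext`), which is the value of `Q` at
`x = (0, a)`, `y = (1, b)` (`lin_phi`). For `i : Fin m` let `Q_i = rename (Sum.elim (fun k => (k, 0)) (fun k => (k, succ i))) Q`: nonzero because the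
renaming map is injective (`MvPolynomial.rename_injective`). The product of the `Q_i` is nonzero, so by `U3` (contrapositive) there is a
unitary matrix `V` with `eval V (∏ Q_i) ≠ 0`, hence all `eval V Q_i ≠ 0`; this is the claim for `x = V · 0`, `y_i = V · (succ i)` (columns). -/
theorem S2 {m N ρ : ℕ} (F : Option (Fin N) → MvPolynomial (Fin (m + 1)) ℂ)
    (f : Fin ρ → Option (Fin N)) (g : Fin ρ → ℕ)
    (h : (Matrix.of (fun α β : Fin ρ => (phi m (F (f α))).coeff (g β))).det ≠ 0) :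
    ∃ V : Matrix (Fin (m + 1)) (Fin (m + 1)) ℂ, V ∈ Matrix.unitaryGroup (Fin (m + 1)) ℂ ∧
      ∀ i : Fin m, (Matrix.of (fun α β : Fin ρ =>
        (lin (fun k => V k 0) (fun k => V k i.succ) (F (f α))).coeff (g β))).det ≠ 0 := by
  choose q hq using fun (α β : Fin ρ) => lin_coeff (F (f α)) (g β)
  set Q : MvPolynomial (Fin (m + 1) ⊕ Fin (m + 1)) ℂ := (Matrix.of q).det with hQ
  have hQe : ∀ x y : Fin (m + 1) → ℂ, eval (Sum.elim x y) Q =
      (Matrix.of (fun α β : Fin ρ => (lin x y (F (f α))).coeff (g β))).det := by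
    intro x y
    rw [hQ, RingHom.map_det]
    congr 1
    ext α β
    exact hq α β x y
  have hQ0 : Q ≠ 0 := by
    intro h0
    apply h
    apply MvPolynomial.funext
    intro v
    rw [map_zero]
    have hv : v = Sum.elim (fun i => v (Sum.inl i)) (fun i => v (Sum.inr i)) :=
      (Sum.elim_comp_inl_inr v).symm
    rw [hv, RingHom.map_det]
    have h1 := hQe (Fin.cons 0 (fun i => v (Sum.inl i)) : Fin (m + 1) → ℂ)
      (Fin.cons 1 (fun i => v (Sum.inr i)))
    rw [h0, map_zero] at h1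
    rw [h1]
    congr 1
    ext α β
    exact (lin_phi (fun i => v (Sum.inl i)) (fun i => v (Sum.inr i)) (F (f α)) (g β)).symm
  set r : Fin m → Fin (m + 1) ⊕ Fin (m + 1) → Fin (m + 1) × Fin (m + 1) :=
    fun i => Sum.elim (fun k => (k, 0)) (fun k => (k, i.succ)) with hr
  have hrinj : ∀ i, Function.Injective (r i) := by
    intro i
    rintro (x | x) (y | y) hxy
    · simp only [hr, Sum.elim_inl, Prod.mk.injEq, and_true] at hxy
      rw [hxy]
    · simp only [hr, Sum.elim_inl, Sum.elim_inr, Prod.mk.injEq] at hxy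
      exact absurd hxy.2.symm (Fin.succ_ne_zero i)
    · simp only [hr, Sum.elim_inl, Sum.elim_inr, Prod.mk.injEq] at hxy
      exact absurd hxy.2 (Fin.succ_ne_zero i)
    · simp only [hr, Sum.elim_inr, Prod.mk.injEq, and_true] at hxy
      rw [hxy]
  have hP : ∏ i, rename (r i) Q ≠ 0 := by
    rw [Finset.prod_ne_zero_iff]
    intro i _ h0
    exact hQ0 (rename_injective (r i) (hrinj i) (by rw [h0, map_zero]))
  by_contra hcon
  push Not at hcon
  apply hP
  apply U3
  intro U hU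
  obtain ⟨i, hi⟩ := hcon U hU
  rw [map_prod]
  apply Finset.prod_eq_zero (Finset.mem_univ i)
  rw [eval_rename]
  have h2 : ((fun ij : Fin (m + 1) × Fin (m + 1) => U ij.1 ij.2) ∘ r i) =
      Sum.elim (fun k => U k 0) (fun k => U k i.succ) := by
    funext x
    rcases x with x | x <;> rfl
  rw [h2, hQe]
  exact hi

end Pool.Agent.DAng
end

section

set_option autoImplicit false

namespace Pool.Agent.DAng

open MvPolynomial

/-- ORTHOGONALITY OF TANGENT LINES: `m (ρ - 1) + 1 ≤ N`.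
PROOF. `V` from `S2`; `x = V · 0` (column), `y_i = V · (succ i)`. Unitarity: `⟨x, x⟩ = 1`, `⟨x, y_i⟩ = ⟨y_i, x⟩ = 0`, `⟨y_i, y_{i'}⟩ = 0` for `i ≠ i'` (`Vᴴ V = 1`). So
`⟨x + s y_i, x + t y_{i'}⟩ = 1` for `i ≠ i'`, and `⟨x + s y_i, x⟩ = 1`, `⟨x, x⟩ = 1` (take `y' = 0`: `lin x 0 G = C (eval x G)`, coefficient `0`). Apply `S3` and `S4` with
`c j = eval x (F j)`, `v i β j = (lin x y_i (F j)).coeff (g β)`; linear independence of `v i` from the nonvanishing minor (a relation between the `v i β` restricted to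
the coordinates `f α` is a relation between the columns). `c none ≠ 0` by `hq` as `∑ ‖x k‖² = 1`. -/
theorem S5 {m N ρ : ℕ} (F : Option (Fin N) → MvPolynomial (Fin (m + 1)) ℂ) (hQ : Quad F)
    (hq : ∀ z : Fin (m + 1) → ℂ, ∑ i, ‖z i‖ ^ 2 ≤ 1 → eval z (F none) ≠ 0)
    (f : Fin ρ → Option (Fin N)) (g : Fin ρ → ℕ)
    (h : (Matrix.of (fun α β : Fin ρ => (phi m (F (f α))).coeff (g β))).det ≠ 0) :
    m * (ρ - 1) + 1 ≤ N := by
  classical
  obtain ⟨V, hV, hdet⟩ := S2 F f g h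
  have hVV : star V * V = 1 := (Matrix.mem_unitaryGroup_iff'.1 hV)
  have hun : ∀ a b : Fin (m + 1), ∑ k, V k a * (starRingEnd ℂ) (V k b) = if b = a then 1 else 0 := by
    intro a b
    have h1 := congrFun (congrFun hVV b) a
    rw [Matrix.mul_apply, Matrix.one_apply] at h1
    rw [← h1]
    refine Finset.sum_congr rfl fun k _ => ?_
    rw [Matrix.star_apply, mul_comm]
    rfl
  obtain ⟨x, hx⟩ : ∃ x : Fin (m + 1) → ℂ, x = fun k => V k 0 := ⟨_, rfl⟩
  obtain ⟨y, hy⟩ : ∃ y : Fin m → Fin (m + 1) → ℂ, y = fun i k => V k i.succ := ⟨_, rfl⟩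
  have hxx : ∑ k, x k * (starRingEnd ℂ) (x k) = 1 := by
    rw [hx]
    have h1 := hun 0 0
    rwa [if_pos rfl] at h1
  have hxy : ∀ i, ∑ k, x k * (starRingEnd ℂ) (y i k) = 0 := by
    intro i
    rw [hx, hy]
    have h1 := hun 0 i.succ
    rwa [if_neg (Fin.succ_ne_zero i)] at h1
  have hyx : ∀ i, ∑ k, y i k * (starRingEnd ℂ) (x k) = 0 := by
    intro i
    rw [hx, hy]
    have h1 := hun i.succ 0
    rwa [if_neg (Fin.succ_ne_zero i).symm] at h1
  have hyy : ∀ i i', i ≠ i' → ∑ k, y i k * (starRingEnd ℂ) (y i' k) = 0 := by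
    intro i i' hii
    rw [hy]
    have h1 := hun i.succ i'.succ
    rwa [if_neg (fun e => hii (Fin.succ_injective _ e).symm)] at h1
  have hexp : ∀ (u w : Fin (m + 1) → ℂ) (s t : ℂ),
      ∑ k, (x k + s * u k) * (starRingEnd ℂ) (x k + t * w k) =
        ∑ k, x k * (starRingEnd ℂ) (x k) + (starRingEnd ℂ) t * ∑ k, x k * (starRingEnd ℂ) (w k)
          + s * ∑ k, u k * (starRingEnd ℂ) (x k)
          + s * (starRingEnd ℂ) t * ∑ k, u k * (starRingEnd ℂ) (w k) := by
    intro u w s t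
    rw [Finset.mul_sum, Finset.mul_sum, Finset.mul_sum, ← Finset.sum_add_distrib,
      ← Finset.sum_add_distrib, ← Finset.sum_add_distrib]
    refine Finset.sum_congr rfl fun k _ => ?_
    rw [map_add, map_mul]
    ring
  have hc1 : ∀ (G : MvPolynomial (Fin (m + 1)) ℂ), (lin x 0 G).coeff 0 = eval x G := by
    intro G
    rw [Polynomial.coeff_zero_eq_eval_zero, lin_eval]
    have h1 : (fun i => x i + 0 * (0 : Fin (m + 1) → ℂ) i) = x := by
      funext i
      rw [zero_mul, add_zero]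
    rw [h1]
  have hnorm : ∑ i, ‖x i‖ ^ 2 ≤ 1 := by
    have h1 : ((∑ i, ‖x i‖ ^ 2 : ℝ) : ℂ) = 1 := by
      rw [← hxx]
      push_cast
      refine Finset.sum_congr rfl fun k _ => ?_
      rw [Complex.mul_conj']
    have h2 : (∑ i, ‖x i‖ ^ 2 : ℝ) = 1 := by exact_mod_cast h1
    exact h2.le
  refine S4 (fun j => eval x (F j)) (hq x hnorm) ?_
    (fun i β j => (lin x (y i) (F j)).coeff (g β)) ?_ ?_ ?_
  · have h1 := S3 F hQ x 0 x 0 (fun s t => by
      rw [hexp, hxx]
      simp) 0 0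
    simp only [hc1] at h1
    exact h1
  · intro i
    rw [Fintype.linearIndependent_iff]
    intro a ha
    have h1 : (Matrix.of (fun α β : Fin ρ => (lin x (y i) (F (f α))).coeff (g β))).mulVec a = 0 := by
      funext α
      have h2 := congrFun ha (f α)
      simp only [Finset.sum_apply, Pi.smul_apply, smul_eq_mul] at h2
      have h20 : ∑ x_1, a x_1 * (lin x (y i) (F (f α))).coeff (g x_1) = 0 := h2
      rw [Matrix.mulVec, dotProduct]
      simp only [Matrix.of_apply, Pi.zero_apply]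
      rw [← h20]
      exact Finset.sum_congr rfl fun β _ => mul_comm _ _
    have h2 : (Matrix.of (fun α β : Fin ρ => (lin x (y i) (F (f α))).coeff (g β))).det ≠ 0 := by
      rw [hx, hy]
      exact hdet i
    have h3 := Matrix.eq_zero_of_mulVec_eq_zero h2 h1
    intro β
    rw [h3]
    rfl
  · intro i β
    have h1 := S3 F hQ x (y i) x 0 (fun s t => by
      rw [hexp, hxx, hyx]
      simp) (g β) 0
    simp only [hc1] at h1
    exact h1
  · intro i i' β β' hii
    exact S3 F hQ x (y i) x (y i') (fun s t => by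
      rw [hexp, hxx, hyx, hxy, hyy i i' hii]
      simp) (g β) (g β')

end Pool.Agent.DAng
end
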