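import Pool.Agent.Lib.MP_e3689b_an.Mg.G021

section

set_option autoImplicit false

namespace Pool.Agent.DAng

open MvPolynomial

/-- The reversed conjugate polynomial `g^#` of degree bound `d`. -/
noncomputable def shp (d : ℕ) (g : Polynomial ℂ) : Polynomial ℂ :=
  Polynomial.reflect d (g.map (starRingEnd ℂ))

/-- PROOF. `reflect` gives `∑_k conj(g_k) t^(d-k)`; for `t ≠ 0` this is `t^d ∑ conj(g_k) t^(-k) = t^d conj(g(1/conj t))`.
(`Polynomial.eval₂_reflect_mul_pow` or `Polynomial.sum_over_range'`.) -/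
theorem shp_eval (d : ℕ) (g : Polynomial ℂ) (hg : g.natDegree ≤ d) (t : ℂ) (ht : t ≠ 0) :
    (shp d g).eval t = t ^ d * (starRingEnd ℂ) (g.eval (1 / (starRingEnd ℂ) t)) := by
  let _i : Invertible (t⁻¹) := invertibleOfNonzero (inv_ne_zero ht)
  have h1 := Polynomial.eval₂_reflect_mul_pow (RingHom.id ℂ) (t⁻¹) d (g.map (starRingEnd ℂ))
    (le_trans (Polynomial.natDegree_map_le) hg)
  rw [invOf_eq_inv, inv_inv] at h1
  have h2 : (starRingEnd ℂ) (g.eval (1 / (starRingEnd ℂ) t))
      = (g.map (starRingEnd ℂ)).eval t⁻¹ := by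
    have h4 : (starRingEnd ℂ) (1 / (starRingEnd ℂ) t) = t⁻¹ := by
      rw [map_div₀, map_one, Complex.conj_conj, one_div]
    rw [← h4, Polynomial.eval_map, ← Polynomial.eval₂_at_apply]
  rw [h2]
  change Polynomial.eval₂ (RingHom.id ℂ) t (shp d g) * t⁻¹ ^ d
    = Polynomial.eval₂ (RingHom.id ℂ) t⁻¹ (g.map (starRingEnd ℂ)) at h1
  rw [Polynomial.eval₂_id, Polynomial.eval₂_id] at h1
  rw [← h1, inv_pow]
  have h3 : t ^ d ≠ 0 := pow_ne_zero _ ht
  field_simp

/-- On the unit circle `g^#(t) = t^d conj(g(t))`. PROOF. `shp_eval` and `1/conj t = t` for `|t| = 1`. -/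
theorem shp_circle (d : ℕ) (g : Polynomial ℂ) (hg : g.natDegree ≤ d) (t : ℂ) (ht : ‖t‖ = 1) :
    (shp d g).eval t = t ^ d * (starRingEnd ℂ) (g.eval t) := by
  have h0 : t ≠ 0 := by
    intro h
    rw [h, norm_zero] at ht
    exact zero_ne_one ht
  rw [shp_eval d g hg t h0]
  have h1 : 1 / (starRingEnd ℂ) t = t := by
    have h2 : (starRingEnd ℂ) t ≠ 0 := by
      rw [Ne, map_eq_zero]; exact h0
    rw [div_eq_iff h2, Complex.mul_conj, Complex.normSq_eq_norm_sq, ht]
    norm_num
  rw [h1]

/-- The polynomials `g^#` have no common zero if the `g` have none and one of them has degree exactly `d`.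
PROOF. `t ≠ 0`: `shp_eval`, common zero `1/conj t` of all `g`. `t = 0`: the value of `g^#` at `0` is
`coeff (g.map conj) d = conj (g.coeff d)` (`Polynomial.coeff_reflect`, `revAt`), nonzero for the one of degree `d`
(if `d = natDegree`, the leading coefficient of `g ≠ 0`; if `d = 0` and this `g = 0` then ... the hypothesis
`hd` is stated with `coeff d ≠ 0`). -/
theorem shp_no_zero {J : Type*} (d : ℕ) (g : J → Polynomial ℂ) (hg : ∀ j, (g j).natDegree ≤ d)
    (hd : ∃ j, (g j).coeff d ≠ 0) (hz : ∀ t : ℂ, ∃ j, (g j).eval t ≠ 0) (t : ℂ) :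
    ∃ j, (shp d (g j)).eval t ≠ 0 := by
  by_cases ht : t = 0
  · obtain ⟨j, hj⟩ := hd
    refine ⟨j, ?_⟩
    rw [ht, ← Polynomial.coeff_zero_eq_eval_zero, shp, Polynomial.coeff_reflect,
      Polynomial.revAt_le (Nat.zero_le d), Nat.sub_zero, Polynomial.coeff_map]
    rw [Ne, map_eq_zero]
    exact hj
  · obtain ⟨j, hj⟩ := hz (1 / (starRingEnd ℂ) t)
    refine ⟨j, ?_⟩
    rw [shp_eval d (g j) (hg j) t ht]
    refine mul_ne_zero (pow_ne_zero _ ht) ?_
    rw [Ne, map_eq_zero]
    exact hj

/-- PROOF. The coefficient of `t^d` in `g^#` is `conj(g(0)) ≠ 0` and `natDegree (reflect d _) ≤ d`. -/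
theorem shp_natDegree (d : ℕ) (g : Polynomial ℂ) (hg : g.natDegree ≤ d) (h0 : g.eval 0 ≠ 0) :
    (shp d g).natDegree = d := by
  apply le_antisymm
  · rw [Polynomial.natDegree_le_iff_coeff_eq_zero]
    intro N hN
    rw [shp, Polynomial.coeff_reflect, Polynomial.revAt_eq_self_of_lt hN, Polynomial.coeff_map,
      Polynomial.coeff_eq_zero_of_natDegree_lt (lt_of_le_of_lt hg hN), map_zero]
  · apply Polynomial.le_natDegree_of_ne_zero
    rw [shp, Polynomial.coeff_reflect, Polynomial.revAt_le (le_refl d), Nat.sub_self,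
      Polynomial.coeff_map, Polynomial.coeff_zero_eq_eval_zero, Ne, map_eq_zero]
    exact h0

end Pool.Agent.DAng
end

section

set_option autoImplicit false

namespace Pool.Agent.DAng

open MvPolynomial

/-- If `A_j G = A B_j` for all `j`, the polynomials `G, B_j` have no common zero, and `deg A < deg G`, then `A = 0`.
PROOF. The ideal of `ℂ[t]` generated by `G` and all `B_j` is `⊤` (principal, a generator would have a root unless it
is a unit: `IsAlgClosed`; e.g. `Ideal.span` of the finite set, `IsPrincipalIdealRing`), so `1 = β G + ∑ β_j B_j` and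
`A = β A G + ∑ β_j A B_j = (β A + ∑ β_j A_j) G`, so `G ∣ A`; `natDegree A < natDegree G` forces `A = 0`. -/
theorem P6 {N : ℕ} (A G : Polynomial ℂ) (Aj Bj : Fin N → Polynomial ℂ)
    (h : ∀ j, Aj j * G = A * Bj j) (hz : ∀ t : ℂ, G.eval t ≠ 0 ∨ ∃ j, (Bj j).eval t ≠ 0)
    (hdeg : A.degree < G.degree) : A = 0 := by
  classical
  set S : Set (Polynomial ℂ) := insert G (Set.range Bj) with hS
  have htop : (Ideal.span S) = ⊤ := by
    by_contra hne
    obtain ⟨g, hg⟩ := (IsPrincipalIdealRing.principal (Ideal.span S)).principal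
    have hgI : Ideal.span S = Ideal.span {g} := hg
    have hnu : ¬ IsUnit g := by
      intro hu
      apply hne
      rw [hgI]
      exact Ideal.span_singleton_eq_top.mpr hu
    have hdvd : ∀ p ∈ S, g ∣ p := by
      intro p hp
      have : p ∈ Ideal.span S := Ideal.subset_span hp
      rw [hgI] at this
      exact Ideal.mem_span_singleton.mp this
    have hroot : ∃ t : ℂ, g.IsRoot t := by
      by_cases h0 : g = 0
      · exact ⟨0, by rw [h0]; simp [Polynomial.IsRoot]⟩
      · apply IsAlgClosed.exists_root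
        intro hd
        exact hnu (Polynomial.isUnit_iff_degree_eq_zero.mpr hd)
    obtain ⟨t, ht⟩ := hroot
    have hev : ∀ p ∈ S, p.eval t = 0 := by
      intro p hp
      obtain ⟨q, hq⟩ := hdvd p hp
      rw [hq, Polynomial.eval_mul, ht, zero_mul]
    rcases hz t with h1 | ⟨j, h1⟩
    · exact h1 (hev G (by rw [hS]; exact Set.mem_insert _ _))
    · exact h1 (hev (Bj j) (by rw [hS]; exact Set.mem_insert_of_mem _ ⟨j, rfl⟩))
  have hmul : ∀ i ∈ Ideal.span S, G ∣ A * i := by
    intro i hi
    induction hi using Submodule.span_induction with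
    | mem x hx =>
      rcases hx with hx | ⟨j, hj⟩
      · rw [hx]; exact Dvd.intro_left A rfl
      · rw [← hj, ← h j]; exact Dvd.intro_left (Aj j) rfl
    | zero => rw [mul_zero]; exact dvd_zero G
    | add x y _ _ hx hy => rw [mul_add]; exact dvd_add hx hy
    | smul a x _ hx =>
      rw [smul_eq_mul, mul_left_comm]
      exact Dvd.dvd.mul_left hx a
  have hG : G ∣ A := by
    have := hmul 1 (by rw [htop]; trivial)
    rwa [mul_one] at this
  exact Polynomial.eq_zero_of_dvd_of_degree_lt hG hdeg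

end Pool.Agent.DAng
end

section

set_option autoImplicit false

namespace Pool.Agent.DAng

open MvPolynomial

/-- The numerator of `∑ a_i /(1 - w̄_i t)`. -/
noncomputable def numr {d : ℕ} (w a : Fin d → ℂ) : Polynomial ℂ :=
  ∑ i, Polynomial.C (a i) * ∏ k ∈ Finset.univ.erase i,
    (1 - Polynomial.C ((starRingEnd ℂ) (w k)) * Polynomial.X)

theorem P7_eval {d : ℕ} (w a : Fin d → ℂ) (t : ℂ) :
    (numr w a).eval t = ∑ i, a i * ∏ k ∈ Finset.univ.erase i,
      (1 - (starRingEnd ℂ) (w k) * t) := by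
  rw [numr, Polynomial.eval_finsetSum]
  refine Finset.sum_congr rfl fun i _ => ?_
  rw [Polynomial.eval_mul, Polynomial.eval_C, Polynomial.eval_prod]
  congr 1
  refine Finset.prod_congr rfl fun k _ => ?_
  simp

/-- PROOF. Multiply out: `∏_k (1 - w̄_k t)` is nonzero for `‖w k‖ < 1`, `‖t‖ ≤ 1`. -/
theorem numr_eval {d : ℕ} (w a : Fin d → ℂ) (hw : ∀ i, ‖w i‖ < 1) (t : ℂ) (ht : ‖t‖ ≤ 1) :
    (numr w a).eval t = (∏ k, (1 - (starRingEnd ℂ) (w k) * t)) *
      ∑ i, a i * (1 / (1 - (starRingEnd ℂ) (w i) * t)) := by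
  rw [P7_eval, Finset.mul_sum]
  refine Finset.sum_congr rfl fun i _ => ?_
  have h1 : 1 - (starRingEnd ℂ) (w i) * t ≠ 0 := by
    intro h
    have h2 : (starRingEnd ℂ) (w i) * t = 1 := (sub_eq_zero.1 h).symm
    have h3 : ‖w i‖ * ‖t‖ = 1 := by
      rw [← RCLike.norm_conj (w i), ← norm_mul, h2, norm_one]
    have h4 := hw i
    have h5 := norm_nonneg (w i)
    have h6 := norm_nonneg t
    nlinarith
  rw [← Finset.mul_prod_erase Finset.univ (fun k => 1 - (starRingEnd ℂ) (w k) * t)
    (Finset.mem_univ i)]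
  have h7 := mul_one_div_cancel h1
  generalize ∏ k ∈ Finset.univ.erase i, (1 - (starRingEnd ℂ) (w k) * t) = P
  generalize (1 - (starRingEnd ℂ) (w i) * t) = u at h7 ⊢
  calc a i * P = a i * P * (u * (1 / u)) := by rw [h7, mul_one]
    _ = u * P * (a i * (1 / u)) := by ring

/-- PROOF. Each product has `d - 1` factors of degree `≤ 1`; for `d = 0` the sum is empty (`numr = 0`, degree `⊥`). -/
theorem numr_degree {d : ℕ} (w a : Fin d → ℂ) : (numr w a).degree < (d : ℕ) := by
  rw [← Polynomial.mem_degreeLT, numr]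
  refine Submodule.sum_mem _ fun i _ => ?_
  rw [Polynomial.mem_degreeLT]
  refine Polynomial.degree_le_natDegree.trans_lt ?_
  have h1 : (Polynomial.C (a i) * ∏ k ∈ Finset.univ.erase i,
      (1 - Polynomial.C ((starRingEnd ℂ) (w k)) * Polynomial.X)).natDegree ≤
      (Finset.univ.erase i).card := by
    refine (Polynomial.natDegree_C_mul_le _ _).trans ((Polynomial.natDegree_prod_le _ _).trans ?_)
    rw [Finset.card_eq_sum_ones]
    refine Finset.sum_le_sum fun k _ => ?_
    refine (Polynomial.natDegree_sub_le _ _).trans ?_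
    rw [Polynomial.natDegree_one]
    exact max_le (Nat.zero_le _)
      ((Polynomial.natDegree_C_mul_le _ _).trans Polynomial.natDegree_X_le)
  have h2 : (Finset.univ.erase i).card < d := by
    rw [Finset.card_erase_of_mem (Finset.mem_univ i), Finset.card_univ, Fintype.card_fin]
    have := i.2
    omega
  exact_mod_cast h1.trans_lt h2

/-- If `numr w a = 0` and the `w_i` are distinct and nonzero then `a = 0`.
PROOF. Evaluate at `t = 1/w̄_i`: all terms with index `≠ i` contain the factor `1 - w̄_i t = 0`, and the `i`-th is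
`a_i ∏_{k ≠ i} (1 - w̄_k/w̄_i)` with nonzero factors. -/
theorem numr_eq_zero {d : ℕ} (w a : Fin d → ℂ) (hw0 : ∀ i, w i ≠ 0) (hinj : Function.Injective w)
    (h : numr w a = 0) : a = 0 := by
  funext i
  have hi : (starRingEnd ℂ) (w i) ≠ 0 := (map_ne_zero _).2 (hw0 i)
  have h1 := P7_eval w a (1 / (starRingEnd ℂ) (w i))
  rw [h, Polynomial.eval_zero, Finset.sum_eq_single i] at h1
  · have h2 : ∏ k ∈ Finset.univ.erase i,
        (1 - (starRingEnd ℂ) (w k) * (1 / (starRingEnd ℂ) (w i))) ≠ 0 := by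
      refine Finset.prod_ne_zero_iff.2 fun k hk hz => ?_
      have h3 : (starRingEnd ℂ) (w k) * (1 / (starRingEnd ℂ) (w i)) = 1 :=
        (sub_eq_zero.1 hz).symm
      have h4 : (starRingEnd ℂ) (w k) = (starRingEnd ℂ) (w i) := by
        field_simp at h3
        exact h3
      exact (Finset.ne_of_mem_erase hk) (hinj ((starRingEnd ℂ).injective h4))
    rcases mul_eq_zero.1 h1.symm with h3 | h3
    · exact h3
    · exact absurd h3 h2
  · intro j _ hj
    refine mul_eq_zero_of_right _ (Finset.prod_eq_zero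
      (Finset.mem_erase.2 ⟨Ne.symm hj, Finset.mem_univ i⟩) ?_)
    rw [mul_one_div_cancel hi, sub_self]
  · intro hi'
    exact absurd (Finset.mem_univ i) hi' 

end Pool.Agent.DAng
end

section

set_option autoImplicit false

namespace Pool.Agent.DAng

open MvPolynomial

/-- A polynomial in `(z, w)` which vanishes at all points `(z, z̄)` is zero.
PROOF. Let `Q := bind₁ (Sum.elim (fun i => X (inl i) + C I * X (inr i)) (fun i => X (inl i) - C I * X (inr i))) P`
(a polynomial in `(x, y)`). For real `x, y` (i.e. `v : Fin n ⊕ Fin n → ℂ` with real values) `eval v Q =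
eval (z, z̄) P = 0` with `z = x + iy`. By `MvPolynomial.funext_set` with all sets equal to
`Set.range (Complex.ofReal)` (infinite) `Q = 0`. For arbitrary `(z, w)` put `x = (z + w)/2`,
`y = (z - w)/(2 i)`: `eval (Sum.elim z w) P = eval (Sum.elim x y) Q = 0`; conclude by `MvPolynomial.funext`. -/
theorem Z1 {n : ℕ} (P : MvPolynomial (Fin n ⊕ Fin n) ℂ)
    (h : ∀ z : Fin n → ℂ, eval (Sum.elim z (fun i => (starRingEnd ℂ) (z i))) P = 0) : P = 0 := by
  set g : Fin n ⊕ Fin n → MvPolynomial (Fin n ⊕ Fin n) ℂ :=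
    Sum.elim (fun i => X (Sum.inl i) + C Complex.I * X (Sum.inr i))
      (fun i => X (Sum.inl i) - C Complex.I * X (Sum.inr i)) with hg
  have hev : ∀ v : Fin n ⊕ Fin n → ℂ, eval v (bind₁ g P) =
      eval (Sum.elim (fun i => v (Sum.inl i) + Complex.I * v (Sum.inr i))
        (fun i => v (Sum.inl i) - Complex.I * v (Sum.inr i))) P := by
    intro v
    simp only [eval, eval₂Hom_bind₁]
    congr 2
    funext i
    rcases i with i | i
    · simp [hg]
    · simp [hg]
  have hQ : bind₁ g P = 0 := by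
    apply MvPolynomial.funext_set (fun _ => Set.range (Complex.ofReal))
      (fun _ => Set.infinite_range_of_injective Complex.ofReal_injective)
    intro v hv
    rw [hev v, map_zero]
    have hr : ∀ i, (starRingEnd ℂ) (v i) = v i := by
      intro i
      obtain ⟨r, hr⟩ := hv i (Set.mem_univ i)
      rw [← hr]; exact Complex.conj_ofReal r
    have := h (fun i => v (Sum.inl i) + Complex.I * v (Sum.inr i))
    convert this using 3
    congr 1
    funext i
    rw [map_add, map_mul, hr, hr, Complex.conj_I]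
    ring
  apply MvPolynomial.funext
  intro v
  have h1 := hev (Sum.elim (fun i => (v (Sum.inl i) + v (Sum.inr i)) / 2)
    (fun i => (v (Sum.inl i) - v (Sum.inr i)) / (2 * Complex.I)))
  rw [hQ, map_zero] at h1
  rw [map_zero, h1]
  congr 1
  congr 1
  funext i
  rcases i with i | i
  · simp only [Sum.elim_inl, Sum.elim_inr]
    field_simp
    ring
  · simp only [Sum.elim_inl, Sum.elim_inr]
    field_simp
    ring

end Pool.Agent.DAng
end
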