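import Pool.Agent.Lib.MP_e3689b_an.Mg.G021
import Pool.Agent.Lib.MP_e3689b_an.Mg.G023
import Pool.Agent.Lib.MP_e3689b_an.Mg.G024

section

set_option autoImplicit false

namespace Pool.Agent.DAng

open MvPolynomial

theorem H2_aux1 {m : ℕ} (b : Fin m → ℂ) (G : MvPolynomial (Fin (m + 1)) ℂ) :
    (phi m G).map (evA 0 b) =
      aeval (fun i => Polynomial.C ((Fin.cons 1 b : Fin (m + 1) → ℂ) i) * Polynomial.X) G := by
  induction G using MvPolynomial.induction_on with
  | C a =>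
    simp [phi, evA]
  | add p q hp hq => rw [map_add, Polynomial.map_add, hp, hq, map_add]
  | mul_X p i hp =>
    rw [map_mul, Polynomial.map_mul, hp, map_mul]
    congr 1
    refine Fin.cases ?_ ?_ i
    · simp [phi]
    · intro j
      simp [phi, evA]

theorem H2_aux2 {m : ℕ} (v : Fin (m + 1) → ℂ) (G : MvPolynomial (Fin (m + 1)) ℂ) (e : ℕ) :
    (aeval (fun i => Polynomial.C (v i) * Polynomial.X) G : Polynomial ℂ).coeff e =
      eval v (homogeneousComponent e G) := by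
  induction G using MvPolynomial.induction_on' with
  | add p q hp hq => rw [map_add, Polynomial.coeff_add, hp, hq, map_add, map_add]
  | monomial M c =>
    have h1 : (aeval (fun i => Polynomial.C (v i) * Polynomial.X) (monomial M c) : Polynomial ℂ) =
        Polynomial.C (eval v (monomial M c)) * Polynomial.X ^ M.degree := by
      rw [aeval_monomial, eval_monomial, Finsupp.prod, Finsupp.prod]
      simp only [mul_pow, Finset.prod_mul_distrib, Polynomial.algebraMap_eq, Polynomial.C_mul,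
        map_prod, Polynomial.C_pow, Finset.prod_pow_eq_pow_sum]
      rw [mul_assoc]
      rfl
    rw [h1, Polynomial.coeff_C_mul, Polynomial.coeff_X_pow,
      homogeneousComponent_of_mem (m := e) (isHomogeneous_monomial c (n := M.degree) rfl)]
    by_cases h : e = M.degree
    · simp [h]
    · simp [h]

theorem H2_aux3 {m d : ℕ} (G : MvPolynomial (Fin (m + 1)) ℂ) (hG : G.IsHomogeneous d) (c : ℂ)
    (v : Fin (m + 1) → ℂ) : eval (fun i => c * v i) G = c ^ d * eval v G := by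
  rw [eval_eq, eval_eq, Finset.mul_sum]
  refine Finset.sum_congr rfl (fun M hM => ?_)
  have h : ∑ i ∈ M.support, M i = d := by
    have := hG (mem_support_iff.mp hM)
    rw [Finsupp.weight_apply] at this
    simpa [Finsupp.sum] using this
  simp only [mul_pow, Finset.prod_mul_distrib, Finset.prod_pow_eq_pow_sum, h]
  ring

/-- The coefficient of `t^d` of the restriction to the generic line is not zero if `deg G = d`.
PROOF. For a homogeneous polynomial `P` of degree `e` the coefficient of `t^e` of `P(t, a + t b)` is `P(1, b)`; more precisely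
`evA 0 b ((phi m P).coeff e) = P(1, b)` since with `a = 0`: `P(t, t b) = t^e P(1, b)`. Write `G` as the sum of its homogeneous
components; those of degree `< d` contribute `0` to `coeff d` (`phi_natDegree`), so `evA 0 b ((phi m G).coeff d) = G_d(1, b)` with
`G_d = homogeneousComponent d G ≠ 0`. If `G_d(1, b) = 0` for all `b` then `G_d(x_0, x') = x_0^d G_d(1, x'/x_0) = 0` for all `x_0 ≠ 0`,
so `X 0 * G_d` vanishes everywhere and `G_d = 0`, contradiction. (`d = 0`: `G = C c`, `c ≠ 0`... `G ≠ 0` is assumed.) -/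
theorem phi_coeff_ne {m d : ℕ} (G : MvPolynomial (Fin (m + 1)) ℂ) (hG : G.totalDegree = d)
    (hG0 : G ≠ 0) : (phi m G).coeff d ≠ 0 := by
  intro h
  have h1 : ∀ b : Fin m → ℂ, eval (Fin.cons 1 b : Fin (m + 1) → ℂ) (homogeneousComponent d G) = 0 := by
    intro b
    rw [← H2_aux2, ← H2_aux1, Polynomial.coeff_map, h, map_zero]
  have h2 : homogeneousComponent d G ≠ 0 := by
    intro h0
    obtain ⟨M, hM, hMd⟩ : ∃ M ∈ G.support, M.degree = d := by
      have hne : G.support.Nonempty := by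
        rwa [Finset.nonempty_iff_ne_empty, Ne, MvPolynomial.support_eq_empty]
      obtain ⟨M, hM, hMd⟩ := Finset.exists_mem_eq_sup G.support hne (fun s => s.sum fun _ e => e)
      refine ⟨M, hM, ?_⟩
      rw [← hG, totalDegree, hMd]
      rfl
    have := congrArg (coeff M) h0
    rw [coeff_homogeneousComponent, if_pos hMd, coeff_zero] at this
    exact (mem_support_iff.mp hM) this
  have h3 : (X 0 * homogeneousComponent d G : MvPolynomial (Fin (m + 1)) ℂ) = 0 := by
    apply MvPolynomial.funext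
    intro x
    rw [map_mul, eval_X, map_zero]
    by_cases hx : x 0 = 0
    · rw [hx, zero_mul]
    · have hhom := homogeneousComponent_isHomogeneous d G
      have h4 : x = fun i => x 0 * (Fin.cons 1 (fun j : Fin m => (x 0)⁻¹ * x j.succ) : Fin (m + 1) → ℂ) i := by
        funext i
        refine Fin.cases ?_ ?_ i
        · simp
        · intro j
          simp only [Fin.cons_succ]
          field_simp
      have h5 : eval x (homogeneousComponent d G) = 0 := by
        rw [h4, H2_aux3 _ hhom, h1, mul_zero]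
      rw [h5, mul_zero]
  rcases mul_eq_zero.mp h3 with h4 | h4
  · exact X_ne_zero 0 h4
  · exact h2 h4

end Pool.Agent.DAng
end

section

set_option autoImplicit false

namespace Pool.Agent.DAng

open MvPolynomial

/-- A good interior line exists.
PROOF. `B1` and `B2` (`CA m` is a unique factorisation domain) give `∑ α_j phi(F_j) = C r`, `r ≠ 0`; `phi_coeff_ne` gives `j0` with
`τ = (phi m (F j0)).coeff d ≠ 0` (`F j0 ≠ 0`, `totalDegree = d`). `B3` for `r * τ`. If all `F_j` vanish at `pt a b t`, then applying `evA a b` and evaluating at `t`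
(`phi_eval`) we get `evA a b r = 0`, contradiction. -/
theorem B4 {m d N : ℕ} (F : Option (Fin N) → MvPolynomial (Fin (m + 1)) ℂ)
    (hred : ∀ r : MvPolynomial (Fin (m + 1)) ℂ, (∀ j, r ∣ F j) → IsUnit r)
    (hd : ∃ j, F j ≠ 0 ∧ (F j).totalDegree = d) :
    ∃ a b : Fin m → ℂ, ∑ i, ‖a i‖ ^ 2 < 1 ∧ (∀ t : ℂ, ∃ j, eval (pt a b t) (F j) ≠ 0) ∧
      ∃ j, evA a b ((phi m (F j)).coeff d) ≠ 0 := by
  classical
  obtain ⟨j0, hj0, hdeg⟩ := hd
  have hτ : (phi m (F j0)).coeff d ≠ 0 := phi_coeff_ne (F j0) hdeg hj0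
  have hphi0 : phi m (F j0) ≠ 0 := by
    intro h0
    rw [h0] at hτ
    simp at hτ
  obtain ⟨α, r, hr, hsum⟩ := B2 (fun j => phi m (F j)) ⟨j0, hphi0⟩
    (fun g hg => B1 F hred ⟨j0, hj0⟩ g hg)
  obtain ⟨a, b, hab, hne⟩ := B3 (r * (phi m (F j0)).coeff d) (mul_ne_zero hr hτ)
  rw [map_mul] at hne
  refine ⟨a, b, hab, ?_, j0, right_ne_zero_of_mul hne⟩
  intro t
  by_contra hcon
  push Not at hcon
  apply left_ne_zero_of_mul hne
  have h1 := congrArg (fun Q : Polynomial (CA m) => (Q.map (evA a b)).eval t) hsum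
  simp only [Polynomial.map_sum, Polynomial.map_mul, Polynomial.eval_finsetSum,
    Polynomial.eval_mul, Polynomial.map_C, Polynomial.eval_C] at h1
  rw [← h1]
  apply Finset.sum_eq_zero
  intro j _
  rw [phi_eval, hcon j, mul_zero]

end Pool.Agent.DAng
end

section

set_option autoImplicit false

namespace Pool.Agent.DAng

open MvPolynomial

open Metric Real in
/-- A continuous nonnegative function on the circle with circle average `0` vanishes on the circle.
PROOF. `circleAverage f 0 1 = (2π)⁻¹ ∫_0^{2π} f(e^{iθ}) dθ`; the integrand is continuous and `≥ 0`, integral zero, so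
it vanishes (e.g. `intervalIntegral.integral_eq_zero_iff_of_nonneg...` / `Continuous.integral_pos_of_...`). -/
theorem P3 (f : ℂ → ℝ) (hf : ContinuousOn f (sphere 0 1)) (h0 : ∀ t ∈ sphere (0 : ℂ) 1, 0 ≤ f t)
    (hz : circleAverage f 0 1 = 0) : ∀ t ∈ sphere (0 : ℂ) 1, f t = 0 := by
  have hcont : Continuous fun θ : ℝ => f (circleMap 0 1 θ) := by
    apply hf.comp_continuous (continuous_circleMap 0 1)
    intro θ
    exact circleMap_mem_sphere 0 zero_le_one θ
  have hnn : ∀ θ : ℝ, 0 ≤ f (circleMap 0 1 θ) := fun θ =>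
    h0 _ (circleMap_mem_sphere 0 zero_le_one θ)
  have hint : ∫ θ in (0 : ℝ)..2 * π, f (circleMap 0 1 θ) = 0 := by
    have h1 : (2 * π)⁻¹ • ∫ θ in (0 : ℝ)..2 * π, f (circleMap 0 1 θ) = 0 := hz
    rw [smul_eq_mul] at h1
    rcases mul_eq_zero.1 h1 with h2 | h2
    · exfalso
      have : (0 : ℝ) < 2 * π := by positivity
      rw [inv_eq_zero] at h2
      linarith
    · exact h2
  have hpi : (0 : ℝ) < 2 * π := by positivity
  intro t ht
  -- a point of the circle is `circleMap 0 1 θ` with `θ ∈ [0, 2π)`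
  have hex : ∃ θ ∈ Set.Icc (0 : ℝ) (2 * π), circleMap 0 1 θ = t := by
    have h1 : t ∈ Set.range (circleMap 0 1) := by
      rw [range_circleMap, abs_one]
      exact ht
    obtain ⟨θ, hθ⟩ := h1
    refine ⟨toIcoMod hpi 0 θ, ?_, ?_⟩
    · have h2 := toIcoMod_mem_Ico hpi 0 θ
      rw [zero_add] at h2
      exact Set.Ico_subset_Icc_self h2
    · rw [← hθ]
      have h3 : toIcoMod hpi 0 θ = θ - toIcoDiv hpi 0 θ • (2 * π) := rfl
      rw [h3]
      exact (periodic_circleMap 0 1).sub_zsmul_eq (toIcoDiv hpi 0 θ)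
  obtain ⟨θ, hθ, rfl⟩ := hex
  by_contra hne
  have hpos : 0 < ∫ θ in (0 : ℝ)..2 * π, f (circleMap 0 1 θ) := by
    apply intervalIntegral.integral_pos hpi hcont.continuousOn (fun x _ => hnn x)
    exact ⟨θ, hθ, lt_of_le_of_ne (hnn θ) (Ne.symm hne)⟩
  linarith

end Pool.Agent.DAng
end

section

set_option autoImplicit false

namespace Pool.Agent.DAng

open MvPolynomial


private lemma P4_den {w t : ℂ} (hw : ‖w‖ < 1) (ht : ‖t‖ ≤ 1) :
    1 - (starRingEnd ℂ) w * t ≠ 0 := by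
  intro h
  have h2 : (starRingEnd ℂ) w * t = 1 := by linear_combination -h
  have h3 : ‖(starRingEnd ℂ) w * t‖ = 1 := by rw [h2, norm_one]
  rw [norm_mul, RCLike.norm_conj] at h3
  nlinarith [norm_nonneg w, norm_nonneg t]

private lemma P4_ker {w t : ℂ} (hw : ‖w‖ < 1) (ht : ‖t‖ ≤ 1) :
    ContinuousAt (fun t : ℂ => 1 / (1 - (starRingEnd ℂ) w * t)) t := by
  have h5 : ContinuousAt (fun t : ℂ => 1 - (starRingEnd ℂ) w * t) t := by fun_prop
  exact continuousAt_const.div h5 (P4_den hw ht)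

private lemma P4_h {d : ℕ} (w : Fin d → ℂ) (hw : ∀ i, ‖w i‖ < 1) (a : Fin d → ℂ) {t : ℂ}
    (ht : ‖t‖ ≤ 1) :
    ContinuousAt (fun t => ∑ i, a i * (1 / (1 - (starRingEnd ℂ) (w i) * t))) t := by
  apply tendsto_finsetSum
  intro i _
  exact (P4_ker (hw i) ht).const_mul _

private lemma P4_T {d : ℕ} (w : Fin d → ℂ) (hw : ∀ i, ‖w i‖ < 1) (B q : Polynomial ℂ)
    (hq : ∀ t : ℂ, ‖t‖ ≤ 1 → q.eval t ≠ 0) (a a' : Fin d → ℂ) {t : ℂ} (ht : ‖t‖ ≤ 1) :
    ContinuousAt (fun t => B.eval t / q.eval t *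
      (∑ i, a i * (1 / (1 - (starRingEnd ℂ) (w i) * t))) *
      (starRingEnd ℂ) (∑ i, a' i * (1 / (1 - (starRingEnd ℂ) (w i) * t)))) t := by
  apply ContinuousAt.mul
  · apply ContinuousAt.mul _ (P4_h w hw a ht)
    exact B.continuous.continuousAt.div q.continuous.continuousAt (hq t ht)
  · exact Complex.continuous_conj.continuousAt.comp (P4_h w hw a' ht)

open Metric Real in
private lemma P4_int {d : ℕ} (w : Fin d → ℂ) (hw : ∀ i, ‖w i‖ < 1) (B q : Polynomial ℂ)
    (hq : ∀ t : ℂ, ‖t‖ ≤ 1 → q.eval t ≠ 0) (a a' : Fin d → ℂ) :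
    CircleIntegrable (fun t => B.eval t / q.eval t *
      (∑ i, a i * (1 / (1 - (starRingEnd ℂ) (w i) * t))) *
      (starRingEnd ℂ) (∑ i, a' i * (1 / (1 - (starRingEnd ℂ) (w i) * t)))) 0 1 := by
  apply ContinuousOn.circleIntegrable zero_le_one
  intro t ht
  rw [mem_sphere, dist_zero_right] at ht
  exact (P4_T w hw B q hq a a' ht.le).continuousWithinAt

/-- the pointwise identity -/
private lemma P4_point {N : ℕ} (h : Fin N → ℂ) (h₀ : ℂ) (r : Fin N → ℂ)
    (hr : ∑ j, ‖r j‖ ^ 2 = 1) :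
    ∑ j, ‖h j - h₀ * (starRingEnd ℂ) (r j)‖ ^ 2 =
      (∑ j, (h j * (starRingEnd ℂ) (h j) - 2 * (r j * h j * (starRingEnd ℂ) h₀)) +
        h₀ * (starRingEnd ℂ) h₀).re := by
  have h1 : ∀ j, ‖h j - h₀ * (starRingEnd ℂ) (r j)‖ ^ 2 =
      (h j * (starRingEnd ℂ) (h j) - 2 * (r j * h j * (starRingEnd ℂ) h₀)).re +
        ‖r j‖ ^ 2 * (h₀ * (starRingEnd ℂ) h₀).re := by
    intro j
    rw [← Complex.normSq_eq_norm_sq, ← Complex.normSq_eq_norm_sq, Complex.normSq_apply,
      Complex.normSq_apply]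
    simp only [Complex.sub_re, Complex.sub_im, Complex.mul_re, Complex.mul_im, Complex.conj_re,
      Complex.conj_im, Complex.re_ofNat, Complex.im_ofNat]
    ring
  rw [Finset.sum_congr rfl fun j _ => h1 j, Finset.sum_add_distrib, ← Finset.sum_mul, hr, one_mul,
    Complex.add_re, Complex.re_sum]

open Metric Real in
/-- Pick's theorem with the case of equality. `g0 = q`, `g j = p_j`, `r_j = g_j/g0`, `|r|² = ∑ |r_j|² = 1` on the circle;
`v(t,s) = (g0(t) conj g0(s) - ∑ g_j(t) conj g_j(s))/(1 - t s̄)`. If `∑_{i,k} c_i conj(c_k) v(w_i, w_k) = 0` then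
`h_j(t) conj(g0(t)) = h_0(t) conj(g_j(t))` on the circle, where `h_j = ∑_i conj(c_i g_j(w_i)) k_{w_i}`, `h_0 = ∑_i conj(c_i g0(w_i)) k_{w_i}`.
PROOF. Put `φ = h_0`, `a_i = conj(c_i g0(w_i))`, so `conj(c_i g_j(w_i)) = a_i conj(r_j(w_i))`. On the circle
`∑_j |h_j - φ conj(r_j)|² = ∑_j |h_j|² - ∑_j (r_j h_j conj φ + conj(r_j h_j conj φ)) + |φ|²` as `∑ |r_j|² = 1`. By `P2`
(with `B = q = 1` for the first and third term, `B/q = g_j/g0` for the second) the circle average of the left side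
is `∑_j S_j - ∑_j (S_j + conj S_j) + S_0` with
`S_j = ∑_i conj(a_i) r_j(w_i) h_j(w_i)` (the same number for `|h_j|²` and for `r_j h_j conj φ`), `S_0 = ∑_i conj(a_i) φ(w_i)`.
Since `S_j` is the average of `|h_j|²` it is real, so the average is `S_0 - ∑_j S_j =
∑_{i,k} conj(a_i) a_k (1 - ∑_j r_j(w_i) conj r_j(w_k))/(1 - w̄_k w_i) = ∑_{i,k} c_i conj(c_k) v(w_i, w_k) = 0`.
By `P3` all `|h_j - φ conj r_j|` vanish on the circle; multiply by `conj(g0(t))`. -/
theorem P4 {d N : ℕ} (g0 : Polynomial ℂ) (g : Fin N → Polynomial ℂ)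
    (h0 : ∀ t : ℂ, ‖t‖ ≤ 1 → g0.eval t ≠ 0)
    (hc : ∀ t : ℂ, ‖t‖ = 1 → ∑ j, ‖(g j).eval t‖ ^ 2 = ‖g0.eval t‖ ^ 2)
    (w : Fin d → ℂ) (hw : ∀ i, ‖w i‖ < 1) (v : ℂ → ℂ → ℂ)
    (hv : ∀ t s : ℂ, g0.eval t * (starRingEnd ℂ) (g0.eval s) -
      ∑ j, (g j).eval t * (starRingEnd ℂ) ((g j).eval s) = (1 - t * (starRingEnd ℂ) s) * v t s)
    (c : Fin d → ℂ) (hz : ∑ i, ∑ k, c i * (starRingEnd ℂ) (c k) * v (w i) (w k) = 0) (j : Fin N)
    (t : ℂ) (ht : ‖t‖ = 1) :
    (∑ i, (starRingEnd ℂ) (c i * (g j).eval (w i)) * (1 / (1 - (starRingEnd ℂ) (w i) * t))) *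
      (starRingEnd ℂ) (g0.eval t) =
    (∑ i, (starRingEnd ℂ) (c i * g0.eval (w i)) * (1 / (1 - (starRingEnd ℂ) (w i) * t))) *
      (starRingEnd ℂ) ((g j).eval t) := by
  -- notation
  obtain ⟨H, hH⟩ : ∃ H : (Fin d → ℂ) → ℂ → ℂ, ∀ α t, H α t =
      ∑ i, α i * (1 / (1 - (starRingEnd ℂ) (w i) * t)) := ⟨_, fun _ _ => rfl⟩
  obtain ⟨α₀, hα₀⟩ : ∃ α₀ : Fin d → ℂ, ∀ i, α₀ i = (starRingEnd ℂ) (c i * g0.eval (w i)) :=
    ⟨_, fun _ => rfl⟩
  obtain ⟨α, hα⟩ : ∃ α : Fin N → Fin d → ℂ, ∀ j i, α j i = (starRingEnd ℂ) (c i * (g j).eval (w i)) :=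
    ⟨_, fun _ _ => rfl⟩
  have hHc : ∀ β : Fin d → ℂ, ∀ t : ℂ, ‖t‖ ≤ 1 → ContinuousAt (H β) t := by
    intro β t ht
    have e : H β = fun t => ∑ i, β i * (1 / (1 - (starRingEnd ℂ) (w i) * t)) := funext (hH β)
    rw [e]
    exact P4_h w hw β ht
  have h01 : ∀ t : ℂ, ‖t‖ ≤ 1 → (1 : Polynomial ℂ).eval t ≠ 0 := by
    intro t _
    rw [Polynomial.eval_one]
    exact one_ne_zero
  have hg0w : ∀ i, g0.eval (w i) ≠ 0 := fun i => h0 _ (hw i).le
  -- the averages
  obtain ⟨T, hT⟩ : ∃ T : Polynomial ℂ → Polynomial ℂ → (Fin d → ℂ) → (Fin d → ℂ) → ℂ → ℂ,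
      ∀ B q a a', T B q a a' = fun t => B.eval t / q.eval t *
      (∑ i, a i * (1 / (1 - (starRingEnd ℂ) (w i) * t))) *
      (starRingEnd ℂ) (∑ i, a' i * (1 / (1 - (starRingEnd ℂ) (w i) * t))) :=
    ⟨_, fun _ _ _ _ => rfl⟩
  have hTi : ∀ B q a a', (∀ t : ℂ, ‖t‖ ≤ 1 → q.eval t ≠ 0) → CircleIntegrable (T B q a a') 0 1 := by
    intro B q a a' hq
    rw [hT]
    exact P4_int w hw B q hq a a'
  have hTa : ∀ B q a a', (∀ t : ℂ, ‖t‖ ≤ 1 → q.eval t ≠ 0) → circleAverage (T B q a a') 0 1 =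
      ∑ i, (starRingEnd ℂ) (a' i) * (B.eval (w i) / q.eval (w i) * H a (w i)) := by
    intro B q a a' hq
    rw [hT, P2 w hw B q hq a a']
    refine Finset.sum_congr rfl fun i _ => ?_
    rw [hH]
  have hTe : ∀ B q a a' t, T B q a a' t =
      B.eval t / q.eval t * H a t * (starRingEnd ℂ) (H a' t) := by
    intro B q a a' t
    rw [hT, hH, hH]
  -- the complex function
  obtain ⟨F, hF⟩ : ∃ F : ℂ → ℂ, F = fun t => (∑ j, (T 1 1 (α j) (α j) t -
      (2 : ℂ) • T (g j) g0 (α j) α₀ t)) + T 1 1 α₀ α₀ t := ⟨_, rfl⟩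
  have hi1 : ∀ j ∈ (Finset.univ : Finset (Fin N)), CircleIntegrable (fun t => T 1 1 (α j) (α j) t -
      (2 : ℂ) • T (g j) g0 (α j) α₀ t) 0 1 := fun j _ =>
    (hTi _ _ _ _ h01).sub ((hTi _ _ _ _ h0).const_smul)
  have hi2 : CircleIntegrable (fun t => ∑ j, (T 1 1 (α j) (α j) t -
      (2 : ℂ) • T (g j) g0 (α j) α₀ t)) 0 1 := by
    have := CircleIntegrable.fun_sum Finset.univ hi1
    exact this
  have hFi : CircleIntegrable F 0 1 := by
    rw [hF]
    exact hi2.add (hTi _ _ _ _ h01)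
  have hFa : circleAverage F 0 1 = 0 := by
    rw [hF, circleAverage_fun_add hi2 (hTi _ _ _ _ h01), circleAverage_fun_sum hi1]
    have e1 : ∀ j, circleAverage (fun t => T 1 1 (α j) (α j) t -
        (2 : ℂ) • T (g j) g0 (α j) α₀ t) 0 1 = -∑ i, c i * (g j).eval (w i) * H (α j) (w i) := by
      intro j
      have hs : CircleIntegrable (fun t => (2 : ℂ) • T (g j) g0 (α j) α₀ t) 0 1 :=
        (hTi _ _ _ _ h0).const_smul
      rw [circleAverage_fun_sub (hTi _ _ _ _ h01) hs, circleAverage_fun_smul, hTa _ _ _ _ h01,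
        hTa _ _ _ _ h0]
      have e2 : ∑ i, (starRingEnd ℂ) (α j i) * ((1 : Polynomial ℂ).eval (w i) /
          (1 : Polynomial ℂ).eval (w i) * H (α j) (w i)) =
          ∑ i, c i * (g j).eval (w i) * H (α j) (w i) := by
        refine Finset.sum_congr rfl fun i _ => ?_
        rw [hα, Complex.conj_conj, Polynomial.eval_one, div_one, one_mul]
      have e3 : ∑ i, (starRingEnd ℂ) (α₀ i) * ((g j).eval (w i) /
          g0.eval (w i) * H (α j) (w i)) =
          ∑ i, c i * (g j).eval (w i) * H (α j) (w i) := by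
        refine Finset.sum_congr rfl fun i _ => ?_
        rw [hα₀, Complex.conj_conj]
        have := hg0w i
        field_simp
      rw [e2, e3, smul_eq_mul]
      ring
    rw [Finset.sum_congr rfl fun j _ => e1 j, hTa _ _ _ _ h01]
    have e4 : ∑ i, (starRingEnd ℂ) (α₀ i) * ((1 : Polynomial ℂ).eval (w i) /
        (1 : Polynomial ℂ).eval (w i) * H α₀ (w i)) = ∑ i, c i * g0.eval (w i) * H α₀ (w i) := by
      refine Finset.sum_congr rfl fun i _ => ?_
      rw [hα₀, Complex.conj_conj, Polynomial.eval_one, div_one, one_mul]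
    rw [e4, Finset.sum_neg_distrib, Finset.sum_comm, neg_add_eq_sub, ← Finset.sum_sub_distrib]
    rw [← hz]
    refine Finset.sum_congr rfl fun i _ => ?_
    rw [hH α₀]
    have e5 : ∑ j, c i * (g j).eval (w i) * H (α j) (w i) =
        ∑ k, ∑ j, c i * (g j).eval (w i) * (α j k * (1 / (1 - (starRingEnd ℂ) (w k) * w i))) := by
      rw [Finset.sum_comm]
      refine Finset.sum_congr rfl fun j _ => ?_
      rw [hH, Finset.mul_sum]
    rw [e5, Finset.mul_sum, ← Finset.sum_sub_distrib]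
    refine Finset.sum_congr rfl fun k _ => ?_
    have hne : 1 - (starRingEnd ℂ) (w k) * w i ≠ 0 := P4_den (hw k) (hw i).le
    have hv' := hv (w i) (w k)
    have e6 : ∑ j, c i * (g j).eval (w i) * (α j k * (1 / (1 - (starRingEnd ℂ) (w k) * w i))) =
        c i * (starRingEnd ℂ) (c k) * (1 / (1 - (starRingEnd ℂ) (w k) * w i)) *
          ∑ j, (g j).eval (w i) * (starRingEnd ℂ) ((g j).eval (w k)) := by
      rw [Finset.mul_sum]
      refine Finset.sum_congr rfl fun j _ => ?_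
      rw [hα, map_mul]
      ring
    rw [e6, hα₀, map_mul]
    have e7 : c i * g0.eval (w i) * ((starRingEnd ℂ) (c k) * (starRingEnd ℂ) (g0.eval (w k)) *
        (1 / (1 - (starRingEnd ℂ) (w k) * w i))) -
        c i * (starRingEnd ℂ) (c k) * (1 / (1 - (starRingEnd ℂ) (w k) * w i)) *
          ∑ j, (g j).eval (w i) * (starRingEnd ℂ) ((g j).eval (w k)) =
        c i * (starRingEnd ℂ) (c k) * (1 / (1 - (starRingEnd ℂ) (w k) * w i)) *
          (g0.eval (w i) * (starRingEnd ℂ) (g0.eval (w k)) -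
            ∑ j, (g j).eval (w i) * (starRingEnd ℂ) ((g j).eval (w k))) := by ring
    rw [e7, hv']
    have e8 : 1 - w i * (starRingEnd ℂ) (w k) = 1 - (starRingEnd ℂ) (w k) * w i := by ring
    rw [e8]
    field_simp
  -- the real function
  obtain ⟨f, hf⟩ : ∃ f : ℂ → ℝ, ∀ t, f t = ∑ j, ‖H (α j) t - H α₀ t *
      (starRingEnd ℂ) ((g j).eval t / g0.eval t)‖ ^ 2 := ⟨_, fun _ => rfl⟩
  have hfF : ∀ t ∈ sphere (0 : ℂ) |(1 : ℝ)|, f t = (F t).re := by
    intro t ht
    rw [abs_one, mem_sphere, dist_zero_right] at ht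
    have hgt := h0 t ht.le
    have hr : ∑ j, ‖(g j).eval t / g0.eval t‖ ^ 2 = 1 := by
      have e1 : ∀ j, ‖(g j).eval t / g0.eval t‖ ^ 2 = ‖(g j).eval t‖ ^ 2 / ‖g0.eval t‖ ^ 2 := by
        intro j
        rw [norm_div, div_pow]
      rw [Finset.sum_congr rfl fun j _ => e1 j, ← Finset.sum_div, hc t ht]
      apply div_self
      have : 0 < ‖g0.eval t‖ := norm_pos_iff.2 hgt
      positivity
    rw [hf, P4_point _ _ _ hr, hF]
    congr 1
    show _ = (∑ j, (T 1 1 (α j) (α j) t - (2 : ℂ) • T (g j) g0 (α j) α₀ t)) + T 1 1 α₀ α₀ t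
    rw [hTe, Polynomial.eval_one, div_one, one_mul]
    congr 1
    refine Finset.sum_congr rfl fun j _ => ?_
    rw [hTe, hTe, Polynomial.eval_one, div_one, one_mul, smul_eq_mul]
  have hfa : circleAverage f 0 1 = 0 := by
    rw [circleAverage_congr_sphere (f₂ := fun t => (F t).re) hfF]
    have h1 := Complex.reCLM.circleAverage_comp_comm hFi
    have h2 : circleAverage (fun t => (F t).re) 0 1 = (circleAverage F 0 1).re := h1
    rw [h2, hFa, Complex.zero_re]
  have hfc : ContinuousOn f (sphere 0 1) := by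
    intro t ht
    rw [mem_sphere, dist_zero_right] at ht
    apply ContinuousAt.continuousWithinAt
    have e : f = fun t => ∑ j, ‖H (α j) t - H α₀ t *
      (starRingEnd ℂ) ((g j).eval t / g0.eval t)‖ ^ 2 := funext hf
    rw [e]
    apply tendsto_finsetSum
    intro j _
    apply ContinuousAt.pow
    apply ContinuousAt.norm
    apply (hHc _ t ht.le).sub
    apply (hHc _ t ht.le).mul
    apply Complex.continuous_conj.continuousAt.comp
    exact (g j).continuous.continuousAt.div g0.continuous.continuousAt (h0 t ht.le)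
  have hfn : ∀ t ∈ sphere (0 : ℂ) 1, 0 ≤ f t := by
    intro t _
    rw [hf]
    positivity
  have hts : t ∈ sphere (0 : ℂ) 1 := by
    rw [mem_sphere, dist_zero_right]
    exact ht
  have h3 := P3 f hfc hfn hfa t hts
  rw [hf, Finset.sum_eq_zero_iff_of_nonneg (fun j _ => by positivity)] at h3
  have h4 := h3 j (Finset.mem_univ j)
  have h5 : H (α j) t - H α₀ t * (starRingEnd ℂ) ((g j).eval t / g0.eval t) = 0 := by
    have := pow_eq_zero_iff (two_ne_zero) |>.1 h4
    exact norm_eq_zero.1 this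
  have h6 : (starRingEnd ℂ) (g0.eval t) ≠ 0 := by
    intro h
    exact h0 t ht.le ((map_eq_zero _).1 h)
  have e9 : ∑ i, (starRingEnd ℂ) (c i * (g j).eval (w i)) * (1 / (1 - (starRingEnd ℂ) (w i) * t)) =
      H (α j) t := by
    rw [hH]
    exact Finset.sum_congr rfl fun i _ => by rw [hα]
  have e10 : ∑ i, (starRingEnd ℂ) (c i * g0.eval (w i)) * (1 / (1 - (starRingEnd ℂ) (w i) * t)) =
      H α₀ t := by
    rw [hH]
    exact Finset.sum_congr rfl fun i _ => by rw [hα₀]
  rw [e9, e10, sub_eq_zero.1 h5, map_div₀]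
  field_simp

end Pool.Agent.DAng
end

section

set_option autoImplicit false

namespace Pool.Agent.DAng

open MvPolynomial

/-- THE PICK FORM IS DEFINITE. Same setting as `P4`; moreover the degrees are `≤ d`, some coefficient of `t^d` is nonzero,
there is no common zero, and the points `w_i` are nonzero and distinct. If the form vanishes at `c` then `c = 0`.
PROOF. By `P4`, for `|t| = 1`: `h_j(t) conj(g0(t)) = h_0(t) conj(g_j(t))`. Multiply by `t^d ∏_k(1 - w̄_k t)`, use
`numr_eval` and `shp_circle`: the polynomials `numr w (conj(c g_j(w))) * shp d g0` and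
`numr w (conj(c g0(w))) * shp d (g j)` agree on the unit circle (infinite), so they are equal
(`Polynomial.eq_of_infinite_eval_eq`). `P6` with `G = shp d g0` (degree `d` by `shp_natDegree`, `numr_degree`),
`Bj j = shp d (g j)`; no common zeros by `shp_no_zero` for the family on `Option (Fin N)`. So
`numr w (conj(c g0(w))) = 0`, by `numr_eq_zero` `conj(c_i g0(w_i)) = 0`, and `g0(w_i) ≠ 0`: `c_i = 0`. -/
theorem P8 {d N : ℕ} (g0 : Polynomial ℂ) (g : Fin N → Polynomial ℂ)
    (h0 : ∀ t : ℂ, ‖t‖ ≤ 1 → g0.eval t ≠ 0)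
    (hc : ∀ t : ℂ, ‖t‖ = 1 → ∑ j, ‖(g j).eval t‖ ^ 2 = ‖g0.eval t‖ ^ 2)
    (hd0 : g0.natDegree ≤ d) (hdj : ∀ j, (g j).natDegree ≤ d)
    (hd : g0.coeff d ≠ 0 ∨ ∃ j, (g j).coeff d ≠ 0)
    (hz : ∀ t : ℂ, g0.eval t ≠ 0 ∨ ∃ j, (g j).eval t ≠ 0)
    (w : Fin d → ℂ) (hw : ∀ i, ‖w i‖ < 1) (hw0 : ∀ i, w i ≠ 0) (hinj : Function.Injective w)
    (v : ℂ → ℂ → ℂ)
    (hv : ∀ t s : ℂ, g0.eval t * (starRingEnd ℂ) (g0.eval s) -
      ∑ j, (g j).eval t * (starRingEnd ℂ) ((g j).eval s) = (1 - t * (starRingEnd ℂ) s) * v t s)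
    (c : Fin d → ℂ) (hcz : ∑ i, ∑ k, c i * (starRingEnd ℂ) (c k) * v (w i) (w k) = 0) : c = 0 := by
  classical
  set a0 : Fin d → ℂ := fun i => (starRingEnd ℂ) (c i * g0.eval (w i)) with ha0
  have key : ∀ j : Fin N,
      numr w (fun i => (starRingEnd ℂ) (c i * (g j).eval (w i))) * shp d g0 =
        numr w a0 * shp d (g j) := by
    intro j
    refine Polynomial.eq_of_infinite_eval_eq _ _ ?_
    have hinf : (Metric.sphere (0 : ℂ) 1).Infinite := by
      intro hfin
      have h1 : ((fun x : ℝ => Complex.exp (x * Complex.I)) '' Set.Ioo (0 : ℝ) 1).Finite := by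
        refine hfin.subset ?_
        rintro _ ⟨x, _, rfl⟩
        rw [mem_sphere_zero_iff_norm, Complex.norm_exp_ofReal_mul_I]
      have h2 : Set.InjOn (fun x : ℝ => Complex.exp (x * Complex.I)) (Set.Ioo (0 : ℝ) 1) := by
        intro x hx y hy hxy
        have h3 := congrArg Complex.re hxy
        simp only [Complex.exp_ofReal_mul_I_re] at h3
        have hpi := Real.pi_gt_three
        exact Real.injOn_cos ⟨hx.1.le, by linarith [hx.2]⟩ ⟨hy.1.le, by linarith [hy.2]⟩ h3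
      exact (Set.Ioo_infinite (zero_lt_one' ℝ)) (h1.of_finite_image h2)
    refine hinf.mono ?_
    intro t ht
    have ht1 : ‖t‖ = 1 := by simpa using ht
    have h4 := P4 g0 g h0 hc w hw v hv c hcz j t ht1
    have h5 := numr_eval w (fun i => (starRingEnd ℂ) (c i * (g j).eval (w i))) hw t ht1.le
    have h6 := numr_eval w a0 hw t ht1.le
    have h7 := shp_circle d g0 hd0 t ht1
    have h8 := shp_circle d (g j) (hdj j) t ht1
    change (numr w (fun i => (starRingEnd ℂ) (c i * (g j).eval (w i))) * shp d g0).eval t =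
      (numr w a0 * shp d (g j)).eval t
    rw [Polynomial.eval_mul, Polynomial.eval_mul, h5, h6, h7, h8]
    calc _ = (∏ k, (1 - (starRingEnd ℂ) (w k) * t)) * t ^ d *
        ((∑ i, (starRingEnd ℂ) (c i * (g j).eval (w i)) *
          (1 / (1 - (starRingEnd ℂ) (w i) * t))) * (starRingEnd ℂ) (g0.eval t)) := by ring
      _ = (∏ k, (1 - (starRingEnd ℂ) (w k) * t)) * t ^ d *
        ((∑ i, (starRingEnd ℂ) (c i * g0.eval (w i)) *
          (1 / (1 - (starRingEnd ℂ) (w i) * t))) * (starRingEnd ℂ) ((g j).eval t)) := by rw [h4]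
      _ = _ := by
        rw [ha0]
        ring
  have hG0 : shp d g0 ≠ 0 := by
    intro h
    have h1 := shp_circle d g0 hd0 1 (by simp)
    rw [h, Polynomial.eval_zero, one_pow, one_mul] at h1
    have h2 := h0 1 (by simp)
    exact h2 ((map_eq_zero (starRingEnd ℂ)).1 h1.symm)
  have hGd : (shp d g0).degree = (d : ℕ) := by
    rw [Polynomial.degree_eq_natDegree hG0, shp_natDegree d g0 hd0 (h0 0 (by simp))]
  have hnz : ∀ t : ℂ, (shp d g0).eval t ≠ 0 ∨ ∃ j, (shp d (g j)).eval t ≠ 0 := by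
    intro t
    obtain ⟨o, ho⟩ := shp_no_zero (J := Option (Fin N)) d (fun o => o.elim g0 g)
      (fun o => by cases o with
        | none => exact hd0
        | some j => exact hdj j)
      (by
        rcases hd with h | ⟨j, h⟩
        · exact ⟨none, h⟩
        · exact ⟨some j, h⟩)
      (fun t => by
        rcases hz t with h | ⟨j, h⟩
        · exact ⟨none, h⟩
        · exact ⟨some j, h⟩) t
    cases o with
    | none => exact Or.inl ho
    | some j => exact Or.inr ⟨j, ho⟩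
  have hA := P6 (numr w a0) (shp d g0)
    (fun j => numr w (fun i => (starRingEnd ℂ) (c i * (g j).eval (w i))))
    (fun j => shp d (g j)) key hnz (by rw [hGd]; exact numr_degree w a0)
  have ha := numr_eq_zero w a0 hw0 hinj hA
  funext i
  have h1 := congrFun ha i
  simp only [ha0, Pi.zero_apply] at h1
  have h2 := (map_eq_zero (starRingEnd ℂ)).1 h1
  rcases mul_eq_zero.1 h2 with h3 | h3
  · exact h3
  · exact absurd h3 (h0 (w i) (hw i).le)

end Pool.Agent.DAng
end

section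

set_option autoImplicit false

namespace Pool.Agent.DAng

open MvPolynomial

theorem L3_lin (t0 : ℂ) (ρ : ℝ) (hρ : 0 < ρ) :
    (Polynomial.C t0 + Polynomial.C (ρ : ℂ) * Polynomial.X).natDegree = 1 ∧
    (Polynomial.C t0 + Polynomial.C (ρ : ℂ) * Polynomial.X).leadingCoeff = (ρ : ℂ) := by
  have h : (ρ : ℂ) ≠ 0 := by exact_mod_cast hρ.ne'
  rw [add_comm]
  exact ⟨Polynomial.natDegree_linear h, Polynomial.leadingCoeff_linear h⟩

/-- Nonvanishing determinant at a good interior line. Hypotheses: the line `(a, b)` has `|a| < 1`, the restrictions of the `F j` to the line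
have no common zero and one of them has a nonzero coefficient at `t^d`.
PROOF. Take `κ, ρ, t0` from `L2`, `w i = 1/(i+2)` (`i : Fin d`), `T i = t0 + ρ w_i`. Put `g j (τ) = F_j(pt a b (t0 + ρ τ))`, i.e.
`g j = ((phi m (F j)).map (evA a b)).comp (C t0 + C ρ * X)`, degree `≤ d` (`phi_natDegree`), coefficient at `τ^d` equal to `ρ^d` times the one at `t^d`.
`|z|² ≤ 1` for `|τ| ≤ 1` (from `L2` with `s = t`): so `g none ≠ 0` there (`hq`), and on `|τ| = 1` `|z|² = 1`, and the identity `L1` with `s = t` gives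
`|g_0|² = ∑ |g_j|²`. With `v τ σ = κ ρ² ∑_{k<d} evR a b (Xs a b (t0 + ρ σ)) (u k) (t0 + ρ τ)^k`, `L1` and `L2` give
`g_0(τ) conj g_0(σ) - ∑ g_j(τ) conj g_j(σ) = (1 - τ conj σ) v τ σ`. Let `M i l = ∑_{k<d} evR a b (Xs a b (T l)) (u k) (T i)^k`. If `det (matrix of
evR a b (Xs a b (T l)) (u k))_{k,l} = 0` then there is a nonzero `y` with `∑_l evR a b (Xs a b (T l)) (u k) y_l = 0` for all `k`, so `∑_l M i l y_l = 0`,
`∑_{i,l} conj(y_i) y_l v(w_i, w_l) = 0`: contradiction to `P8` with `c_i = conj(y_i)`. -/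
theorem L3 {m d N : ℕ} (F : Option (Fin N) → MvPolynomial (Fin (m + 1)) ℂ)
    (hF : ∀ j, (F j).totalDegree ≤ d) (u : ℕ → CR m) (hu : IsQuot m d F u)
    (hq : ∀ z : Fin (m + 1) → ℂ, ∑ i, ‖z i‖ ^ 2 ≤ 1 → eval z (F none) ≠ 0)
    (a b : Fin m → ℂ) (ha : ∑ i, ‖a i‖ ^ 2 < 1)
    (hz : ∀ t : ℂ, ∃ j, eval (pt a b t) (F j) ≠ 0)
    (hd : ∃ j, evA a b ((phi m (F j)).coeff d) ≠ 0) :
    ∃ T : Fin d → ℂ, (Matrix.of (fun k l : Fin d => evR a b (Xs a b (T l)) (u k))).det ≠ 0 := by
  obtain ⟨κ, ρ, t0, hκ, hρ, hL2⟩ := L2 a b ha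
  have hρ0 : (ρ : ℂ) ≠ 0 := by exact_mod_cast hρ.ne'
  obtain ⟨hlin1, hlin2⟩ := L3_lin t0 ρ hρ
  let gp : Option (Fin N) → Polynomial ℂ := fun j =>
    ((phi m (F j)).map (evA a b)).comp (Polynomial.C t0 + Polynomial.C (ρ : ℂ) * Polynomial.X)
  have gp_eval : ∀ j τ, (gp j).eval τ = eval (pt a b (t0 + ρ * τ)) (F j) := by
    intro j τ
    simp only [gp, Polynomial.eval_comp, Polynomial.eval_add, Polynomial.eval_C,
      Polynomial.eval_mul, Polynomial.eval_X, phi_eval]
  have hmapdeg : ∀ j, ((phi m (F j)).map (evA a b)).natDegree ≤ d := fun j =>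
    Polynomial.natDegree_map_le.trans ((phi_natDegree (F j)).trans (hF j))
  have gp_deg : ∀ j, (gp j).natDegree ≤ d := by
    intro j
    simp only [gp, Polynomial.natDegree_comp, hlin1, mul_one]
    exact hmapdeg j
  have gp_coeff : ∃ j, (gp j).coeff d ≠ 0 := by
    obtain ⟨j, hj⟩ := hd
    refine ⟨j, ?_⟩
    have h1 : ((phi m (F j)).map (evA a b)).coeff d ≠ 0 := by
      rw [Polynomial.coeff_map]
      exact hj
    have h2 : ((phi m (F j)).map (evA a b)).natDegree = d :=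
      le_antisymm (hmapdeg j) (Polynomial.le_natDegree_of_ne_zero h1)
    have h3 := Polynomial.coeff_comp_degree_mul_degree (p := (phi m (F j)).map (evA a b))
      (q := Polynomial.C t0 + Polynomial.C (ρ : ℂ) * Polynomial.X) (by rw [hlin1]; exact one_ne_zero)
    rw [hlin1, hlin2, h2, mul_one] at h3
    simp only [gp]
    rw [h3]
    refine mul_ne_zero ?_ (pow_ne_zero _ hρ0)
    rw [Polynomial.leadingCoeff, h2]
    exact h1
  have hreal : ∀ τ : ℂ, 1 - ∑ i, ‖pt a b (t0 + ρ * τ) i‖ ^ 2 = κ * ρ ^ 2 * (1 - ‖τ‖ ^ 2) := by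
    intro τ
    have h1 := hL2 (t0 + ρ * τ) (t0 + ρ * τ)
    have h2 : ∀ z : ℂ, z * (starRingEnd ℂ) z = ((‖z‖ ^ 2 : ℝ) : ℂ) := by
      intro z
      rw [Complex.mul_conj, Complex.normSq_eq_norm_sq]
    simp only [h2] at h1
    rw [add_sub_cancel_left, norm_mul, Complex.norm_real, Real.norm_of_nonneg hρ.le] at h1
    have h3 : (1 - ∑ i, ‖pt a b (t0 + ρ * τ) i‖ ^ 2) = κ * (ρ ^ 2 - (ρ * ‖τ‖) ^ 2) := by
      exact_mod_cast h1
    rw [h3]
    ring
  have hkey : ∀ t s : ℂ, (gp none).eval t * (starRingEnd ℂ) ((gp none).eval s) -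
      ∑ j, (gp (some j)).eval t * (starRingEnd ℂ) ((gp (some j)).eval s) =
      (1 - t * (starRingEnd ℂ) s) * (κ * ρ ^ 2 *
        ∑ k ∈ Finset.range d, evR a b (Xs a b (t0 + ρ * s)) (u k) * (t0 + ρ * t) ^ k) := by
    intro t s
    have h1 := L1 F hF u hu a b (t0 + ρ * t) (t0 + ρ * s)
    rw [hL2, Fintype.sum_option] at h1
    simp only [gp_eval]
    simp only [sg, one_mul, neg_mul, Finset.sum_neg_distrib] at h1
    rw [sub_eq_add_neg, h1, add_sub_cancel_left, add_sub_cancel_left, map_mul, Complex.conj_ofReal]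
    ring
  let w : Fin d → ℂ := fun i => ((1 / ((i : ℝ) + 2) : ℝ) : ℂ)
  have hwpos : ∀ i : Fin d, 0 < 1 / ((i : ℝ) + 2) := fun i => by positivity
  have hw1 : ∀ i, ‖w i‖ < 1 := by
    intro i
    simp only [w]
    rw [Complex.norm_real, Real.norm_of_nonneg (hwpos i).le, div_lt_one (by positivity)]
    have : (0 : ℝ) ≤ (i : ℕ) := Nat.cast_nonneg _
    linarith
  have hw0 : ∀ i, w i ≠ 0 := by
    intro i
    simp only [w]
    exact_mod_cast (hwpos i).ne'
  have hinj : Function.Injective w := by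
    intro i j hij
    simp only [w] at hij
    have h1 : 1 / ((i : ℝ) + 2) = 1 / ((j : ℝ) + 2) := by exact_mod_cast hij
    rw [one_div, one_div, inv_inj] at h1
    have h2 : ((i : ℕ) : ℝ) = ((j : ℕ) : ℝ) := by linarith
    exact Fin.ext (by exact_mod_cast h2)
  refine ⟨fun l => t0 + ρ * w l, ?_⟩
  intro hdet
  obtain ⟨y, hy0, hy⟩ := Matrix.exists_mulVec_eq_zero_iff.mpr hdet
  have hy' : ∀ k : Fin d, ∑ l, evR a b (Xs a b (t0 + ρ * w l)) (u k) * y l = 0 := by
    intro k
    have h1 := congrFun hy k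
    simpa [Matrix.mulVec, dotProduct] using h1
  have hc := P8 (gp none) (fun j => gp (some j)) (d := d)
    (by
      intro τ hτ
      rw [gp_eval]
      apply hq
      have h1 := hreal τ
      have h2 : 0 ≤ κ * ρ ^ 2 * (1 - ‖τ‖ ^ 2) := by
        have h3 : ‖τ‖ ^ 2 ≤ 1 := by nlinarith [norm_nonneg τ]
        have h4 : 0 ≤ 1 - ‖τ‖ ^ 2 := by linarith
        positivity
      linarith)
    (by
      intro τ hτ
      have h1 := hkey τ τ
      have h2 : ∀ z : ℂ, z * (starRingEnd ℂ) z = ((‖z‖ ^ 2 : ℝ) : ℂ) := by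
        intro z
        rw [Complex.mul_conj, Complex.normSq_eq_norm_sq]
      simp only [h2, hτ] at h1
      rw [one_pow, Complex.ofReal_one, sub_self, zero_mul, sub_eq_zero] at h1
      have h3 : ‖(gp none).eval τ‖ ^ 2 = ∑ j, ‖(gp (some j)).eval τ‖ ^ 2 := by
        exact_mod_cast h1
      exact h3.symm)
    (gp_deg none) (fun j => gp_deg (some j))
    (by
      obtain ⟨j, hj⟩ := gp_coeff
      cases j with
      | none => exact Or.inl hj
      | some j => exact Or.inr ⟨j, hj⟩)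
    (by
      intro τ
      obtain ⟨j, hj⟩ := hz (t0 + ρ * τ)
      rw [← gp_eval] at hj
      cases j with
      | none => exact Or.inl hj
      | some j => exact Or.inr ⟨j, hj⟩)
    w hw1 hw0 hinj
    (fun t s => κ * ρ ^ 2 *
        ∑ k ∈ Finset.range d, evR a b (Xs a b (t0 + ρ * s)) (u k) * (t0 + ρ * t) ^ k)
    hkey (fun i => (starRingEnd ℂ) (y i))
    (by
      apply Finset.sum_eq_zero
      intro i _
      have h1 : ∀ k : Fin d, (starRingEnd ℂ) (y i) * (starRingEnd ℂ) ((starRingEnd ℂ) (y k)) *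
          (κ * ρ ^ 2 * ∑ e ∈ Finset.range d, evR a b (Xs a b (t0 + ρ * w k)) (u e) *
            (t0 + ρ * w i) ^ e) =
          (starRingEnd ℂ) (y i) * (κ * ρ ^ 2) * ∑ e : Fin d, (t0 + ρ * w i) ^ (e : ℕ) *
            (evR a b (Xs a b (t0 + ρ * w k)) (u e) * y k) := by
        intro k
        rw [Complex.conj_conj, Finset.sum_range, Finset.mul_sum, Finset.mul_sum, Finset.mul_sum]
        apply Finset.sum_congr rfl
        intro e _
        ring
      simp only [h1]
      rw [← Finset.mul_sum, Finset.sum_comm]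
      simp only [← Finset.mul_sum, hy', mul_zero, Finset.sum_const_zero])
  apply hy0
  funext i
  have h1 := congrFun hc i
  simp only [Pi.zero_apply] at h1 ⊢
  exact (map_eq_zero _).mp h1

end Pool.Agent.DAng
end
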