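import Pool.Agent.Lib.MP_e3689b_an.Mg.G013
import Pool.Agent.Lib.MP_e3689b_an.Mg.G024
import Pool.Agent.Lib.MP_e3689b_an.Mg.G020
import Pool.Agent.Lib.MP_e3689b_an.Mg.G019
import Pool.Agent.Lib.MP_e3689b_an.Mg.G016
import Pool.Agent.Lib.MP_e3689b_an.Mg.G017
import Pool.Agent.Lib.MP_e3689b_an.Mg.G022
import Pool.Agent.Lib.MP_e3689b_an.Mg.G018

section

set_option autoImplicit false

namespace Pool.Agent.DAng

open MvPolynomial

/-- The constant `a_n = ((n-1)!)^(1/(n-1)) / n`. -/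
noncomputable def an (n : ℕ) : ℝ := ((Nat.factorial (n - 1) : ℕ) : ℝ) ^ (1 / ((n : ℝ) - 1)) / n

lemma K6_an_pos (n : ℕ) (hn : 2 ≤ n) : 0 < an n := by
  unfold an
  have h1 : (0 : ℝ) < ((Nat.factorial (n - 1) : ℕ) : ℝ) := by
    exact_mod_cast Nat.factorial_pos _
  have h2 : (0 : ℝ) < (n : ℝ) := by exact_mod_cast (by omega : 0 < n)
  exact div_pos (Real.rpow_pos_of_pos h1 _) h2

/-- the recursion of the constants -/
lemma K6_const (n : ℕ) (hn : 2 ≤ n) :
    an (n + 1) * (((n + 1 : ℕ) : ℝ) / (((n + 1 : ℕ) : ℝ) - 1)) =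
      an n ^ (((n : ℝ) - 1) / n) := by
  have hn0 : (0 : ℝ) < (n : ℝ) := by exact_mod_cast (by omega : 0 < n)
  have hn1 : (0 : ℝ) < (n : ℝ) - 1 := by
    have : (2 : ℝ) ≤ (n : ℝ) := by exact_mod_cast hn
    linarith
  have hf : (0 : ℝ) < ((Nat.factorial (n - 1) : ℕ) : ℝ) := by
    exact_mod_cast Nat.factorial_pos _
  unfold an
  have e1 : (((n + 1 : ℕ) : ℝ) - 1) = n := by push_cast; ring
  rw [e1, Nat.add_sub_cancel]
  have e2 : ((Nat.factorial n : ℕ) : ℝ) = n * ((Nat.factorial (n - 1) : ℕ) : ℝ) := by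
    have : Nat.factorial n = n * Nat.factorial (n - 1) := by
      rw [Nat.mul_factorial_pred (by omega)]
    rw [this]
    push_cast
    ring
  rw [e2, Real.mul_rpow hn0.le hf.le,
    Real.div_rpow (Real.rpow_nonneg hf.le _) hn0.le, ← Real.rpow_mul hf.le]
  have e3 : 1 / ((n : ℝ) - 1) * (((n : ℝ) - 1) / n) = 1 / n := by
    field_simp
  rw [e3]
  have e4 : (n : ℝ) ^ (1 / (n : ℝ)) = n / (n : ℝ) ^ (((n : ℝ) - 1) / n) := by
    have e5 : 1 / (n : ℝ) = 1 - ((n : ℝ) - 1) / n := by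
      field_simp
      ring
    rw [e5, Real.rpow_sub hn0, Real.rpow_one]
  rw [e4]
  have h6 : (0 : ℝ) < (n : ℝ) ^ (((n : ℝ) - 1) / n) := Real.rpow_pos_of_pos hn0 _
  have h7 : ((n + 1 : ℕ) : ℝ) ≠ 0 := by positivity
  field_simp

/-- the pointwise inequality -/
lemma K6_point (n : ℕ) (hn : 2 ≤ n) (k g e : ℕ) (hge : g ≤ e)
    (h : (k : ℝ) ≤ an n * (g : ℝ) ^ ((n : ℝ) / ((n : ℝ) - 1))) :
    (k : ℝ) ≤ an (n + 1) * (((n + 1 : ℕ) : ℝ) / (((n + 1 : ℕ) : ℝ) - 1)) *
      (k : ℝ) ^ (((n + 1 : ℕ) : ℝ) / (((n + 1 : ℕ) : ℝ) - 1) - 1) * (e : ℝ) := by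
  have hn0 : (0 : ℝ) < (n : ℝ) := by exact_mod_cast (by omega : 0 < n)
  have hn1 : (0 : ℝ) < (n : ℝ) - 1 := by
    have : (2 : ℝ) ≤ (n : ℝ) := by exact_mod_cast hn
    linarith
  have ha := K6_an_pos n hn
  rw [K6_const n hn]
  have e1 : (((n + 1 : ℕ) : ℝ) / (((n + 1 : ℕ) : ℝ) - 1) - 1) = 1 / n := by
    have e1 : (((n + 1 : ℕ) : ℝ) - 1) = n := by push_cast; ring
    rw [e1]
    push_cast
    field_simp
    ring
  rw [e1]
  rcases Nat.eq_zero_or_pos k with hk | hk
  · subst hk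
    simp only [Nat.cast_zero]
    rw [Real.zero_rpow (by positivity)]
    simp
  have hk0 : (0 : ℝ) < (k : ℝ) := by exact_mod_cast hk
  have hg0 : (0 : ℝ) ≤ (g : ℝ) := Nat.cast_nonneg _
  set q : ℝ := ((n : ℝ) - 1) / n with hq
  have hq0 : 0 < q := div_pos hn1 hn0
  have h1 : (k : ℝ) ^ q ≤ an n ^ q * (g : ℝ) := by
    have h2 := Real.rpow_le_rpow hk0.le h hq0.le
    rw [Real.mul_rpow ha.le (Real.rpow_nonneg hg0 _), ← Real.rpow_mul hg0] at h2
    have e2 : (n : ℝ) / ((n : ℝ) - 1) * q = 1 := by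
      rw [hq]
      field_simp
    rwa [e2, Real.rpow_one] at h2
  have e3 : (k : ℝ) = (k : ℝ) ^ (1 / (n : ℝ)) * (k : ℝ) ^ q := by
    rw [← Real.rpow_add hk0]
    have e4 : 1 / (n : ℝ) + q = 1 := by
      rw [hq]
      field_simp
      ring
    rw [e4, Real.rpow_one]
  have hkn : (0 : ℝ) ≤ (k : ℝ) ^ (1 / (n : ℝ)) := Real.rpow_nonneg hk0.le _
  have haq : (0 : ℝ) ≤ an n ^ q := Real.rpow_nonneg ha.le _
  have hge' : (g : ℝ) ≤ (e : ℝ) := by exact_mod_cast hge
  calc (k : ℝ) = (k : ℝ) ^ (1 / (n : ℝ)) * (k : ℝ) ^ q := e3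
    _ ≤ (k : ℝ) ^ (1 / (n : ℝ)) * (an n ^ q * (g : ℝ)) := mul_le_mul_of_nonneg_left h1 hkn
    _ ≤ (k : ℝ) ^ (1 / (n : ℝ)) * (an n ^ q * (e : ℝ)) :=
        mul_le_mul_of_nonneg_left (mul_le_mul_of_nonneg_left hge' haq) hkn
    _ = an n ^ q * (k : ℝ) ^ (1 / (n : ℝ)) * (e : ℝ) := by ring

/-- `n + 1` variables, `n ≥ 2`: `|S| ≤ a_n G^(n/(n-1))`, `G = |∂_T S| - |S|`, and `|∂_T S| ≥ |S|`.
PROOF. Induction on `n`. `n = 2`: `a_2 = 1/2`, `K5`. Step `n - 1 → n` (`n ≥ 3`): `T = insert s T'`, `|T'| = n`; notation as in `K5`: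
`k c = |S_c|`, `g c = |∂_{T'} S_c| - k c`, `e c = m c - k c ≥ g c`. By induction `k c ≤ a_{n-1} (g c)^((n-1)/(n-2))`, so
`g c ≥ (k c / a_{n-1})^((n-2)/(n-1))`. With `p = n/(n-1)`, `p - 1 = 1/(n-1)` and `a_n p = a_{n-1}^((n-2)/(n-1))` (check: both are
`((n-2)!/(n-1)^(n-2))^(1/(n-1))`) we get `a_n p (k c)^(p-1) g c ≥ k c`. Apply `K2'` with `A = a_n`, `κ = 0`, and `K3`. -/
theorem K6 {σ : Type*} [Fintype σ] (n : ℕ) (hn : 2 ≤ n) : ∀ (T : Finset σ), T.card = n + 1 →
    ∀ (S : Finset (σ →₀ ℕ)), S.card ≤ (bdT T S).card ∧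
      (S.card : ℝ) ≤ an n * (((bdT T S).card - S.card : ℕ) : ℝ) ^ ((n : ℝ) / ((n : ℝ) - 1)) := by
  classical
  induction n, hn using Nat.le_induction with
  | base =>
    intro T hT S
    refine ⟨?_, ?_⟩
    · rcases S.eq_empty_or_nonempty with hS | hS
      · subst hS
        simp
      · have h1 := K1 T (Finset.card_pos.1 (by omega)) S hS
        omega
    · have h5 := K5 T (by omega) S
      set G : ℕ := (bdT T S).card - S.card with hG
      have e1 : an 2 = 1 / 2 := by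
        unfold an
        norm_num
      have e2 : ((2 : ℕ) : ℝ) / (((2 : ℕ) : ℝ) - 1) = ((2 : ℕ) : ℝ) := by norm_num
      rw [e1, e2, Real.rpow_natCast]
      have h6 : 2 * S.card ≤ G * G := h5.trans (Nat.mul_le_mul_left _ (Nat.sub_le _ _))
      have h7 : (2 : ℝ) * (S.card : ℝ) ≤ (G : ℝ) * (G : ℝ) := by exact_mod_cast h6
      nlinarith
  | succ n hn ih =>
    intro T hT S
    obtain ⟨s, hs⟩ : T.Nonempty := Finset.card_pos.1 (by omega)
    set T' : Finset σ := T.erase s with hT'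
    have hsT' : s ∉ T' := Finset.notMem_erase s T
    have hTT' : insert s T' = T := Finset.insert_erase hs
    have hcT' : T'.card = n + 1 := by
      rw [hT', Finset.card_erase_of_mem hs, hT]
      omega
    set L : ℕ := S.sup (fun M => M s) + 1 with hL
    let k : ℕ → ℕ := fun c => (S.filter (fun M => M s = c)).card
    let mm : ℕ → ℕ := fun c => max (bdT T' (S.filter (fun M => M s = c))).card
      (if c = 0 then 0 else (S.filter (fun M => M s = c - 1)).card)
    have hkm : ∀ c, k c ≤ mm c := fun c => (ih T' hcT' _).1.trans (le_max_left _ _)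
    let e : ℕ → ℕ := fun c => mm c - k c
    have hek : ∀ c, e c + k c = mm c := fun c => Nat.sub_add_cancel (hkm c)
    have hk0 : ∀ c, L ≤ c → k c = 0 := by
      intro c hc
      show (S.filter (fun M => M s = c)).card = 0
      rw [Finset.card_eq_zero, Finset.filter_eq_empty_iff]
      intro M hM hMc
      have h1 : M s ≤ S.sup (fun M => M s) := Finset.le_sup (f := fun M : σ →₀ ℕ => M s) hM
      omega
    have hp : (1 : ℝ) ≤ ((n + 1 : ℕ) : ℝ) / (((n + 1 : ℕ) : ℝ) - 1) := by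
      have hn0 : (0 : ℝ) < (n : ℝ) := by exact_mod_cast (by omega : 0 < n)
      have e1 : (((n + 1 : ℕ) : ℝ) - 1) = n := by push_cast; ring
      rw [e1, le_div_iff₀ hn0]
      push_cast
      linarith
    have key := K2' (an (n + 1)) (((n + 1 : ℕ) : ℝ) / (((n + 1 : ℕ) : ℝ) - 1))
      (K6_an_pos (n + 1) (by omega)).le hp L k e 0 hk0
      (fun c => K6_point n hn (k c) ((bdT T' (S.filter (fun M => M s = c))).card - k c) (e c)
        (Nat.sub_le_sub_right (le_max_left _ _) _) (ih T' hcT' _).2)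
      (Nat.zero_le _)
      (fun c => by
        rw [hek (c + 1)]
        show k c ≤ max _ (if c + 1 = 0 then 0 else (S.filter (fun M => M s = c + 1 - 1)).card)
        rw [if_neg (Nat.succ_ne_zero c), Nat.add_sub_cancel]
        exact le_max_right _ _)
    have hsumk : ∑ c ∈ Finset.range (L + 1), k c = S.card := by
      symm
      apply Finset.card_eq_sum_card_fiberwise
      intro M hM
      rw [Finset.coe_range, Set.mem_Iio]
      have h1 : M s ≤ S.sup (fun M => M s) :=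
        Finset.le_sup (f := fun M : σ →₀ ℕ => M s) (Finset.mem_coe.1 hM)
      show M s < L + 1
      omega
    have h3 := K3 T' s hsT' S L
    rw [hTT'] at h3
    have h3' : ∑ c ∈ Finset.range (L + 1), mm c ≤ (bdT T S).card := h3
    have hsum : ∑ c ∈ Finset.range (L + 1), mm c =
        ∑ c ∈ Finset.range (L + 1), e c + ∑ c ∈ Finset.range (L + 1), k c := by
      rw [← Finset.sum_add_distrib]
      exact Finset.sum_congr rfl (fun c _ => (hek c).symm)
    rw [hsum, hsumk] at h3'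
    refine ⟨by omega, ?_⟩
    have h4 : ∑ c ∈ Finset.range (L + 1), e c ≤ (bdT T S).card - S.card := by omega
    have h5 : (∑ c ∈ Finset.range (L + 1), (e c : ℝ)) ≤ (((bdT T S).card - S.card : ℕ) : ℝ) := by
      have : ((∑ c ∈ Finset.range (L + 1), e c : ℕ) : ℝ) ≤
          (((bdT T S).card - S.card : ℕ) : ℝ) := by exact_mod_cast h4
      rwa [Nat.cast_sum] at this
    have h6 : (S.card : ℝ) = ∑ c ∈ Finset.range (L + 1), (k c : ℝ) := by
      rw [← hsumk, Nat.cast_sum]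
    rw [h6]
    refine key.2.trans ?_
    apply mul_le_mul_of_nonneg_left _ (K6_an_pos (n + 1) (by omega)).le
    apply Real.rpow_le_rpow (Finset.sum_nonneg (fun _ _ => Nat.cast_nonneg _)) h5
    linarith

end Pool.Agent.DAng
end

section

set_option autoImplicit false

namespace Pool.Agent.DAng

open MvPolynomial

/-- Integer form: `(n |S|)^(n-1) ≤ (n-1)! G^n`.
PROOF. Raise `K6` to the power `n - 1` (natural), `a_n^(n-1) = (n-1)!/n^(n-1)`, `(G^(n/(n-1)))^(n-1) = G^n`. -/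
theorem K7 {σ : Type*} [Fintype σ] (n : ℕ) (hn : 2 ≤ n) (T : Finset σ) (hT : T.card = n + 1)
    (S : Finset (σ →₀ ℕ)) :
    (n * S.card) ^ (n - 1) ≤ Nat.factorial (n - 1) * ((bdT T S).card - S.card) ^ n := by
  have h := (K6 n hn T hT S).2
  obtain ⟨G, hG⟩ : ∃ G : ℕ, G = (bdT T S).card - S.card := ⟨_, rfl⟩
  rw [← hG] at h ⊢
  have hn2 : (2 : ℝ) ≤ (n : ℝ) := by exact_mod_cast hn
  have hn0 : (0 : ℝ) < (n : ℝ) := by linarith
  have hn1 : (0 : ℝ) < (n : ℝ) - 1 := by linarith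
  have hcast : ((n - 1 : ℕ) : ℝ) = (n : ℝ) - 1 := by
    rw [Nat.cast_sub (by omega), Nat.cast_one]
  have hf0 : (0 : ℝ) ≤ ((Nat.factorial (n - 1) : ℕ) : ℝ) := Nat.cast_nonneg _
  have hG0 : (0 : ℝ) ≤ (G : ℝ) := Nat.cast_nonneg _
  have h1 : (n : ℝ) * S.card ≤
      ((Nat.factorial (n - 1) : ℕ) : ℝ) ^ (1 / ((n : ℝ) - 1)) * (G : ℝ) ^ ((n : ℝ) / ((n : ℝ) - 1)) := by
    have h2 := mul_le_mul_of_nonneg_left h hn0.le
    refine le_trans h2 (le_of_eq ?_)
    unfold an
    field_simp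
  have h3 := pow_le_pow_left₀ (by positivity) h1 (n - 1)
  rw [mul_pow (_ ^ _) (_ ^ _), ← Real.rpow_natCast (_ ^ _) (n - 1), ← Real.rpow_natCast ((G : ℝ) ^ _) (n - 1),
    ← Real.rpow_mul hf0, ← Real.rpow_mul hG0, hcast, one_div_mul_cancel hn1.ne', div_mul_cancel₀ _ hn1.ne',
    Real.rpow_one, Real.rpow_natCast] at h3
  exact_mod_cast h3

end Pool.Agent.DAng
end

section

set_option autoImplicit false

namespace Pool.Agent.DAng

open MvPolynomial

/-- Polarisation on the sphere: if `P(z, z̄) = 0` for `|z| = 1` then `P(z, w) = 0` whenever `∑ z_i w_i = 1`.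
PROOF. Let `c = ∑ X (inl i) * X (inr i)` and apply `Z4` to `P` with `g (inl i) = X (inl i) * c`,
`g (inr i) = X (inr i)`: get `D`, `Q` with `Q(z, w) = (z·w)^D P(z, w/(z·w))` if `z·w ≠ 0`. For `z ≠ 0` and
`w = z̄`: `z·w = |z|² ≠ 0`, so `Q(z, z̄) = 0` by `Z3`. Hence `(Q * c)(z, z̄) = 0` for ALL `z` (for `z = 0`
because `c = 0` there). By `Z1` `Q * c = 0`. At `(z, w)` with `z·w = 1` we get `Q(z, w) = 0`, and
`Q(z, w) = P(z, w)`. -/
theorem Z5 {n : ℕ} (P : MvPolynomial (Fin n ⊕ Fin n) ℂ)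
    (h : ∀ z : Fin n → ℂ, ∑ i, ‖z i‖ ^ 2 = 1 →
      eval (Sum.elim z (fun i => (starRingEnd ℂ) (z i))) P = 0)
    (z w : Fin n → ℂ) (hzw : ∑ i, z i * w i = 1) : eval (Sum.elim z w) P = 0 := by
  obtain ⟨c, hc⟩ : ∃ c : MvPolynomial (Fin n ⊕ Fin n) ℂ,
      c = ∑ i, X (Sum.inl i) * X (Sum.inr i) := ⟨_, rfl⟩
  have hce : ∀ z w : Fin n → ℂ, eval (Sum.elim z w) c = ∑ i, z i * w i := by
    intro z w
    rw [hc, map_sum]
    refine Finset.sum_congr rfl fun i _ => ?_
    rw [map_mul, eval_X, eval_X, Sum.elim_inl, Sum.elim_inr]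
  obtain ⟨D, Q, hQ⟩ := Z4 P (Sum.elim (fun i => X (Sum.inl i) * c) (fun i => X (Sum.inr i))) c
  have hQ' : ∀ z w : Fin n → ℂ, ∑ i, z i * w i ≠ 0 → eval (Sum.elim z w) Q =
      (∑ i, z i * w i) ^ D *
        eval (Sum.elim z (fun i => w i / (∑ i, z i * w i))) P := by
    intro z w hs
    have h1 := hQ (Sum.elim z w) (by rw [hce]; exact hs)
    rw [hce] at h1
    rw [h1]
    congr 2
    congr 1
    funext t
    rcases t with i | i
    · rw [Sum.elim_inl, Sum.elim_inl, map_mul, eval_X, Sum.elim_inl, hce, mul_div_assoc,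
        div_self hs, mul_one]
    · rw [Sum.elim_inr, Sum.elim_inr, eval_X, Sum.elim_inr]
  have hQc : Q * c = 0 := by
    refine Z1 _ fun z => ?_
    rw [map_mul, hce]
    by_cases hz : z = 0
    · subst hz
      simp
    · have hs : ∑ i, z i * (starRingEnd ℂ) (z i) ≠ 0 := by
        intro h0
        apply hz
        have h1 : ((∑ i, ‖z i‖ ^ 2 : ℝ) : ℂ) = 0 := by
          rw [← h0]
          push_cast
          refine Finset.sum_congr rfl fun i _ => ?_
          rw [Complex.mul_conj, Complex.normSq_eq_norm_sq]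
          push_cast
          rfl
        have h2 : ∑ i, ‖z i‖ ^ 2 = 0 := by exact_mod_cast h1
        rw [Finset.sum_eq_zero_iff_of_nonneg (fun i _ => sq_nonneg _)] at h2
        funext i
        have h3 := h2 i (Finset.mem_univ i)
        simpa using h3
      have h3 := Z3 P h z hz
      rw [hQ' z _ hs, h3, mul_zero, zero_mul]
  have h1 : eval (Sum.elim z w) (Q * c) = 0 := by rw [hQc, map_zero]
  rw [map_mul, hce, hzw, mul_one] at h1
  have h2 := hQ' z w (by rw [hzw]; exact one_ne_zero)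
  rw [h1, hzw, one_pow, one_mul] at h2
  simp only [div_one] at h2
  exact h2.symm

end Pool.Agent.DAng
end

section

set_option autoImplicit false

namespace Pool.Agent.DAng

open MvPolynomial

/-- The sphere condition gives the polarised identity `Quad`.
PROOF. `P := ∑ j, C (sg j) * (rename Sum.inl (F j) * rename Sum.inr (cj (F j)))` with
`F = fun j => j.elim q p`. `eval (Sum.elim z w) P = ∑ j, sg j * (eval z (F j) * eval w (cj (F j)))`
(`eval_rename`), and `eval z̄ (cj G) = conj (eval z G)`. For `|z| = 1`: `eval (z, z̄) P = |q(z)|² - ∑ |p_j(z)|² = 0`,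
from `∑ ‖p_j/q‖² = 1` and `q(z) ≠ 0`. Apply `Z5`. -/
theorem Z6 {n N : ℕ} (p : Fin N → MvPolynomial (Fin n) ℂ) (q : MvPolynomial (Fin n) ℂ)
    (hq : ∀ z : Fin n → ℂ, ∑ i, ‖z i‖ ^ 2 ≤ 1 → eval z q ≠ 0)
    (hs : ∀ z : Fin n → ℂ, ∑ i, ‖z i‖ ^ 2 = 1 → ∑ j, ‖eval z (p j) / eval z q‖ ^ 2 = 1) :
    Quad (fun j : Option (Fin N) => j.elim q p) := by
  obtain ⟨F, hF⟩ : ∃ F : Option (Fin N) → MvPolynomial (Fin n) ℂ,
      F = fun j : Option (Fin N) => j.elim q p := ⟨_, rfl⟩
  rw [← hF]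
  obtain ⟨P, hP⟩ : ∃ P : MvPolynomial (Fin n ⊕ Fin n) ℂ,
      P = ∑ j, C (sg j) * (rename Sum.inl (F j) * rename Sum.inr (cj (F j))) := ⟨_, rfl⟩
  have hev : ∀ z w : Fin n → ℂ, eval (Sum.elim z w) P =
      ∑ j, sg j * (eval z (F j) * eval w (cj (F j))) := by
    intro z w
    rw [hP, map_sum]
    refine Finset.sum_congr rfl fun j _ => ?_
    rw [map_mul, map_mul, eval_C, eval_rename, eval_rename, Sum.elim_comp_inl, Sum.elim_comp_inr]
  have hcj : ∀ (G : MvPolynomial (Fin n) ℂ) (z : Fin n → ℂ),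
      eval (fun i => (starRingEnd ℂ) (z i)) (cj G) = (starRingEnd ℂ) (eval z G) := by
    intro G z
    unfold cj
    rw [eval_map]
    exact (eval₂_comp_left (starRingEnd ℂ) (RingHom.id ℂ) z G).symm
  intro z w hzw
  rw [← hev]
  refine Z5 P (fun z hz => ?_) z w hzw
  rw [hev]
  have hq0 : eval z q ≠ 0 := hq z hz.le
  have h1 : ∀ j, eval z (F j) * eval (fun i => (starRingEnd ℂ) (z i)) (cj (F j)) =
      ((‖eval z (F j)‖ ^ 2 : ℝ) : ℂ) := by
    intro j
    rw [hcj, Complex.mul_conj, Complex.normSq_eq_norm_sq]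
  have h2 : ∑ j, ‖eval z (p j)‖ ^ 2 = ‖eval z q‖ ^ 2 := by
    have h3 := hs z hz
    have hn : ‖eval z q‖ ^ 2 ≠ 0 := by
      have := norm_ne_zero_iff.2 hq0
      positivity
    have h4 : ∀ j, ‖eval z (p j) / eval z q‖ ^ 2 = ‖eval z (p j)‖ ^ 2 / ‖eval z q‖ ^ 2 := by
      intro j
      rw [norm_div, div_pow]
    rw [Finset.sum_congr rfl fun j _ => h4 j, ← Finset.sum_div, div_eq_one_iff_eq hn] at h3
    exact h3
  rw [Finset.sum_congr rfl fun j _ => by rw [h1 j], Fintype.sum_option]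
  simp only [sg, hF, Option.elim]
  rw [← h2]
  push_cast
  rw [one_mul, Finset.sum_congr rfl fun j _ => neg_one_mul _, Finset.sum_neg_distrib]
  exact add_neg_cancel _

end Pool.Agent.DAng
end

section

set_option autoImplicit false

namespace Pool.Agent.DAng

open MvPolynomial

theorem T1_cases {m : ℕ} (i : Sg m) (h0 : i ≠ x0) (h1 : i ≠ x1) : ∃ k : Fin m, i = xi k := by
  rcases hi : ofLex i with k | k
  · exact ⟨k, by rw [xi, ← hi]; rfl⟩
  · exfalso
    fin_cases k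
    · exact h0 (by rw [x0, ← toLex_ofLex i, hi]; rfl)
    · exact h1 (by rw [x1, ← toLex_ofLex i, hi]; rfl)

theorem T1_x01 {m : ℕ} : (x0 : Sg m) ≠ x1 := by
  intro h
  have := congrArg ofLex h
  simp [x0, x1] at this

theorem T1_xi0 {m : ℕ} (k : Fin m) : (xi k : Sg m) ≠ x0 := by
  intro h
  have := congrArg ofLex h
  simp [x0, xi] at this

theorem T1_xi1 {m : ℕ} (k : Fin m) : (xi k : Sg m) ≠ x1 := by
  intro h
  have := congrArg ofLex h
  simp [x1, xi] at this

/-- The monomial order on the dual variables with `X_i` larger than `X_0`, `X_1`.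
PROOF. `mo = MonomialOrder.lex`; for `lex` the variable with the smaller index is larger (`MonomialOrder.lex` API:
`lex_lt_iff`, `Finsupp.Lex.single_lt_iff`), and `xi i = toLex (inl i) < toLex (inr _)`. An element of `Sg m` different from `x0`, `x1` is some `xi i`. -/
theorem T1_order (m : ℕ) : ∃ mo : MonomialOrder.{0, 0} (Sg m), ∀ i : Sg m, i ≠ x0 → i ≠ x1 →
    mo.toSyn (Finsupp.single x0 1) < mo.toSyn (Finsupp.single i 1) ∧
    mo.toSyn (Finsupp.single x1 1) < mo.toSyn (Finsupp.single i 1) := by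
  refine ⟨MonomialOrder.lex, fun i h0 h1 => ?_⟩
  obtain ⟨k, rfl⟩ := T1_cases i h0 h1
  constructor
  · rw [MonomialOrder.lex_lt_iff, Finsupp.Lex.single_lt_iff]
    exact Sum.Lex.inl_lt_inr _ _
  · rw [MonomialOrder.lex_lt_iff, Finsupp.Lex.single_lt_iff]
    exact Sum.Lex.inl_lt_inr _ _


/-- extension by zero of a vector indexed by `Fin (d+1)` -/
noncomputable def extz {A : Type*} [Zero A] (d : ℕ) (v : Fin (d + 1) → A) : ℕ → A := fun k =>
  if h : k < d + 1 then v ⟨k, h⟩ else 0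

theorem extz_zero {A : Type*} [Zero A] (d : ℕ) (v : Fin (d + 1) → A) (k : ℕ) (hk : d < k) :
    extz d v k = 0 := by
  unfold extz
  rw [dif_neg (by omega)]

theorem extz_val {A : Type*} [Zero A] (d : ℕ) (v : Fin (d + 1) → A) (k : Fin (d + 1)) :
    extz d v k = v k := by
  unfold extz
  rw [dif_pos k.isLt]

theorem extz_li {A : Type*} [CommRing A] {d r : ℕ} (θ : Fin r → Fin (d + 1) → A)
    (h : LinearIndependent A θ) : LinearIndependent A (fun l => extz d (θ l)) := by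
  rw [Fintype.linearIndependent_iff] at h ⊢
  intro g hg l
  apply h g
  funext k
  have := congrFun hg (k : ℕ)
  simp only [Finset.sum_apply, Pi.smul_apply, Pi.zero_apply, extz_val] at this ⊢
  exact this

/-- MAIN STRUCTURE THEOREM. There is `s ≤ d` (the dimension of the affine span of the image of a generic line) with `m s + 1 ≤ N` and either `d = s`, or there is a
finite set `S` of monomials in `m + 2` variables with `|S| ≥ d - s` and `|∂S| ≤ d`. -/
theorem T1 {m N d : ℕ} (p : Fin N → MvPolynomial (Fin (m + 1)) ℂ) (q : MvPolynomial (Fin (m + 1)) ℂ)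
    (hred : ∀ r : MvPolynomial (Fin (m + 1)) ℂ, r ∣ q → (∀ j, r ∣ p j) → IsUnit r)
    (hq : ∀ z : Fin (m + 1) → ℂ, ∑ i, ‖z i‖ ^ 2 ≤ 1 → eval z q ≠ 0)
    (hs : ∀ z : Fin (m + 1) → ℂ, ∑ i, ‖z i‖ ^ 2 = 1 → ∑ j, ‖eval z (p j) / eval z q‖ ^ 2 = 1)
    (hd : max (Finset.univ.sup (fun j => (p j).totalDegree)) q.totalDegree = d) :
    ∃ s ≤ d, m * s + 1 ≤ N ∧ (d = s ∨ ∃ S : Finset (Sg m →₀ ℕ), d - s ≤ S.card ∧ (bd S).card ≤ d) := by
  classical
  have hqz : q ≠ 0 := by
    intro h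
    apply hq 0 (by simp)
    rw [h]; simp
  set F : Option (Fin N) → MvPolynomial (Fin (m + 1)) ℂ := fun j => j.elim q p with hFdef
  have hQ : Quad F := Z6 p q hq hs
  have hF : ∀ j, (F j).totalDegree ≤ d := by
    intro j
    rcases j with _ | j
    · exact hd ▸ le_max_right _ _
    · refine le_trans ?_ (hd ▸ le_max_left _ _)
      exact Finset.le_sup (f := fun j => (p j).totalDegree) (Finset.mem_univ j)
  -- the maximum is attained
  have hmax : ∃ j, F j ≠ 0 ∧ (F j).totalDegree = d := by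
    rcases Nat.eq_zero_or_pos d with h0 | h0
    · refine ⟨none, hqz, ?_⟩
      have := hF none
      omega
    · rcases le_total (Finset.univ.sup (fun j => (p j).totalDegree)) q.totalDegree with hle | hle
      · refine ⟨none, hqz, ?_⟩
        rw [max_eq_right hle] at hd
        exact hd
      · rw [max_eq_left hle] at hd
        have hne : (Finset.univ : Finset (Fin N)).Nonempty := by
          by_contra hc
          rw [Finset.not_nonempty_iff_eq_empty] at hc
          rw [hc, Finset.sup_empty] at hd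
          simp at hd
          omega
        obtain ⟨j, _, hj⟩ := Finset.exists_mem_eq_sup Finset.univ hne (fun j => (p j).totalDegree)
        refine ⟨some j, ?_, ?_⟩
        · intro hz
          have hz' : p j = 0 := hz
          rw [hj, hz', totalDegree_zero] at hd
          omega
        · change (p j).totalDegree = d
          rw [← hj, hd]
  have hredF : ∀ r : MvPolynomial (Fin (m + 1)) ℂ, (∀ j, r ∣ F j) → IsUnit r := by
    intro r hr
    exact hred r (hr none) (fun j => hr (some j))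
  have hqF : ∀ z : Fin (m + 1) → ℂ, ∑ i, ‖z i‖ ^ 2 ≤ 1 → eval z (F none) ≠ 0 := hq
  -- rank
  obtain ⟨ρ, hρc, hρ1, ⟨f, g, hdet⟩, θ, hθli, hθ⟩ :=
    R1 (Matrix.of (fun (j : Option (Fin N)) (k : Fin (d + 1)) => (phi m (F j)).coeff k))
  rw [Fintype.card_fin] at hρc
  have hρpos : 1 ≤ ρ := by
    apply hρ1
    obtain ⟨j, hj0, hjd⟩ := hmax
    refine ⟨j, ⟨d, by omega⟩, ?_⟩
    exact phi_coeff_ne (F j) hjd hj0
  have hSN : m * (ρ - 1) + 1 ≤ N := by
    apply S5 F hQ hqF f (fun β => ((g β : Fin (d + 1)) : ℕ))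
    exact hdet
  refine ⟨ρ - 1, by omega, hSN, ?_⟩
  rcases Nat.eq_or_lt_of_le hρc with hr | hr
  · left; omega
  right
  have hd0 : 0 < d := by omega
  obtain ⟨u, hu⟩ := H8 F hF hQ
  have hli : LinearIndependent (CA m) (fun k : Fin d => u k) := by
    obtain ⟨a, b, ha, hz, hdc⟩ := B4 F hredF hmax
    obtain ⟨T, hT⟩ := L3 F hF u hu hqF a b ha hz hdc
    exact L4 u a b (fun l => Xs a b (T l)) hT
  obtain ⟨mo, hmo⟩ := T1_order m
  -- the derivations
  let α : Sg m → Derivation ℂ (CA m) (CA m) := fun v =>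
    match ofLex v with
    | Sum.inl i => pderiv (Sum.inl i)
    | Sum.inr _ => 0
  let β : Sg m → Derivation ℂ (CA m) (CA m) := fun v =>
    match ofLex v with
    | Sum.inl i => pderiv (Sum.inr i)
    | Sum.inr _ => 0
  have hcard : Fintype.card (Fin (d + 1)) - ρ = d - (ρ - 1) := by
    rw [Fintype.card_fin]; omega
  have hC := C7 mo (x0 : Sg m) x1 T1_x01 hmo α β d hd0 u hu.1 hli
    (fun i h0 h1 => by
      obtain ⟨k, rfl⟩ := T1_cases i h0 h1
      exact (H9 F u hu k).1)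
    (fun i h0 h1 => by
      obtain ⟨k, rfl⟩ := T1_cases i h0 h1
      exact (H9 F u hu k).2)
    (Fintype.card (Fin (d + 1)) - ρ) (fun l => extz d (θ l))
    (fun l k hk => extz_zero d (θ l) k hk) (extz_li θ hθli)
    (fun l => by
      apply R2 F u hu (extz d (θ l))
      intro j
      have h1 := congrFun (hθ l) j
      rw [Finset.sum_range]
      simp only [extz_val]
      have h2 : ∑ k : Fin (d + 1), θ l k * (phi m (F j)).coeff k =
          ((Matrix.of (fun (j : Option (Fin N)) (k : Fin (d + 1)) =>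
            (phi m (F j)).coeff k)).mulVec (θ l)) j := by
        simp only [Matrix.mulVec, dotProduct, Matrix.of_apply]
        exact Finset.sum_congr rfl (fun k _ => mul_comm _ _)
      rw [h2, h1]; rfl)
  rw [hcard] at hC
  exact hC

end Pool.Agent.DAng
end
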