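import Pool.Agent.Lib.MP_e3689b_an.VD
import Pool.Agent.Lib.MP_e3689b_an.Mg.G018
import Pool.Agent.Lib.MP_e3689b_an.Mg.G020
import Pool.Agent.Lib.MP_e3689b_an.Mg.G023
import Pool.Agent.Lib.MP_e3689b_an.Mg.G016
import Pool.Agent.Lib.MP_e3689b_an.Mg.G021
import Pool.Agent.Lib.MP_e3689b_an.Mg.G019
import Pool.Agent.Lib.MP_e3689b_an.Mg.G022
import Pool.Agent.Lib.MP_e3689b_an.Mg.G014

section

set_option autoImplicit false

namespace Pool.Agent.DAng

open MvPolynomial

/-- PROOF. the first theorem of R1.lean (`R1_minor`) gives `f₀ g₀` with a nonzero minor of size `M.rank`. Its columns are linearly independent, so the columns of `M` with indices `g₀ ∘ Fin.castLE h` (`r` of them)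
are linearly independent; the submatrix `M.submatrix id (g₀ ∘ Fin.castLE h)` has rank `r` (columns independent) so `R1_minor` applied to it gives `f` and `g₁ : Fin r → Fin r`
(after a cast of `Fin (rank)` to `Fin r`). -/
theorem V10_minor {Q J K : Type*} [Field Q] [Fintype J] [Fintype K] (M : Matrix J K Q) (r : ℕ)
    (h : r ≤ M.rank) : ∃ (f : Fin r → J) (g : Fin r → K), (M.submatrix f g).det ≠ 0 := by
  obtain ⟨g0, hg0⟩ := R1_sel M.col M.rank (Matrix.rank_eq_finrank_span_cols M).symm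
  have hg : LinearIndependent Q (M.col ∘ (g0 ∘ Fin.castLE h)) :=
    hg0.comp (Fin.castLE h) (Fin.castLE_injective h)
  have hB : (M.submatrix id (g0 ∘ Fin.castLE h)).rank = r := by
    rw [Matrix.rank_eq_finrank_span_cols (M.submatrix id (g0 ∘ Fin.castLE h))]
    have h1 : (M.submatrix id (g0 ∘ Fin.castLE h)).col = M.col ∘ (g0 ∘ Fin.castLE h) := by
      funext i j
      rfl
    rw [h1, finrank_span_eq_card hg, Fintype.card_fin]
  obtain ⟨f, hf⟩ := R1_sel (M.submatrix id (g0 ∘ Fin.castLE h)).row r (by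
    rw [← Matrix.rank_eq_finrank_span_row, hB])
  refine ⟨f, g0 ∘ Fin.castLE h, ?_⟩
  have h2 : (M.submatrix f (g0 ∘ Fin.castLE h)).row =
      (M.submatrix id (g0 ∘ Fin.castLE h)).row ∘ f := by
    funext i j
    rfl
  rw [← h2, Matrix.linearIndependent_rows_iff_isUnit, Matrix.isUnit_iff_isUnit_det] at hf
  exact hf.ne_zero

/-- a nonzero minor of size `r` implies `r ≤ rank`.
PROOF. The columns `M.col (g β)` are linearly independent (a relation restricted to the rows `f α` is a relation between the columns of the invertible matrix), and lie in the span of the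
columns (`Matrix.rank_eq_finrank_span_cols`, `LinearIndependent.fintype_card_le_finrank` in the span, or `finrank_span_eq_card` and `Submodule.finrank_mono`). -/
theorem V10_le {Q J K : Type*} [Field Q] [Fintype J] [Fintype K] (M : Matrix J K Q) (r : ℕ)
    (f : Fin r → J) (g : Fin r → K) (h : (M.submatrix f g).det ≠ 0) : r ≤ M.rank := by
  have hu : IsUnit (M.submatrix f g) := by
    rw [Matrix.isUnit_iff_isUnit_det]
    exact isUnit_iff_ne_zero.2 h
  have hcol : LinearIndependent Q (M.submatrix f g).col :=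
    Matrix.linearIndependent_cols_iff_isUnit.2 hu
  have hli : LinearIndependent Q (M.col ∘ g) := by
    have h1 : (M.submatrix f g).col = (LinearMap.funLeft Q Q f) ∘ (M.col ∘ g) := by
      funext i j
      rfl
    rw [h1] at hcol
    exact LinearIndependent.of_comp _ hcol
  rw [Matrix.rank_eq_finrank_span_cols]
  have h2 : Module.finrank Q (Submodule.span Q (Set.range (M.col ∘ g))) = r := by
    rw [finrank_span_eq_card hli, Fintype.card_fin]
  rw [← h2]
  exact Submodule.finrank_mono (Submodule.span_mono (Set.range_comp_subset_range g M.col))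

/-- Selection of points and coordinates. If a family of vectors of `J → Q` spans a space of dimension `≥ r` there are `r` members and `r` coordinates with nonzero determinant.
PROOF. Choose a basis of the span inside the family (`exists_linearIndependent' Q v`, as in `R1_sel` in R1.lean but for an arbitrary index type: the index set `κ` of the basis has cardinality `finrank ≥ r`, finite since
the span is finite dimensional), take `r` of its members `z : Fin r → P`: `LinearIndependent Q (v ∘ z)`. The matrix `Matrix.of (fun j l => v (z l) j)` (`J × Fin r`) has rank `r`; `V10_minor` gives `f : Fin r → J` and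
`g : Fin r → Fin r` with nonzero determinant; put `z' = z ∘ g`. -/
theorem V10_sel {Q J P : Type} [Field Q] [Fintype J] (v : P → J → Q) (r : ℕ)
    (h : r ≤ Module.finrank Q (Submodule.span Q (Set.range v))) :
    ∃ (f : Fin r → J) (z : Fin r → P), (Matrix.of (fun k l : Fin r => v (z l) (f k))).det ≠ 0 := by
  obtain ⟨κ, a, ha, hsp, hli⟩ := exists_linearIndependent' Q v
  have hfk : Finite κ := hli.finite
  cases nonempty_fintype κ
  have hc : Fintype.card κ = Module.finrank Q (Submodule.span Q (Set.range v)) := by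
    rw [← hsp]
    exact (finrank_span_eq_card hli).symm
  have hrc : r ≤ Fintype.card κ := by rw [hc]; exact h
  let z0 : Fin r → P := a ∘ (Fintype.equivFin κ).symm ∘ Fin.castLE hrc
  have hz0 : LinearIndependent Q (v ∘ z0) := by
    have := hli.comp ((Fintype.equivFin κ).symm ∘ Fin.castLE hrc)
      ((Fintype.equivFin κ).symm.injective.comp (Fin.castLE_injective hrc))
    exact this
  let A : Matrix J (Fin r) Q := Matrix.of (fun j l => v (z0 l) j)
  have hA : r ≤ A.rank := by
    rw [Matrix.rank_eq_finrank_span_cols]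
    have h1 : A.col = v ∘ z0 := by
      funext i j
      rfl
    rw [h1, finrank_span_eq_card hz0, Fintype.card_fin]
  obtain ⟨f, g, hfg⟩ := V10_minor A r hA
  exact ⟨f, z0 ∘ g, hfg⟩

end Pool.Agent.DAng
end

section

set_option autoImplicit false

namespace Pool.Agent.DAng

open MvPolynomial

theorem V11_aux {N ρ d : ℕ} (G : Option (Fin N) → Polynomial ℂ) (hd : ∀ j, (G j).natDegree ≤ d)
    (g : Fin ρ → ℕ) (hc0 : (G none).coeff 0 ≠ 0)
    (hc : ∀ k, S4_B (fun j => (G j).coeff k) (fun j => (G j).coeff 0) = 0)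
    (hli : LinearIndependent ℂ (fun (β : Fin ρ) (j : Option (Fin N)) => (G j).coeff (g β)))
    (a : Fin ρ → ℂ)
    (ha : ∀ l : Fin (d + 1), ∑ β, a β * S4_B (fun j => (G j).coeff (g β))
      (fun j => (G j).eval ((l : ℕ) : ℂ)) = 0)
    (h0 : ∑ β, a β * (G none).coeff (g β) = 0) : a = 0 := by
  classical
  obtain ⟨v, hv⟩ : ∃ v : Option (Fin N) → ℂ,
      v = ∑ β, a β • (fun j : Option (Fin N) => (G j).coeff (g β)) := ⟨_, rfl⟩
  have hv1 : ∀ l : Fin (d + 1), S4_B v (fun j => (G j).eval ((l : ℕ) : ℂ)) = 0 := by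
    intro l
    rw [hv, S4_B_lin]
    exact ha l
  have hv2 : ∀ l : Fin (d + 1), S4_B (fun j => (G j).eval ((l : ℕ) : ℂ)) v = 0 := by
    intro l
    rw [S4_B_conj, hv1, map_zero]
  obtain ⟨P, hP⟩ : ∃ P : Polynomial ℂ,
      P = ∑ j, Polynomial.C (sg j * (starRingEnd ℂ) (v j)) * G j := ⟨_, rfl⟩
  have hPd : P.natDegree ≤ d := by
    rw [hP]
    refine Polynomial.natDegree_sum_le_of_forall_le _ _ fun j _ => ?_
    exact (Polynomial.natDegree_C_mul_le _ _).trans (hd j)
  have hP0 : P = 0 := by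
    refine Polynomial.eq_zero_of_natDegree_lt_card_of_eval_eq_zero P
      (f := fun l : Fin (d + 1) => ((l : ℕ) : ℂ)) ?_ ?_ ?_
    · intro l l' h
      have : ((l : ℕ) : ℂ) = ((l' : ℕ) : ℂ) := h
      exact Fin.ext (Nat.cast_injective this)
    · intro l
      have h1 := hv2 l
      rw [hP, Polynomial.eval_finsetSum]
      rw [← h1]
      unfold S4_B
      refine Finset.sum_congr rfl fun j _ => ?_
      rw [Polynomial.eval_mul, Polynomial.eval_C]
      ring
    · rw [Fintype.card_fin]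
      omega
  have hk : ∀ k, S4_B (fun j => (G j).coeff k) v = 0 := by
    intro k
    have h1 : P.coeff k = 0 := by rw [hP0, Polynomial.coeff_zero]
    rw [← h1, hP, Polynomial.finsetSum_coeff]
    unfold S4_B
    refine Finset.sum_congr rfl fun j _ => ?_
    rw [Polynomial.coeff_C_mul]
    ring
  have hvv : S4_B v v = 0 := by
    have h1 : S4_B v v = S4_B (∑ β, a β • (fun j : Option (Fin N) => (G j).coeff (g β))) v := by
      rw [← hv]
    rw [h1, S4_B_lin]
    refine Finset.sum_eq_zero fun β _ => ?_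
    rw [hk, mul_zero]
  have hvc : S4_B v (fun j => (G j).coeff 0) = 0 := by
    rw [S4_B_conj, hk, map_zero]
  have hin := S4_inner (c := fun j => (G j).coeff 0) hc0 (hc 0) hvc hvc hvv
  have hz : ∀ j, S4_pi (fun j => (G j).coeff 0) v j = 0 := by
    have h1 : ∑ j, ‖S4_pi (fun j => (G j).coeff 0) v j‖ ^ 2 = 0 := by
      have h2 : ((∑ j, ‖S4_pi (fun j => (G j).coeff 0) v j‖ ^ 2 : ℝ) : ℂ) = 0 := by
        rw [← hin]
        push_cast
        refine Finset.sum_congr rfl fun j _ => ?_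
        rw [Complex.mul_conj, Complex.normSq_eq_norm_sq]
        push_cast
        rfl
      exact_mod_cast h2
    intro j
    have h2 := (Finset.sum_eq_zero_iff_of_nonneg (fun j _ => sq_nonneg _)).1 h1 j
      (Finset.mem_univ j)
    have h3 : ‖S4_pi (fun j => (G j).coeff 0) v j‖ = 0 := by
      exact pow_eq_zero_iff (two_ne_zero) |>.1 h2
    exact norm_eq_zero.1 h3
  have hvn : v none = 0 := by
    rw [hv, Finset.sum_apply, ← h0]
    rfl
  have hv0 : v = 0 := by
    funext j
    cases j with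
    | none => exact hvn
    | some j =>
      have h1 := hz j
      rw [S4_pi_apply, hvn] at h1
      simpa using h1
  rw [hv] at hv0
  funext β
  exact (Fintype.linearIndependent_iff.1 hli) a hv0 β

theorem V11_rank {N ρ d : ℕ} (G : Option (Fin N) → Polynomial ℂ) (hd : ∀ j, (G j).natDegree ≤ d)
    (g : Fin ρ → ℕ) (hc0 : (G none).coeff 0 ≠ 0)
    (hc : ∀ k, S4_B (fun j => (G j).coeff k) (fun j => (G j).coeff 0) = 0)
    (hli : LinearIndependent ℂ (fun (β : Fin ρ) (j : Option (Fin N)) => (G j).coeff (g β))) :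
    ρ - 1 ≤ (Matrix.of (fun (β : Fin ρ) (l : Fin (d + 1)) =>
      S4_B (fun j => (G j).coeff (g β)) (fun j => (G j).eval ((l : ℕ) : ℂ)))).rank := by
  obtain ⟨M, hM⟩ : ∃ M : Matrix (Fin ρ) (Fin (d + 1)) ℂ, M = Matrix.of (fun (β : Fin ρ) (l : Fin (d + 1)) =>
      S4_B (fun j => (G j).coeff (g β)) (fun j => (G j).eval ((l : ℕ) : ℂ))) := ⟨_, rfl⟩
  rw [← hM, ← Matrix.rank_transpose, Matrix.rank]
  have h1 := LinearMap.finrank_range_add_finrank_ker M.transpose.mulVecLin
  have h2 : Module.finrank ℂ (Fin ρ → ℂ) = ρ := by simp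
  have h3 : Module.finrank ℂ (LinearMap.ker M.transpose.mulVecLin) ≤ 1 := by
    have h4 : Function.Injective (((LinearMap.proj none : (Option (Fin N) → ℂ) →ₗ[ℂ] ℂ).comp
        (Fintype.linearCombination ℂ (fun (β : Fin ρ) (j : Option (Fin N)) =>
          (G j).coeff (g β)))).comp (LinearMap.ker M.transpose.mulVecLin).subtype) := by
      rw [← LinearMap.ker_eq_bot, LinearMap.ker_eq_bot']
      intro a ha
      apply Subtype.ext
      have h5 : M.transpose.mulVecLin (a : Fin ρ → ℂ) = 0 := a.2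
      have h6 : (Fintype.linearCombination ℂ (fun (β : Fin ρ) (j : Option (Fin N)) =>
        (G j).coeff (g β)) (a : Fin ρ → ℂ)) none = 0 := ha
      rw [Fintype.linearCombination_apply, Finset.sum_apply] at h6
      refine V11_aux G hd g hc0 hc hli _ ?_ h6
      intro l
      obtain ⟨a, ha'⟩ := a
      have h7 := congrFun h5 l
      rw [Matrix.mulVecLin_apply] at h7
      rw [← show (0 : Fin (d + 1) → ℂ) l = 0 from rfl, ← h7]
      simp only [Matrix.mulVec, dotProduct, Matrix.transpose_apply, hM, Matrix.of_apply]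
      exact Finset.sum_congr rfl fun β _ => mul_comm _ _
    have h5 := LinearMap.finrank_le_finrank_of_injective h4
    rwa [Module.finrank_self] at h5
  omega

/-- THE GRAM MATRIX. `G_j` the restrictions of the `F_j` to a tangent line (degree `≤ d`), `v_k j = (G j).coeff k`, `c = v_0` is a null vector orthogonal to all `v_k` and `c none ≠ 0`.
If the `v_{g β}`, `β : Fin ρ`, are linearly independent, some minor of size `ρ - 1` of the pairing of the `v_{g β}` with the points `G(t)` does not vanish.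
PROOF. Let `M : Matrix (Fin ρ) (Fin (d+1)) ℂ`, `M β l = ∑ j, sg j * ((G j).coeff (g β) * conj ((G j).eval (l : ℂ)))`. Claim `ρ - 1 ≤ M.rank`; then `V10_minor` (with `t l = (g' l : ℂ)`).
`M.rank = Mᵀ.rank` (`Matrix.rank_transpose`) `= ρ - dim ker Mᵀ.mulVecLin`, so it is enough that the kernel has dimension `≤ 1`; for this the map `a ↦ (∑ β, a β • v_{g β}) none` is injective on the
kernel (as in `S4_rank`): let `a` be in the kernel, `v = ∑ β, a β • v_{g β}`. Then `∑ j, sg j * (v j * conj ((G j).eval l)) = 0` for `l = 0..d`; conjugating, the polynomial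
`∑ j, C (sg j * conj (v j)) * G j` of degree `≤ d` has `d+1` distinct roots, so it is `0` (`Polynomial.eq_zero_of_natDegree_lt_card_of_eval_eq_zero`), so all its coefficients vanish:
`S4_B v v_k = 0` for all `k`, hence `S4_B v v = 0` (`S4_B_lin`, `S4_B_conj`) and `S4_B v c = 0`. By `S4_inner` `∑_j π(v)_j conj π(v)_j = 0` so `S4_pi c v j = 0` for all `j`
(sum of `‖ ‖²`), i.e. `v (some j) = v none / c none * c (some j)`. If `v none = 0` then `v = 0`, so `a = 0` by `hli`. -/
theorem V11 {N ρ d : ℕ} (G : Option (Fin N) → Polynomial ℂ) (hd : ∀ j, (G j).natDegree ≤ d)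
    (g : Fin ρ → ℕ) (hc0 : (G none).coeff 0 ≠ 0)
    (hc : ∀ k, ∑ j, sg j * ((G j).coeff k * (starRingEnd ℂ) ((G j).coeff 0)) = 0)
    (hli : LinearIndependent ℂ (fun (β : Fin ρ) (j : Option (Fin N)) => (G j).coeff (g β))) :
    ∃ (h : Fin (ρ - 1) → Fin ρ) (t : Fin (ρ - 1) → ℂ),
      (Matrix.of (fun k l : Fin (ρ - 1) =>
        ∑ j, sg j * ((G j).coeff (g (h k)) * (starRingEnd ℂ) ((G j).eval (t l))))).det ≠ 0 := by
  obtain ⟨f, g', hfg⟩ := V10_minor (Matrix.of (fun (β : Fin ρ) (l : Fin (d + 1)) =>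
      S4_B (fun j => (G j).coeff (g β)) (fun j => (G j).eval ((l : ℕ) : ℂ)))) (ρ - 1)
    (V11_rank G hd g hc0 hc hli)
  exact ⟨f, fun l => (((g' l : Fin (d + 1)) : ℕ) : ℂ), hfg⟩

end Pool.Agent.DAng
end

section

set_option autoImplicit false

namespace Pool.Agent.DAng

open MvPolynomial

/-- PROOF. `totalDegree ≤ d`, the restriction to a line has degree `≤ d`: as `phi_natDegree` (H1.lean). -/
theorem V12_natDegree {n : ℕ} (x y : Fin n → ℂ) (G : MvPolynomial (Fin n) ℂ) :
    (lin x y G).natDegree ≤ G.totalDegree := by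
  classical
  unfold lin
  rw [aeval_def, eval₂_eq]
  apply Polynomial.natDegree_sum_le_of_forall_le
  intro M hM
  refine (Polynomial.natDegree_C_mul_le _ _).trans ?_
  refine (Polynomial.natDegree_prod_le _ _).trans ?_
  refine (Finset.sum_le_sum (g := fun i => M i) ?_).trans ?_
  · intro i _
    refine (Polynomial.natDegree_pow_le).trans ?_
    have h1 : (Polynomial.C (x i) + Polynomial.X * Polynomial.C (y i)).natDegree ≤ 1 := by
      refine (Polynomial.natDegree_add_le _ _).trans ?_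
      rw [Polynomial.natDegree_C]
      refine max_le (by norm_num) ?_
      refine (Polynomial.natDegree_mul_le).trans ?_
      rw [Polynomial.natDegree_X, Polynomial.natDegree_C]
    calc _ ≤ M i * 1 := Nat.mul_le_mul_left _ h1
      _ = M i := mul_one _
  · exact le_totalDegree hM

/-- PROOF. `H6_evR_Pik`; `gam_eval` with `w_0 = 1` and `-w_i = conj (pt a b t)` (`Xs_w`), `S3_evcj`. -/
theorem V12_val {m N d : ℕ} (F : Option (Fin N) → MvPolynomial (Fin (m + 1)) ℂ)
    (hF : ∀ j, (F j).totalDegree ≤ d) (a b : Fin m → ℂ) (t : ℂ) (k : ℕ) :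
    evR a b (Xs a b t) (Pik m d F k) =
      ∑ j, sg j * (evA a b ((phi m (F j)).coeff k) * (starRingEnd ℂ) (eval (pt a b t) (F j))) := by
  obtain ⟨hw0, hw⟩ := Xs_w a b t
  rw [H6_evR_Pik]
  refine Finset.sum_congr rfl fun j _ => ?_
  rw [gam_eval (F j) (hF j) a b (Xs a b t) (by rw [hw0]; exact one_ne_zero), hw0, one_pow, one_mul]
  have h2 : (fun i => - evR a b (Xs a b t) (ww m i) / 1) =
      fun i => (starRingEnd ℂ) (pt a b t i) := by
    funext i
    rw [hw i, neg_neg, div_one]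
  rw [h2, S3_evcj, mul_assoc]

theorem V12_ev1 {m : ℕ} (hm : 0 < m) :
    (ev (i00 hm).succ : Fin (m + 1) → ℂ) = Fin.cons 0 (a00 hm) := by
  funext i
  refine Fin.cases ?_ (fun j => ?_) i
  · unfold ev
    rw [Fin.cons_zero, Pi.single_eq_of_ne (Fin.succ_ne_zero _).symm]
  · unfold ev a00
    rw [Fin.cons_succ]
    by_cases hj : j = i00 hm
    · rw [hj, Pi.single_eq_same, Pi.single_eq_same]
    · rw [Pi.single_eq_of_ne hj, Pi.single_eq_of_ne (fun h => hj (Fin.succ_injective _ h))]

theorem V12_ev0 {m : ℕ} : (ev 0 : Fin (m + 1) → ℂ) = Fin.cons 1 (0 : Fin m → ℂ) := by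
  funext i
  refine Fin.cases ?_ (fun j => ?_) i
  · unfold ev
    rw [Fin.cons_zero, Pi.single_eq_same]
  · unfold ev
    rw [Fin.cons_succ, Pi.single_eq_of_ne (Fin.succ_ne_zero _)]
    rfl

theorem V12_one {m : ℕ} (hm : 0 < m) : ∑ i, a00 hm i * (starRingEnd ℂ) (a00 hm i) = 1 := by
  rw [Finset.sum_eq_single (i00 hm)]
  · unfold a00
    rw [Pi.single_eq_same, map_one, mul_one]
  · intro j _ hj
    unfold a00
    rw [Pi.single_eq_of_ne hj, zero_mul]
  · intro h
    exact absurd (Finset.mem_univ _) h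

theorem V12_pair {m : ℕ} (hm : 0 < m) (s t : ℂ) :
    ∑ i, ((Fin.cons 0 (a00 hm) : Fin (m + 1) → ℂ) i + s * (Fin.cons 1 (0 : Fin m → ℂ) :
      Fin (m + 1) → ℂ) i) * (starRingEnd ℂ) ((Fin.cons 0 (a00 hm) : Fin (m + 1) → ℂ) i +
        t * (0 : Fin (m + 1) → ℂ) i) = 1 := by
  rw [Fin.sum_univ_succ, ← V12_one hm]
  simp only [Fin.cons_zero, Fin.cons_succ, Pi.zero_apply, mul_zero, add_zero, map_zero, zero_add]

theorem V12_norm {m : ℕ} (hm : 0 < m) :
    ∑ i, ‖(Fin.cons 0 (a00 hm) : Fin (m + 1) → ℂ) i‖ ^ 2 ≤ 1 := by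
  have h1 : ((∑ i, ‖(Fin.cons 0 (a00 hm) : Fin (m + 1) → ℂ) i‖ ^ 2 : ℝ) : ℂ) = 1 := by
    rw [← V12_pair hm 0 0]
    push_cast
    refine Finset.sum_congr rfl fun k _ => ?_
    rw [zero_mul, zero_mul, add_zero, Complex.mul_conj']
  have h2 : (∑ i, ‖(Fin.cons 0 (a00 hm) : Fin (m + 1) → ℂ) i‖ ^ 2 : ℝ) = 1 := by
    exact_mod_cast h1
  exact h2.le

/-- The tangent line at `z_0 = e_1` in direction `e_0`: there are `ρ - 1` points with `X_0 = 0` at which some minor of size `ρ - 1` of the `Pik (g β)` does not vanish.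
PROOF. `V11` for `G j = lin z₀ e₀ (F j)`, `z₀ = ev (i00 hm).succ = Fin.cons 0 (a00 hm)`, `e₀ = ev 0 = Fin.cons 1 0` (so `(G j).coeff k = evA (a00 hm) 0 ((phi m (F j)).coeff k)` by `lin_phi` and
`(G j).eval t = eval (pt (a00 hm) 0 t) (F j)` by `lin_eval`). Hypotheses: `natDegree ≤ d`: `V12_natDegree`; `(G none).coeff 0 = eval z₀ (F none) ≠ 0` by `hF.ball` (`‖z₀‖² = 1`);
orthogonality to `c`: `S3` with `x = x' = z₀`, `y = e₀`, `y' = 0` (see the end of S5.lean; `⟨z₀ + s e₀, z₀⟩ = 1`); linear independence from the nonvanishing minor (see S5.lean).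
Take `x l = Xs (a00 hm) 0 (t l)`: `Xs a 0 t x0 = 1 - ∑ a_i conj a_i = 0` for `a = a00 hm`; `V12_val`. -/
theorem V12 {m N ρ d : ℕ} (hm : 0 < m) (F : Option (Fin N) → MvPolynomial (Fin (m + 1)) ℂ)
    (hF : Good d F) (f : Fin ρ → Option (Fin N)) (g : Fin ρ → ℕ)
    (h : mnr F f g (ev (i00 hm).succ) (ev 0) ≠ 0) :
    ∃ (h' : Fin (ρ - 1) → Fin ρ) (x : Fin (ρ - 1) → Sg m → ℂ), (∀ l, x l x0 = 0) ∧
      (Matrix.of (fun k l : Fin (ρ - 1) =>
        evR (a00 hm) 0 (x l) (Pik m d F (g (h' k))))).det ≠ 0 := by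
  rw [V12_ev1, V12_ev0] at h
  obtain ⟨z0, hz0⟩ : ∃ z0 : Fin (m + 1) → ℂ, z0 = Fin.cons 0 (a00 hm) := ⟨_, rfl⟩
  obtain ⟨y0, hy0⟩ : ∃ y0 : Fin (m + 1) → ℂ, y0 = Fin.cons 1 (0 : Fin m → ℂ) := ⟨_, rfl⟩
  have hcoeff : ∀ (y : Fin (m + 1) → ℂ) (G : MvPolynomial (Fin (m + 1)) ℂ),
      (lin z0 y G).coeff 0 = eval z0 G := by
    intro y G
    rw [Polynomial.coeff_zero_eq_eval_zero, lin_eval]
    have h1 : (fun i => z0 i + 0 * y i) = z0 := by
      funext i
      rw [zero_mul, add_zero]
    rw [h1]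
  obtain ⟨h', t, hdet⟩ := V11 (fun j => lin z0 y0 (F j))
    (fun j => (V12_natDegree z0 y0 (F j)).trans (hF.deg j)) g
    (by
      rw [hcoeff]
      refine hF.ball z0 ?_
      rw [hz0]
      exact V12_norm hm)
    (fun k => by
      have h1 := S3 F hF.quad z0 y0 z0 0 (fun s t => by
        rw [hz0, hy0]
        exact V12_pair hm s t) k 0
      simp only [hcoeff] at h1 ⊢
      exact h1)
    (by
      rw [Fintype.linearIndependent_iff]
      intro a ha
      have h1 : (Matrix.of (fun α β : Fin ρ => (lin z0 y0 (F (f α))).coeff (g β))).mulVec a = 0 := by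
        funext α
        have h2 := congrFun ha (f α)
        simp only [Finset.sum_apply, Pi.smul_apply, smul_eq_mul] at h2
        have h20 : ∑ x_1, a x_1 * (lin z0 y0 (F (f α))).coeff (g x_1) = 0 := h2
        rw [Matrix.mulVec, dotProduct]
        simp only [Matrix.of_apply, Pi.zero_apply]
        rw [← h20]
        exact Finset.sum_congr rfl fun β _ => mul_comm _ _
      have h2 : (Matrix.of (fun α β : Fin ρ => (lin z0 y0 (F (f α))).coeff (g β))).det ≠ 0 := by
        rw [hz0, hy0]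
        exact h
      have h3 := Matrix.eq_zero_of_mulVec_eq_zero h2 h1
      intro β
      rw [h3]
      rfl)
  refine ⟨h', fun l => Xs (a00 hm) 0 (t l), fun l => ?_, ?_⟩
  · show (1 : ℂ) - ∑ i, a00 hm i * (starRingEnd ℂ) (a00 hm i + t l * (0 : Fin m → ℂ) i) = 0
    simp only [Pi.zero_apply, mul_zero, add_zero]
    rw [V12_one, sub_self]
  · have h1 : (Matrix.of (fun k l : Fin (ρ - 1) =>
        evR (a00 hm) 0 (Xs (a00 hm) 0 (t l)) (Pik m d F (g (h' k))))) =
        Matrix.of (fun k l : Fin (ρ - 1) =>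
        ∑ j, sg j * ((lin z0 y0 (F j)).coeff (g (h' k)) *
          (starRingEnd ℂ) ((lin z0 y0 (F j)).eval (t l)))) := by
      ext k l
      rw [Matrix.of_apply, Matrix.of_apply, V12_val F hF.deg]
      refine Finset.sum_congr rfl fun j _ => ?_
      rw [hz0, hy0, lin_phi, lin_eval]
      have h2 : (fun i => (Fin.cons 0 (a00 hm) : Fin (m + 1) → ℂ) i +
          t l * (Fin.cons 1 (0 : Fin m → ℂ) : Fin (m + 1) → ℂ) i) = pt (a00 hm) 0 (t l) := by
        funext i
        unfold pt
        refine Fin.cases ?_ (fun j => ?_) i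
        · rw [Fin.cons_zero, Fin.cons_zero, Fin.cons_zero, mul_one, zero_add]
        · rw [Fin.cons_succ, Fin.cons_succ, Fin.cons_succ]
      rw [h2]
    rw [h1]
    exact hdet

end Pool.Agent.DAng
end

section

set_option autoImplicit false

namespace Pool.Agent.DAng

open MvPolynomial

/-- PROOF. ring homomorphisms agreeing on constants and variables; `Matrix.mulVec`, `dotProduct`. -/
theorem sub_eval {n : ℕ} (W : Matrix (Fin n) (Fin n) ℂ) (G : MvPolynomial (Fin n) ℂ) (z : Fin n → ℂ) :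
    eval z (sub W G) = eval (W.mulVec z) G := by
  have h : (eval z).comp (sub W).toRingHom = eval (W.mulVec z) := by
    apply MvPolynomial.ringHom_ext
    · intro a
      simp [sub]
    · intro i
      simp [sub, Matrix.mulVec, dotProduct]
  exact congrArg (fun f : MvPolynomial (Fin n) ℂ →+* ℂ => f G) h

/-- PROOF. `MvPolynomial.funext`, `sub_eval`, `Matrix.mulVec_mulVec`. -/
theorem sub_sub {n : ℕ} (W W' : Matrix (Fin n) (Fin n) ℂ) (G : MvPolynomial (Fin n) ℂ) :
    sub W' (sub W G) = sub (W * W') G := by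
  apply MvPolynomial.funext
  intro z
  rw [sub_eval, sub_eval, sub_eval, Matrix.mulVec_mulVec]

/-- PROOF. `MvPolynomial.funext`, `sub_eval`. -/
theorem sub_one {n : ℕ} (G : MvPolynomial (Fin n) ℂ) : sub 1 G = G := by
  apply MvPolynomial.funext
  intro z
  rw [sub_eval, Matrix.one_mulVec]

/-- PROOF. `aeval_def`, `eval₂_eq`, `totalDegree_finset_sum_le`-type lemmas: each monomial goes to a constant times a product of linear forms (as in `phi_natDegree`, H1.lean). -/
theorem sub_totalDegree_le {n : ℕ} (W : Matrix (Fin n) (Fin n) ℂ) (G : MvPolynomial (Fin n) ℂ) :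
    (sub W G).totalDegree ≤ G.totalDegree := by
  have hl : ∀ i, (∑ k, C (W i k) * X k : MvPolynomial (Fin n) ℂ).totalDegree ≤ 1 := by
    intro i
    apply totalDegree_finsetSum_le
    intro k _
    refine (totalDegree_mul _ _).trans ?_
    rw [totalDegree_C, totalDegree_X]
  have h1 : sub W G = ∑ d ∈ G.support, C (G.coeff d) *
      ∏ i ∈ d.support, (∑ k, C (W i k) * X k : MvPolynomial (Fin n) ℂ) ^ d i := by
    unfold sub
    rw [aeval_def, eval₂_eq]
    rfl
  rw [h1]
  apply totalDegree_finsetSum_le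
  intro d hd
  refine (totalDegree_mul _ _).trans ?_
  rw [totalDegree_C, zero_add]
  refine (totalDegree_finsetProd _ _).trans ?_
  refine le_trans ?_ (le_totalDegree hd)
  rw [Finsupp.sum]
  apply Finset.sum_le_sum
  intro i _
  refine (totalDegree_pow _ _).trans ?_
  calc d i * _ ≤ d i * 1 := Nat.mul_le_mul_left _ (hl i)
    _ = d i := mul_one _

/-- PROOF. `MvPolynomial.induction_on`: `cj (sub W G) = sub (W.map conj) (cj G)`; then `sub_eval`. -/
theorem sub_cj {n : ℕ} (W : Matrix (Fin n) (Fin n) ℂ) (G : MvPolynomial (Fin n) ℂ) (w : Fin n → ℂ) :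
    eval w (cj (sub W G)) = eval ((W.map (starRingEnd ℂ)).mulVec w) (cj G) := by
  have h : (map (starRingEnd ℂ)).comp (sub W).toRingHom =
      (sub (W.map (starRingEnd ℂ))).toRingHom.comp (map (starRingEnd ℂ)) := by
    apply MvPolynomial.ringHom_ext
    · intro a
      simp [sub]
    · intro i
      simp [sub]
  have h' : cj (sub W G) = sub (W.map (starRingEnd ℂ)) (cj G) :=
    congrArg (fun f : MvPolynomial (Fin n) ℂ →+* MvPolynomial (Fin n) ℂ => f G) h
  rw [h', sub_eval]

/-- PROOF. `quad`: `∑ (W z)_i (W̄ w)_i = ∑ z_i w_i` as `Wᵀ W̄ = 1` (conjugate of `Wᴴ W = 1`), `sub_eval`, `sub_cj`. `deg`: `sub_totalDegree_le`. `top`: with `W⁻¹ = star W`,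
`sub (star W) (sub W G) = G` (`sub_sub`, `sub_one`), so degrees are equal and `sub W G ≠ 0` for `G ≠ 0`. `red`: `r ∣ sub W (F j)` for all `j` gives `sub (star W) r ∣ F j`, so `sub (star W) r` is a unit, and
`r = sub W (sub (star W) r)` is a unit (`IsUnit.map`). `ball`: `∑ ‖(W z)_i‖² = ∑ ‖z_i‖²` (compute `∑ (W z)_i conj (W z)_i`). -/
theorem Good_sub {n N d : ℕ} (F : Option (Fin N) → MvPolynomial (Fin n) ℂ) (hF : Good d F)
    (W : Matrix (Fin n) (Fin n) ℂ) (hW : W ∈ Matrix.unitaryGroup (Fin n) ℂ) :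
    Good d (fun j => sub W (F j)) := by
  have h1 : star W * W = 1 := Matrix.mem_unitaryGroup_iff'.1 hW
  have h2 : W * star W = 1 := Matrix.mem_unitaryGroup_iff.1 hW
  have hdot : ∀ z w : Fin n → ℂ, ∑ i, (W.mulVec z) i * ((W.map (starRingEnd ℂ)).mulVec w) i =
      ∑ i, z i * w i := by
    intro z w
    have e : W.transpose * W.map (starRingEnd ℂ) = 1 := by
      have e1 := congrArg Matrix.transpose h1
      rw [Matrix.transpose_mul, Matrix.transpose_one] at e1
      exact e1
    have e2 : (W.mulVec z) ⬝ᵥ ((W.map (starRingEnd ℂ)).mulVec w) = z ⬝ᵥ w := by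
      rw [Matrix.dotProduct_mulVec, ← Matrix.vecMul_transpose, Matrix.vecMul_vecMul, e,
        Matrix.vecMul_one]
    exact e2
  have hback : ∀ G : MvPolynomial (Fin n) ℂ, sub (star W) (sub W G) = G := by
    intro G
    rw [sub_sub, h2, sub_one]
  have hforth : ∀ G : MvPolynomial (Fin n) ℂ, sub W (sub (star W) G) = G := by
    intro G
    rw [sub_sub, h1, sub_one]
  refine ⟨?_, ?_, ?_, ?_, ?_⟩
  · intro z w hzw
    have h3 := hF.quad (W.mulVec z) ((W.map (starRingEnd ℂ)).mulVec w) (by rw [hdot, hzw])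
    rw [← h3]
    refine Finset.sum_congr rfl (fun j _ => ?_)
    rw [sub_eval, sub_cj]
  · intro j
    exact (sub_totalDegree_le _ _).trans (hF.deg j)
  · obtain ⟨j, hj0, hjd⟩ := hF.top
    refine ⟨j, ?_, ?_⟩
    · intro h0
      apply hj0
      rw [← hback (F j), h0, map_zero]
    · apply le_antisymm
      · rw [← hjd]
        exact sub_totalDegree_le _ _
      · rw [← hjd]
        have h4 := sub_totalDegree_le (star W) (sub W (F j))
        rw [hback] at h4
        exact h4
  · intro r hr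
    have h5 : IsUnit (sub (star W) r) := by
      apply hF.red
      intro j
      obtain ⟨s, hs⟩ := hr j
      refine ⟨sub (star W) s, ?_⟩
      rw [← map_mul, ← hs, hback]
    have h6 := h5.map (sub W)
    rw [hforth] at h6
    exact h6
  · intro z hz
    change eval z (sub W (F none)) ≠ 0
    rw [sub_eval]
    apply hF.ball
    have h7 : ∑ i, ‖(W.mulVec z) i‖ ^ 2 = ∑ i, ‖z i‖ ^ 2 := by
      have h8 := hdot z (fun i => (starRingEnd ℂ) (z i))
      have h9 : ∀ i, ((W.map (starRingEnd ℂ)).mulVec (fun i => (starRingEnd ℂ) (z i))) i =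
          (starRingEnd ℂ) ((W.mulVec z) i) := by
        intro i
        simp only [Matrix.mulVec, dotProduct, Matrix.map_apply, map_sum, map_mul]
      simp only [h9, Complex.mul_conj'] at h8
      exact_mod_cast h8
    rw [h7]
    exact hz

/-- the coefficients on lines of `G(W z)`.
PROOF. `lin x y (sub W G) = lin (W x) (W y) G`: algebra homomorphisms agreeing on the variables (or `Polynomial.funext`, `lin_eval`, `sub_eval`). -/
theorem sub_lin {n : ℕ} (W : Matrix (Fin n) (Fin n) ℂ) (G : MvPolynomial (Fin n) ℂ) (x y : Fin n → ℂ) :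
    lin x y (sub W G) = lin (W.mulVec x) (W.mulVec y) G := by
  apply Polynomial.funext
  intro t
  rw [lin_eval, lin_eval, sub_eval]
  have e : W.mulVec (fun i => x i + t * y i) = fun i => W.mulVec x i + t * W.mulVec y i := by
    have e1 : (fun i => x i + t * y i) = x + t • y := rfl
    rw [e1, Matrix.mulVec_add, Matrix.mulVec_smul]
    rfl
  rw [e]

end Pool.Agent.DAng
end

section

set_option autoImplicit false

namespace Pool.Agent.DAng

open MvPolynomial

/-- `R1` with the maximality of `ρ`.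
PROOF. `R1`. For the maximality let `Q = FractionRing A`, `MQ = M.map (algebraMap A Q)`. The images of the `θ l` are linearly independent over `Q` and in the kernel of `MQ.mulVecLin`, so
`MQ.rank ≤ card K - (card K - ρ) = ρ` (`LinearMap.finrank_range_add_finrank_ker`), and `V10_le` for `MQ` gives `r ≤ MQ.rank`. -/
theorem V22_max {A : Type} [CommRing A] [IsDomain A] {J K : Type} [Fintype J] [Fintype K]
    (M : Matrix J K A) :
    ∃ ρ ≤ Fintype.card K, ((∃ j k, M j k ≠ 0) → 1 ≤ ρ) ∧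
      (∃ (f : Fin ρ → J) (g : Fin ρ → K), (M.submatrix f g).det ≠ 0) ∧
      (∀ (r : ℕ) (f : Fin r → J) (g : Fin r → K), (M.submatrix f g).det ≠ 0 → r ≤ ρ) ∧
      ∃ θ : Fin (Fintype.card K - ρ) → (K → A), LinearIndependent A θ ∧
        ∀ l, M.mulVec (θ l) = 0 := by
  classical
  obtain ⟨ρ, hρ, h1, h2, θ, hθ, hM⟩ := R1 M
  refine ⟨ρ, hρ, h1, h2, ?_, θ, hθ, hM⟩
  intro r f g hfg
  let Q := FractionRing A
  have hinj : Function.Injective (algebraMap A Q) := IsFractionRing.injective A Q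
  let MQ : Matrix J K Q := M.map (algebraMap A Q)
  have hdet : (MQ.submatrix f g).det ≠ 0 := by
    have e1 : MQ.submatrix f g = (algebraMap A Q).mapMatrix (M.submatrix f g) := by
      ext i j
      rfl
    rw [e1, ← RingHom.map_det]
    intro h0
    exact hfg (hinj (by rw [h0, map_zero]))
  have hr : r ≤ MQ.rank := V10_le MQ r f g hdet
  have hker : Module.finrank Q (LinearMap.ker MQ.mulVecLin) = Fintype.card K - MQ.rank := by
    have h1 := LinearMap.finrank_range_add_finrank_ker MQ.mulVecLin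
    rw [Module.finrank_fintype_fun_eq_card] at h1
    have h2 : Module.finrank Q (LinearMap.range MQ.mulVecLin) = MQ.rank := rfl
    omega
  -- the images of the relations
  let L : (K → A) →ₗ[A] (K → Q) := (Algebra.linearMap A Q).compLeft K
  have hLinj : LinearMap.ker L = ⊥ := by
    rw [LinearMap.ker_eq_bot]
    intro x y hxy
    funext k
    exact hinj (congrFun hxy k)
  have hli : LinearIndependent A (fun l => L (θ l)) := hθ.map' L hLinj
  have hliQ : LinearIndependent Q (fun l => L (θ l)) :=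
    (LinearIndependent.iff_fractionRing A Q).mp hli
  have hmem : Submodule.span Q (Set.range (fun l => L (θ l))) ≤ LinearMap.ker MQ.mulVecLin := by
    rw [Submodule.span_le]
    rintro _ ⟨l, rfl⟩
    rw [SetLike.mem_coe, LinearMap.mem_ker, Matrix.mulVecLin_apply]
    funext j
    have h3 := congrArg (algebraMap A Q) (congrFun (hM l) j)
    simp only [Matrix.mulVec, dotProduct, Pi.zero_apply, map_sum, map_mul, map_zero] at h3 ⊢
    exact h3
  have hfin := Submodule.finrank_mono hmem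
  rw [finrank_span_eq_card hliQ, Fintype.card_fin, hker] at hfin
  have hcard := MQ.rank_le_card_width
  omega

/-- a nonvanishing minor of the coefficients only involves coefficients of degree `≤ d`.
PROOF. If `d < g β` the column `β` is zero (`Polynomial.coeff_eq_zero_of_natDegree_lt`, `phi_natDegree`), so the determinant is `0` (`Matrix.det_eq_zero_of_column_eq_zero`). -/
theorem V22_le {m N ρ d : ℕ} (F : Option (Fin N) → MvPolynomial (Fin (m + 1)) ℂ)
    (hF : ∀ j, (F j).totalDegree ≤ d) (f : Fin ρ → Option (Fin N)) (g : Fin ρ → ℕ)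
    (h : (Matrix.of (fun α β : Fin ρ => (phi m (F (f α))).coeff (g β))).det ≠ 0) (β : Fin ρ) :
    g β ≤ d := by
  by_contra hlt
  apply h
  refine Matrix.det_eq_zero_of_column_eq_zero β fun α => ?_
  rw [Matrix.of_apply]
  exact Polynomial.coeff_eq_zero_of_natDegree_lt
    (lt_of_le_of_lt ((phi_natDegree (F (f α))).trans (hF (f α))) (not_le.mp hlt))

end Pool.Agent.DAng
end

section

set_option autoImplicit false

namespace Pool.Agent.DAng

open MvPolynomial

/-- the maximal size of a nonvanishing minor for one good family, with relations.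
PROOF. `V22_max` for `M = Matrix.of (fun j (k : Fin (d+1)) => (phi m (F j)).coeff k)`; `1 ≤ ρ` by `phi_coeff_ne` and `hF.top`. A nonvanishing minor with `g : Fin r → ℕ` has `g β ≤ d` (`V22_le`), so it
is a minor of `M`. `θ'= extz d (θ l)` (T1.lean: `extz_zero`, `extz_val`, `extz_li`; see the end of the proof of `T1` for the relation). -/
theorem V23_one {m N d : ℕ} (F : Option (Fin N) → MvPolynomial (Fin (m + 1)) ℂ) (hF : Good d F) :
    ∃ ρ : ℕ, 1 ≤ ρ ∧ ρ ≤ d + 1 ∧
      (∃ (f : Fin ρ → Option (Fin N)) (g : Fin ρ → ℕ),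
        (Matrix.of (fun α β : Fin ρ => (phi m (F (f α))).coeff (g β))).det ≠ 0) ∧
      (∀ (r : ℕ) (f : Fin r → Option (Fin N)) (g : Fin r → ℕ),
        (Matrix.of (fun α β : Fin r => (phi m (F (f α))).coeff (g β))).det ≠ 0 → r ≤ ρ) ∧
      ∃ θ : Fin (d + 1 - ρ) → ℕ → CA m, LinearIndependent (CA m) θ ∧ (∀ l k, d < k → θ l k = 0) ∧
        ∀ l j, ∑ k ∈ Finset.range (d + 1), θ l k * (phi m (F j)).coeff k = 0 := by
  have H := V22_max
    (Matrix.of (fun (j : Option (Fin N)) (k : Fin (d + 1)) => (phi m (F j)).coeff k))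
  rw [Fintype.card_fin] at H
  obtain ⟨ρ, hρc, hρ1, ⟨f, g, hdet⟩, hmax, θ, hθli, hθ⟩ := H
  refine ⟨ρ, ?_, hρc, ⟨f, fun β => ((g β : Fin (d + 1)) : ℕ), hdet⟩, ?_, fun l => extz d (θ l),
    extz_li θ hθli, fun l k hk => extz_zero d (θ l) k hk, ?_⟩
  · apply hρ1
    obtain ⟨j, hj0, hjd⟩ := hF.top
    exact ⟨j, ⟨d, by omega⟩, phi_coeff_ne (F j) hjd hj0⟩
  · intro r f' g' h
    have hle := V22_le F hF.deg f' g' h
    exact hmax r f' (fun β => ⟨g' β, by have := hle β; omega⟩) h
  · intro l j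
    have h1 := congrFun (hθ l) j
    rw [Finset.sum_range]
    simp only [extz_val]
    have h2 : ∑ k : Fin (d + 1), θ l k * (phi m (F j)).coeff k =
        ((Matrix.of (fun (j : Option (Fin N)) (k : Fin (d + 1)) =>
          (phi m (F j)).coeff k)).mulVec (θ l)) j := by
      simp only [Matrix.mulVec, dotProduct, Matrix.of_apply]
      exact Finset.sum_congr rfl (fun k _ => mul_comm _ _)
    rw [h2, h1]
    rfl

theorem V23_max {m N d : ℕ} (F : Option (Fin N) → MvPolynomial (Fin (m + 1)) ℂ)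
    (hF : Good d F) : ∃ (ρ : ℕ), (∃ W ∈ Matrix.unitaryGroup (Fin (m + 1)) ℂ,
      ∃ (f : Fin ρ → Option (Fin N)) (g : Fin ρ → ℕ),
        (Matrix.of (fun α β : Fin ρ => (phi m (sub W (F (f α)))).coeff (g β))).det ≠ 0) ∧
      ∀ r : ℕ, (∃ W ∈ Matrix.unitaryGroup (Fin (m + 1)) ℂ,
      ∃ (f : Fin r → Option (Fin N)) (g : Fin r → ℕ),
        (Matrix.of (fun α β : Fin r => (phi m (sub W (F (f α)))).coeff (g β))).det ≠ 0) →
        r ≤ ρ := by
  classical
  obtain ⟨Pr, hPr⟩ : ∃ Pr : ℕ → Prop, ∀ r, Pr r ↔ (∃ W ∈ Matrix.unitaryGroup (Fin (m + 1)) ℂ,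
      ∃ (f : Fin r → Option (Fin N)) (g : Fin r → ℕ),
        (Matrix.of (fun α β : Fin r => (phi m (sub W (F (f α)))).coeff (g β))).det ≠ 0) :=
    ⟨_, fun _ => Iff.rfl⟩
  have hb : ∀ r, Pr r → r ≤ d + 1 := by
    intro r hr
    obtain ⟨W, hW, f, g, h⟩ := (hPr r).1 hr
    obtain ⟨ρ', _, h2, _, h3, _⟩ := V23_one (fun j => sub W (F j)) (Good_sub F hF W hW)
    exact (h3 r f g h).trans h2
  have h0 : Pr 0 := by
    rw [hPr]
    refine ⟨1, one_mem _, fun i => i.elim0, fun i => i.elim0, ?_⟩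
    rw [Matrix.det_isEmpty]
    exact one_ne_zero
  refine ⟨Nat.findGreatest Pr (d + 1), (hPr _).1 (Nat.findGreatest_spec (Nat.zero_le _) h0),
    fun r hr => ?_⟩
  exact Nat.le_findGreatest (hb r ((hPr r).2 hr)) ((hPr r).2 hr)

theorem V23_perm {n : ℕ} (V : Matrix (Fin n) (Fin n) ℂ) (hV : V ∈ Matrix.unitaryGroup (Fin n) ℂ)
    (σ : Equiv.Perm (Fin n)) : V.submatrix id σ ∈ Matrix.unitaryGroup (Fin n) ℂ := by
  rw [Matrix.mem_unitaryGroup_iff'] at hV ⊢
  have h : star (V.submatrix id σ) * V.submatrix id σ = (star V * V).submatrix σ σ := by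
    ext i j
    simp only [Matrix.mul_apply, Matrix.star_apply, Matrix.submatrix_apply, id_eq]
  rw [h, hV]
  ext i j
  rw [Matrix.submatrix_apply, Matrix.one_apply, Matrix.one_apply]
  simp

theorem V23_col {n : ℕ} (V : Matrix (Fin n) (Fin n) ℂ) (i : Fin n) :
    V.mulVec (ev i) = fun k => V k i := by
  funext k
  unfold ev
  rw [Matrix.mulVec_single_one]
  rfl

theorem V23_mnr {m N ρ : ℕ} (F' : Option (Fin N) → MvPolynomial (Fin (m + 1)) ℂ)
    (f : Fin ρ → Option (Fin N)) (g : Fin ρ → ℕ) (V : Matrix (Fin (m + 1)) (Fin (m + 1)) ℂ)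
    (h : ∀ i : Fin m, (Matrix.of (fun α β : Fin ρ =>
        (lin (fun k => V k 0) (fun k => V k i.succ) (F' (f α))).coeff (g β))).det ≠ 0)
    (e : Fin (m + 1)) (i : Fin (m + 1)) (hi : i ≠ e) :
    mnr (fun j => sub (V.submatrix id (Equiv.swap 0 e)) (F' j)) f g (ev e) (ev i) ≠ 0 := by
  obtain ⟨i', hi'⟩ : ∃ i' : Fin m, Equiv.swap 0 e i = i'.succ := by
    have h0 : Equiv.swap 0 e i ≠ 0 := by
      intro h1
      apply hi
      have h2 : Equiv.swap 0 e e = 0 := Equiv.swap_apply_right _ _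
      exact (Equiv.swap (0 : Fin (m + 1)) e).injective (h1.trans h2.symm)
    exact ⟨(Equiv.swap 0 e i).pred h0, (Fin.succ_pred _ h0).symm⟩
  unfold mnr
  have h1 : ∀ α, lin (ev e) (ev i) (sub (V.submatrix id (Equiv.swap 0 e)) (F' (f α))) =
      lin (fun k => V k 0) (fun k => V k i'.succ) (F' (f α)) := by
    intro α
    rw [sub_lin, V23_col, V23_col]
    simp only [Matrix.submatrix_apply, id_eq, hi', Equiv.swap_apply_right]
  simp only [h1]
  exact h i'

/-- THE TANGENT CHART. After a unitary change of coordinates the lines `e_1 + t e_i`, `i ≠ 1`, all have a nonvanishing minor of the maximal size.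
PROOF. Let `ρ` be the largest `r` such that there is a unitary `W` and a nonvanishing `r`-minor `(phi m (sub W (F (f α)))).coeff (g β)` (`Good_sub`; `r ≤ d + 1` by `V23_one`; for `r = 0` trivial with `W = 1`;
`Nat.findGreatest` or a maximality argument). Fix such `W`, `f`, `g`, `F' j = sub W (F j)`. `S2` gives a unitary `V` such that `mnr F' f g (V · 0) (V · i.succ) ≠ 0` for all `i : Fin m`. Let `e₁ = (i00 hm).succ`,
`V' = V.submatrix id (Equiv.swap 0 e₁)` (unitary), `F₂ j = sub V' (F' j) = sub (W * V') (F j)`. By `sub_lin` (`V'.mulVec (ev i)` = column `i` of `V'` = column `swap 0 e₁ i` of `V`), for `i ≠ e₁`: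
`mnr F₂ f g (ev e₁) (ev i) = mnr F' f g (V · 0) (V · (swap 0 e₁ i)) ≠ 0` as `swap 0 e₁ i ≠ 0` is a successor. `V23_one` for `F₂` gives `ρ₂` with relations; `ρ₂ ≤ ρ` by the choice of `ρ`
(its own minor, `W * V'` is unitary). `ρ ≤ ρ₂`: the minor `(phi m (F₂ (f α))).coeff (g β)` is nonzero because its value at `(a00 hm, 0)` is `mnr F₂ f g (ev e₁) (ev 0) ≠ 0` (`lin_phi` with
`Fin.cons 0 (a00 hm) = ev e₁`, `Fin.cons 1 0 = ev 0`; `RingHom.map_det`). So `ρ₂ = ρ`. -/
theorem V23 {m N d : ℕ} (hm : 0 < m) (F : Option (Fin N) → MvPolynomial (Fin (m + 1)) ℂ)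
    (hF : Good d F) :
    ∃ (F₂ : Option (Fin N) → MvPolynomial (Fin (m + 1)) ℂ) (ρ : ℕ) (f : Fin ρ → Option (Fin N))
      (g : Fin ρ → ℕ), Good d F₂ ∧ 1 ≤ ρ ∧ ρ ≤ d + 1 ∧
      (∃ θ : Fin (d + 1 - ρ) → ℕ → CA m, LinearIndependent (CA m) θ ∧ (∀ l k, d < k → θ l k = 0) ∧
        ∀ l j, ∑ k ∈ Finset.range (d + 1), θ l k * (phi m (F₂ j)).coeff k = 0) ∧
      (Matrix.of (fun α β : Fin ρ => (phi m (F₂ (f α))).coeff (g β))).det ≠ 0 ∧
      ∀ i, i ≠ (i00 hm).succ → mnr F₂ f g (ev (i00 hm).succ) (ev i) ≠ 0 := by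
  obtain ⟨ρ, ⟨W, hW, f, g, hdet⟩, hmax⟩ := V23_max F hF
  obtain ⟨V, hV, hVm⟩ := S2 (fun j => sub W (F j)) f g hdet
  obtain ⟨e, he⟩ : ∃ e : Fin (m + 1), e = (i00 hm).succ := ⟨_, rfl⟩
  have he0 : e ≠ 0 := by rw [he]; exact Fin.succ_ne_zero _
  rw [← he]
  obtain ⟨V', hV'⟩ : ∃ V' : Matrix (Fin (m + 1)) (Fin (m + 1)) ℂ,
      V' = V.submatrix id (Equiv.swap 0 e) := ⟨_, rfl⟩
  have hVu : V' ∈ Matrix.unitaryGroup (Fin (m + 1)) ℂ := by
    rw [hV']
    exact V23_perm V hV _
  have hWV : W * V' ∈ Matrix.unitaryGroup (Fin (m + 1)) ℂ := mul_mem hW hVu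
  have hG := Good_sub F hF (W * V') hWV
  have hmn : ∀ i, i ≠ e → mnr (fun j => sub (W * V') (F j)) f g (ev e) (ev i) ≠ 0 := by
    intro i hi
    have h1 := V23_mnr (fun j => sub W (F j)) f g V hVm e i hi
    rw [← hV'] at h1
    simp only [sub_sub] at h1
    exact h1
  have hd2 : (Matrix.of (fun α β : Fin ρ =>
      (phi m (sub (W * V') (F (f α)))).coeff (g β))).det ≠ 0 := by
    intro h0
    apply hmn 0 he0.symm
    have h1 := congrArg (evA (a00 hm) 0) h0
    rw [RingHom.map_det, map_zero] at h1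
    rw [← h1]
    unfold mnr
    congr 1
    ext α β
    rw [RingHom.mapMatrix_apply, Matrix.map_apply, Matrix.of_apply, Matrix.of_apply, ← lin_phi]
    have e1 : (Fin.cons 0 (a00 hm) : Fin (m + 1) → ℂ) = ev e := by
      funext k
      refine Fin.cases ?_ (fun j => ?_) k
      · rw [Fin.cons_zero, ev, Pi.single_apply, if_neg he0.symm]
      · rw [Fin.cons_succ, ev, a00, he, Pi.single_apply, Pi.single_apply]
        simp only [Fin.succ_inj]
    have e2 : (Fin.cons 1 (0 : Fin m → ℂ) : Fin (m + 1) → ℂ) = ev 0 := by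
      funext k
      refine Fin.cases ?_ (fun j => ?_) k
      · rw [Fin.cons_zero, ev, Pi.single_apply, if_pos rfl]
      · rw [Fin.cons_succ, ev, Pi.single_apply, if_neg (Fin.succ_ne_zero _)]
        rfl
    rw [e1, e2]
  obtain ⟨ρ₂, h1, h2, ⟨f₂, g₂, h3⟩, h4, h5⟩ := V23_one (fun j => sub (W * V') (F j)) hG
  have hρ : ρ₂ = ρ := le_antisymm (hmax ρ₂ ⟨W * V', hWV, f₂, g₂, h3⟩) (h4 ρ f g hd2)
  subst hρ
  exact ⟨fun j => sub (W * V') (F j), ρ₂, f, g, hG, h1, h2, h5, hd2, hmn⟩

end Pool.Agent.DAng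
end
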