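import Pool.Agent.Lib.MP_e3689b_an.Mg.G002
import Pool.Agent.Lib.MP_e3689b_an.Mg.G018
import Pool.Agent.Lib.MP_e3689b_an.Mg.G015
import Pool.Agent.Lib.MP_e3689b_an.Mg.G004
import Pool.Agent.Lib.MP_e3689b_an.Mg.G017
import Pool.Agent.Lib.MP_e3689b_an.Mg.G022

section

set_option autoImplicit false

namespace Pool.Agent.DAng

open MvPolynomial

theorem V13_smul {m : ℕ} {σ : Type} (c : CA m) (P : MvPolynomial σ (CA m)) :
    io (c • P) = c • io P := by
  rw [smul_eq_C_mul, map_mul, io_C, ← algebraMap_smul (KA m) c (io P), smul_eq_C_mul]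

/-- linear independence over `CA m` gives linear independence over the fraction field of the images.
PROOF. `io` is injective and `CA m`-linear (`LinearIndependent.map'`), then `LinearIndependent.iff_fractionRing` (or clear denominators as in R1.lean). -/
theorem V13_li {m r : ℕ} {σ : Type} (w : Fin r → MvPolynomial σ (CA m)) (h : LinearIndependent (CA m) w) :
    LinearIndependent (KA m) (fun k => io (w k)) := by
  have h1 : LinearIndependent (CA m) (fun k => io (w k)) := by
    let L : MvPolynomial σ (CA m) →ₗ[CA m] MvPolynomial σ (KA m) :=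
      { toFun := fun P => io P
        map_add' := fun P Q => map_add io P Q
        map_smul' := fun c P => V13_smul c P }
    exact h.map' L (LinearMap.ker_eq_bot.2 io_inj)
  exact (LinearIndependent.iff_fractionRing (CA m) (KA m)).1 h1

theorem V13_ev {m : ℕ} (a b : Fin m → ℂ) (x : Sg m → ℂ) (hx : x x0 = 0) (P : CR m) :
    evR a b x (e0 P) = evR a b x P := by
  have h : ((evR a b x).comp (e0 (m := m) (B := CA m) : CR m →+* CR m)) = evR a b x := by
    apply MvPolynomial.ringHom_ext
    · intro c
      rw [RingHom.comp_apply]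
      congr 1
      exact AlgHom.commutes (e0 (m := m) (B := CA m)) c
    · intro v
      rw [RingHom.comp_apply]
      change evR a b x (e0 (X v)) = _
      unfold e0
      rw [aeval_X]
      split_ifs with hv
      · rw [hv, map_zero]
        unfold evR
        rw [coe_eval₂Hom, eval₂_X, hx]
      · rfl
  exact congrArg (fun f : CR m →+* ℂ => f P) h

/-- `dim e0(U) ≥ r` if some minor of size `r` of the `Pik` at points with `X_0 = 0` does not vanish.
PROOF. Let `w k = e0 (Pik m d F (g (h' k)))`. `evR a b (x l) (e0 P) = evR a b (x l) P` because `x l x0 = 0` (ring homomorphisms agreeing on generators). So by `L4` (for the sequence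
`k ↦ if h : k < r then w ⟨k, h⟩ else 0`) the `w k` are linearly independent over `CA m`. `Pik 0 = X_0 u_0` has `e0 = 0`, so `g (h' k) ≠ 0` (`LinearIndependent.ne_zero`), `g (h' k) = n_k + 1`, and
`w k = X_1 * e0 (u n_k)` (`e0_X0`, `e0_X1`); `n_k < d` as `u n = 0` for `n ≥ d`. So the `e0 (u n_k)` are linearly independent over `CA m` (a relation multiplied by `X_1`), by `V13_li` and `io_e0` the
`e0 (io (u n_k))` are linearly independent over `KA m`; they lie in `(UU d u).map e0`. -/
theorem V13 {m N ρ d r : ℕ} (F : Option (Fin N) → MvPolynomial (Fin (m + 1)) ℂ) (u : ℕ → CR m)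
    (hu : IsQuot m d F u) (a b : Fin m → ℂ) (g : Fin ρ → ℕ) (h' : Fin r → Fin ρ)
    (x : Fin r → Sg m → ℂ) (hx : ∀ l, x l x0 = 0)
    (hdet : (Matrix.of (fun k l : Fin r => evR a b (x l) (Pik m d F (g (h' k))))).det ≠ 0) :
    r ≤ Module.finrank (KA m) ((UU d u).map (e0 (m := m) (B := KA m)).toLinearMap) := by
  classical
  obtain ⟨hu0, hu1, hu2⟩ := hu
  have hli : LinearIndependent (CA m) (fun k : Fin r => e0 (Pik m d F (g (h' k)))) := by
    have h1 := L4 (fun k : ℕ => if h : k < r then e0 (Pik m d F (g (h' ⟨k, h⟩))) else 0) a b x (by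
      have h2 : (Matrix.of (fun k l : Fin r => evR a b (x l)
          ((fun k : ℕ => if h : k < r then e0 (Pik m d F (g (h' ⟨k, h⟩))) else 0) k))) =
          Matrix.of (fun k l : Fin r => evR a b (x l) (Pik m d F (g (h' k)))) := by
        ext k l
        simp only [Matrix.of_apply]
        rw [dif_pos k.isLt]
        exact V13_ev a b (x l) (hx l) _
      rw [h2]
      exact hdet)
    convert h1 using 2 with k
    rw [dif_pos k.isLt]
  have hex : ∀ k : Fin r, ∃ n : Fin d, e0 (Pik m d F (g (h' k))) = X x1 * e0 (u n) := by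
    intro k
    have h1 := hli.ne_zero k
    rcases hgk : g (h' k) with _ | n
    · exfalso
      apply h1
      rw [hgk, hu1, map_mul, e0_X0, zero_mul]
    · have h2 : e0 (Pik m d F (n + 1)) = X x1 * e0 (u n) := by
        rw [hu2 n, map_add, map_mul, map_mul, e0_X0, e0_X1, zero_mul, zero_add]
      have hn : n < d := by
        by_contra hcon
        apply h1
        rw [hgk, h2, hu0 n (by omega), map_zero, mul_zero]
      exact ⟨⟨n, hn⟩, h2⟩
  choose n hn using hex
  have hli2 : LinearIndependent (CA m) (fun k : Fin r => e0 (u (n k))) := by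
    rw [Fintype.linearIndependent_iff] at hli ⊢
    intro c hc
    apply hli c
    have h1 : ∑ k, c k • e0 (Pik m d F (g (h' k))) = X x1 * ∑ k, c k • e0 (u (n k)) := by
      rw [Finset.mul_sum]
      refine Finset.sum_congr rfl fun k _ => ?_
      rw [hn k, mul_smul_comm]
    rw [h1, hc, mul_zero]
  have hli3 := V13_li _ hli2
  have hmem : ∀ k : Fin r, io (e0 (u (n k))) ∈ (UU d u).map (e0 (m := m) (B := KA m)).toLinearMap := by
    intro k
    rw [← io_e0]
    exact Submodule.mem_map_of_mem (f := (e0 (m := m) (B := KA m)).toLinearMap)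
      (Submodule.subset_span ⟨n k, rfl⟩)
  have hfin : FiniteDimensional (KA m) (UU d u) :=
    FiniteDimensional.span_of_finite (KA m) (Set.finite_range _)
  have h5 : LinearIndependent (KA m) (fun k : Fin r =>
      (⟨io (e0 (u (n k))), hmem k⟩ : (UU d u).map (e0 (m := m) (B := KA m)).toLinearMap)) := by
    apply LinearIndependent.of_comp ((UU d u).map (e0 (m := m) (B := KA m)).toLinearMap).subtype
    exact hli3
  have h6 := h5.fintype_card_le_finrank
  rwa [Fintype.card_fin] at h6

end Pool.Agent.DAng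
end

section

set_option autoImplicit false

namespace Pool.Agent.DAng

open MvPolynomial

theorem V14_zero {m d : ℕ} (u : ℕ → CR m)
    (hli : LinearIndependent (CA m) (fun k : Fin d => u k)) (θ : ℕ → CA m)
    (h : ∑ k ∈ Finset.range d, C (θ k) * u k = 0) : ∀ k, k < d → θ k = 0 := by
  intro k hk
  have h1 : ∑ j : Fin d, θ j • u j = 0 := by
    rw [← h, Finset.sum_range]
    exact Finset.sum_congr rfl fun j _ => smul_eq_C_mul _ _
  exact Fintype.linearIndependent_iff.1 hli (fun j => θ j) h1 ⟨k, hk⟩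

/-- the elements `H_l` of the relations.
PROOF. `R2` (with `hrel`) and `C3` (`s = x0`, `t = x1`) give `h l`. Linear independence: copy the corresponding part of the proof of `C7` (C7.lean). -/
theorem V14_H {m N d r : ℕ} (hd : 0 < d) (F : Option (Fin N) → MvPolynomial (Fin (m + 1)) ℂ) (u : ℕ → CR m)
    (hu : IsQuot m d F u) (hli : LinearIndependent (CA m) (fun k : Fin d => u k))
    (θ : Fin r → ℕ → CA m) (hθ : LinearIndependent (CA m) θ) (hθd : ∀ l k, d < k → θ l k = 0)
    (hrel : ∀ l j, ∑ k ∈ Finset.range (d + 1), θ l k * (phi m (F j)).coeff k = 0) :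
    ∃ h : Fin r → CR m, LinearIndependent (CA m) h ∧
      (∀ l, ∑ k ∈ Finset.range d, C (θ l k) * u k = X x1 * h l) ∧
      (∀ l, ∑ k ∈ Finset.range d, C (θ l (k + 1)) * u k = -(X x0 * h l)) := by
  have h01 : (x0 : Sg m) ≠ x1 := by
    intro h
    have h2 := toLex.injective h
    simp at h2
  have hex : ∀ l, ∃ H : CR m,
      (∑ k ∈ Finset.range d, C (θ l k) * u k) = X x1 * H ∧
      (∑ k ∈ Finset.range d, C (θ l (k + 1)) * u k) = -(X x0 * H) := fun l =>
    C3 x0 x1 h01 _ _ (R2 F u hu (θ l) (hrel l))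
  choose h hh1 hh2 using hex
  refine ⟨h, ?_, hh1, hh2⟩
  rw [Fintype.linearIndependent_iff]
  intro c hc
  have hc' : ∑ l, C (c l) * h l = 0 := by
    rw [← hc]
    exact Finset.sum_congr rfl fun l _ => (smul_eq_C_mul _ _).symm
  have e1 : ∑ k ∈ Finset.range d, C (∑ l, c l * θ l k) * u k = 0 := by
    have : ∑ k ∈ Finset.range d, C (∑ l, c l * θ l k) * u k
        = ∑ l, C (c l) * ∑ k ∈ Finset.range d, C (θ l k) * u k := by
      simp only [map_sum, map_mul, Finset.sum_mul, Finset.mul_sum, mul_assoc]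
      rw [Finset.sum_comm]
    rw [this]
    simp only [hh1]
    have h3 : ∑ l, C (c l) * (X x1 * h l) = X x1 * ∑ l, C (c l) * h l := by
      rw [Finset.mul_sum]
      exact Finset.sum_congr rfl fun l _ => by ring
    rw [h3, hc', mul_zero]
  have e2 : ∑ k ∈ Finset.range d, C (∑ l, c l * θ l (k + 1)) * u k = 0 := by
    have : ∑ k ∈ Finset.range d, C (∑ l, c l * θ l (k + 1)) * u k
        = ∑ l, C (c l) * ∑ k ∈ Finset.range d, C (θ l (k + 1)) * u k := by
      simp only [map_sum, map_mul, Finset.sum_mul, Finset.mul_sum, mul_assoc]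
      rw [Finset.sum_comm]
    rw [this]
    simp only [hh2]
    have h3 : ∑ l, C (c l) * (-(X x0 * h l)) = -(X x0 * ∑ l, C (c l) * h l) := by
      rw [Finset.mul_sum, ← Finset.sum_neg_distrib]
      exact Finset.sum_congr rfl fun l _ => by ring
    rw [h3, hc', mul_zero, neg_zero]
  have z1 := V14_zero u hli (fun k => ∑ l, c l * θ l k) e1
  have z2 := V14_zero u hli (fun k => ∑ l, c l * θ l (k + 1)) e2
  have z : ∑ l, c l • θ l = 0 := by
    funext k
    rw [Finset.sum_apply]
    simp only [Pi.smul_apply, smul_eq_mul, Pi.zero_apply]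
    rcases Nat.eq_zero_or_pos k with hk | hk
    · subst hk
      exact z1 0 hd
    · by_cases hkd : k ≤ d
      · have := z2 (k - 1) (by omega)
        simp only [Nat.sub_add_cancel hk] at this
        exact this
      · refine Finset.sum_eq_zero fun l _ => ?_
        rw [hθd l k (by omega), mul_zero]
  exact Fintype.linearIndependent_iff.1 hθ c z

theorem V14_mem {m d : ℕ} (u : ℕ → CR m) (θ : ℕ → CA m) :
    io (∑ k ∈ Finset.range d, C (θ k) * u k) ∈ UU d u := by
  rw [map_sum]
  refine Submodule.sum_mem _ fun k hk => ?_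
  rw [map_mul, io_C, ← smul_eq_C_mul]
  exact Submodule.smul_mem _ _ (Submodule.subset_span ⟨⟨k, Finset.mem_range.1 hk⟩, rfl⟩)

/-- THE PROPERTY (P): `X_0 H ∈ U` implies `X_1 H ∈ U`.
PROOF. `U = UU d u` has dimension `d` (`V13_li`). `V03` for `k = 0` (`Uk U 0 = U`): `d = dim e0(U) + dim U_1`. Let `W = {H | X_0 H ∈ U ∧ X_1 H ∈ U}` (submodule, intersection of two `comap`s),
`W ≤ Uk U 1`. The `io (h l)` of `V14_H` lie in `W` (`io` of the two relations; `io_X`, `io_C`; `C c * P = c • P`) and are linearly independent (`V13_li`), so `dim W ≥ r ≥ d - dim e0(U) = dim U_1`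
and `W = U_1` (`Submodule.eq_of_le_of_finrank_le`, `V03_fin`). The second claim: `r ≤ dim W ≤ dim U_1 = d - dim e0(U)`. -/
theorem V14 {m N d r : ℕ} (hd : 0 < d) (F : Option (Fin N) → MvPolynomial (Fin (m + 1)) ℂ) (u : ℕ → CR m)
    (hu : IsQuot m d F u) (hli : LinearIndependent (CA m) (fun k : Fin d => u k))
    (θ : Fin r → ℕ → CA m) (hθ : LinearIndependent (CA m) θ) (hθd : ∀ l k, d < k → θ l k = 0)
    (hrel : ∀ l j, ∑ k ∈ Finset.range (d + 1), θ l k * (phi m (F j)).coeff k = 0)
    (hr : d ≤ r + Module.finrank (KA m) ((UU d u).map (e0 (m := m) (B := KA m)).toLinearMap)) :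
    (∀ H, X x0 * H ∈ UU d u → X x1 * H ∈ UU d u) ∧
    Module.finrank (KA m) ((UU d u).map (e0 (m := m) (B := KA m)).toLinearMap) + r ≤ d := by
  classical
  have hliK : LinearIndependent (KA m) (fun k : Fin d => io (u k)) := V13_li _ hli
  have hUd : Module.finrank (KA m) (UU d u) = d := by
    have h1 := finrank_span_eq_card hliK
    rw [Fintype.card_fin] at h1
    exact h1
  have hUfin : FiniteDimensional (KA m) (UU d u) :=
    FiniteDimensional.span_of_finite (KA m) (Set.finite_range _)
  have hU0 : Uk (UU d u) 0 = UU d u := by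
    ext P
    unfold Uk
    rw [Submodule.mem_comap, LinearMap.mulLeft_apply, pow_zero, one_mul]
  have hdim := V03 (UU d u) 0
  rw [hU0, hUd, zero_add] at hdim
  have hU1fin := V03_fin (UU d u) 1
  obtain ⟨h, hhli, hh1, hh2⟩ := V14_H hd F u hu hli θ hθ hθd hrel
  obtain ⟨W, hW⟩ : ∃ W : Submodule (KA m) (MvPolynomial (Sg m) (KA m)), ∀ H, H ∈ W ↔
      X x0 * H ∈ UU d u ∧ X x1 * H ∈ UU d u := by
    refine ⟨(UU d u).comap (LinearMap.mulLeft (KA m) (X x0)) ⊓
      (UU d u).comap (LinearMap.mulLeft (KA m) (X x1)), fun H => ?_⟩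
    rw [Submodule.mem_inf, Submodule.mem_comap, Submodule.mem_comap, LinearMap.mulLeft_apply,
      LinearMap.mulLeft_apply]
  have hWle : W ≤ Uk (UU d u) 1 := by
    intro H hH
    unfold Uk
    rw [Submodule.mem_comap, LinearMap.mulLeft_apply, pow_one]
    exact ((hW H).1 hH).1
  have hmem : ∀ l, io (h l) ∈ W := by
    intro l
    rw [hW]
    constructor
    · have h1 := V14_mem (d := d) u (fun k => θ l (k + 1))
      rw [hh2 l, map_neg, map_mul, io_X] at h1
      exact (Submodule.neg_mem_iff _).1 h1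
    · have h1 := V14_mem (d := d) u (θ l)
      rw [hh1 l, map_mul, io_X] at h1
      exact h1
  have hWfin : FiniteDimensional (KA m) W := Submodule.finiteDimensional_of_le hWle
  have hrW : r ≤ Module.finrank (KA m) W := by
    have h5 : LinearIndependent (KA m) (fun l : Fin r => (⟨io (h l), hmem l⟩ : W)) := by
      apply LinearIndependent.of_comp W.subtype
      exact V13_li _ hhli
    have h6 := h5.fintype_card_le_finrank
    rwa [Fintype.card_fin] at h6
  have hW1 : Module.finrank (KA m) W ≤ Module.finrank (KA m) (Uk (UU d u) 1) :=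
    Submodule.finrank_mono hWle
  have heq : W = Uk (UU d u) 1 := Submodule.eq_of_le_of_finrank_le hWle (by omega)
  refine ⟨fun H hH => ?_, by omega⟩
  have h1 : H ∈ Uk (UU d u) 1 := by
    unfold Uk
    rw [Submodule.mem_comap, LinearMap.mulLeft_apply, pow_one]
    exact hH
  rw [← heq] at h1
  exact ((hW H).1 h1).2

end Pool.Agent.DAng
end

section

set_option autoImplicit false

namespace Pool.Agent.DAng

open MvPolynomial

/-- THE ELEMENTS `H` WITH `X_0 H ∈ U` COME FROM THE RELATIONS.
PROOF. As in the proof of `V14` (copy its beginning): `h l` from `V14_H`, `dim U = d`, `V03` for `k = 0`: `dim U_1 = d - dim e0(U) ≤ r`. The `io (h l)` are linearly independent (`V13_li`) and lie in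
`Uk (UU d u) 1`, so they span it (`dim U_1 ≤ r`; `Submodule.eq_of_le_of_finrank_le` with `span (range (fun l => io (h l)))`, `finrank_span_eq_card`). Now `io H ∈ U_1`, so `io H = ∑_l κ_l • io (h l)` with
`κ_l ∈ KA m` (`Submodule.mem_span_range_iff_exists_fun`). Common denominator `c ≠ 0` of the `κ_l` (`IsLocalization.exist_integer_multiples_of_finset` or `IsLocalization.exist_integer_multiples`):
`c κ_l = κ'_l ∈ CA m`, `io (C c * H) = io (∑ C κ'_l * h l)`, `io_inj`. Put `θ' k = ∑_l κ'_l * θ l k` and use the two properties of `h l`. -/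
theorem GL03 {m N d r : ℕ} (hd : 0 < d) (F : Option (Fin N) → MvPolynomial (Fin (m + 1)) ℂ)
    (u : ℕ → CR m) (hu : IsQuot m d F u) (hli : LinearIndependent (CA m) (fun k : Fin d => u k))
    (θ : Fin r → ℕ → CA m) (hθ : LinearIndependent (CA m) θ) (hθd : ∀ l k, d < k → θ l k = 0)
    (hrel : ∀ l j, ∑ k ∈ Finset.range (d + 1), θ l k * (phi m (F j)).coeff k = 0)
    (hr : d ≤ r + Module.finrank (KA m) ((UU d u).map (e0 (m := m) (B := KA m)).toLinearMap))
    (H : CR m) (hH : X x0 * io H ∈ UU d u) :
    ∃ (c : CA m) (θ' : ℕ → CA m), c ≠ 0 ∧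
      ∑ k ∈ Finset.range d, C (θ' k) * u k = X x1 * (C c * H) ∧
      ∑ k ∈ Finset.range d, C (θ' (k + 1)) * u k = -(X x0 * (C c * H)) := by
  classical
  have hliK : LinearIndependent (KA m) (fun k : Fin d => io (u k)) := V13_li _ hli
  have hUd : Module.finrank (KA m) (UU d u) = d := by
    have h1 := finrank_span_eq_card hliK
    rw [Fintype.card_fin] at h1
    exact h1
  have hUfin : FiniteDimensional (KA m) (UU d u) :=
    FiniteDimensional.span_of_finite (KA m) (Set.finite_range _)
  have hU0 : Uk (UU d u) 0 = UU d u := by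
    ext P
    unfold Uk
    rw [Submodule.mem_comap, LinearMap.mulLeft_apply, pow_zero, one_mul]
  have hdim := V03 (UU d u) 0
  rw [hU0, hUd, zero_add] at hdim
  have hU1fin := V03_fin (UU d u) 1
  obtain ⟨h, hhli, hh1, hh2⟩ := V14_H hd F u hu hli θ hθ hθd hrel
  have hmem1 : ∀ l, io (h l) ∈ Uk (UU d u) 1 := by
    intro l
    have h1 := V14_mem (d := d) u (fun k => θ l (k + 1))
    rw [hh2 l, map_neg, map_mul, io_X] at h1
    unfold Uk
    rw [Submodule.mem_comap, LinearMap.mulLeft_apply, pow_one]
    exact (Submodule.neg_mem_iff _).1 h1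
  have hle : Submodule.span (KA m) (Set.range (fun l => io (h l))) ≤ Uk (UU d u) 1 := by
    rw [Submodule.span_le]
    rintro _ ⟨l, rfl⟩
    exact hmem1 l
  have hspan : Submodule.span (KA m) (Set.range (fun l => io (h l))) = Uk (UU d u) 1 := by
    apply Submodule.eq_of_le_of_finrank_le hle
    rw [finrank_span_eq_card (V13_li _ hhli), Fintype.card_fin]
    omega
  have hHm : io H ∈ Submodule.span (KA m) (Set.range (fun l => io (h l))) := by
    rw [hspan]
    unfold Uk
    rw [Submodule.mem_comap, LinearMap.mulLeft_apply, pow_one]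
    exact hH
  obtain ⟨κ, hκ⟩ := (Submodule.mem_span_range_iff_exists_fun (KA m)).1 hHm
  obtain ⟨c, hc⟩ := IsLocalization.exist_integer_multiples (nonZeroDivisors (CA m))
    (Finset.univ : Finset (Fin r)) κ
  have hc' : ∀ l, ∃ a : CA m, algebraMap (CA m) (KA m) a = algebraMap (CA m) (KA m) c * κ l := by
    intro l
    obtain ⟨a, ha⟩ := hc l (Finset.mem_univ l)
    refine ⟨a, ha.trans ?_⟩
    rw [Algebra.smul_def]
  choose κ' hκ' using hc'
  have key : C (c : CA m) * H = ∑ l, C (κ' l) * h l := by
    apply io_inj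
    rw [map_mul, io_C, ← hκ, map_sum, Finset.mul_sum]
    refine Finset.sum_congr rfl fun l _ => ?_
    rw [map_mul, io_C, hκ' l, smul_eq_C_mul, map_mul, mul_assoc]
  refine ⟨c, fun k => ∑ l, κ' l * θ l k, nonZeroDivisors.ne_zero c.2, ?_, ?_⟩
  · have h1 : ∑ k ∈ Finset.range d, C (∑ l, κ' l * θ l k) * u k
        = ∑ l, C (κ' l) * ∑ k ∈ Finset.range d, C (θ l k) * u k := by
      simp only [map_sum, map_mul, Finset.sum_mul, Finset.mul_sum, mul_assoc]
      rw [Finset.sum_comm]
    rw [h1, key, Finset.mul_sum]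
    refine Finset.sum_congr rfl fun l _ => ?_
    rw [hh1 l]
    ring
  · have h1 : ∑ k ∈ Finset.range d, C (∑ l, κ' l * θ l (k + 1)) * u k
        = ∑ l, C (κ' l) * ∑ k ∈ Finset.range d, C (θ l (k + 1)) * u k := by
      simp only [map_sum, map_mul, Finset.sum_mul, Finset.mul_sum, mul_assoc]
      rw [Finset.sum_comm]
    rw [h1, key, Finset.mul_sum, ← Finset.sum_neg_distrib]
    refine Finset.sum_congr rfl fun l _ => ?_
    rw [hh2 l]
    ring

end Pool.Agent.DAng
end

section

set_option autoImplicit false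

namespace Pool.Agent.DAng

open MvPolynomial

/-- EXISTENCE OF THE CONTEXT (after a unitary change of coordinates). PROOF. Copy the beginning of the proof of `V25`: `V23` gives `F₂, ρ, f, g, θ`; `u` from `H8`; linear independence from `B4`, `L3`, `L4`;
`V12` (with `hmin 0`), `V13`: `ρ - 1 ≤ dim e0(U)`; `V14` gives (P), `GL03` (with `r = d + 1 - ρ`) gives `rel`. -/
theorem GL04 {m N d : ℕ} (hm : 0 < m) (hd : 0 < d)
    (F : Option (Fin N) → MvPolynomial (Fin (m + 1)) ℂ) (hF : Good d F) :
    ∃ (F₂ : Option (Fin N) → MvPolynomial (Fin (m + 1)) ℂ) (u : ℕ → CR m), Good d F₂ ∧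
      Ctx d F₂ u := by
  classical
  obtain ⟨F₂, ρ, f, g, hF2, h1, h2, ⟨θ, hθ1, hθ2, hθ3⟩, -, hmin⟩ := V23 hm F hF
  obtain ⟨u, hu⟩ := H8 F₂ hF2.deg hF2.quad
  have hli : LinearIndependent (CA m) (fun k : Fin d => u k) := by
    obtain ⟨a, b, ha, hz, hdc⟩ := B4 F₂ hF2.red hF2.top
    obtain ⟨T, hT⟩ := L3 F₂ hF2.deg u hu hF2.ball a b ha hz hdc
    exact L4 u a b (fun l => Xs a b (T l)) hT
  have h00 : (0 : Fin (m + 1)) ≠ (i00 hm).succ := (Fin.succ_ne_zero _).symm
  obtain ⟨h', x, hx, hx2⟩ := V12 hm F₂ hF2 f g (hmin 0 h00)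
  have hlow : ρ - 1 ≤ Module.finrank (KA m) ((UU d u).map (e0 (m := m) (B := KA m)).toLinearMap) :=
    V13 F₂ u hu (a00 hm) 0 g h' x hx hx2
  have hr : d ≤ (d + 1 - ρ) +
      Module.finrank (KA m) ((UU d u).map (e0 (m := m) (B := KA m)).toLinearMap) := by omega
  refine ⟨F₂, u, hF2, hu, hli, (V14 hd F₂ u hu hli θ hθ1 hθ2 hθ3 hr).1, ?_⟩
  intro H hH
  exact GL03 hd F₂ u hu hli θ hθ1 hθ2 hθ3 hr H hH

end Pool.Agent.DAng
end

section

set_option autoImplicit false

namespace Pool.Agent.DAng

open MvPolynomial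

/-- MINORS. A family of `KA m`-independent `io (f i)` has a nonzero minor, which detects independence after every specialisation. PROOF. As in `GL07`: matrix over `KA m` with rows the union of the supports and
columns `Fin r`, rank `r`, `V10_minor`; the minor is the image of `Δ ∈ CA m`. If `ψ Δ ≠ 0` and `∑ r_i • map ψ (f i) = 0`, take the coefficients at the chosen monomials: `A^ψ r = 0` with
`det A^ψ = ψ Δ ≠ 0` (`RingHom.map_det`), so `r = 0` (`Matrix.eq_zero_of_mulVec_eq_zero`). -/
theorem GL20_minor {m r : ℕ} (f : Fin r → CR m) (hli : LinearIndependent (KA m) (fun i => io (f i))) :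
    ∃ Δ : CA m, Δ ≠ 0 ∧ ∀ ψ : CA m →+* MvPolynomial (Fin m) ℂ, ψ Δ ≠ 0 →
      LinearIndependent (MvPolynomial (Fin m) ℂ) (fun i => map ψ (f i)) := by
  classical
  let J : Finset (Sg m →₀ ℕ) := Finset.univ.biUnion fun i => (f i).support
  let A : Matrix J (Fin r) (KA m) := fun M i => coeff M.1 (io (f i))
  have hcol : LinearIndependent (KA m) A.col := by
    rw [Fintype.linearIndependent_iff]
    intro g hg
    refine Fintype.linearIndependent_iff.1 hli g ?_
    ext M
    rw [coeff_sum, coeff_zero]
    by_cases hM : M ∈ J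
    · have h1 := congrFun hg ⟨M, hM⟩
      rw [Finset.sum_apply, Pi.zero_apply] at h1
      rw [← h1]
      refine Finset.sum_congr rfl fun i _ => ?_
      rw [coeff_smul]
      rfl
    · refine Finset.sum_eq_zero fun i _ => ?_
      have h2 : coeff M (f i) = 0 := by
        by_contra h3
        exact hM (Finset.mem_biUnion.2 ⟨i, Finset.mem_univ _, mem_support_iff.2 h3⟩)
      rw [coeff_smul]
      unfold io
      rw [coeff_map, h2, map_zero, smul_zero]
  have hrank : r ≤ A.rank := by
    rw [Matrix.rank_eq_finrank_span_cols, finrank_span_eq_card hcol, Fintype.card_fin]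
  obtain ⟨f₀, g, hdet⟩ := V10_minor A r hrank
  have hg : Function.Injective g := by
    intro b b' hbb
    by_contra hne
    exact hdet (Matrix.det_zero_of_column_eq hne fun a => by
      rw [Matrix.submatrix_apply, Matrix.submatrix_apply, hbb])
  have hgb : Function.Bijective g := Finite.injective_iff_bijective.1 hg
  let B : Matrix (Fin r) (Fin r) (CA m) := fun a b => coeff (f₀ a).1 (f (g b))
  refine ⟨B.det, ?_, fun ψ hψ => ?_⟩
  · intro h0
    apply hdet
    have h1 : A.submatrix f₀ g = (algebraMap (CA m) (KA m)).mapMatrix B := by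
      ext a b
      rw [Matrix.submatrix_apply, RingHom.mapMatrix_apply, Matrix.map_apply]
      change coeff (f₀ a).1 (io (f (g b))) = _
      unfold io
      rw [coeff_map]
    rw [h1, ← RingHom.map_det, h0, map_zero]
  · have h2 : LinearIndependent (MvPolynomial (Fin m) ℂ)
        ((fun i => map ψ (f i)) ∘ (Equiv.ofBijective g hgb)) := by
      rw [Fintype.linearIndependent_iff]
      intro c hc
      have hψ' : (ψ.mapMatrix B).det ≠ 0 := by
        rw [← RingHom.map_det]
        exact hψ
      have hv : (ψ.mapMatrix B).mulVec c = 0 := by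
        funext a
        have h3 := congrArg (coeff (f₀ a).1) hc
        rw [coeff_sum, coeff_zero] at h3
        rw [Pi.zero_apply, ← h3, Matrix.mulVec, dotProduct]
        refine Finset.sum_congr rfl fun b _ => ?_
        rw [coeff_smul, smul_eq_mul, mul_comm]
        have h5 : (ψ.mapMatrix B) a b = coeff (f₀ a).1 (map ψ (f (g b))) := by
          rw [coeff_map]
          rfl
        rw [h5]
        rfl
      have h4 := Matrix.eq_zero_of_mulVec_eq_zero hψ' hv
      intro i
      exact congrFun h4 i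
    exact (linearIndependent_equiv (Equiv.ofBijective g hgb)).1 h2

end Pool.Agent.DAng
end
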