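import Pool.Agent.Lib.MP_e3689b_an.Mg.G002
import Pool.Agent.Lib.MP_e3689b_an.Mg.G003
import Pool.Agent.Lib.MP_e3689b_an.Mg.G004
import Pool.Agent.Lib.MP_e3689b_an.Mg.G017
import Pool.Agent.Lib.MP_e3689b_an.Mg.G015

section

set_option autoImplicit false

namespace Pool.Agent.DAng

open MvPolynomial

theorem V07_mul {m : ℕ} {σ : Type} (a b : MvPolynomial σ (CA m)) : io (a * b) = io a * io b :=
  map_mul io a b

theorem V07_add {m : ℕ} {σ : Type} (a b : MvPolynomial σ (CA m)) : io (a + b) = io a + io b :=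
  map_add io a b

/-- clearing denominators in one polynomial.
PROOF. `IsLocalization.exist_integer_multiples_of_finset`/`..._of_finite` (as used in R1.lean) for the finitely many coefficients of `g`; or induction. -/
theorem V07_poly {m : ℕ} {σ : Type} (g : MvPolynomial σ (KA m)) :
    ∃ (c : CA m) (g' : MvPolynomial σ (CA m)), c ≠ 0 ∧ C (algebraMap (CA m) (KA m) c) * g = io g' := by
  induction g using MvPolynomial.induction_on with
  | C a =>
    obtain ⟨x, y, hy, rfl⟩ := IsFractionRing.div_surjective (A := CA m) a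
    have hy0 : y ≠ 0 := nonZeroDivisors.ne_zero hy
    refine ⟨y, C x, hy0, ?_⟩
    have hy1 : algebraMap (CA m) (KA m) y ≠ 0 := by
      intro h
      exact hy0 ((IsFractionRing.injective (CA m) (KA m)) (by rw [h, map_zero]))
    rw [← C_mul, mul_div_cancel₀ _ hy1]
    unfold io
    rw [map_C]
  | add p q hp hq =>
    obtain ⟨c, p', hc, hp'⟩ := hp
    obtain ⟨d, q', hd, hq'⟩ := hq
    refine ⟨c * d, C d * p' + C c * q', mul_ne_zero hc hd, ?_⟩
    rw [V07_add, V07_mul, V07_mul, io_C, io_C, ← hp', ← hq', map_mul, C_mul]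
    ring
  | mul_X p i hp =>
    obtain ⟨c, p', hc, hp'⟩ := hp
    refine ⟨c, p' * X i, hc, ?_⟩
    rw [V07_mul, io_X, ← hp']
    ring

/-- clearing denominators in a linear combination of the `u_k`.
PROOF. `f = ∑ k : Fin d, b k • io (u k)` (`Submodule.mem_span_range_iff_exists_fun`); clear the denominators of the finitely many `b k`. -/
theorem V07_span {m d : ℕ} (u : ℕ → CR m) (f : MvPolynomial (Sg m) (KA m)) (hf : f ∈ UU d u) :
    ∃ (c : CA m) (θ : ℕ → CA m), c ≠ 0 ∧
      C (algebraMap (CA m) (KA m) c) * f = io (∑ k ∈ Finset.range d, C (θ k) * u k) := by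
  unfold UU at hf
  induction hf using Submodule.span_induction with
  | mem x hx =>
    obtain ⟨k, rfl⟩ := hx
    refine ⟨1, fun j => if j = k.val then 1 else 0, one_ne_zero, ?_⟩
    rw [Finset.sum_eq_single k.val]
    · simp
    · intro j _ hj
      simp [hj]
    · intro h
      exact absurd (Finset.mem_range.2 k.isLt) h
  | zero =>
    refine ⟨1, fun _ => 0, one_ne_zero, ?_⟩
    simp
  | add x y hx hy ihx ihy =>
    obtain ⟨c, θ, hc, h1⟩ := ihx
    obtain ⟨c', θ', hc', h2⟩ := ihy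
    refine ⟨c * c', fun k => c' * θ k + c * θ' k, mul_ne_zero hc hc', ?_⟩
    have h3 : ∑ k ∈ Finset.range d, C (c' * θ k + c * θ' k) * u k =
        C c' * ∑ k ∈ Finset.range d, C (θ k) * u k + C c * ∑ k ∈ Finset.range d, C (θ' k) * u k := by
      rw [Finset.mul_sum, Finset.mul_sum, ← Finset.sum_add_distrib]
      refine Finset.sum_congr rfl fun k _ => ?_
      rw [C_add, C_mul, C_mul]
      ring
    rw [h3, V07_add, V07_mul, V07_mul, ← h1, ← h2, io_C, io_C, map_mul, C_mul]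
    ring
  | smul a x hx ih =>
    obtain ⟨c, θ, hc, h1⟩ := ih
    obtain ⟨n, e, he, rfl⟩ := IsFractionRing.div_surjective (A := CA m) a
    have he0 : e ≠ 0 := nonZeroDivisors.ne_zero he
    have he1 : algebraMap (CA m) (KA m) e ≠ 0 := by
      intro h
      exact he0 ((IsFractionRing.injective (CA m) (KA m)) (by rw [h, map_zero]))
    refine ⟨e * c, fun k => n * θ k, mul_ne_zero he0 hc, ?_⟩
    have h3 : ∑ k ∈ Finset.range d, C (n * θ k) * u k =
        C n * ∑ k ∈ Finset.range d, C (θ k) * u k := by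
      rw [Finset.mul_sum]
      refine Finset.sum_congr rfl fun k _ => ?_
      rw [C_mul]
      ring
    rw [h3, V07_mul, ← h1, io_C, smul_eq_C_mul, map_mul, C_mul]
    have h4 : (C (algebraMap (CA m) (KA m) e) : MvPolynomial (Sg m) (KA m)) *
        C (algebraMap (CA m) (KA m) n / algebraMap (CA m) (KA m) e) =
        C (algebraMap (CA m) (KA m) n) := by
      rw [← C_mul, mul_div_cancel₀ _ he1]
    rw [← h4]
    ring

end Pool.Agent.DAng
end

section

set_option autoImplicit false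

namespace Pool.Agent.DAng

open MvPolynomial

/-- an element of `UU` clears to a combination of the `u_k` -/
theorem GL07_clear {m d : ℕ} (u : ℕ → CR m) (P : CR m) (hP : io P ∈ UU d u) :
    ∃ (c : CA m) (θ : ℕ → CA m), c ≠ 0 ∧ C c * P = ∑ l ∈ Finset.range d, C (θ l) * u l := by
  obtain ⟨c, θ, hc, h1⟩ := V07_span u (io P) hP
  refine ⟨c, θ, hc, io_inj ?_⟩
  rw [V07_mul, io_C]
  exact h1

open Classical in
/-- the supports of the elements of `UU` -/
theorem GL07_supp {m d : ℕ} (u : ℕ → CR m) (P : CR m) (hP : io P ∈ UU d u) :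
    P.support ⊆ (Finset.range d).biUnion (fun k => (u k).support) := by
  intro M hM
  by_contra hcon
  obtain ⟨c, θ, hc, h1⟩ := GL07_clear u P hP
  have h2 := congrArg (coeff M) h1
  rw [coeff_C_mul, coeff_sum, Finset.sum_eq_zero] at h2
  · exact (mem_support_iff.1 hM) ((mul_eq_zero.1 h2).resolve_left hc)
  · intro k hk
    rw [coeff_C_mul]
    have h3 : coeff M (u k) = 0 := by
      by_contra h4
      exact hcon (Finset.mem_biUnion.2 ⟨k, hk, mem_support_iff.2 h4⟩)
    rw [h3, mul_zero]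

/-- the elements of `CR m` in `UU` -/
def GL07_N {m : ℕ} (d : ℕ) (u : ℕ → CR m) : Submodule (CA m) (CR m) where
  carrier := {P | io P ∈ UU d u}
  zero_mem' := by
    rw [Set.mem_setOf_eq, map_zero]
    exact Submodule.zero_mem _
  add_mem' := by
    intro P Q hP hQ
    rw [Set.mem_setOf_eq] at hP hQ ⊢
    rw [map_add]
    exact Submodule.add_mem _ hP hQ
  smul_mem' := by
    intro c P hP
    rw [Set.mem_setOf_eq] at hP ⊢
    rw [V13_smul]
    exact Submodule.smul_of_tower_mem _ c hP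

theorem GL07_fg {m d : ℕ} (u : ℕ → CR m) : (GL07_N d u).FG := by
  classical
  refine Submodule.FG.of_le (T := Submodule.span (CA m)
    (((Finset.range d).biUnion (fun k => (u k).support)).image
      (fun M => (monomial M (1 : CA m) : CR m)) : Set (CR m))) ⟨_, rfl⟩ ?_
  intro P hP
  rw [P.as_sum]
  refine Submodule.sum_mem _ fun M hM => ?_
  have h1 : (monomial M (coeff M P) : CR m) = coeff M P • monomial M 1 := by
    rw [smul_monomial, smul_eq_mul, mul_one]
  rw [h1]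
  refine Submodule.smul_mem _ _ (Submodule.subset_span ?_)
  exact Finset.mem_coe.2 (Finset.mem_image_of_mem _ (GL07_supp u P hP hM))

/-- the elements cleared by `Δ` -/
def GL07_G {m : ℕ} (d : ℕ) (u : ℕ → CR m) (Δ : CA m) : Submodule (CA m) (CR m) where
  carrier := {P | ∃ θ : ℕ → CA m, C Δ * P = ∑ l ∈ Finset.range d, C (θ l) * u l}
  zero_mem' := ⟨fun _ => 0, by
    rw [mul_zero, Finset.sum_eq_zero]
    intro k _
    rw [C_0, zero_mul]⟩
  add_mem' := by
    rintro P Q ⟨θ, hP⟩ ⟨η, hQ⟩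
    refine ⟨fun l => θ l + η l, ?_⟩
    rw [mul_add, hP, hQ, ← Finset.sum_add_distrib]
    refine Finset.sum_congr rfl fun k _ => ?_
    rw [C_add, add_mul]
  smul_mem' := by
    rintro c P ⟨θ, hP⟩
    refine ⟨fun l => c * θ l, ?_⟩
    rw [mul_smul_comm, hP, smul_eq_C_mul, Finset.mul_sum]
    refine Finset.sum_congr rfl fun k _ => ?_
    rw [C_mul, mul_assoc]

/-- CRAMER: one common denominator. -/
theorem GL07 {m d : ℕ} (u : ℕ → CR m) (hli : LinearIndependent (CA m) (fun k : Fin d => u k)) :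
    ∃ Δ : CA m, Δ ≠ 0 ∧ ∀ P : CR m, io P ∈ UU d u →
      ∃ θ : ℕ → CA m, C Δ * P = ∑ l ∈ Finset.range d, C (θ l) * u l := by
  classical
  obtain ⟨S, hS⟩ := GL07_fg (d := d) u
  have hx : ∀ P : CR m, ∃ c : CA m, c ≠ 0 ∧ (P ∈ GL07_N d u →
      ∃ θ : ℕ → CA m, C c * P = ∑ l ∈ Finset.range d, C (θ l) * u l) := by
    intro P
    by_cases hP : P ∈ GL07_N d u
    · obtain ⟨c, θ, hc, h1⟩ := GL07_clear u P hP
      exact ⟨c, hc, fun _ => ⟨θ, h1⟩⟩
    · exact ⟨1, one_ne_zero, fun h => absurd h hP⟩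
  choose c hc hθ using hx
  refine ⟨∏ P ∈ S, c P, Finset.prod_ne_zero_iff.2 (fun P _ => hc P), ?_⟩
  have hle : GL07_N d u ≤ GL07_G d u (∏ P ∈ S, c P) := by
    rw [← hS, Submodule.span_le]
    intro P hP
    obtain ⟨θ, h1⟩ := hθ P (by rw [← hS]; exact Submodule.subset_span hP)
    refine ⟨fun l => (∏ Q ∈ S.erase P, c Q) * θ l, ?_⟩
    rw [← Finset.prod_erase_mul S c (Finset.mem_coe.1 hP), C_mul, mul_assoc, h1, Finset.mul_sum]
    refine Finset.sum_congr rfl fun k _ => ?_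
    rw [C_mul, mul_assoc]
  intro P hP
  exact hle hP

end Pool.Agent.DAng
end

section

set_option autoImplicit false

namespace Pool.Agent.DAng

open MvPolynomial

/-- `D_i` maps `FA` to itself. PROOF. `Submodule.span_induction`: generators: `gam_Db` (value `0`); sums `Dt_add`; `Dt_zero`; `a • P = C a * P` (`smul_eq_C_mul`), `Dt_mul`, `Dt_C`:
`D (C a * P) = C (∂a) * P + C a * D P` with `P ∈ FA` and `D P ∈ FA` (use the induction with the extra statement `P ∈ FA`: `Submodule.span_induction` gives the membership). -/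
theorem V06_FA {m N d : ℕ} (F : Option (Fin N) → MvPolynomial (Fin (m + 1)) ℂ) (i : Fin m) (P : CR m)
    (hP : P ∈ FA d F) :
    Dt (pderiv (Sum.inr i) : Derivation ℂ (CA m) (CA m)) (xi i) x1 P ∈ FA d F := by
  unfold FA at hP ⊢
  induction hP using Submodule.span_induction with
  | mem x hx =>
    obtain ⟨j, rfl⟩ := hx
    simp only [gam_Db]
    exact Submodule.zero_mem _
  | zero => rw [Dt_zero]; exact Submodule.zero_mem _
  | add x y hx hy ihx ihy => rw [Dt_add]; exact Submodule.add_mem _ ihx ihy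
  | smul a x hx ih =>
    rw [smul_eq_C_mul, Dt_mul, Dt_C, ← smul_eq_C_mul, ← smul_eq_C_mul]
    exact Submodule.add_mem _ (Submodule.smul_mem _ _ hx) (Submodule.smul_mem _ _ ih)

theorem V06_pow {m : ℕ} (i : Fin m) (o : ℕ) :
    Dt (pderiv (Sum.inr i) : Derivation ℂ (CA m) (CA m)) (xi i) x1 (X x1 ^ (o + 1) : CR m) =
      ((o + 1 : ℕ) : CR m) * X x1 ^ o * X (xi i) := by
  induction o with
  | zero =>
    rw [zero_add, pow_one, Dt_X, if_pos rfl, pow_zero]
    simp
  | succ o ih =>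
    rw [pow_succ, Dt_mul, ih, Dt_X, if_pos rfl]
    push_cast
    ring

/-- THE MULTIPLE DERIVATIVE. If `P = X_0 p + X_1^o g ∈ FA` then `X^γ * kap g ∈ kap(FA)` for all `γ` of degree `o`.
PROOF. Induction on `o`, for all `P, p, g, γ`. `o = 0`: `γ = 0`, `kap P = kap g` (`kap_X0`). Step `o + 1`: `γ.degree = o + 1`, so `γ = γ' + single i 1` for some `i`, `γ'.degree = o`. Let
`D = Dt (pderiv (inr i)) (xi i) x1`. `D X_0 = 0`, `D X_1 = X_i := X (xi i)` (`Dt_X`; `x0 ≠ x1`), so by `Dt_mul`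
`D P = X_0 D p + X_1^o ((o+1) X_i g + X_1 D g)` (first show `D (X_1^{o+1}) = (o+1) X_1^o X_i` by induction), and `D P ∈ FA` by `V06_FA`. The induction hypothesis for `γ'` and
`g₁ = (o+1) X_i g + X_1 D g`, `kap g₁ = (o+1) X i * kap g` (`kap_X1`, `kap_xi`) gives `(o+1) * (monomial γ 1 * kap g) ∈ kap(FA)`; divide by `o + 1` (multiply by the scalar `C (1/(o+1)) : CA m`). -/
theorem V06 {m N d : ℕ} (F : Option (Fin N) → MvPolynomial (Fin (m + 1)) ℂ) (o : ℕ) :
    ∀ (P p g : CR m), P ∈ FA d F → P = X x0 * p + X x1 ^ o * g →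
      ∀ γ : Fin m →₀ ℕ, γ.degree = o →
        monomial γ 1 * kap g ∈ (FA d F).map (kap (m := m) (B := CA m)).toLinearMap := by
  induction o with
  | zero =>
    intro P p g hP hPe γ hγ
    have hγ0 : γ = 0 := by
      rwa [Finsupp.degree_eq_zero_iff] at hγ
    refine ⟨P, hP, ?_⟩
    rw [AlgHom.toLinearMap_apply, hPe, map_add, map_mul, kap_X0, zero_mul, zero_add, pow_zero,
      one_mul, hγ0]
    have h1 : (monomial (0 : Fin m →₀ ℕ) (1 : CA m)) = 1 := rfl
    rw [h1, one_mul]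
  | succ o ih =>
    intro P p g hP hPe γ hγ
    have hne : γ ≠ 0 := by
      rintro rfl
      simp at hγ
    obtain ⟨i, hi⟩ := Finsupp.ne_iff.1 hne
    have hi1 : 1 ≤ γ i := by
      have : γ i ≠ 0 := by simpa using hi
      omega
    have hle : Finsupp.single i 1 ≤ γ := by
      rwa [Finsupp.single_le_iff]
    obtain ⟨γ', rfl⟩ : ∃ γ', γ = γ' + Finsupp.single i 1 :=
      ⟨γ - Finsupp.single i 1, (tsub_add_cancel_of_le hle).symm⟩
    have hγ' : γ'.degree = o := by
      rw [map_add, Finsupp.degree_single] at hγ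
      omega
    set D : CR m → CR m := Dt (pderiv (Sum.inr i) : Derivation ℂ (CA m) (CA m)) (xi i) x1 with hD
    have hDP : D P ∈ FA d F := V06_FA F i P hP
    have hDe : D P = X x0 * D p + X x1 ^ o * (((o + 1 : ℕ) : CR m) * X (xi i) * g + X x1 * D g) := by
      rw [hPe, hD]
      rw [Dt_add, Dt_mul, Dt_mul, V06_pow, Dt_X, if_neg H4_x0_x1]
      ring
    have h2 := ih (D P) (D p) _ hDP hDe γ' hγ'
    have h3 : kap (((o + 1 : ℕ) : CR m) * X (xi i) * g + X x1 * D g) =
        ((o + 1 : ℕ) : MvPolynomial (Fin m) (CA m)) * X i * kap g := by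
      rw [map_add, map_mul, map_mul, map_mul, kap_X1, kap_xi, map_natCast, zero_mul, add_zero]
    rw [h3] at h2
    have h4 : monomial (γ' + Finsupp.single i 1) (1 : CA m) * kap g =
        (C (((o + 1 : ℕ) : ℂ)⁻¹) : CA m) • (monomial γ' (1 : CA m) *
          (((o + 1 : ℕ) : MvPolynomial (Fin m) (CA m)) * X i * kap g)) := by
      have h5 : (monomial (γ' + Finsupp.single i 1) (1 : CA m)) =
          monomial γ' (1 : CA m) * X i := by
        rw [X, monomial_mul, one_mul]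
      have h6 : ((o + 1 : ℕ) : MvPolynomial (Fin m) (CA m)) = C ((C (((o + 1 : ℕ) : ℂ)) : CA m)) := by
        rw [map_natCast, map_natCast]
      have h7 : (C ((C (((o + 1 : ℕ) : ℂ)⁻¹) : CA m)) : MvPolynomial (Fin m) (CA m)) *
          C ((C (((o + 1 : ℕ) : ℂ)) : CA m)) = 1 := by
        rw [← C_mul, ← C_mul, inv_mul_cancel₀ (by exact_mod_cast Nat.succ_ne_zero o), C_1, C_1]
      rw [smul_eq_C_mul, h5, h6]
      calc monomial γ' (1 : CA m) * X i * kap g = 1 * (monomial γ' (1 : CA m) * X i * kap g) := by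
            rw [one_mul]
        _ = _ := by rw [← h7]; ring
    rw [h4]
    exact Submodule.smul_mem _ _ h2

end Pool.Agent.DAng
end

section

set_option autoImplicit false

namespace Pool.Agent.DAng

open MvPolynomial

/-- PROOF. `∑_{k<d} C (θ k) * Pik (k+1) ∈ FA`: unfold `Pik`, `C (θ k) * C (..) * gam F_j = (..) • gam F_j`. -/
theorem V08_FA {m N d : ℕ} (F : Option (Fin N) → MvPolynomial (Fin (m + 1)) ℂ) (θ : ℕ → CA m) :
    ∑ k ∈ Finset.range d, C (θ k) * Pik m d F (k + 1) ∈ FA d F := by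
  refine Submodule.sum_mem _ fun k _ => ?_
  rw [← smul_eq_C_mul]
  refine Submodule.smul_mem _ _ ?_
  unfold Pik
  refine Submodule.sum_mem _ fun j _ => ?_
  rw [← smul_eq_C_mul]
  exact Submodule.smul_mem _ _ (Submodule.subset_span ⟨j, rfl⟩)

theorem V08_e0_C {m : ℕ} {B : Type} [CommRing B] (c : B) :
    e0 (C c : MvPolynomial (Sg m) B) = C c := by
  unfold e0
  rw [aeval_C]
  rfl

theorem V08_kap_C {m : ℕ} {B : Type} [CommRing B] (c : B) :
    kap (C c : MvPolynomial (Sg m) B) = C c := by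
  unfold kap
  rw [aeval_C]
  rfl

theorem V08_io_smul {m : ℕ} {σ : Type} (a : CA m) (R : MvPolynomial σ (CA m)) :
    io (a • R) = algebraMap (CA m) (KA m) a • io R := by
  rw [smul_eq_C_mul, map_mul, io_C, smul_eq_C_mul]

theorem V08_io_mon {m : ℕ} (γ : Fin m →₀ ℕ) :
    io (monomial γ 1 : MvPolynomial (Fin m) (CA m)) = monomial γ 1 := by
  unfold io
  rw [map_monomial, map_one]

/-- PROOF. `FA` is the `CA m`-span of the `gam F_j`; `kap` and `io` are compatible with scalars (`io (C c * P) = C (algebraMap c) * io P`), `io_kap`.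
`Submodule.span_induction`. -/
theorem V08_io {m N d : ℕ} (F : Option (Fin N) → MvPolynomial (Fin (m + 1)) ℂ)
    (P : MvPolynomial (Fin m) (CA m)) (hP : P ∈ (FA d F).map (kap (m := m) (B := CA m)).toLinearMap) :
    io P ∈ FF d F := by
  obtain ⟨Q, hQ, rfl⟩ := Submodule.mem_map.1 hP
  show io (kap Q) ∈ FF d F
  unfold FA at hQ
  induction hQ using Submodule.span_induction with
  | mem x hx =>
    obtain ⟨j, rfl⟩ := hx
    rw [← io_kap]
    exact Submodule.subset_span ⟨j, rfl⟩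
  | zero =>
    rw [map_zero, map_zero]
    exact Submodule.zero_mem _
  | add x y hx hy h1 h2 =>
    have h3 : x ∈ FA d F := hx
    have h4 : y ∈ FA d F := hy
    rw [map_add, map_add]
    exact Submodule.add_mem _ (h1 (Submodule.mem_map_of_mem h3)) (h2 (Submodule.mem_map_of_mem h4))
  | smul a x hx h1 =>
    have h3 : x ∈ FA d F := hx
    rw [map_smul, V08_io_smul]
    exact Submodule.smul_mem _ _ (h1 (Submodule.mem_map_of_mem h3))

/-- `X^γ * H_k ⊆ FF` for all `γ` of degree `k + 1`.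
PROOF. `h = kap g` with `X_1^k g = e0 f`, `f ∈ UU`. By `V07_span` and `V07_poly` (multiply the two constants) there are `c ≠ 0`, `θ`, `g'` with `c f = io f'`, `f' = ∑_{k<d} C (θ k) u_k`,
`c g = io g'` (replace `θ` by a multiple). Then `io (e0 f') = e0 (io f') = c e0 f = X_1^k c g = io (X_1^k g')` so `e0 f' = X_1^k g'` (`io_inj`), and `f' = X_0 q + e0 f'` (`e0_decomp`).
By `IsQuot`: `P := ∑_{k<d} C (θ k) Pik (k+1) = X_0 (∑ C (θ k) u_{k+1}) + X_1 f' = X_0 (..) + X_1^{k+1} g'`. `V08_FA`, `V06` (with `o = k+1`) and `V08_io`: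
`io (monomial γ 1 * kap g') = monomial γ 1 * kap (io g') = c * (monomial γ 1 * h) ∈ FF`; divide by `algebraMap c ≠ 0`. -/
theorem V08 {m N d : ℕ} (F : Option (Fin N) → MvPolynomial (Fin (m + 1)) ℂ) (u : ℕ → CR m)
    (hu : IsQuot m d F u) (k : ℕ) (h : MvPolynomial (Fin m) (KA m)) (hh : h ∈ Hb (UU d u) k)
    (γ : Fin m →₀ ℕ) (hγ : γ.degree = k + 1) : monomial γ 1 * h ∈ FF d F := by
  obtain ⟨g, hg, rfl⟩ := Submodule.mem_map.1 hh
  obtain ⟨f, hf, hfg⟩ := Submodule.mem_map.1 (Submodule.mem_comap.1 hg)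
  have hfg' : e0 f = X x1 ^ k * g := hfg
  obtain ⟨c1, θ, hc1, h1⟩ := V07_span u f hf
  obtain ⟨c2, g', hc2, h2⟩ := V07_poly g
  obtain ⟨f', hf'⟩ : ∃ f', f' = ∑ j ∈ Finset.range d, C (c2 * θ j) * u j := ⟨_, rfl⟩
  have hf2 : f' = C c2 * ∑ j ∈ Finset.range d, C (θ j) * u j := by
    rw [hf', Finset.mul_sum]
    refine Finset.sum_congr rfl fun j _ => ?_
    rw [C_mul, mul_assoc]
  obtain ⟨cc, hcc⟩ : ∃ cc : MvPolynomial (Sg m) (KA m),
    cc = C (algebraMap (CA m) (KA m) (c1 * c2)) := ⟨_, rfl⟩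
  have h3 : cc * f = io f' := by
    rw [hf2, map_mul, ← h1, io_C, hcc, map_mul, C_mul]
    ring
  have h4 : cc * g = io (C c1 * g') := by
    rw [map_mul, ← h2, io_C, hcc, map_mul, C_mul]
    ring
  have h5 : e0 f' = X x1 ^ k * (C c1 * g') := by
    apply io_inj
    rw [← io_e0, ← h3, map_mul, hfg', map_mul, ← h4, map_pow, io_X, hcc, V08_e0_C]
    ring
  obtain ⟨q, hq⟩ := e0_decomp f'
  rw [h5] at hq
  have h6 : ∑ j ∈ Finset.range d, C (c2 * θ j) * Pik m d F (j + 1) =
      X x0 * (∑ j ∈ Finset.range d, C (c2 * θ j) * u (j + 1) + X x1 * q) +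
        X x1 ^ (k + 1) * (C c1 * g') := by
    have h7 : ∑ j ∈ Finset.range d, C (c2 * θ j) * Pik m d F (j + 1) =
        X x0 * (∑ j ∈ Finset.range d, C (c2 * θ j) * u (j + 1)) + X x1 * f' := by
      rw [hf', Finset.mul_sum, Finset.mul_sum, ← Finset.sum_add_distrib]
      refine Finset.sum_congr rfl fun j _ => ?_
      rw [hu.2.2 j]
      ring
    rw [h7]
    linear_combination (X x1 : CR m) * hq
  have h8 := V08_io F _ (V06 F (k + 1) _ _ _ (V08_FA F fun j => c2 * θ j) h6 γ hγ)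
  have h9 : io (monomial γ 1 * kap (C c1 * g')) =
      (algebraMap (CA m) (KA m) (c1 * c2)) • (monomial γ 1 * kap g) := by
    rw [map_mul, V08_io_mon, ← io_kap, ← h4, map_mul, hcc, V08_kap_C, smul_eq_C_mul]
    ring
  rw [h9] at h8
  have h10 : algebraMap (CA m) (KA m) (c1 * c2) ≠ 0 := by
    rw [Ne, map_eq_zero_iff _ (IsFractionRing.injective (CA m) (KA m))]
    exact mul_ne_zero hc1 hc2
  exact ((FF d F).smul_mem_iff h10).1 h8

end Pool.Agent.DAng
end

section

set_option autoImplicit false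

namespace Pool.Agent.DAng

open MvPolynomial

theorem GL05_nei1 {m : ℕ} (i : Fin m) : (xi i : Sg m) ≠ x1 := by
  unfold x1 xi
  intro h
  have h1 := toLex.injective h
  simp at h1

theorem GL05_smul {m : ℕ} (W : Submodule (KA m) (MvPolynomial (Sg m) (KA m))) (a : CA m) (P : CR m)
    (h : io P ∈ W) : io (C a * P) ∈ W := by
  rw [map_mul, io_C, ← smul_eq_C_mul]
  exact Submodule.smul_mem _ _ h

theorem GL05_div {m : ℕ} (W : Submodule (KA m) (MvPolynomial (Sg m) (KA m))) (a : CA m) (ha : a ≠ 0)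
    (P : CR m) (h : io (C a * P) ∈ W) : io P ∈ W := by
  rw [map_mul, io_C, ← smul_eq_C_mul] at h
  have ha' : algebraMap (CA m) (KA m) a ≠ 0 := by
    intro h0
    apply ha
    apply IsFractionRing.injective (CA m) (KA m)
    rw [h0, map_zero]
  have h2 := Submodule.smul_mem W (algebraMap (CA m) (KA m) a)⁻¹ h
  rwa [smul_smul, inv_mul_cancel₀ ha', one_smul] at h2

/-- PROOF. `H9` and `C5` with `i = xi i`, `s0 = x0`, `s1 = x1`, `α = pderiv (inl i)`, `β = pderiv (inr i)`, applied to `C c * H` and `θ` from `hC.rel`: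
`2 X_i (cH) + X_0 D^a(cH) + X_1 D^b(cH) = ∑ C(..) u_k`, so its image under `io` is in `UU d u` (`V14_mem`). `D^a (C c * H) = C (α c) * H + C c * D^a H` (`Dt_mul`, `Dt_C`), same for `D^b`.
`io (X_0 H) ∈ UU`, `io (X_1 H) ∈ UU` (`hC.P`); so `C c * (2 X_i H + X_0 D^a H + X_1 D^b H)` has image in `UU`; the image of `C c` is the scalar `algebraMap c ≠ 0`: divide. -/
theorem GL05_0 {m N d : ℕ} (F : Option (Fin N) → MvPolynomial (Fin (m + 1)) ℂ) (u : ℕ → CR m)
    (hC : Ctx d F u) (i : Fin m) (H : CR m) (hH : X x0 * io H ∈ UU d u) :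
    io (2 * X (xi i) * H +
      X x0 * Dt (pderiv (Sum.inl i) : Derivation ℂ (CA m) (CA m)) (xi i) x0 H +
      X x1 * Dt (pderiv (Sum.inr i) : Derivation ℂ (CA m) (CA m)) (xi i) x1 H) ∈ UU d u := by
  obtain ⟨c, θ, hc, h1, h2⟩ := hC.rel H hH
  obtain ⟨hD0, hD⟩ := H9 F u hC.quot i
  have hid := C5 (pderiv (Sum.inl i) : Derivation ℂ (CA m) (CA m))
    (pderiv (Sum.inr i) : Derivation ℂ (CA m) (CA m)) (xi i) (x0 : Sg m) x1 V01_ne10.symm
    (V01_nei0 i) (GL05_nei1 i) d u hC.quot.1 hD0 hD θ (C c * H) h1 h2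
  have hm := V14_mem (d := d) u (fun k =>
    (pderiv (Sum.inr i) : Derivation ℂ (CA m) (CA m)) (θ k) -
      (pderiv (Sum.inl i) : Derivation ℂ (CA m) (CA m)) (θ (k + 1)))
  rw [← hid, Dt_mul, Dt_mul, Dt_C, Dt_C] at hm
  have h0 : io (X x0 * H) ∈ UU d u := by
    rw [map_mul, io_X]
    exact hH
  have h1' : io (X x1 * H) ∈ UU d u := by
    rw [map_mul, io_X]
    exact hC.P _ hH
  apply GL05_div _ c hc
  have e : C c * (2 * X (xi i) * H +
      X x0 * Dt (pderiv (Sum.inl i) : Derivation ℂ (CA m) (CA m)) (xi i) x0 H +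
      X x1 * Dt (pderiv (Sum.inr i) : Derivation ℂ (CA m) (CA m)) (xi i) x1 H) =
      (2 * X (xi i) * (C c * H) +
        X x0 * (C ((pderiv (Sum.inl i) : Derivation ℂ (CA m) (CA m)) c) * H +
          C c * Dt (pderiv (Sum.inl i) : Derivation ℂ (CA m) (CA m)) (xi i) x0 H) +
        X x1 * (C ((pderiv (Sum.inr i) : Derivation ℂ (CA m) (CA m)) c) * H +
          C c * Dt (pderiv (Sum.inr i) : Derivation ℂ (CA m) (CA m)) (xi i) x1 H)) -
      (C ((pderiv (Sum.inl i) : Derivation ℂ (CA m) (CA m)) c) * (X x0 * H) +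
        C ((pderiv (Sum.inr i) : Derivation ℂ (CA m) (CA m)) c) * (X x1 * H)) := by
    ring
  rw [e, map_sub, map_add io (C _ * (X x0 * H))]
  exact Submodule.sub_mem _ hm
    (Submodule.add_mem _ (GL05_smul _ _ _ h0) (GL05_smul _ _ _ h1'))

theorem GL05_pow {m : ℕ} (i : Fin m) (k : ℕ) :
    X x0 * Dt (pderiv (Sum.inl i) : Derivation ℂ (CA m) (CA m)) (xi i) x0 (X x0 ^ k : CR m) =
      (k : CR m) * X x0 ^ k * X (xi i) := by
  induction k with
  | zero =>
    have h : (X x0 ^ 0 : CR m) = C 1 := by rw [pow_zero, C_1]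
    rw [h, Dt_C, Derivation.map_one_eq_zero, C_0, mul_zero, Nat.cast_zero, zero_mul, zero_mul]
  | succ k ih =>
    rw [pow_succ, Dt_mul, Dt_X, if_pos rfl, mul_add, ← mul_assoc, ih]
    push_cast
    ring

theorem GL05_pow1 {m : ℕ} (i : Fin m) (k : ℕ) :
    Dt (pderiv (Sum.inr i) : Derivation ℂ (CA m) (CA m)) (xi i) x1 (X x0 ^ k : CR m) = 0 := by
  induction k with
  | zero =>
    have h : (X x0 ^ 0 : CR m) = C 1 := by rw [pow_zero, C_1]
    rw [h, Dt_C, Derivation.map_one_eq_zero, C_0]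
  | succ k ih =>
    rw [pow_succ, Dt_mul, Dt_X, if_neg V01_ne10.symm, ih, zero_mul, mul_zero, add_zero]

/-- THE DERIVED ELEMENT. PROOF. `Uk U k = {f | X_0^k f ∈ U}`. `GL05_0` for `X x0 ^ k * H` (`X_0 * io (X_0^k H) = X_0^{k+1} io H ∈ U`); by `Dt_mul` and
`Dt (pderiv (inl i)) (xi i) x0 (X x0 ^ k) = k X_0^{k-1} X_i` (induction on `k`, compare `V06_pow`; `Dt_X`) and `Dt (pderiv (inr i)) (xi i) x1 (X x0 ^ k) = 0` (`x0 ≠ x1`) the element is
`X x0 ^ k * HH i k H`. -/
theorem GL05 {m N d : ℕ} (F : Option (Fin N) → MvPolynomial (Fin (m + 1)) ℂ) (u : ℕ → CR m)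
    (hC : Ctx d F u) (i : Fin m) (k : ℕ) (H : CR m) (hH : io H ∈ Uk (UU d u) (k + 1)) :
    io (HH i k H) ∈ Uk (UU d u) k := by
  unfold Uk at hH ⊢
  rw [Submodule.mem_comap, LinearMap.mulLeft_apply] at hH ⊢
  have h0 : X x0 * io (X x0 ^ k * H) ∈ UU d u := by
    rw [map_mul, map_pow, io_X, ← mul_assoc, ← pow_succ']
    exact hH
  have h := GL05_0 F u hC i (X x0 ^ k * H) h0
  have e : (2 * X (xi i) * (X x0 ^ k * H) +
      X x0 * Dt (pderiv (Sum.inl i) : Derivation ℂ (CA m) (CA m)) (xi i) x0 (X x0 ^ k * H) +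
      X x1 * Dt (pderiv (Sum.inr i) : Derivation ℂ (CA m) (CA m)) (xi i) x1 (X x0 ^ k * H)) =
      X x0 ^ k * HH i k H := by
    rw [Dt_mul, Dt_mul, GL05_pow1, zero_mul, zero_add, mul_add (X x0), ← mul_assoc (X x0) (Dt _ _ _ _) H,
      GL05_pow]
    unfold HH
    push_cast
    ring
  rw [e, map_mul, map_pow, io_X] at h
  exact h

end Pool.Agent.DAng
end

section

set_option autoImplicit false

namespace Pool.Agent.DAng

open MvPolynomial

/-- PROOF. `∑_j C (C (sg j) * vec j) * gam (F j) = ∑_l C (θ l) * Pik (l+1)` (exchange the sums; definition of `Pik`) and `Pik (l+1) = X_0 u_{l+1} + X_1 u_l` (`hu.2.2`). -/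
theorem GL08 {m N d : ℕ} (F : Option (Fin N) → MvPolynomial (Fin (m + 1)) ℂ) (u : ℕ → CR m)
    (hu : IsQuot m d F u) (θ : ℕ → CA m) :
    ∑ j, C (C (sg j) * vec d F θ j) * gam m d (F j) =
      X x0 * (∑ l ∈ Finset.range d, C (θ l) * u (l + 1)) +
      X x1 * ∑ l ∈ Finset.range d, C (θ l) * u l := by
  have h1 : ∑ j, C (C (sg j) * vec d F θ j) * gam m d (F j) =
      ∑ l ∈ Finset.range d, C (θ l) * Pik m d F (l + 1) := by
    unfold vec Pik
    have h2 : ∀ j : Option (Fin N), C (C (sg j) * ∑ l ∈ Finset.range d,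
        θ l * (phi m (F j)).coeff (l + 1)) * gam m d (F j) =
        ∑ l ∈ Finset.range d, C (θ l) * (C (C (sg j) * (phi m (F j)).coeff (l + 1)) *
          gam m d (F j)) := by
      intro j
      rw [Finset.mul_sum, map_sum, Finset.sum_mul]
      refine Finset.sum_congr rfl fun l _ => ?_
      rw [← mul_assoc (C (θ l)), ← C_mul]
      congr 2
      ring
    rw [Finset.sum_congr rfl fun j _ => h2 j, Finset.sum_comm]
    refine Finset.sum_congr rfl fun l _ => ?_
    rw [Finset.mul_sum]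
  rw [h1, Finset.mul_sum, Finset.mul_sum, ← Finset.sum_add_distrib]
  refine Finset.sum_congr rfl fun l _ => ?_
  rw [hu.2.2 l]
  ring

/-- THE DERIVATIVE OF THE VECTOR. PROOF. Write `D = Dt (pderiv (inr i)) (xi i) x1`. Apply `D` to `GL08` for `θ` with `h1`: left side `∑_j C (C (sg j) * pderiv (inr i) (vec j)) * gam (F j)` (`Dt_sum`, `Dt_mul`,
`Dt_C`, `gam_Db`, compare `H9_P`); right side: `D (X_0 A + X_1^{k+2} H) = X_0 D A + (k+2) X_1^{k+1} X_i H + X_1^{k+2} D H` (`Dt_add`, `Dt_mul`, `Dt_X` with `x0 ≠ x1`, `V06_pow`-like power rule).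
`GL08` for `θ'` with `h2`: `X_0 A' + X_1^{k+1} * C Δ * HH i k H`, and `HH i k H = (k+2) X_i H + X_0 (..) + X_1 D H`. Multiply the first identity by `C Δ` and subtract: a multiple of `X_0`. -/
theorem GL08_D {m N d : ℕ} (F : Option (Fin N) → MvPolynomial (Fin (m + 1)) ℂ) (u : ℕ → CR m)
    (hu : IsQuot m d F u) (θ θ' : ℕ → CA m) (k : ℕ) (H : CR m) (i : Fin m) (Δ : CA m)
    (h1 : ∑ l ∈ Finset.range d, C (θ l) * u l = X x1 ^ (k + 1) * H)
    (h2 : C Δ * (X x1 ^ k * HH i k H) = ∑ l ∈ Finset.range d, C (θ' l) * u l) :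
    ∃ Q : CR m, ∑ j, C (C (sg j) * (Δ * pderiv (Sum.inr i) (vec d F θ j) - vec d F θ' j)) *
      gam m d (F j) = X x0 * Q := by
  set D : CR m → CR m := Dt (pderiv (Sum.inr i) : Derivation ℂ (CA m) (CA m)) (xi i) x1 with hD
  have g1 := GL08 F u hu θ
  have g2 := GL08 F u hu θ'
  rw [h1] at g1
  rw [← h2] at g2
  set A : CR m := ∑ l ∈ Finset.range d, C (θ l) * u (l + 1) with hA
  set A' : CR m := ∑ l ∈ Finset.range d, C (θ' l) * u (l + 1) with hA'
  have g3 : ∑ j, C (C (sg j) * pderiv (Sum.inr i) (vec d F θ j)) * gam m d (F j) =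
      X x0 * D A + X x1 ^ (k + 1) * (((k + 2 : ℕ) : CR m) * X (xi i) * H + X x1 * D H) := by
    have g4 := congrArg D g1
    have g5 : X x0 * A + X x1 * (X x1 ^ (k + 1) * H) = X x0 * A + X x1 ^ (k + 1 + 1) * H := by
      ring
    rw [g5] at g4
    have g6 : D (X x0 * A + X x1 ^ (k + 1 + 1) * H) =
        X x0 * D A + X x1 ^ (k + 1) * (((k + 2 : ℕ) : CR m) * X (xi i) * H + X x1 * D H) := by
      rw [hD, Dt_add, Dt_mul, Dt_mul, V06_pow, Dt_X, if_neg H4_x0_x1]
      ring
    rw [g6] at g4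
    rw [← g4, hD, Dt_sum]
    refine Finset.sum_congr rfl fun j _ => ?_
    rw [Dt_mul, gam_Db, mul_zero, add_zero, Dt_C, pderiv_C_mul]
  refine ⟨C Δ * D A - A' - X x1 ^ (k + 1) * C Δ *
    Dt (pderiv (Sum.inl i) : Derivation ℂ (CA m) (CA m)) (xi i) x0 H, ?_⟩
  have g7 : ∑ j, C (C (sg j) * (Δ * pderiv (Sum.inr i) (vec d F θ j) - vec d F θ' j)) *
      gam m d (F j) = C Δ * (∑ j, C (C (sg j) * pderiv (Sum.inr i) (vec d F θ j)) * gam m d (F j)) -
        ∑ j, C (C (sg j) * vec d F θ' j) * gam m d (F j) := by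
    rw [Finset.mul_sum, ← Finset.sum_sub_distrib]
    refine Finset.sum_congr rfl fun j _ => ?_
    simp only [C_mul, C_sub]
    ring
  rw [g7, g3, g2]
  unfold HH
  rw [← hD]
  ring

end Pool.Agent.DAng
end

section

set_option autoImplicit false

namespace Pool.Agent.DAng

open MvPolynomial

theorem GL12_la {m N M : ℕ} (s : Fin M → Option (Fin N) → ℂ)
    (x : Option (Fin N) → MvPolynomial (Fin m) ℂ) (l : Fin m) (a : Fin M) :
    pderiv l (la s x a) = -∑ j, C (sg j * (starRingEnd ℂ) (s a j)) * pderiv l (x j) := by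
  unfold la
  rw [map_neg, map_sum]
  congr 1
  exact Finset.sum_congr rfl fun j _ => pderiv_C_mul

/-- CLOSURE UNDER DERIVATIVES. PROOF. `x = la s (ps ∘ v)`, `v = vec d F θ`, `∑ θ u = X_1^{k+1} H`, `io H ∈ U_{k+1}`. If `l = i0` the derivative is `0` (`GL11_0`; `la` is a combination with constant
coefficients). Let `l ≠ i0`. For each `i`: `io (HH i k H) ∈ U_k` (`GL05`), so `X_1^k io (HH i k H) ∈ U` (`GL06_pow`), and `hΔ` for `P = X x1 ^ k * HH i k H` gives `θ'_i`; `v'_i = vec d F θ'_i ∈ WW k`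
(with `C Δ * HH i k H`, whose image is a scalar multiple of an element of `U_k`). `GL08_D` and `GL10`: `la s (ps ∘ (Δ ∂_i v)) = la s (ps ∘ v'_i)`. By `GL11`
`ps Δ • ∂_l x = ∑_i C (V i l) • la s (ps ∘ (Δ ∂_i v)) = ∑_i C (V i l) • la s (ps ∘ v'_i)`, in the span of `GW k`. -/
theorem GL12 {m N M d : ℕ} (F : Option (Fin N) → MvPolynomial (Fin (m + 1)) ℂ) (u : ℕ → CR m)
    (hC : Ctx d F u) (hF : ∀ j, (F j).totalDegree ≤ d) (V : Matrix (Fin m) (Fin m) ℂ) (i0 : Fin m)
    (s : Fin M → Option (Fin N) → ℂ) (hs : ∀ i, s i ∈ SS F V i0) (Δ : CA m)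
    (hΔ : ∀ P : CR m, io P ∈ UU d u →
      ∃ θ : ℕ → CA m, C Δ * P = ∑ l ∈ Finset.range d, C (θ l) * u l)
    (k : ℕ) (x : PV m M) (hx : x ∈ GW d F u V i0 s (k + 1)) (l : Fin m) :
    ps V i0 Δ • (fun a => pderiv l (x a)) ∈
      Submodule.span (MvPolynomial (Fin m) ℂ) (GW d F u V i0 s k) := by
  obtain ⟨v, ⟨θ, H, rfl, h1, hH⟩, rfl⟩ := hx
  by_cases hl : l = i0
  · have e : ps V i0 Δ • (fun a => pderiv l (la s (fun j => ps V i0 (vec d F θ j)) a)) =
        (0 : PV m M) := by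
      funext a
      rw [Pi.smul_apply, GL12_la, Pi.zero_apply]
      have e2 : ∑ j, C (sg j * (starRingEnd ℂ) (s a j)) * pderiv l (ps V i0 (vec d F θ j)) = 0 := by
        refine Finset.sum_eq_zero fun j _ => ?_
        rw [hl, GL11_0, mul_zero]
      rw [e2, neg_zero, smul_zero]
    rw [e]
    exact Submodule.zero_mem _
  · have h5 : ∀ i, io (HH i k H) ∈ Uk (UU d u) k := fun i => GL05 F u hC i k H hH
    have h6 : ∀ i, ∃ θ' : ℕ → CA m, C Δ * (X x1 ^ k * HH i k H) =
        ∑ l ∈ Finset.range d, C (θ' l) * u l := by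
      intro i
      apply hΔ
      rw [map_mul, map_pow, io_X]
      exact GL06_pow (UU d u) hC.P k _ (h5 i)
    choose θ' hθ' using h6
    have hmem : ∀ i, vec d F (θ' i) ∈ WW d F u k := by
      intro i
      refine ⟨θ' i, C Δ * HH i k H, rfl, ?_, ?_⟩
      · rw [← hθ' i]
        ring
      · rw [map_mul, io_C, ← smul_eq_C_mul]
        exact (Uk (UU d u) k).smul_mem _ (h5 i)
    have hz : ∀ i, la s (fun j => ps V i0 (Δ * pderiv (Sum.inr i) (vec d F θ j) -
        vec d F (θ' i) j)) = 0 := by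
      intro i
      obtain ⟨Q, hQ⟩ := GL08_D F u hC.quot θ (θ' i) k H i Δ h1 (hθ' i)
      exact GL10 F hF V i0 s hs (fun j => Δ * pderiv (Sum.inr i) (vec d F θ j) -
        vec d F (θ' i) j) Q hQ
    have e : ps V i0 Δ • (fun a => pderiv l (la s (fun j => ps V i0 (vec d F θ j)) a)) =
        ∑ i, (C (V i l) : MvPolynomial (Fin m) ℂ) • la s (fun j => ps V i0 (vec d F (θ' i) j)) := by
      funext a
      rw [Finset.sum_apply]
      have hza : ∀ i, ∑ j, C (sg j * (starRingEnd ℂ) (s a j)) * ps V i0 (vec d F (θ' i) j) =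
          ps V i0 Δ * ∑ j, C (sg j * (starRingEnd ℂ) (s a j)) *
            ps V i0 (pderiv (Sum.inr i) (vec d F θ j)) := by
        intro i
        have h := congrFun (hz i) a
        have h' : -∑ j, C (sg j * (starRingEnd ℂ) (s a j)) *
            ps V i0 (Δ * pderiv (Sum.inr i) (vec d F θ j) - vec d F (θ' i) j) = 0 := h
        rw [neg_eq_zero] at h'
        have h'' : ∑ j, C (sg j * (starRingEnd ℂ) (s a j)) *
            ps V i0 (Δ * pderiv (Sum.inr i) (vec d F θ j) - vec d F (θ' i) j) =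
            ps V i0 Δ * ∑ j, C (sg j * (starRingEnd ℂ) (s a j)) *
              ps V i0 (pderiv (Sum.inr i) (vec d F θ j)) -
            ∑ j, C (sg j * (starRingEnd ℂ) (s a j)) * ps V i0 (vec d F (θ' i) j) := by
          rw [Finset.mul_sum, ← Finset.sum_sub_distrib]
          refine Finset.sum_congr rfl fun j _ => ?_
          rw [map_sub, map_mul (ps V i0)]
          ring
        rw [h''] at h'
        exact (sub_eq_zero.mp h').symm
      rw [Pi.smul_apply, GL12_la, smul_eq_mul]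
      have e3 : ∀ i, ((C (V i l) : MvPolynomial (Fin m) ℂ) •
          la s (fun j => ps V i0 (vec d F (θ' i) j))) a =
          -(C (V i l) * (ps V i0 Δ * ∑ j, C (sg j * (starRingEnd ℂ) (s a j)) *
            ps V i0 (pderiv (Sum.inr i) (vec d F θ j)))) := by
        intro i
        rw [Pi.smul_apply, smul_eq_mul]
        show C (V i l) * (-∑ j, C (sg j * (starRingEnd ℂ) (s a j)) *
          ps V i0 (vec d F (θ' i) j)) = _
        rw [hza i, mul_neg]
      rw [Finset.sum_congr rfl fun i _ => e3 i, Finset.sum_neg_distrib, mul_neg]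
      congr 1
      have e4 : ∀ i, C (V i l) * (ps V i0 Δ * ∑ j, C (sg j * (starRingEnd ℂ) (s a j)) *
            ps V i0 (pderiv (Sum.inr i) (vec d F θ j))) =
          ps V i0 Δ * ∑ j, C (sg j * (starRingEnd ℂ) (s a j)) *
            (C (V i l) * ps V i0 (pderiv (Sum.inr i) (vec d F θ j))) := by
        intro i
        rw [Finset.mul_sum, Finset.mul_sum, Finset.mul_sum]
        refine Finset.sum_congr rfl fun j _ => ?_
        ring
      rw [Finset.sum_congr rfl fun i _ => e4 i, ← Finset.mul_sum, Finset.sum_comm]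
      congr 1
      refine Finset.sum_congr rfl fun j _ => ?_
      rw [← Finset.mul_sum, GL11 V i0 l hl]
    rw [e]
    refine Submodule.sum_mem _ fun i _ => Submodule.smul_mem _ _ (Submodule.subset_span ?_)
    exact ⟨vec d F (θ' i), hmem i, rfl⟩

end Pool.Agent.DAng
end
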