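import Pool.Agent.Lib.MP_e3689b_an.Mg.G002
import Pool.Agent.Lib.MP_e3689b_an.Mg.G003
import Pool.Agent.Lib.MP_e3689b_an.Mg.G005
import Pool.Agent.Lib.MP_e3689b_an.G2

section

set_option autoImplicit false

namespace Pool.Agent.DAng

open MvPolynomial

/-- ADAPTED GENERATORS OF `U_k`. PROOF. Basis of `(U_k).map e0`: `f i ∈ U_k`, `i < r`, with `e0 (f i)` linearly independent over `KA m` (`Module.finBasis`, choose preimages). `X_1^k f_i ∈ U`
(`GL06_pow`). `V07_poly`: `c_i f_i = io (H'_i)`, `V07_span`: `c'_i X_1^k f_i = io (∑ C θ u)`, `c_i, c'_i ≠ 0`. `H i = C c'_i * H'_i`, `θ i = c_i θ`: `io (∑ C (θ i l) u l) = io (X_1^k * H i)`, `io_inj`.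
`io (H i)` is a scalar multiple of `f_i`, so in `U_k`; `io (e0 (H i)) = e0 (io (H i))` (`io_e0`) is a nonzero scalar multiple of `e0 (f i)`: linearly independent (`LinearIndependent.units_smul`);
`GL20_minor` for `e0 (H i)`. -/
theorem GL20 {m N d : ℕ} (F : Option (Fin N) → MvPolynomial (Fin (m + 1)) ℂ) (u : ℕ → CR m)
    (hC : Ctx d F u) (k : ℕ) :
    ∃ (θ : Fin (Module.finrank (KA m) ((Uk (UU d u) k).map
        (e0 (m := m) (B := KA m)).toLinearMap)) → ℕ → CA m)
      (H : Fin (Module.finrank (KA m) ((Uk (UU d u) k).map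
        (e0 (m := m) (B := KA m)).toLinearMap)) → CR m) (Δ : CA m), Δ ≠ 0 ∧
      (∀ i, ∑ l ∈ Finset.range d, C (θ i l) * u l = X x1 ^ k * H i) ∧
      (∀ i, io (H i) ∈ Uk (UU d u) k) ∧
      ∀ ψ : CA m →+* MvPolynomial (Fin m) ℂ, ψ Δ ≠ 0 →
        LinearIndependent (MvPolynomial (Fin m) ℂ) (fun i => map ψ (e0 (H i))) := by
  classical
  have hfin : FiniteDimensional (KA m) (UU d u) := by
    unfold UU
    exact FiniteDimensional.span_of_finite (KA m) (Set.finite_range _)
  have hfinU : FiniteDimensional (KA m) (Uk (UU d u) k) := V03_fin (UU d u) k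
  let W := (Uk (UU d u) k).map (e0 (m := m) (B := KA m)).toLinearMap
  have hfinW : FiniteDimensional (KA m) W := inferInstance
  let b := Module.finBasis (KA m) W
  have hpre : ∀ i, ∃ f ∈ Uk (UU d u) k, e0 f = ((b i : W) : MvPolynomial (Sg m) (KA m)) := by
    intro i
    obtain ⟨f, hf, hfe⟩ := (b i).2
    exact ⟨f, hf, hfe⟩
  choose f hf hfe using hpre
  have hli : LinearIndependent (KA m) (fun i => e0 (f i)) := by
    have h1 : LinearIndependent (KA m) (fun i => ((b i : W) : MvPolynomial (Sg m) (KA m))) :=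
      b.linearIndependent.map' W.subtype (Submodule.ker_subtype W)
    have h2 : (fun i => e0 (f i)) = (fun i => ((b i : W) : MvPolynomial (Sg m) (KA m))) := by
      funext i
      exact hfe i
    rw [h2]
    exact h1
  choose c H' hc hH' using fun i => V07_poly (f i)
  choose c' θ hc' hθ using fun i => V07_span u (X x1 ^ k * f i) (GL06_pow (UU d u) hC.P k (f i) (hf i))
  have hioH : ∀ i, io (C (c' i) * H' i) =
      C (algebraMap (CA m) (KA m) (c' i * c i)) * f i := by
    intro i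
    rw [map_mul, io_C, ← hH' i, map_mul, C_mul, mul_assoc]
  have halg : ∀ i, algebraMap (CA m) (KA m) (c' i * c i) ≠ 0 := by
    intro i h
    exact (mul_ne_zero (hc' i) (hc i)) ((IsFractionRing.injective (CA m) (KA m)) (by rw [h, map_zero]))
  have hmin := GL20_minor (fun i => e0 (C (c' i) * H' i)) (by
    have h1 : (fun i => io (e0 (C (c' i) * H' i))) =
        (fun i => (Units.mk0 _ (halg i)) • e0 (f i)) := by
      funext i
      rw [← io_e0, hioH i, map_mul]
      rw [Units.smul_def, Units.val_mk0, smul_eq_C_mul]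
      congr 1
      exact AlgHom.commutes (e0 (m := m) (B := KA m)) _
    rw [h1]
    exact hli.units_smul (fun i => Units.mk0 _ (halg i)))
  obtain ⟨Δ, hΔ, hmin⟩ := hmin
  refine ⟨fun i l => c i * θ i l, fun i => C (c' i) * H' i, Δ, hΔ, ?_, ?_, hmin⟩
  · intro i
    apply io_inj
    have h1 : (∑ l ∈ Finset.range d, C (c i * θ i l) * u l) =
        C (c i) * ∑ l ∈ Finset.range d, C (θ i l) * u l := by
      rw [Finset.mul_sum]
      apply Finset.sum_congr rfl
      intro l _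
      rw [C_mul, mul_assoc]
    rw [h1, map_mul, ← hθ i, map_mul io (X x1 ^ k), hioH i, io_C, map_pow, io_X, map_mul, C_mul]
    ring
  · intro i
    rw [hioH i, ← smul_eq_C_mul]
    exact Submodule.smul_mem _ _ (hf i)

end Pool.Agent.DAng
end

section

set_option autoImplicit false

/-!
# Growth of sets of monomials, III: the final inequality
-/

namespace Pool.Agent.DAng

open Classical in
/-- all products of a monomial of `S` with `X_i X_j`, `i ≠ j`, both different from `i0` -/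
noncomputable def PQ {σ : Type*} [Fintype σ] (i0 : σ) (S : Finset (σ →₀ ℕ)) : Finset (σ →₀ ℕ) :=
  (Finset.univ.filter (fun p : σ × σ => p.1 ≠ p.2 ∧ p.1 ≠ i0 ∧ p.2 ≠ i0)).biUnion
    (fun p => S.image (fun M => M + Finsupp.single p.1 1 + Finsupp.single p.2 1))

theorem mem_PQ {σ : Type*} [Fintype σ] (i0 : σ) (S : Finset (σ →₀ ℕ)) (x : σ →₀ ℕ) :
    x ∈ PQ i0 S ↔ ∃ i j : σ, i ≠ j ∧ i ≠ i0 ∧ j ≠ i0 ∧ ∃ M ∈ S,
      M + Finsupp.single i 1 + Finsupp.single j 1 = x := by
  classical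
  unfold PQ
  simp only [Finset.mem_biUnion, Finset.mem_filter, Finset.mem_univ, true_and, Finset.mem_image,
    Prod.exists]
  constructor
  · rintro ⟨i, j, ⟨h1, h2, h3⟩, M, hM, rfl⟩
    exact ⟨i, j, h1, h2, h3, M, hM, rfl⟩
  · rintro ⟨i, j, h1, h2, h3, M, hM, rfl⟩
    exact ⟨i, j, ⟨h1, h2, h3⟩, M, hM, rfl⟩

theorem PQ_card {σ : Type*} [Fintype σ] [DecidableEq σ] (i0 : σ) (S : Finset (σ →₀ ℕ)) :
    (bdT (Finset.univ.erase i0) (bdT (Finset.univ.erase i0) S)).card ≤
      (PQ i0 S).card + (Finset.univ.erase i0 : Finset σ).card * S.card := by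
  classical
  have hsub : bdT (Finset.univ.erase i0) (bdT (Finset.univ.erase i0) S) ⊆
      PQ i0 S ∪ ((Finset.univ.erase i0 : Finset σ) ×ˢ S).image
        (fun p => p.2 + Finsupp.single p.1 1 + Finsupp.single p.1 1) := by
    intro x hx
    obtain ⟨j, hj, M', hM', rfl⟩ := (mem_bdT _ _ _).1 hx
    obtain ⟨i, hi, M, hM, rfl⟩ := (mem_bdT _ _ _).1 hM'
    rw [Finset.mem_union]
    by_cases hij : i = j
    · right
      subst hij
      exact Finset.mem_image.2 ⟨(i, M), Finset.mem_product.2 ⟨hi, hM⟩, rfl⟩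
    · left
      exact (mem_PQ _ _ _).2 ⟨i, j, hij, (Finset.mem_erase.1 hi).1, (Finset.mem_erase.1 hj).1, M, hM,
        rfl⟩
  refine (Finset.card_le_card hsub).trans ((Finset.card_union_le _ _).trans ?_)
  exact Nat.add_le_add_left (Finset.card_image_le.trans (Finset.card_product _ _).le) _

/-- sets with at least `binom(r-1+i,i)` elements -/
theorem G3_thr {σ : Type*} (m : ℕ) (T : Finset σ) (hT : T.card = m + 2)
    (S : Finset (σ →₀ ℕ)) (i : ℕ) (hi : pc (m + 1) i ≤ S.card) :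
    pc (m + 1) (i + 1) ≤ (bdT T S).card := by
  obtain ⟨Y, hYS, hY⟩ := Finset.exists_subset_card_eq (s := S) (n := (m + 1 + i).choose i)
    (by
      have h1 : (((m + 1 + i).choose i : ℕ) : ℤ) ≤ S.card := hi
      exact_mod_cast h1)
  have h1 := G2_lin m T hT Y i (by rw [hY]; exact le_refl _)
  have h2 : ((Y.card : ℕ) : ℤ) = pc (m + 1) i := by rw [hY]; rfl
  have h3 : (bdT T Y).card ≤ (bdT T S).card :=
    Finset.card_le_card (bdT_mono (Finset.Subset.refl _) hYS)
  have h4 := pc_mul m i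
  have h5 := pc_pascal m i
  rw [h2] at h1
  have hi1 : (0 : ℤ) < (i : ℤ) + 1 := by positivity
  have h6 : ((i : ℤ) + 1) * pc (m + 1) (i + 1) ≤ (i + 1) * (bdT T Y).card := by
    rw [h5]
    nlinarith
  have h7 := le_of_mul_le_mul_left h6 hi1
  have h8 : (((bdT T Y).card : ℕ) : ℤ) ≤ ((bdT T S).card : ℕ) := by exact_mod_cast h3
  exact h7.trans h8

/-- the polynomial inequality -/
theorem G3_poly (k r : ℤ) (hk : 3 ≤ k) (hr : 2 * k * (k - 1) ≤ r) :
    k * (k - 1) * (r + 1) * (r + k - 2) ^ 2 ≤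
      ((r + k - 2) * (r + k - 1) - k * (k - 1) * r) * (r - 1) ^ 2 := by
  obtain ⟨κ, hκ, rfl⟩ : ∃ κ : ℤ, 0 ≤ κ ∧ k = κ + 3 := ⟨k - 3, by linarith, by ring⟩
  obtain ⟨ρ, hρ, rfl⟩ : ∃ ρ : ℤ, 0 ≤ ρ ∧ r = 2 * (κ + 3) * (κ + 3 - 1) + ρ :=
    ⟨r - 2 * (κ + 3) * (κ + 3 - 1), by linarith, by ring⟩
  rw [← sub_nonneg]
  ring_nf
  positivity

/-- the weighted sum of a geometrically decreasing sequence -/
theorem G3_sum (a b : ℤ) (hb : 0 ≤ b) (hab : b ≤ a) (x : ℕ → ℤ) (hx : ∀ o, 0 ≤ x o)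
    (h : ∀ o, 2 ≤ o → a * x (o + 1) ≤ b * x o) (L : ℕ) : ∀ o : ℕ, 2 ≤ o →
    (a - b) ^ 2 * ∑ j ∈ Finset.range L, ((o : ℤ) + j - 1) * x (o + j) ≤
      x o * (((o : ℤ) - 1) * a * (a - b) + a * b) := by
  induction L with
  | zero =>
    intro o ho
    rw [Finset.sum_range_zero, mul_zero]
    have h1 : (0 : ℤ) ≤ (o : ℤ) - 1 := by
      have : (2 : ℤ) ≤ o := by exact_mod_cast ho
      linarith
    have h2 : 0 ≤ a := hb.trans hab
    have h3 : 0 ≤ a - b := by linarith
    have := hx o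
    positivity
  | succ L ih =>
    intro o ho
    rw [Finset.sum_range_succ']
    have h1 := ih (o + 1) (by omega)
    have e1 : ∑ j ∈ Finset.range L, ((o : ℤ) + ((j + 1 : ℕ) : ℤ) - 1) * x (o + (j + 1)) =
        ∑ j ∈ Finset.range L, (((o + 1 : ℕ) : ℤ) + j - 1) * x (o + 1 + j) := by
      refine Finset.sum_congr rfl fun j _ => ?_
      rw [show o + (j + 1) = o + 1 + j by ring]
      push_cast
      ring
    rw [e1]
    push_cast at h1 ⊢
    have h2 := h o ho
    have h3 : 0 ≤ a - b := by linarith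
    have h4 : (2 : ℤ) ≤ o := by exact_mod_cast ho
    have h5 : 0 ≤ (o : ℤ) * (a - b) + b := by positivity
    have h6 : a * x (o + 1) * ((o : ℤ) * (a - b) + b) ≤ b * x o * ((o : ℤ) * (a - b) + b) :=
      mul_le_mul_of_nonneg_right h2 h5
    have e2 : x (o + 0) = x o := rfl
    rw [e2]
    generalize (∑ j ∈ Finset.range L, ((o : ℤ) + 1 + j - 1) * x (o + 1 + j)) = W at h1 ⊢
    generalize x (o + 1) = y at h1 h2 h6
    generalize x o = z at h2 h6 ⊢
    have h7 : y * (((o : ℤ) + 1 - 1) * a * (a - b) + a * b) = a * y * ((o : ℤ) * (a - b) + b) := by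
      ring
    have h8 : (a - b) ^ 2 * (W + ((o : ℤ) + 0 - 1) * z) =
      (a - b) ^ 2 * W + (a - b) ^ 2 * ((o : ℤ) - 1) * z := by ring
    have h9 : z * (((o : ℤ) - 1) * a * (a - b) + a * b) =
      b * z * ((o : ℤ) * (a - b) + b) + (a - b) ^ 2 * ((o : ℤ) - 1) * z := by ring
    rw [h9]
    have h10 : (a - b) ^ 2 * (W + ((o : ℤ) - 1) * z) =
      (a - b) ^ 2 * W + (a - b) ^ 2 * ((o : ℤ) - 1) * z := by ring
    linarith

end Pool.Agent.DAng
end

section

set_option autoImplicit false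

/-!
# Theorem T (exponential range), the combinatorial part
-/

namespace Pool.Agent.DAng

/-- `(m+1) binom(m+1+j,j) = (m+j+1) binom(m+j,j)` -/
theorem pc_left (m j : ℕ) : ((m : ℤ) + 1) * pc (m + 1) j = (m + j + 1) * pc m j := by
  cases j with
  | zero => rw [pc_zero, pc_zero]; push_cast; ring
  | succ i =>
    have h1 := pc_mul m i
    have h2 := pc_pascal m i
    push_cast
    rw [h2]
    linarith

theorem TC_a (j : ℕ) (hj : 2 ≤ j) : 4 ^ (j + 2) ≤ (2 * j + 3) * (3 * j + 2).choose (j + 1) := by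
  induction j, hj using Nat.le_induction with
  | base => decide
  | succ j hj ih =>
    have h1 : (3 * j + 2).choose (j + 1) * (3 * j + 3) = (3 * j + 3).choose (j + 1) * (2 * j + 2) := by
      have := Nat.choose_mul_succ_eq (3 * j + 2) (j + 1)
      rw [show 3 * j + 2 + 1 - (j + 1) = 2 * j + 2 by omega] at this
      exact this
    have h2 : (3 * j + 3).choose (j + 1) * (3 * j + 4) = (3 * j + 4).choose (j + 1) * (2 * j + 3) := by
      have := Nat.choose_mul_succ_eq (3 * j + 3) (j + 1)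
      rw [show 3 * j + 3 + 1 - (j + 1) = 2 * j + 3 by omega] at this
      exact this
    have h3 : (3 * j + 5) * (3 * j + 4).choose (j + 1) = (3 * j + 5).choose (j + 2) * (j + 2) :=
      Nat.add_one_mul_choose_eq (3 * j + 4) (j + 1)
    have h4 : 4 * (3 * j + 2).choose (j + 1) ≤ (3 * j + 5).choose (j + 2) := by
      have h5 : ((2 * j + 2) * (2 * j + 3) * (j + 2)) * (3 * j + 5).choose (j + 2) =
          (3 * j + 3) * (3 * j + 4) * (3 * j + 5) * (3 * j + 2).choose (j + 1) := by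
        calc ((2 * j + 2) * (2 * j + 3) * (j + 2)) * (3 * j + 5).choose (j + 2)
            = (2 * j + 2) * (2 * j + 3) * ((3 * j + 5).choose (j + 2) * (j + 2)) := by ring
          _ = (2 * j + 2) * (3 * j + 5) * ((3 * j + 4).choose (j + 1) * (2 * j + 3)) := by
              rw [← h3]; ring
          _ = (3 * j + 4) * (3 * j + 5) * ((3 * j + 3).choose (j + 1) * (2 * j + 2)) := by
              rw [← h2]; ring
          _ = _ := by rw [← h1]; ring
      have h6 : 0 < (2 * j + 2) * (2 * j + 3) * (j + 2) := by positivity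
      have h7 : ((2 * j + 2) * (2 * j + 3) * (j + 2)) * 4 ≤ (3 * j + 3) * (3 * j + 4) * (3 * j + 5) := by
        nlinarith [Nat.zero_le (j ^ 3), Nat.zero_le (j ^ 2)]
      refine Nat.le_of_mul_le_mul_left ?_ h6
      rw [h5, ← mul_assoc]
      exact Nat.mul_le_mul_right _ h7
    have h8 : 3 * (j + 1) + 2 = 3 * j + 5 := by ring
    rw [h8, show j + 1 + 1 = j + 2 from rfl]
    calc 4 ^ (j + 1 + 2) = 4 * 4 ^ (j + 2) := by ring
      _ ≤ 4 * ((2 * j + 3) * (3 * j + 2).choose (j + 1)) := Nat.mul_le_mul_left _ ih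
      _ = (2 * j + 3) * (4 * (3 * j + 2).choose (j + 1)) := by ring
      _ ≤ (2 * j + 3) * (3 * j + 5).choose (j + 2) := Nat.mul_le_mul_left _ h4
      _ ≤ (2 * (j + 1) + 3) * (3 * j + 5).choose (j + 2) := Nat.mul_le_mul_right _ (by omega)

theorem TC_b (j : ℕ) (hj : 2 ≤ j) :
    2 * 4 ^ (j + 2) ≤ (2 * j + 4) * (3 * j + 3).choose (j + 1) := by
  induction j, hj using Nat.le_induction with
  | base => decide
  | succ j hj ih =>
    have h1 : (3 * j + 3).choose (j + 1) * (3 * j + 4) = (3 * j + 4).choose (j + 1) * (2 * j + 3) := by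
      have := Nat.choose_mul_succ_eq (3 * j + 3) (j + 1)
      rw [show 3 * j + 3 + 1 - (j + 1) = 2 * j + 3 by omega] at this
      exact this
    have h2 : (3 * j + 4).choose (j + 1) * (3 * j + 5) = (3 * j + 5).choose (j + 1) * (2 * j + 4) := by
      have := Nat.choose_mul_succ_eq (3 * j + 4) (j + 1)
      rw [show 3 * j + 4 + 1 - (j + 1) = 2 * j + 4 by omega] at this
      exact this
    have h3 : (3 * j + 6) * (3 * j + 5).choose (j + 1) = (3 * j + 6).choose (j + 2) * (j + 2) :=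
      Nat.add_one_mul_choose_eq (3 * j + 5) (j + 1)
    have h4 : 4 * (3 * j + 3).choose (j + 1) ≤ (3 * j + 6).choose (j + 2) := by
      have h5 : ((2 * j + 3) * (2 * j + 4) * (j + 2)) * (3 * j + 6).choose (j + 2) =
          (3 * j + 4) * (3 * j + 5) * (3 * j + 6) * (3 * j + 3).choose (j + 1) := by
        calc ((2 * j + 3) * (2 * j + 4) * (j + 2)) * (3 * j + 6).choose (j + 2)
            = (2 * j + 3) * (2 * j + 4) * ((3 * j + 6).choose (j + 2) * (j + 2)) := by ring
          _ = (2 * j + 3) * (3 * j + 6) * ((3 * j + 5).choose (j + 1) * (2 * j + 4)) := by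
              rw [← h3]; ring
          _ = (3 * j + 5) * (3 * j + 6) * ((3 * j + 4).choose (j + 1) * (2 * j + 3)) := by
              rw [← h2]; ring
          _ = _ := by rw [← h1]; ring
      have h6 : 0 < (2 * j + 3) * (2 * j + 4) * (j + 2) := by positivity
      have h7 : ((2 * j + 3) * (2 * j + 4) * (j + 2)) * 4 ≤ (3 * j + 4) * (3 * j + 5) * (3 * j + 6) := by
        nlinarith [Nat.zero_le (j ^ 3), Nat.zero_le (j ^ 2)]
      refine Nat.le_of_mul_le_mul_left ?_ h6
      rw [h5, ← mul_assoc]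
      exact Nat.mul_le_mul_right _ h7
    have h8 : 3 * (j + 1) + 3 = 3 * j + 6 := by ring
    rw [h8, show j + 1 + 1 = j + 2 from rfl]
    calc 2 * 4 ^ (j + 1 + 2) = 4 * (2 * 4 ^ (j + 2)) := by ring
      _ ≤ 4 * ((2 * j + 4) * (3 * j + 3).choose (j + 1)) := Nat.mul_le_mul_left _ ih
      _ = (2 * j + 4) * (4 * (3 * j + 3).choose (j + 1)) := by ring
      _ ≤ (2 * j + 4) * (3 * j + 6).choose (j + 2) := Nat.mul_le_mul_left _ h4
      _ ≤ (2 * (j + 1) + 4) * (3 * j + 6).choose (j + 2) := Nat.mul_le_mul_right _ (by omega)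

/-- the size of `|S_1|` is too large when `|S_2| ≥ binom(r+j-1,j)`, `j = ⌊r/2⌋ - 1` -/
theorem TC_num (r j : ℕ) (hj : 2 ≤ j) (hr : r = 2 * j + 2 ∨ r = 2 * j + 3) :
    (2 : ℤ) ^ (r + 2) ≤ (r + 1) * pc (r - 1) (j + 1) := by
  rcases hr with rfl | rfl
  · have h := TC_a j hj
    have e : 2 ^ (2 * j + 2 + 2) = 4 ^ (j + 2) := by
      rw [show 2 * j + 2 + 2 = 2 * (j + 2) by ring, pow_mul]; norm_num
    unfold pc
    rw [show 2 * j + 2 - 1 + (j + 1) = 3 * j + 2 by omega]
    have h' : ((4 ^ (j + 2) : ℕ) : ℤ) ≤ (((2 * j + 3) * (3 * j + 2).choose (j + 1) : ℕ) : ℤ) := by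
      exact_mod_cast h
    rw [← e] at h'
    push_cast at h' ⊢
    linarith
  · have h := TC_b j hj
    have e : 2 ^ (2 * j + 3 + 2) = 2 * 4 ^ (j + 2) := by
      rw [show 2 * j + 3 + 2 = 2 * (j + 2) + 1 by ring, pow_succ, pow_mul]; norm_num; ring
    unfold pc
    rw [show 2 * j + 3 - 1 + (j + 1) = 3 * j + 3 by omega]
    have h' : ((2 * 4 ^ (j + 2) : ℕ) : ℤ) ≤ (((2 * j + 4) * (3 * j + 3).choose (j + 1) : ℕ) : ℤ) := by
      exact_mod_cast h
    rw [← e] at h'
    push_cast at h' ⊢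
    linarith

/-- `binom(r+j-1,j) ≤ binom(r+j-2,j+1) + 1`, `j = ⌊r/2⌋ - 1 ≥ 2` -/
theorem TC_thr (r j : ℕ) (hj : 2 ≤ j) (hr : r = 2 * j + 2 ∨ r = 2 * j + 3) :
    pc (r - 1) j ≤ pc (r - 3) (j + 1) + 1 := by
  obtain ⟨s, rfl⟩ : ∃ s, r = s + 3 := ⟨r - 3, by omega⟩
  rw [show s + 3 - 1 = s + 2 by omega, show s + 3 - 3 = s by omega]
  have h1 := pc_mul s j
  have h2 := pc_left (s + 1) j
  push_cast at h2
  -- (j+1) pc s (j+1) = (s+1) pc (s+1) j ; (s+2) pc (s+2) j = (s+j+2) pc (s+1) j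
  have h3 : ((j : ℤ) + 1) * (s + j + 2) * pc s (j + 1) = (s + 1) * (s + 2) * pc (s + 2) j := by
    have e1 : ((j : ℤ) + 1) * (s + j + 2) * pc s (j + 1) =
        (s + j + 2) * (((j : ℤ) + 1) * pc s (j + 1)) := by ring
    have e2 : ((s : ℤ) + 1 + j + 1) * pc (s + 1) j = (s + j + 2) * pc (s + 1) j := by ring
    rw [e1, h1]
    rw [e2] at h2
    have e3 : ((s : ℤ) + 1 + 1) * pc (s + 1 + 1) j = (s + 2) * pc (s + 2) j := by
      rw [show s + 1 + 1 = s + 2 from rfl]; ring
    rw [e3] at h2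
    calc ((s : ℤ) + j + 2) * ((s + 1) * pc (s + 1) j) = (s + 1) * ((s + j + 2) * pc (s + 1) j) := by ring
      _ = (s + 1) * ((s + 2) * pc (s + 2) j) := by rw [h2]
      _ = _ := by ring
  rcases Nat.lt_or_ge j 3 with hj3 | hj3
  · have hj2 : j = 2 := by omega
    subst hj2
    have hs : s = 3 ∨ s = 4 := by omega
    rcases hs with rfl | rfl
    · unfold pc; decide
    · unfold pc; decide
  · have h4 : ((j : ℤ) + 1) * (s + j + 2) ≤ (s + 1) * (s + 2) := by
      have hj' : (3 : ℤ) ≤ j := by exact_mod_cast hj3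
      have hs : (s : ℤ) = 2 * j - 1 ∨ (s : ℤ) = 2 * j := by omega
      rcases hs with hs | hs
      · rw [hs]; nlinarith
      · rw [hs]; nlinarith
    have h5 : (0 : ℤ) < ((j : ℤ) + 1) * (s + j + 2) := by positivity
    have h6 : ((j : ℤ) + 1) * (s + j + 2) * pc (s + 2) j ≤
        ((j : ℤ) + 1) * (s + j + 2) * pc s (j + 1) := by
      rw [h3]
      exact mul_le_mul_of_nonneg_right h4 (pc_pos _ _).le
    have h7 := le_of_mul_le_mul_left h6 h5
    linarith

theorem TC_poly (r j : ℤ) (hj : 2 ≤ j) (hr : r = 2 * j + 2 ∨ r = 2 * j + 3) :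
    (j + 2) * ((r + j + 1) * (r + j)) ≤ r * (r + 1) * (r + j - 1) := by
  rcases hr with rfl | rfl
  · nlinarith [mul_nonneg (show (0 : ℤ) ≤ j - 2 by linarith) (show (0 : ℤ) ≤ j by linarith),
      mul_nonneg (mul_nonneg (show (0 : ℤ) ≤ j - 2 by linarith) (show (0 : ℤ) ≤ j by linarith))
        (show (0 : ℤ) ≤ j by linarith)]
  · nlinarith [mul_nonneg (show (0 : ℤ) ≤ j - 2 by linarith) (show (0 : ℤ) ≤ j by linarith),
      mul_nonneg (mul_nonneg (show (0 : ℤ) ≤ j - 2 by linarith) (show (0 : ℤ) ≤ j by linarith))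
        (show (0 : ℤ) ≤ j by linarith)]

/-- the two sums of a sequence which decreases like the Macaulay bound -/
theorem TC_sum (r j : ℤ) (hr : 1 ≤ r) (y : ℕ → ℤ) (hy : ∀ k, 0 ≤ y k)
    (hz : ∀ k : ℕ, j ≤ k → y k = 0)
    (h : ∀ k : ℕ, (k : ℤ) < j → (r + j - k - 1) * y (k + 1) ≤ (j - k) * y k) (L : ℕ) :
    ∀ k : ℕ, r * ∑ i ∈ Finset.range L, y (k + i) ≤ (r + j - k) * y k ∧
      r * (r + 1) * ∑ i ∈ Finset.range L, ((i : ℤ) + 1) * y (k + i) ≤
        (r + j - k + 1) * (r + j - k) * y k := by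
  induction L with
  | zero =>
    intro k
    rw [Finset.sum_range_zero, Finset.sum_range_zero, mul_zero, mul_zero]
    rcases lt_or_ge (k : ℤ) j with hk | hk
    · have h1 : 0 ≤ r + j - k := by linarith
      exact ⟨mul_nonneg h1 (hy k), mul_nonneg (mul_nonneg (by linarith) h1) (hy k)⟩
    · rw [hz k hk, mul_zero, mul_zero]
      exact ⟨le_refl _, le_refl _⟩
  | succ L ih =>
    intro k
    have e1 : ∑ i ∈ Finset.range (L + 1), y (k + i) =
        y k + ∑ i ∈ Finset.range L, y (k + 1 + i) := by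
      rw [Finset.sum_range_succ', add_comm (y k)]
      congr 1
      apply Finset.sum_congr rfl
      intro i _
      rw [show k + (i + 1) = k + 1 + i by ring]
    have e2 : ∑ i ∈ Finset.range (L + 1), ((i : ℤ) + 1) * y (k + i) =
        y k + ∑ i ∈ Finset.range L, y (k + 1 + i) +
          ∑ i ∈ Finset.range L, ((i : ℤ) + 1) * y (k + 1 + i) := by
      rw [Finset.sum_range_succ', add_assoc, ← Finset.sum_add_distrib, add_comm (y k)]
      congr 1
      · apply Finset.sum_congr rfl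
        intro i _
        rw [show k + (i + 1) = k + 1 + i by ring]
        push_cast
        ring
      · push_cast
        rw [add_zero]
        ring
    obtain ⟨i1, i2⟩ := ih (k + 1)
    rw [e1, e2]
    push_cast at i1 i2
    rcases lt_or_ge (k : ℤ) j with hk | hk
    · have hh := h k hk
      have hp : 0 < r + j - k := by linarith
      have h1 : r * (y k + ∑ i ∈ Finset.range L, y (k + 1 + i)) ≤ (r + j - k) * y k := by
        nlinarith
      refine ⟨h1, ?_⟩
      have h2 := mul_le_mul_of_nonneg_left hh hp.le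
      have h3 := mul_le_mul_of_nonneg_left h1 (show (0 : ℤ) ≤ r + 1 by linarith)
      nlinarith
    · have hk0 := hz k hk
      have hk1 := hz (k + 1) (by push_cast; linarith)
      rw [hk1] at i1 i2
      rw [hk0]
      constructor
      · linarith
      · have h4 : r * ∑ i ∈ Finset.range L, y (k + 1 + i) ≤ 0 := by linarith
        have h5 : (r + 1) * (r * ∑ i ∈ Finset.range L, y (k + 1 + i)) ≤ 0 :=
          mul_nonpos_of_nonneg_of_nonpos (by linarith) h4
        linarith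

/-- the weighted sum as a sum over `range` -/
theorem TC_omega (x : ℕ → ℕ) (D : ℕ) :
    ((∑ j ∈ Finset.Icc 2 D, (j - 1) * x j : ℕ) : ℤ) ≤
      ∑ i ∈ Finset.range D, ((i : ℤ) + 1) * (x (2 + i) : ℤ) := by
  have h : Finset.Icc 2 D = Finset.Ico 2 (D + 1) := by
    ext a; simp only [Finset.mem_Icc, Finset.mem_Ico]; omega
  rw [h, Finset.sum_Ico_eq_sum_range, Nat.cast_sum]
  simp only [Nat.cast_mul]
  have h2 : ∑ i ∈ Finset.range (D + 1 - 2), (((2 + i - 1 : ℕ) : ℤ)) * (x (2 + i) : ℤ) =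
      ∑ i ∈ Finset.range (D + 1 - 2), ((i : ℤ) + 1) * (x (2 + i) : ℤ) := by
    apply Finset.sum_congr rfl
    intro i _
    rw [show 2 + i - 1 = i + 1 by omega]
    push_cast
    ring
  rw [h2]
  apply Finset.sum_le_sum_of_subset_of_nonneg
  · exact Finset.range_mono (by omega)
  · intro i _ _
    positivity

/-- **Theorem T, combinatorial part.** -/
theorem TC_comb {σ : Type*} (r : ℕ) (hr : 3 ≤ r) (A Q : Finset σ)
    (hA : A.card = r) (_hQA : Q ⊆ A) (hQ : Q.card + 2 = r) (S : ℕ → Finset (σ →₀ ℕ))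
    (hS : ∀ j, 1 ≤ j → bdT A (S (j + 1)) ⊆ S j) (nu d D N : ℕ)
    (hnu : ∑ j ∈ Finset.Icc 1 D, (S j).card ≤ nu)
    (hd : d ≤ nu + ∑ j ∈ Finset.Icc 2 D, (j - 1) * (S j).card)
    (hM : (r + 1) * (nu + (bdT Q (S 2)).card) + 1 ≤ N) (hN : N ≤ 2 ^ (r + 2)) :
    (r + 1) * d + 1 ≤ N := by
  classical
  -- it is enough to bound the weighted sum
  suffices hq : ((∑ j ∈ Finset.Icc 2 D, (j - 1) * (S j).card : ℕ) : ℤ) ≤ (bdT Q (S 2)).card by
    have hq' : ∑ j ∈ Finset.Icc 2 D, (j - 1) * (S j).card ≤ (bdT Q (S 2)).card := by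
      exact_mod_cast hq
    have h1 : d ≤ nu + (bdT Q (S 2)).card := by omega
    calc (r + 1) * d + 1 ≤ (r + 1) * (nu + (bdT Q (S 2)).card) + 1 := by
          have := Nat.mul_le_mul_left (r + 1) h1
          omega
      _ ≤ N := hM
  have hQne : Q.Nonempty := Finset.card_pos.1 (by omega)
  have hx2q : (S 2).card ≤ (bdT Q (S 2)).card := card_le_bdT Q hQne (S 2)
  -- growth
  have hgr : ∀ j, 1 ≤ j → ∀ i : ℕ, ((S (j + 1)).card : ℤ) ≤ pc (r - 1) i →
      ((r : ℤ) + i) * (S (j + 1)).card ≤ (i + 1) * (S j).card := by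
    intro j hj i hi
    have h1 := G2_lin (r - 2) A (by omega) (S (j + 1)) i
      (by rw [show r - 2 + 1 = r - 1 by omega]; exact hi)
    have h2 : ((r - 2 : ℕ) : ℤ) + 2 = r := by omega
    rw [h2] at h1
    have h3 : ((bdT A (S (j + 1))).card : ℤ) ≤ (S j).card := by
      exact_mod_cast Finset.card_le_card (hS j hj)
    have h4 : ((i : ℤ) + 1) * (bdT A (S (j + 1))).card ≤ (i + 1) * (S j).card :=
      mul_le_mul_of_nonneg_left h3 (by positivity)
    exact h1.trans h4
  have hthr : ∀ j, 1 ≤ j → ∀ i : ℕ, pc (r - 1) i ≤ ((S (j + 1)).card : ℤ) →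
      pc (r - 1) (i + 1) ≤ (S j).card := by
    intro j hj i hi
    have h1 := G3_thr (r - 2) A (by omega) (S (j + 1)) i
      (by rw [show r - 2 + 1 = r - 1 by omega]; exact hi)
    rw [show r - 2 + 1 = r - 1 by omega] at h1
    have h3 : ((bdT A (S (j + 1))).card : ℤ) ≤ (S j).card := by
      exact_mod_cast Finset.card_le_card (hS j hj)
    exact h1.trans h3
  have hzero : ∀ j, 1 ≤ j → (S j).card = 0 → (S (j + 1)).card = 0 := by
    intro j hj h
    by_contra hc
    have hAne : A.Nonempty := Finset.card_pos.1 (by omega)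
    have h1 := card_le_bdT A hAne (S (j + 1))
    have h2 := Finset.card_le_card (hS j hj)
    omega
  have hNZ : (N : ℤ) ≤ 2 ^ (r + 2) := by exact_mod_cast hN
  have hMZ : ((r : ℤ) + 1) * (nu + (bdT Q (S 2)).card) + 1 ≤ N := by exact_mod_cast hM
  have hqz : (0 : ℤ) ≤ (bdT Q (S 2)).card := by positivity
  -- small `D`
  rcases Nat.lt_or_ge D 3 with hD | hD
  · have h1 : ∑ j ∈ Finset.Icc 2 D, (j - 1) * (S j).card ≤ (S 2).card := by
      have h2 : Finset.Icc 2 D ⊆ Finset.Icc 2 2 := Finset.Icc_subset_Icc (le_refl _) (by omega)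
      refine (Finset.sum_le_sum_of_subset h2).trans ?_
      simp
    exact_mod_cast h1.trans hx2q
  have hnu3 : (S 1).card + (S 2).card + (S 3).card ≤ nu := by
    refine le_trans ?_ hnu
    have h2 : Finset.Icc 1 3 ⊆ Finset.Icc 1 D := Finset.Icc_subset_Icc (le_refl _) hD
    refine le_trans (le_of_eq ?_) (Finset.sum_le_sum_of_subset h2)
    rw [show Finset.Icc 1 3 = {1, 2, 3} from rfl]
    simp
    ring
  have hnu3Z : ((S 1).card : ℤ) + (S 2).card + (S 3).card ≤ nu := by exact_mod_cast hnu3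
  rcases Nat.lt_or_ge r 6 with hr6 | hr6
  · -- `r = 3, 4, 5`
    rcases Nat.eq_zero_or_pos (S 3).card with h3 | h3
    · have hz : ∀ j, 3 ≤ j → (S j).card = 0 := by
        intro j hj
        induction j, hj using Nat.le_induction with
        | base => exact h3
        | succ j hj ih => exact hzero j (by omega) ih
      have h1 : ∑ j ∈ Finset.Icc 2 D, (j - 1) * (S j).card = (S 2).card := by
        rw [Finset.sum_eq_single 2]
        · simp
        · intro b hb hb2
          rw [Finset.mem_Icc] at hb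
          rw [hz b (by omega), mul_zero]
        · intro h
          exact absurd (Finset.mem_Icc.2 ⟨le_refl _, by omega⟩) h
      rw [h1]
      exact_mod_cast hx2q
    · exfalso
      have h4 := hthr 2 (by omega) 0 (by rw [pc_zero]; exact_mod_cast h3)
      rw [zero_add] at h4
      have h5 := hthr 1 (by omega) 1 h4
      have h6 : ((S 2).card : ℤ) ≤ (bdT Q (S 2)).card := by exact_mod_cast hx2q
      have h7 : (1 : ℤ) ≤ (S 3).card := by exact_mod_cast h3
      have hr' : r = 3 ∨ r = 4 ∨ r = 5 := by omega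
      rcases hr' with rfl | rfl | rfl
      · have e1 : pc (3 - 1) 1 = 3 := by unfold pc; decide
        have e2 : pc (3 - 1) (1 + 1) = 6 := by unfold pc; decide
        rw [e1] at h4
        rw [e2] at h5
        norm_num at hNZ hMZ
        linarith
      · have e1 : pc (4 - 1) 1 = 4 := by unfold pc; decide
        have e2 : pc (4 - 1) (1 + 1) = 10 := by unfold pc; decide
        rw [e1] at h4
        rw [e2] at h5
        norm_num at hNZ hMZ
        linarith
      · have e1 : pc (5 - 1) 1 = 5 := by unfold pc; decide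
        have e2 : pc (5 - 1) (1 + 1) = 15 := by unfold pc; decide
        rw [e1] at h4
        rw [e2] at h5
        norm_num at hNZ hMZ
        linarith
  -- `r ≥ 6`
  obtain ⟨j, hj, hrj⟩ : ∃ j, 2 ≤ j ∧ (r = 2 * j + 2 ∨ r = 2 * j + 3) :=
    ⟨r / 2 - 1, by omega, by omega⟩
  have hsmall : ((S 2).card : ℤ) < pc (r - 1) j := by
    by_contra hc
    rw [not_lt] at hc
    have h1 := hthr 1 (by omega) j hc
    have h2 := TC_num r j hj hrj
    have h3 : (0 : ℤ) ≤ (S 2).card := by positivity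
    have h4 : (0 : ℤ) ≤ (S 3).card := by positivity
    have h5 : pc (r - 1) (j + 1) ≤ nu + (bdT Q (S 2)).card := by linarith
    have h6 : ((r : ℤ) + 1) * pc (r - 1) (j + 1) ≤ (r + 1) * (nu + (bdT Q (S 2)).card) :=
      mul_le_mul_of_nonneg_left h5 (by positivity)
    linarith
  have hsm : ∀ k, k ≤ j → ((S (2 + k)).card : ℤ) < pc (r - 1) (j - k) := by
    intro k
    induction k with
    | zero => intro _; exact hsmall
    | succ k ih =>
      intro hk
      by_contra hc
      rw [not_lt] at hc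
      have h1 := hthr (2 + k) (by omega) (j - (k + 1)) hc
      rw [show j - (k + 1) + 1 = j - k by omega] at h1
      exact absurd (ih (by omega)) (not_lt.2 h1)
  have hz0 : ∀ k, j ≤ k → (S (2 + k)).card = 0 := by
    intro k hk
    induction k, hk using Nat.le_induction with
    | base =>
      have h1 := hsm j (le_refl _)
      rw [Nat.sub_self, pc_zero] at h1
      omega
    | succ k hk ih =>
      exact hzero (2 + k) (by omega) ih
  have hrZ : (6 : ℤ) ≤ r := by exact_mod_cast hr6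
  have hjZ : (2 : ℤ) ≤ j := by exact_mod_cast hj
  have key := (TC_sum r j (by linarith) (fun k => ((S (2 + k)).card : ℤ)) (fun k => by positivity)
    (fun k hk => by
      have : (S (2 + k)).card = 0 := hz0 k (by exact_mod_cast hk)
      simp only [this]; rfl)
    (fun k hk => by
      have hk' : k < j := by exact_mod_cast hk
      have h1 := hsm (k + 1) (by omega)
      have h2 := hgr (2 + k) (by omega) (j - (k + 1)) h1.le
      have e : ((j - (k + 1) : ℕ) : ℤ) = (j : ℤ) - k - 1 := by omega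
      rw [e] at h2
      have e2 : (r : ℤ) + (j - k - 1) = r + j - k - 1 := by ring
      have e3 : (j : ℤ) - k - 1 + 1 = j - k := by ring
      rw [e2, e3] at h2
      exact h2) D 0).2
  simp only [Nat.cast_zero, sub_zero, zero_add, add_zero] at key
  have hom := TC_omega (fun j => (S j).card) D
  -- growth by `Q`
  have hthr2 := TC_thr r j hj hrj
  have h2a : ((S 2).card : ℤ) ≤ pc (r - 3) (j + 1) := by linarith
  have h2b := G2_lin (r - 4) Q (by omega) (S 2) (j + 1)
    (by rw [show r - 4 + 1 = r - 3 by omega]; exact h2a)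
  have e4 : ((r - 4 : ℕ) : ℤ) + 2 + ((j + 1 : ℕ) : ℤ) = (r : ℤ) + j - 1 := by omega
  rw [e4] at h2b
  push_cast at h2b
  have hpoly := TC_poly r j hjZ (by
    rcases hrj with h | h
    · left; rw [h]; push_cast; ring
    · right; rw [h]; push_cast; ring)
  obtain ⟨Om, hOm⟩ : ∃ z : ℤ, z = ((∑ j ∈ Finset.Icc 2 D, (j - 1) * (S j).card : ℕ) : ℤ) := ⟨_, rfl⟩
  obtain ⟨q, hqe⟩ : ∃ z : ℤ, z = ((bdT Q (S 2)).card : ℤ) := ⟨_, rfl⟩
  obtain ⟨x2, hx2⟩ : ∃ z : ℤ, z = ((S 2).card : ℤ) := ⟨_, rfl⟩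
  rw [← hOm] at hom ⊢
  rw [← hqe] at h2b hqz ⊢
  rw [← hx2] at key h2b
  have k1 : (r : ℤ) * (r + 1) * Om ≤ (r + j + 1) * (r + j) * x2 := by
    have := mul_le_mul_of_nonneg_left hom (show (0 : ℤ) ≤ (r : ℤ) * (r + 1) by positivity)
    exact this.trans key
  have k2 : ((r : ℤ) * (r + 1) * (r + j - 1)) * Om ≤ ((r : ℤ) * (r + 1) * (r + j - 1)) * q := by
    have p1 : (0 : ℤ) ≤ (r : ℤ) + j - 1 := by linarith
    have p2 : (0 : ℤ) ≤ ((r : ℤ) + j + 1) * (r + j) := by positivity
    have k3 := mul_le_mul_of_nonneg_left k1 p1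
    have k4 := mul_le_mul_of_nonneg_left h2b p2
    have k5 := mul_le_mul_of_nonneg_right hpoly hqz
    calc ((r : ℤ) * (r + 1) * (r + j - 1)) * Om = ((r : ℤ) + j - 1) * (r * (r + 1) * Om) := by ring
      _ ≤ ((r : ℤ) + j - 1) * ((r + j + 1) * (r + j) * x2) := k3
      _ = (((r : ℤ) + j + 1) * (r + j)) * ((r + j - 1) * x2) := by ring
      _ ≤ (((r : ℤ) + j + 1) * (r + j)) * ((j + 1 + 1) * q) := k4
      _ = (j + 2) * ((r + j + 1) * (r + j)) * q := by ring
      _ ≤ _ := k5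
  have k6 : (0 : ℤ) < (r : ℤ) * (r + 1) * (r + j - 1) := by
    have : (0 : ℤ) < (r : ℤ) + j - 1 := by linarith
    positivity
  exact le_of_mul_le_mul_left k2 k6

end Pool.Agent.DAng
end
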