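import Pool.Agent.Lib.MP_e3689b_an.VD
import Pool.Agent.Lib.MP_e3689b_an.Mg.G002
import Pool.Agent.Lib.MP_e3689b_an.Mg.G019
import Pool.Agent.Lib.MP_e3689b_an.Mg.G015

section

set_option autoImplicit false

namespace Pool.Agent.DAng

open MvPolynomial

/-- A finite dimensional space of polynomials has bounded degree, so no nonzero element times a high power of a variable lies in it.
PROOF. `W` is spanned by a finite set (`Module.Finite`, `Submodule.fg_iff_...`/`IsNoetherian.noetherian W`), let `D0` be the maximum of the total degrees of the generators;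
`W ≤ restrictTotalDegree σ K D0` (`Submodule.span_le`, `mem_restrictTotalDegree`). If `X v ^ k * P ∈ W` with `P ≠ 0` then `k + totalDegree P = totalDegree (X v ^ k * P) ≤ D0`
(`totalDegree_mul_of_isDomain`, `totalDegree_X_pow`). So `D = D0 + 1` works. -/
theorem V02 {σ K : Type} [Field K] (W : Submodule K (MvPolynomial σ K)) [FiniteDimensional K W]
    (v : σ) : ∃ D : ℕ, ∀ k, D ≤ k → ∀ P : MvPolynomial σ K, X v ^ k * P ∈ W → P = 0 := by
  obtain ⟨S, hS⟩ : W.FG := Module.Finite.iff_fg.1 inferInstance
  refine ⟨S.sup (fun p => p.totalDegree) + 1, ?_⟩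
  intro k hk P hP
  by_contra hne
  have hle : W ≤ restrictTotalDegree σ K (S.sup (fun p => p.totalDegree)) := by
    rw [← hS, Submodule.span_le]
    intro p hp
    rw [SetLike.mem_coe, mem_restrictTotalDegree]
    exact Finset.le_sup (f := fun p => p.totalDegree) hp
  have h1 := hle hP
  rw [mem_restrictTotalDegree, totalDegree_mul_of_isDomain (pow_ne_zero _ (X_ne_zero v)) hne,
    totalDegree_X_pow] at h1
  omega

end Pool.Agent.DAng
end

section

set_option autoImplicit false

namespace Pool.Agent.DAng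

open MvPolynomial

/-- DIMENSION. PROOF. `V02` for `U`, `x0`: `Uk U D = ⊥`. `V03`: `dim U_k = dim e0(U_k) + dim U_{k+1}`; sum (induction on `n`: `dim U_0 = ∑_{k<n} dim e0(U_k) + dim U_n`), `Uk U 0 = U`. -/
theorem GL21 {m : ℕ} {K : Type} [Field K] (U : Submodule K (MvPolynomial (Sg m) K))
    [FiniteDimensional K U] :
    ∃ D : ℕ, Module.finrank K U = ∑ k ∈ Finset.range D,
      Module.finrank K ((Uk U k).map (e0 (m := m) (B := K)).toLinearMap) := by
  obtain ⟨D, hD⟩ := V02 U x0
  refine ⟨D, ?_⟩
  have h0 : Uk U 0 = U := by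
    ext f
    show X x0 ^ 0 * f ∈ U ↔ f ∈ U
    rw [pow_zero, one_mul]
  have h1 : ∀ n, Module.finrank K U = ∑ k ∈ Finset.range n,
      Module.finrank K ((Uk U k).map (e0 (m := m) (B := K)).toLinearMap) +
        Module.finrank K (Uk U n) := by
    intro n
    induction n with
    | zero => rw [Finset.sum_range_zero, zero_add, h0]
    | succ n ih => rw [ih, V03 U n, Finset.sum_range_succ, add_assoc]
  have h2 : Uk U D = ⊥ := by
    rw [eq_bot_iff]
    intro f hf
    exact (Submodule.mem_bot K).2 (hD D le_rfl f hf)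
  rw [h1 D, h2, finrank_bot, add_zero]

/-- GENERIC UNITARY FRAME. PROOF. Let `i1 ≠ i0`. The polynomial `P̂ = rename (Sum.elim (fun i => (i, i0)) (fun i => (i, i1))) P` in the entries of a matrix is not zero (`rename_injective`); by `U3`
there is a unitary `V` with `P(V e_{i0}, V e_{i1}) ≠ 0`, and this is the value of `ps V i0 P` at the point `Pi.single i1 1`. -/
theorem GL21_V {m : ℕ} (hm : 2 ≤ m) (i0 : Fin m) (P : CA m) (hP : P ≠ 0) :
    ∃ V ∈ Matrix.unitaryGroup (Fin m) ℂ, ps V i0 P ≠ 0 := by
  obtain ⟨i1, hi1⟩ : ∃ i1 : Fin m, i1 ≠ i0 := by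
    have : Nontrivial (Fin m) := Fin.nontrivial_iff_two_le.2 hm
    exact exists_ne i0
  by_contra hne
  push Not at hne
  have hinj : Function.Injective (Sum.elim (fun i => (i, i0)) (fun i => (i, i1)) :
      Fin m ⊕ Fin m → Fin m × Fin m) := by
    rintro (a | a) (b | b) hab
    · exact congrArg Sum.inl (Prod.ext_iff.1 hab).1
    · exact absurd (Prod.ext_iff.1 hab).2.symm hi1
    · exact absurd (Prod.ext_iff.1 hab).2 hi1
    · exact congrArg Sum.inr (Prod.ext_iff.1 hab).1
  refine hP (rename_injective _ hinj ?_)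
  rw [map_zero]
  refine U3 _ fun V hV => ?_
  rw [eval_rename]
  have h3 := congrArg (aeval (Pi.single i1 (1 : ℂ)) : MvPolynomial (Fin m) ℂ →ₐ[ℂ] ℂ) (hne V hV)
  rw [map_zero] at h3
  rw [← h3]
  unfold ps
  rw [comp_aeval_apply, aeval_eq_eval]
  refine congrArg (fun x => eval x P) ?_
  funext t
  rcases t with a | a
  · simp
  · simp only [Function.comp_apply, Sum.elim_inr, map_sum, map_mul, aeval_X, algHom_C]
    rw [Finset.sum_eq_single i1]
    · simp
    · intro l _ hl
      rw [Pi.single_eq_of_ne hl, mul_zero]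
    · intro h
      exact absurd (Finset.mem_erase.2 ⟨hi1, Finset.mem_univ _⟩) h

end Pool.Agent.DAng
end

section

set_option autoImplicit false

namespace Pool.Agent.DAng

open MvPolynomial

/-- PROOF. Induction: `∑_{k ∈ range D} r k = ...`. E.g. show by induction on `D - k` that `r k = ∑_{j ∈ Ico k D} h j`; or prove for all `n` by induction
`∑_{k < n} r k = ∑_{j < n} (j+1) h j + n r n`, and take `n = D`, with `r 0 = ∑_{j<D} h j`. -/
theorem V04_sum (r h : ℕ → ℕ) (D : ℕ) (h1 : ∀ k, r k = h k + r (k + 1)) (h2 : r D = 0) :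
    ∑ k ∈ Finset.range D, r k = r 0 + ∑ o ∈ Finset.Icc 2 D, (o - 1) * h (o - 1) := by
  have hA : ∀ n, ∑ k ∈ Finset.range n, r k = ∑ j ∈ Finset.range n, (j + 1) * h j + n * r n := by
    intro n
    induction n with
    | zero => simp
    | succ n ih =>
      rw [Finset.sum_range_succ, Finset.sum_range_succ, ih, h1 n]
      ring
  have hB : ∀ n, r 0 = ∑ j ∈ Finset.range n, h j + r n := by
    intro n
    induction n with
    | zero => simp
    | succ n ih =>
      rw [Finset.sum_range_succ, ih, h1 n]
      ring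
  have hC : ∀ n, ∑ j ∈ Finset.range n, (j + 1) * h j = ∑ j ∈ Finset.range n, h j +
      ∑ o ∈ Finset.Icc 2 n, (o - 1) * h (o - 1) := by
    intro n
    induction n with
    | zero => simp
    | succ n ih =>
      rcases Nat.eq_zero_or_pos n with h0 | h0
      · subst h0
        simp
      · rw [Finset.sum_range_succ, Finset.sum_range_succ, ih, Finset.sum_Icc_succ_top (by omega)]
        rw [Nat.add_sub_cancel]
        ring
  rw [hA D, hB D, h2, hC D]
  ring

/-- THE FILTRATION INEQUALITY. There is `D` such that `H_k = 0` for `k ≥ D` and `dim U ≤ dim e0(U) + ∑_{o=2}^D (o-1) dim H_{o-1}`.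
PROOF. `V02` for `U` with `v = x0` and for `U.map e0` with `v = x1`; `D` the maximum of the two bounds. So `Uk U k = ⊥`, `Rk U k = ⊥` (hence `Hb U k = ⊥`) for `k ≥ D`.
By `V03`, `V03_le` (`Submodule.finrank_mono`) `dim U_k ≤ dim R_k + dim U_{k+1}`, so by induction `dim U = dim U_0 ≤ ∑_{k<D} dim R_k + dim U_D = ∑_{k<D} dim R_k` (`Uk U 0 = U`, `X^0 = 1`).
`V04_sum` with `r k = dim R_k` and `V03_R`; `Rk U 0 = U.map e0`. -/
theorem V04 {m : ℕ} {K : Type} [Field K] (U : Submodule K (MvPolynomial (Sg m) K)) [FiniteDimensional K U]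
    (hP : ∀ H, X x0 * H ∈ U → X x1 * H ∈ U) :
    ∃ D : ℕ, (∀ k, D ≤ k → Hb U k = ⊥) ∧
      Module.finrank K U ≤ Module.finrank K (U.map (e0 (m := m) (B := K)).toLinearMap) +
        ∑ o ∈ Finset.Icc 2 D, (o - 1) * Module.finrank K (Hb U (o - 1)) := by
  obtain ⟨D1, hD1⟩ := V02 U (x0 : Sg m)
  obtain ⟨D2, hD2⟩ := V02 (U.map (e0 (m := m) (B := K)).toLinearMap) (x1 : Sg m)
  have hUk : ∀ k, max D1 D2 ≤ k → Uk U k = ⊥ := by
    intro k hk
    rw [Submodule.eq_bot_iff]
    intro f hf
    exact hD1 k ((le_max_left _ _).trans hk) f hf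
  have hRk : ∀ k, max D1 D2 ≤ k → Rk U k = ⊥ := by
    intro k hk
    rw [Submodule.eq_bot_iff]
    intro f hf
    exact hD2 k ((le_max_right _ _).trans hk) f hf
  have hU0 : Uk U 0 = U := by
    ext f
    simp [Uk]
  have hR0 : Rk U 0 = U.map (e0 (m := m) (B := K)).toLinearMap := by
    ext f
    simp [Rk]
  refine ⟨max D1 D2, ?_, ?_⟩
  · intro k hk
    rw [Hb, hRk k hk, Submodule.map_bot]
  · have hstep : ∀ k, Module.finrank K (Uk U k) ≤
        Module.finrank K (Rk U k) + Module.finrank K (Uk U (k + 1)) := by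
      intro k
      rw [V03 U k]
      have := V03_finR U k
      exact Nat.add_le_add_right (Submodule.finrank_mono (V03_le U hP k)) _
    have hsum : ∀ n, Module.finrank K U ≤ ∑ k ∈ Finset.range n, Module.finrank K (Rk U k) +
        Module.finrank K (Uk U n) := by
      intro n
      induction n with
      | zero => rw [hU0]; simp
      | succ n ih =>
        rw [Finset.sum_range_succ]
        have := hstep n
        omega
    have h3 := hsum (max D1 D2)
    rw [hUk _ le_rfl, finrank_bot, add_zero] at h3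
    have h4 := V04_sum (fun k => Module.finrank K (Rk U k)) (fun k => Module.finrank K (Hb U k))
      (max D1 D2) (fun k => V03_R U k) (by
        show Module.finrank K (Rk U (max D1 D2)) = 0
        rw [hRk _ le_rfl, finrank_bot])
    rw [h4, hR0] at h3
    exact h3

end Pool.Agent.DAng
end

section

set_option autoImplicit false

namespace Pool.Agent.DAng

open MvPolynomial

section
variable {σ K : Type} [Field K] (mo : MonomialOrder.{0, 0} σ)

/-- PROOF. `C1` with `v` = a basis of `W` (`Module.finBasis K W`, coerced to polynomials; its span is `W`) and `d = finrank K W`. -/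
theorem lead_card (W : Submodule K (MvPolynomial σ K)) [FiniteDimensional K W]
    (S : Finset (σ →₀ ℕ)) (hS : ∀ M ∈ S, M ∈ lead mo W) : S.card ≤ Module.finrank K W := by
  have hspan : Submodule.span K (Set.range (fun i => ((Module.finBasis K W) i : MvPolynomial σ K))) = W := by
    have h1 := (Module.finBasis K W).span_eq
    have h2 : Set.range (fun i => ((Module.finBasis K W) i : MvPolynomial σ K)) =
        W.subtype '' Set.range (Module.finBasis K W) := by
      rw [← Set.range_comp]
      rfl
    rw [h2, Submodule.span_image, h1, Submodule.map_top, Submodule.range_subtype]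
  refine C1 mo (Module.finrank K W) (fun i => ((Module.finBasis K W) i : MvPolynomial σ K)) S ?_
  intro M hM
  obtain ⟨P, hP, h0, hd⟩ := hS M hM
  exact ⟨P, by rw [hspan]; exact hP, h0, hd⟩

/-- PROOF. by `lead_card` and `Set.Infinite.exists_subset_card_eq`. -/
theorem lead_finite (W : Submodule K (MvPolynomial σ K)) [FiniteDimensional K W] : (lead mo W).Finite := by
  by_contra hinf
  obtain ⟨t, ht, hc⟩ := Set.Infinite.exists_subset_card_eq hinf (Module.finrank K W + 1)
  have h1 := lead_card mo W t (fun M hM => ht hM)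
  omega

/-- PROOF. `≤` from `lead_card`; `≥` from `C2` with `h` = basis of `W`, `r = finrank K W`. -/
theorem lead_ncard (W : Submodule K (MvPolynomial σ K)) [FiniteDimensional K W] :
    (lead_finite mo W).toFinset.card = Module.finrank K W := by
  apply le_antisymm
  · exact lead_card mo W _ (fun M hM => (Set.Finite.mem_toFinset _).1 hM)
  · refine C2 mo (Module.finrank K W) W (fun i => ((Module.finBasis K W) i : MvPolynomial σ K)) ?_ ?_ _ ?_
    · have h := (Module.finBasis K W).linearIndependent
      exact h.map' W.subtype (Submodule.ker_subtype W)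
    · intro l
      exact ((Module.finBasis K W) l).2
    · intro P hP h0
      exact (Set.Finite.mem_toFinset _).2 ⟨P, hP, h0, rfl⟩

/-- PROOF. `mo.degree (X i * P) = single i 1 + mo.degree P` (`MonomialOrder.degree_mul`, `degree_X`). -/
theorem lead_mul (W W' : Submodule K (MvPolynomial σ K)) (i : σ)
    (h : ∀ P ∈ W, X i * P ∈ W') (M : σ →₀ ℕ) (hM : M ∈ lead mo W) :
    M + Finsupp.single i 1 ∈ lead mo W' := by
  obtain ⟨P, hP, h0, hd⟩ := hM
  refine ⟨X i * P, h P hP, mul_ne_zero (X_ne_zero i) h0, ?_⟩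
  rw [MonomialOrder.degree_mul (X_ne_zero i) h0, MonomialOrder.degree_X, hd, add_comm]

/-- PROOF. unfold. -/
theorem lead_mono (W W' : Submodule K (MvPolynomial σ K)) (h : W ≤ W') : lead mo W ⊆ lead mo W' := by
  rintro M ⟨P, hP, h0, hd⟩
  exact ⟨P, h hP, h0, hd⟩
end

end Pool.Agent.DAng
end

section

set_option autoImplicit false

namespace Pool.Agent.DAng

open MvPolynomial

theorem V20_aux {m p : ℕ} {K : Type} [Field K] {J : Type} [Fintype J] (i0 : Fin m)
    (mo : MonomialOrder.{0, 0} (Fin m))
    (v : J → MvPolynomial (Fin m) K) (G : Submodule K (MvPolynomial (Fin m) K))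
    (hG : ∀ P ∈ G, ∀ i j, X i * (X j * P) ∈ Submodule.span K (Set.range v))
    (f' : Fin p → J) (x' : Fin p → Fin m → K)
    (hx : ∀ l a b, a ≠ b → a ≠ i0 → b ≠ i0 → x' l a * x' l b = 0)
    (hdet : (Matrix.of (fun k l : Fin p => eval (x' l) (v (f' k)))).det ≠ 0)
    (Y : Finset (Fin m →₀ ℕ)) (hY : ∀ M ∈ Y, M ∈ lead mo G) :
    p + (PP i0 Y).card ≤ Module.finrank K (Submodule.span K (Set.range v)) := by
  classical
  set W : Submodule K (MvPolynomial (Fin m) K) := Submodule.span K (Set.range v) with hW
  have hfd : FiniteDimensional K W :=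
    FiniteDimensional.span_of_finite K (Set.finite_range v)
  -- the evaluation at the points
  let E : MvPolynomial (Fin m) K →ₗ[K] (Fin p → K) :=
    LinearMap.pi (fun l => (aeval (x' l) : MvPolynomial (Fin m) K →ₐ[K] K).toLinearMap)
  have hE : ∀ P l, E P l = eval (x' l) P := by
    intro P l
    change aeval (x' l) P = eval (x' l) P
    rw [MvPolynomial.aeval_eq_eval]
  let EW : W →ₗ[K] (Fin p → K) := E.domRestrict W
  -- the rank
  have hli : LinearIndependent K (fun k : Fin p => E (v (f' k))) := by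
    have h1 := Matrix.linearIndependent_rows_of_det_ne_zero hdet
    have h2 : (fun k : Fin p => E (v (f' k))) =
        (fun i => Matrix.of (fun k l : Fin p => eval (x' l) (v (f' k))) i) := by
      funext k l
      rw [hE]
      rfl
    rw [h2]
    exact h1
  have hmem : ∀ k : Fin p, E (v (f' k)) ∈ LinearMap.range EW := by
    intro k
    exact ⟨⟨v (f' k), Submodule.subset_span ⟨f' k, rfl⟩⟩, rfl⟩
  have hp : p ≤ Module.finrank K (LinearMap.range EW) := by
    have h3 : LinearIndependent K
        (fun k : Fin p => (⟨E (v (f' k)), hmem k⟩ : LinearMap.range EW)) := by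
      apply LinearIndependent.of_comp (LinearMap.range EW).subtype
      exact hli
    simpa using h3.fintype_card_le_finrank
  have hrn := LinearMap.finrank_range_add_finrank_ker EW
  have hk := Submodule.finrank_map_subtype_eq W (LinearMap.ker EW)
  have hPP : (PP i0 Y).card ≤
      Module.finrank K ((LinearMap.ker EW).map W.subtype : Submodule K _) := by
    apply lead_card mo
    intro M' hM'
    simp only [PP, Finset.mem_biUnion, Finset.mem_image, Finset.mem_filter, Finset.mem_univ,
      true_and] at hM'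
    obtain ⟨M, hM, ⟨a, b⟩, ⟨hab, ha, hb⟩, rfl⟩ := hM'
    simp only at hab ha hb
    obtain ⟨P, hP, hP0, hPM⟩ := hY M hM
    have hXb : (X b : MvPolynomial (Fin m) K) ≠ 0 := X_ne_zero b
    have hXa : (X a : MvPolynomial (Fin m) K) ≠ 0 := X_ne_zero a
    refine ⟨X a * (X b * P), ?_, mul_ne_zero hXa (mul_ne_zero hXb hP0), ?_⟩
    · refine ⟨⟨X a * (X b * P), hG P hP a b⟩, ?_, rfl⟩
      rw [SetLike.mem_coe, LinearMap.mem_ker]
      funext l
      change E (X a * (X b * P)) l = 0
      rw [hE, map_mul, map_mul, eval_X, eval_X, ← mul_assoc, hx l a b hab ha hb, zero_mul]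
    · rw [mo.degree_mul hXa (mul_ne_zero hXb hP0), mo.degree_mul hXb hP0, mo.degree_X,
        mo.degree_X, hPM]
      abel
  omega

/-- THE STAR RESTRICTION.
PROOF. `W = span (range v)`. The linear map `E : W → (Fin p → KA m)`, `P ↦ (eval (x l) P)_l` is surjective: the images of the `v (f' k)` are the rows of an invertible matrix, so they are linearly
independent, `p` of them in a `p`-dimensional space. So `dim W = p + dim ker E` (`LinearMap.finrank_range_add_finrank_ker`). Let `W₁ ≤ MvPolynomial (Fin m) (KA m)` be the submodule of the elements of `W` which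
vanish at all points `x l` (`dim W₁ = dim ker E`, e.g. `W₁ = (ker E).map W.subtype`). For `M' ∈ PP i0 Y`: `M' = M + single i 1 + single j 1` with `i ≠ j`, both `≠ i0`, `M ∈ Y` the leading exponent
of `P ∈ G`, `P ≠ 0`; `X i * (X j * P) ∈ W` has leading exponent `M'` (`MonomialOrder.degree_mul`, `degree_X`) and vanishes at the star points. So `lead_card mo W₁ (PP i0 Y)`. -/
theorem V20 {m p : ℕ} {J : Type} [Fintype J] (i0 : Fin m) (mo : MonomialOrder.{0, 0} (Fin m))
    (v : J → MvPolynomial (Fin m) (KA m)) (G : Submodule (KA m) (MvPolynomial (Fin m) (KA m)))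
    (hG : ∀ P ∈ G, ∀ i j, X i * (X j * P) ∈ Submodule.span (KA m) (Set.range v))
    (f' : Fin p → J) (x : Fin p → Fin m → ℂ) (hx : ∀ l, IsStar i0 (x l))
    (hdet : (Matrix.of (fun k l : Fin p =>
      eval (fun i => algebraMap ℂ (KA m) (x l i)) (v (f' k)))).det ≠ 0)
    (Y : Finset (Fin m →₀ ℕ)) (hY : ∀ M ∈ Y, M ∈ lead mo G) :
    p + (PP i0 Y).card ≤ Module.finrank (KA m) (Submodule.span (KA m) (Set.range v)) := by
  refine V20_aux i0 mo v G hG f' (fun l i => algebraMap ℂ (KA m) (x l i)) ?_ hdet Y hY
  intro l a b hab ha hb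
  change algebraMap ℂ (KA m) (x l a) * algebraMap ℂ (KA m) (x l b) = 0
  rw [← map_mul, hx l a b hab ha hb, map_zero]

end Pool.Agent.DAng
end
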