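import Pool.Agent.Lib.MP_e3689b_an.Mg.G002
import Pool.Agent.Lib.MP_e3689b_an.GL14
import Pool.Agent.Lib.MP_e3689b_an.GL16
import Pool.Agent.Lib.MP_e3689b_an.GL01
import Pool.Agent.Lib.MP_e3689b_an.Mg.G005
import Pool.Agent.Lib.MP_e3689b_an.GL18
import Pool.Agent.Lib.MP_e3689b_an.Mg.G003
import Pool.Agent.Lib.MP_e3689b_an.Mg.G008
import Pool.Agent.Lib.MP_e3689b_an.Mg.G009

section

set_option autoImplicit false

namespace Pool.Agent.DAng

open MvPolynomial

variable {m M : ℕ}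

/-- PROOF. `sat_mono` and `Submodule.span_mono`. -/
theorem FcG_mono (i0 : Fin m) (A B : Set (PV m M)) (h : A ⊆ B) : FcG i0 A ≤ FcG i0 B :=
  fun _ hv => sat_mono _ _ (Submodule.span_mono h) hv

/-- PROOF. `dv (Pi.single i 1) v = fun a => pderiv i (v a)` (`dv` is a sum over the directions). Write `S x = fun a => sgm i0 (x a)`, `D_l x = fun a => pderiv l (x a)`. `S v ∈ sat (span A)`, so
`D_l (S v) ∈ sat (span B)` for all `l` (`sat_D`). For `l ≠ i0`: `D_l (S v) = X i0 • S (D_l v)` (`sgm_pd`), so `S (D_l v) ∈ sat (span B)` (`sat_div`). For `l = i0`: `sgm_pd0`: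
`S (D_{i0} v) = D_{i0} (S v) - ∑_{l ≠ i0} X l • S (D_l v)`. -/
theorem FcG_dv (i0 : Fin m) (A B : Set (PV m M)) (q : MvPolynomial (Fin m) ℂ) (hq : q ≠ 0)
    (hAB : A ⊆ B) (hD : ∀ l, ∀ x ∈ A, q • (fun a => pderiv l (x a)) ∈
      Submodule.span (MvPolynomial (Fin m) ℂ) B) (v : PV m M) (hv : v ∈ FcG i0 A) (i : Fin m) :
    dv (Pi.single i 1) v ∈ FcG i0 B := by
  classical
  have hdv : dv (Pi.single i 1) v = fun a => pderiv i (v a) := by
    funext a
    unfold dv
    rw [Finset.sum_eq_single i]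
    · rw [Pi.single_eq_same, map_one, one_mul]
    · intro j _ hj
      rw [Pi.single_eq_of_ne hj, map_zero, zero_mul]
    · intro h
      exact absurd (Finset.mem_univ _) h
  have hv' : (fun a => sgm i0 (v a)) ∈ sat (Submodule.span (MvPolynomial (Fin m) ℂ) A) := hv
  have h1 : ∀ l, (fun a => pderiv l (sgm i0 (v a))) ∈
      sat (Submodule.span (MvPolynomial (Fin m) ℂ) B) :=
    fun l => sat_D A B q hq l hAB (hD l) _ hv'
  have h2 : ∀ l, l ≠ i0 → (fun a => sgm i0 (pderiv l (v a))) ∈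
      sat (Submodule.span (MvPolynomial (Fin m) ℂ) B) := by
    intro l hl
    refine sat_div _ (X i0) (X_ne_zero _) _ ?_
    have h3 : (X i0 : MvPolynomial (Fin m) ℂ) • (fun a => sgm i0 (pderiv l (v a)) : PV m M) =
        fun a => pderiv l (sgm i0 (v a)) := by
      funext a
      rw [sgm_pd i0 l hl]
      rfl
    rw [h3]
    exact h1 l
  rw [hdv]
  change (fun a => sgm i0 (pderiv i (v a))) ∈ sat (Submodule.span (MvPolynomial (Fin m) ℂ) B)
  by_cases hi : i = i0
  · subst hi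
    have h4 : (fun a => sgm i (pderiv i (v a)) : PV m M) =
        (fun a => pderiv i (sgm i (v a)) : PV m M) - ∑ l ∈ Finset.univ.erase i,
          (X l : MvPolynomial (Fin m) ℂ) • (fun a => sgm i (pderiv l (v a)) : PV m M) := by
      funext a
      rw [Pi.sub_apply, Finset.sum_apply, sgm_pd0]
      simp only [Pi.smul_apply, smul_eq_mul]
      ring
    rw [h4]
    exact Submodule.sub_mem _ (h1 i) (Submodule.sum_mem _ fun l hl =>
      Submodule.smul_mem _ _ (h2 l (Finset.ne_of_mem_erase hl)))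
  · exact h2 i hi

/-- HOMOGENISATION OF A FAMILY. PROOF. `sgm_homv` for each `x i`: `X^E • x i = S (b i)`; `b i ∈ FcG` (`X^E • x i` is in the span, `sat_le`). Linear independence: if `∑ r_i • b i = 0` then
`∑ sgm(r_i) X^{E_i} • x i = 0`, so `sgm (r_i) * X^{E_i} = 0`, `r_i = 0` (`sgm_inj`). -/
theorem FcG_fam {r : ℕ} (i0 : Fin m) (A : Set (PV m M)) (x : Fin r → PV m M)
    (hx : ∀ i, x i ∈ A) (hli : LinearIndependent (MvPolynomial (Fin m) ℂ) x) :
    ∃ b : Fin r → PV m M, LinearIndependent (MvPolynomial (Fin m) ℂ) b ∧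
      ∀ i, b i ∈ FcG i0 A := by
  classical
  choose E b hb using fun i => sgm_homv i0 (x i)
  refine ⟨b, ?_, fun i => ?_⟩
  · rw [Fintype.linearIndependent_iff] at hli ⊢
    intro g hg i
    have h1 : ∑ i, (sgm i0 (g i) * X i0 ^ E i) • x i = 0 := by
      funext a
      rw [Finset.sum_apply]
      have h2 : sgm i0 ((∑ i, g i • b i) a) = 0 := by
        rw [hg]
        exact map_zero _
      rw [Finset.sum_apply, map_sum] at h2
      rw [Pi.zero_apply, ← h2]
      refine Finset.sum_congr rfl fun i _ => ?_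
      simp only [Pi.smul_apply, smul_eq_mul, map_mul]
      rw [← hb i a]
      ring
    have h3 := hli _ h1 i
    have h4 : sgm i0 (g i) = 0 := by
      rcases mul_eq_zero.mp h3 with h | h
      · exact h
      · exact absurd h (pow_ne_zero _ (X_ne_zero _))
    apply sgm_inj i0
    rw [h4, map_zero]
  · change (fun a => sgm i0 (b i a)) ∈ sat (Submodule.span (MvPolynomial (Fin m) ℂ) A)
    have h5 : (fun a => sgm i0 (b i a) : PV m M) =
        (X i0 ^ E i : MvPolynomial (Fin m) ℂ) • x i := by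
      funext a
      exact (hb i a).symm
    rw [h5]
    exact Submodule.smul_mem _ _ (sat_le _ (Submodule.subset_span (hx i)))

end Pool.Agent.DAng
end

section

set_option autoImplicit false

namespace Pool.Agent.DAng

open MvPolynomial

theorem GL17_half {m N M d : ℕ} (F : Option (Fin N) → MvPolynomial (Fin (m + 1)) ℂ)
    (u : ℕ → CR m) (V : Matrix (Fin m) (Fin m) ℂ) (i0 : Fin m)
    (s : Fin M → Option (Fin N) → ℂ) (v : PV m M) (hv : v ∈ FcG i0 (GW d F u V i0 s 0)) :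
    ∃ q : MvPolynomial (Fin m) ℂ, q ≠ 0 ∧ ∀ y : Fin m → ℂ, eval y q ≠ 0 → y i0 ≠ 0 ∧
      ∃ (c : ℂ) (Y : Option (Fin N) → ℂ), c ≠ 0 ∧
        Y ∈ Submodule.span ℂ (Set.range (fun l : ℕ =>
          Ph F V i0 (fun l => if l = i0 then y i0 else y l / y i0) (l + 1))) ∧
        ∀ a, c * eval y (v a) = -S4_B Y (s a) := by
  obtain ⟨p, hp, hpv⟩ := hv
  obtain ⟨E, q1, hq1⟩ := sgm_hom i0 p
  have hX : (X i0 : MvPolynomial (Fin m) ℂ) ≠ 0 := X_ne_zero i0
  have hq1n : q1 ≠ 0 := by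
    rintro rfl
    rw [map_zero] at hq1
    exact mul_ne_zero (pow_ne_zero _ hX) hp hq1
  refine ⟨X i0 * q1, mul_ne_zero hX hq1n, ?_⟩
  intro y hy
  rw [map_mul, eval_X] at hy
  have hy0 : y i0 ≠ 0 := left_ne_zero_of_mul hy
  have hyq : eval y q1 ≠ 0 := right_ne_zero_of_mul hy
  set η : Fin m → ℂ := fun l => if l = i0 then y i0 else y l / y i0 with hη
  have key : ∀ P : MvPolynomial (Fin m) ℂ, eval η (sgm i0 P) = eval y P := by
    intro P
    rw [sgm_eval]
    congr 2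
    funext l
    by_cases hl : l = i0
    · rw [if_pos hl, hl]
      simp only [hη, if_true]
    · rw [if_neg hl]
      simp only [hη, if_true, if_neg hl]
      field_simp
  refine ⟨hy0, eval η p, ?_⟩
  have hpe : eval η p ≠ 0 := by
    intro h0
    apply hyq
    rw [← key, ← hq1, map_mul, h0, mul_zero]
  obtain ⟨Y, hY, hYe⟩ := GL16_span F u V i0 s 0 η _ hpv
  refine ⟨Y, hpe, hY, ?_⟩
  intro a
  rw [← hYe a, ← key (v a)]
  simp only [Pi.smul_apply, smul_eq_mul, map_mul]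

/-- ISOTROPY. PROOF. `p • S v ∈ span (GW 0)`, `p' • S v' ∈ span (GW 0)` with `S v = fun a => sgm i0 (v a)`, `p, p' ≠ 0`. By `sgm_hom`: `X^E p = sgm q₁`, `q₁ ≠ 0`; put `q = X i0 * q₁`, same for `p'`: `q' = X i0 * q₁'`.
`ss_gen` with `q, q'`: let `∑ y_j conj y'_j = 0`, `eval y q ≠ 0`, `eval y' q' ≠ 0`. So `y i0 ≠ 0`; put `η = fun l => if l = i0 then y i0 else y l / y i0`, so that
`eval η (sgm i0 P) = eval y P` for all `P` (`sgm_eval`); `eval η p ≠ 0` (from `eval η (X^E p) = eval y q₁ ≠ 0`). By `GL16_span` at `η` for `p • S v`: `eval η p * eval y (v a) = -S4_B Y (s a)`; same for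
`v'`: `Y'`. `eval (Sum.elim y (conj y')) (prg v v') = ∑_a eval y (v a) * conj (eval y' (v' a))` (`eval_rename`, `S3_evcj`), and
`eval η p * conj (eval η' p') *` this `= ∑_a (-S4_B Y (s a)) * conj (-S4_B Y' (s a)) = -S4_B Y Y' = 0` by `GL02_iso` (`hs.ex`, `GL16_c`, `GL16_SS`) and `GL16_orth`
(`1 + ∑_{l ≠ i0} η_l conj η'_l = (∑_j y_j conj y'_j) / (y_{i0} conj y'_{i0}) = 0`). -/
theorem GL17 {m N M d : ℕ} (hm : 2 ≤ m) (F : Option (Fin N) → MvPolynomial (Fin (m + 1)) ℂ)
    (hQ : Quad F) (u : ℕ → CR m) (V : Matrix (Fin m) (Fin m) ℂ)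
    (hV : V ∈ Matrix.unitaryGroup (Fin m) ℂ) (i0 : Fin m) (s : Fin M → Option (Fin N) → ℂ)
    (hs : Fra F V i0 s) (v v' : PV m M) (hv : v ∈ FcG i0 (GW d F u V i0 s 0))
    (hv' : v' ∈ FcG i0 (GW d F u V i0 s 0)) : ss m ∣ prg v v' := by
  obtain ⟨q, hq, h⟩ := GL17_half F u V i0 s v hv
  obtain ⟨q', hq', h'⟩ := GL17_half F u V i0 s v' hv'
  refine ss_gen hm q q' hq hq' _ ?_
  intro y y' hyy hy hy'
  obtain ⟨hy0, c, Y, hc, hY, hYe⟩ := h y hy
  obtain ⟨hy0', c', Y', hc', hY', hYe'⟩ := h' y' hy'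
  have horth : S4_B Y Y' = 0 := by
    refine GL16_orth F hQ V hV i0 _ _ ?_ Y Y' hY hY'
    have hconj : (starRingEnd ℂ) (y' i0) ≠ 0 := fun h0 => hy0' ((map_eq_zero _).1 h0)
    have e : ∀ l ∈ Finset.univ.erase i0,
        (if l = i0 then y i0 else y l / y i0) *
          (starRingEnd ℂ) (if l = i0 then y' i0 else y' l / y' i0) =
        (y l * (starRingEnd ℂ) (y' l)) / (y i0 * (starRingEnd ℂ) (y' i0)) := by
      intro l hl
      have hne : l ≠ i0 := Finset.ne_of_mem_erase hl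
      rw [if_neg hne, if_neg hne, map_div₀]
      field_simp
    rw [Finset.sum_congr rfl e, ← Finset.sum_div]
    have hsum := Finset.add_sum_erase Finset.univ (fun j => y j * (starRingEnd ℂ) (y' j))
      (Finset.mem_univ i0)
    rw [hyy] at hsum
    have hne : y i0 * (starRingEnd ℂ) (y' i0) ≠ 0 := mul_ne_zero hy0 hconj
    rw [eq_neg_of_add_eq_zero_right hsum]
    field_simp
    ring
  have hBc : S4_B Y (fun j => eval (zz V i0) (F j)) = 0 := GL16_c F hQ V hV i0 _ Y hY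
  have hex := hs.ex Y' (GL16_SS F V hV i0 _ Y' hY')
  have hiso := GL02_iso (fun j => eval (zz V i0) (F j)) s Y Y' hBc hex
  rw [horth, neg_zero] at hiso
  have e2 : ∀ a, (-S4_B Y (s a)) * (starRingEnd ℂ) (-S4_B Y' (s a)) =
      (c * (starRingEnd ℂ) c') * (eval y (v a) * (starRingEnd ℂ) (eval y' (v' a))) := by
    intro a
    rw [← hYe a, ← hYe' a, map_mul]
    ring
  rw [Finset.sum_congr rfl fun a _ => e2 a, ← Finset.mul_sum] at hiso
  have hcc : c * (starRingEnd ℂ) c' ≠ 0 :=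
    mul_ne_zero hc (fun h0 => hc' ((map_eq_zero _).1 h0))
  have hz := (mul_eq_zero.1 hiso).resolve_left hcc
  rw [← hz]
  unfold prg
  rw [map_sum]
  refine Finset.sum_congr rfl fun a _ => ?_
  rw [map_mul]
  congr 1
  · unfold iy
    rw [eval_rename]
    rfl
  · unfold iw
    rw [eval_rename, ← S3_evcj]
    rfl

end Pool.Agent.DAng
end

section

set_option autoImplicit false

namespace Pool.Agent.DAng

open MvPolynomial

/-- PROOF. `ee V i0 x ξ` followed by `eval η` is `eval₂ (eval η ∘ ps) (..)`, and so is `eval₂ (eval η) Y (map ps P)` (`eval₂_map`), `Y = (0, x, ξ + ∑ x_i eval η (ps b_i))`. -/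
theorem GL19_ev {m : ℕ} (V : Matrix (Fin m) (Fin m) ℂ) (i0 : Fin m) (x : Fin m → ℂ) (ξ : ℂ)
    (η : Fin m → ℂ) (Y : Sg m → ℂ) (h0 : Y x0 = 0) (hx : ∀ i, Y (xi i) = x i)
    (h1 : Y x1 = ξ + ∑ i, x i * eval η (ps V i0 (X (Sum.inr i)))) (P : CR m) :
    eval η (ee V i0 x ξ P) =
      eval₂ (eval η) Y (map (ps V i0 : CA m →+* MvPolynomial (Fin m) ℂ) P) := by
  have h : (eval η).comp (ee V i0 x ξ) = (eval₂Hom (eval η) Y).comp
      (map (ps V i0 : CA m →+* MvPolynomial (Fin m) ℂ)) := by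
    apply MvPolynomial.ringHom_ext
    · intro c
      rw [RingHom.comp_apply, RingHom.comp_apply, GL09_C, map_C, eval₂Hom_C]
      rfl
    · intro v
      rw [RingHom.comp_apply, RingHom.comp_apply, map_X, eval₂Hom_X']
      rcases V01_cases v with ⟨i, h⟩ | h | h
      · rw [h, GL09_xi, eval_C, hx]
      · rw [h, GL09_X0, map_zero, h0]
      · rw [h, GL09_X1, map_add, eval_C, map_sum, h1]
        simp only [map_mul, eval_C]
  exact congrArg (fun f => f P) h

/-- PROOF. `ee` at `x i = -conj (V i i0)`, `ξ = 0` (`ω = ∑ V i i0 conj (V i i0) = 1`, `GL16_col`) of `GL08`: the right side is `0 * .. + ee(X_1) * ..` and `ee (X_1) = -∑_i conj (V i i0) ∑_{l ≠ i0} C (V i l) X l = 0`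
(`GL16_col`); the left side is `∑_j C (sg j) ps(vec_j) C (conj (eval zz (F j)))` (`GL09_gam`; the point is `zz V i0`). -/
theorem GL19_c {m N d : ℕ} (F : Option (Fin N) → MvPolynomial (Fin (m + 1)) ℂ)
    (hF : ∀ j, (F j).totalDegree ≤ d) (u : ℕ → CR m) (hu : IsQuot m d F u)
    (V : Matrix (Fin m) (Fin m) ℂ) (hV : V ∈ Matrix.unitaryGroup (Fin m) ℂ) (i0 : Fin m)
    (θ : ℕ → CA m) :
    ∑ j, C (sg j * (starRingEnd ℂ) (eval (zz V i0) (F j))) * ps V i0 (vec d F θ j) = 0 := by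
  have hω : (1 : ℂ) = -∑ i, V i i0 * (-(starRingEnd ℂ) (V i i0)) := by
    have h1 := GL16_col V hV i0 i0
    rw [if_pos rfl] at h1
    simp only [mul_neg, Finset.sum_neg_distrib, neg_neg]
    exact h1.symm
  have h := congrArg (ee V i0 (fun i => -(starRingEnd ℂ) (V i i0)) 0) (GL08 F u hu θ)
  rw [map_sum, map_add, map_mul, map_mul, GL09_X0, zero_mul, zero_add, GL09_X1] at h
  have hX : (C (0 : ℂ) + ∑ i, C (-(starRingEnd ℂ) (V i i0)) * ps V i0 (X (Sum.inr i)) :
      MvPolynomial (Fin m) ℂ) = 0 := by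
    rw [map_zero, zero_add]
    have e : ∀ i, ps V i0 (X (Sum.inr i)) = ∑ l ∈ Finset.univ.erase i0, C (V i l) * X l := by
      intro i
      unfold ps
      rw [aeval_X, Sum.elim_inr]
    simp only [e, Finset.mul_sum]
    rw [Finset.sum_comm]
    refine Finset.sum_eq_zero fun l hl => ?_
    have h2 := GL16_col V hV l i0
    rw [if_neg (Finset.ne_of_mem_erase hl)] at h2
    have h3 : ∑ i, (C (-(starRingEnd ℂ) (V i i0)) * (C (V i l) * X l) :
        MvPolynomial (Fin m) ℂ) = C (-∑ i, V i l * (starRingEnd ℂ) (V i i0)) * X l := by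
      rw [map_neg, map_sum, neg_mul, Finset.sum_mul, ← Finset.sum_neg_distrib]
      refine Finset.sum_congr rfl fun i _ => ?_
      rw [map_neg, map_mul]
      ring
    rw [h3, h2, neg_zero, map_zero, zero_mul]
  rw [hX, zero_mul] at h
  rw [← h]
  refine Finset.sum_congr rfl fun j _ => ?_
  rw [map_mul (ee V i0 (fun i => -(starRingEnd ℂ) (V i i0)) 0), GL09_C,
    GL09_gam V i0 _ 0 1 hω one_ne_zero (F j) (hF j), map_mul (ps V i0)]
  have e1 : ps V i0 (C (sg j)) = C (sg j) := by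
    unfold ps
    rw [aeval_C]
    rfl
  have e2 : (fun i => (starRingEnd ℂ) ((Fin.cons (-0 / 1) (fun i => - -(starRingEnd ℂ) (V i i0) / 1) :
      Fin (m + 1) → ℂ) i)) = zz V i0 := by
    funext i
    refine Fin.cases ?_ (fun i => ?_) i
    · simp [zz]
    · simp [zz]
  rw [e1, e2, one_pow, one_mul, map_mul]
  ring

end Pool.Agent.DAng
end

section

set_option autoImplicit false

namespace Pool.Agent.DAng

open MvPolynomial

/-- INDEPENDENCE. PROOF. Suppose `∑_i r_i • la s (ps ∘ vec (θ i)) = 0`, put `Z_j = ∑_i r_i * ps (vec (θ i) j)`: `la s Z = 0`, i.e. `∑_j C (sg j * conj (s a j)) * Z_j = 0` for all `a`, and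
`∑_j C (sg j * conj (eval zz (F j))) * Z_j = 0` (`GL19_c`). By `hs.ex` for `v = (eval w (F j))_j`, `Zp V i0 w`: `∑_j C (sg j * conj (eval w (F j))) * Z_j = 0` (*).
Put `P = ∑_i C (r_i) * map ps (e0 (H i))` in `MvPolynomial (Sg m) (MvPolynomial (Fin m) ℂ)`; `e0 P = P` (`e0_e0`, `e0` commutes with `map`: induction or `V01`-style). If `P = 0` then `r = 0` by `hli`
(`smul_eq_C_mul`). Otherwise `GL18_pt` with `a = V e_{i0}` gives `η, Y`; `x i = Y (xi i)`, `ω = -∑ V i i0 x i ≠ 0`, `ξ = Y x1 - ∑ x_i eval η (ps b_i)`. Apply `ee V i0 x ξ` to `GL08` for `θ i`, multiply by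
`r_i`, sum: left side `∑_j C (sg j) Z_j C (ω^d conj (eval w (F j))) = 0` by (*) (`GL09_gam`, `GL09_Zp`); right side `∑_i r_i ee(X_1)^{k+1} ee(e0 (H i))` (`GL09_e0`, `GL09_X0`). Apply `eval η`:
`(Y x1)^{k+1} * eval₂ (eval η) Y P = 0` (`GL19_ev`; `eval η (ee X_1) = Y x1`), contradiction. -/
theorem GL19 {m N M d r : ℕ} (F : Option (Fin N) → MvPolynomial (Fin (m + 1)) ℂ)
    (hF : ∀ j, (F j).totalDegree ≤ d) (u : ℕ → CR m) (hu : IsQuot m d F u)
    (V : Matrix (Fin m) (Fin m) ℂ) (hV : V ∈ Matrix.unitaryGroup (Fin m) ℂ) (i0 : Fin m)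
    (s : Fin M → Option (Fin N) → ℂ) (hs : Fra F V i0 s) (k : ℕ) (θ : Fin r → ℕ → CA m)
    (H : Fin r → CR m)
    (h : ∀ i, ∑ l ∈ Finset.range d, C (θ i l) * u l = X x1 ^ k * H i)
    (hli : LinearIndependent (MvPolynomial (Fin m) ℂ)
      (fun i => map (ps V i0 : CA m →+* MvPolynomial (Fin m) ℂ) (e0 (H i)))) :
    LinearIndependent (MvPolynomial (Fin m) ℂ)
      (fun i => la s (fun j => ps V i0 (vec d F (θ i) j))) := by
  classical
  rw [Fintype.linearIndependent_iff]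
  intro c hc
  have hcol := GL16_col V hV i0 i0
  rw [if_pos rfl] at hcol
  set Z : Option (Fin N) → MvPolynomial (Fin m) ℂ :=
    fun j => ∑ i, c i * ps V i0 (vec d F (θ i) j) with hZ
  have hswap : ∀ v : Option (Fin N) → ℂ, ∑ j, C (sg j * (starRingEnd ℂ) (v j)) * Z j =
      ∑ i, c i * ∑ j, C (sg j * (starRingEnd ℂ) (v j)) * ps V i0 (vec d F (θ i) j) := by
    intro v
    simp only [hZ, Finset.mul_sum]
    rw [Finset.sum_comm]
    refine Finset.sum_congr rfl fun i _ => Finset.sum_congr rfl fun j _ => ?_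
    ring
  have hA : ∀ a, ∑ j, C (sg j * (starRingEnd ℂ) (s a j)) * Z j = 0 := by
    intro a
    have h1 := congrFun hc a
    rw [Finset.sum_apply, Pi.zero_apply] at h1
    rw [hswap, ← neg_eq_zero, ← Finset.sum_neg_distrib, ← h1]
    refine Finset.sum_congr rfl fun i _ => ?_
    rw [Pi.smul_apply, smul_eq_mul]
    unfold la
    rw [mul_neg]
  have hB : ∑ j, C (sg j * (starRingEnd ℂ) (eval (zz V i0) (F j))) * Z j = 0 := by
    rw [hswap fun j => eval (zz V i0) (F j)]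
    refine Finset.sum_eq_zero fun i _ => ?_
    rw [GL19_c F hF u hu V hV i0 (θ i), mul_zero]
  have hS : ∀ w, Zp V i0 w → ∑ j, C (sg j * (starRingEnd ℂ) (eval w (F j))) * Z j = 0 := by
    intro w hw
    obtain ⟨α, hα⟩ := hs.ex (fun j => eval w (F j)) (Submodule.subset_span ⟨w, hw, rfl⟩)
    have h1 : ∀ j, C (sg j * (starRingEnd ℂ) (eval w (F j))) * Z j =
        ∑ i, C ((starRingEnd ℂ) (-S4_B (fun j => eval w (F j)) (s i))) *
          (C (sg j * (starRingEnd ℂ) (s i j)) * Z j) +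
        C ((starRingEnd ℂ) α) * (C (sg j * (starRingEnd ℂ) (eval (zz V i0) (F j))) * Z j) := by
      intro j
      have h2 : eval w (F j) = ∑ i, (-S4_B (fun j => eval w (F j)) (s i)) * s i j +
        α * eval (zz V i0) (F j) := hα j
      conv_lhs => rw [h2]
      generalize Z j = z
      rw [map_add, map_sum, mul_add, map_add, add_mul, Finset.mul_sum, map_sum, Finset.sum_mul]
      congr 1
      · refine Finset.sum_congr rfl fun i _ => ?_
        rw [map_mul (starRingEnd ℂ)]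
        simp only [C_mul]
        ring
      · rw [map_mul (starRingEnd ℂ)]
        simp only [C_mul]
        ring
    rw [Finset.sum_congr rfl fun j _ => h1 j, Finset.sum_add_distrib, Finset.sum_comm,
      ← Finset.mul_sum, hB, mul_zero, add_zero]
    refine Finset.sum_eq_zero fun i _ => ?_
    rw [← Finset.mul_sum, hA, mul_zero]
  -- the polynomial in the dual variables
  set P : MvPolynomial (Sg m) (MvPolynomial (Fin m) ℂ) :=
    ∑ i, C (c i) * map (ps V i0 : CA m →+* MvPolynomial (Fin m) ℂ) (e0 (H i)) with hPdef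
  have hmap : ∀ Q : CR m, e0 (map (ps V i0 : CA m →+* MvPolynomial (Fin m) ℂ) Q) =
      map (ps V i0 : CA m →+* MvPolynomial (Fin m) ℂ) (e0 Q) := by
    intro Q
    have h1 : (e0 : MvPolynomial (Sg m) (MvPolynomial (Fin m) ℂ) →ₐ[MvPolynomial (Fin m) ℂ]
        MvPolynomial (Sg m) (MvPolynomial (Fin m) ℂ)).toRingHom.comp
        (map (ps V i0 : CA m →+* MvPolynomial (Fin m) ℂ)) =
        (map (ps V i0 : CA m →+* MvPolynomial (Fin m) ℂ)).comp
          (e0 : CR m →ₐ[CA m] CR m).toRingHom := by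
      apply MvPolynomial.ringHom_ext
      · intro a
        change e0 (map (ps V i0 : CA m →+* MvPolynomial (Fin m) ℂ) (C a)) =
          map (ps V i0 : CA m →+* MvPolynomial (Fin m) ℂ) (e0 (C a))
        rw [V01_e0_C, map_C, V01_e0_C]
      · intro v
        change e0 (map (ps V i0 : CA m →+* MvPolynomial (Fin m) ℂ) (X v)) =
          map (ps V i0 : CA m →+* MvPolynomial (Fin m) ℂ) (e0 (X v))
        rcases V01_cases v with ⟨i, h⟩ | h | h
        · rw [h, V01_e0_xi, map_X, V01_e0_xi]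
        · rw [h, e0_X0, map_X, e0_X0, map_zero]
        · rw [h, e0_X1, map_X, e0_X1]
    exact DFunLike.congr_fun h1 Q
  have he0 : e0 P = P := by
    rw [hPdef, map_sum]
    refine Finset.sum_congr rfl fun i _ => ?_
    rw [map_mul, V01_e0_C, hmap, e0_e0]
  by_cases hP : P = 0
  · refine Fintype.linearIndependent_iff.1 hli c ?_
    rw [← hP, hPdef]
    refine Finset.sum_congr rfl fun i _ => ?_
    rw [smul_eq_C_mul]
  exfalso
  have ha : (fun i => V i i0) ≠ 0 := by
    intro h0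
    have h1 : ∀ i, V i i0 = 0 := fun i => congrFun h0 i
    simp only [h1, zero_mul, Finset.sum_const_zero] at hcol
    exact zero_ne_one hcol
  obtain ⟨η, Y, hY0, hY1, hYω, hYP⟩ := GL18_pt (fun i => V i i0) ha P hP he0
  set x : Fin m → ℂ := fun i => Y (xi i) with hx
  set ω : ℂ := -∑ i, V i i0 * x i with hω
  have hω0 : ω ≠ 0 := neg_ne_zero.2 hYω
  set ξ : ℂ := Y x1 - ∑ i, x i * eval η (ps V i0 (X (Sum.inr i))) with hξ
  have hYx1 : Y x1 = ξ + ∑ i, x i * eval η (ps V i0 (X (Sum.inr i))) := by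
    rw [hξ]
    ring
  set w : Fin (m + 1) → ℂ := fun i => (starRingEnd ℂ)
    ((Fin.cons (-ξ / ω) (fun i => -x i / ω) : Fin (m + 1) → ℂ) i) with hw
  have hwZ : Zp V i0 w := GL09_Zp V i0 x ξ ω hω hω0
  have hCsg : ∀ j, ps V i0 (C (sg j : ℂ)) = C (sg (J := Fin N) j) := by
    intro j
    unfold ps
    rw [aeval_C]
    rfl
  -- the identity for each member
  have hid : ∀ i, ∑ j, C (ω ^ d) * (C (sg j * (starRingEnd ℂ) (eval w (F j))) *
      ps V i0 (vec d F (θ i) j)) = ee V i0 x ξ (X x1) ^ (k + 1) * ee V i0 x ξ (e0 (H i)) := by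
    intro i
    have h1 := congrArg (ee V i0 x ξ) (GL08 F u hu (θ i))
    rw [map_sum, map_add, map_mul, map_mul, GL09_X0, zero_mul, zero_add, h i, map_mul,
      map_pow, ← mul_assoc, ← pow_succ'] at h1
    rw [GL09_e0, ← h1]
    refine Finset.sum_congr rfl fun j _ => ?_
    rw [map_mul (ee V i0 x ξ), GL09_C, GL09_gam V i0 x ξ ω hω hω0 (F j) (hF j),
      map_mul (ps V i0), hCsg]
    rw [C_mul, C_mul]
    ring
  have hzero : ∑ i, c i * (ee V i0 x ξ (X x1) ^ (k + 1) * ee V i0 x ξ (e0 (H i))) = 0 := by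
    have h1 : ∑ i, c i * (ee V i0 x ξ (X x1) ^ (k + 1) * ee V i0 x ξ (e0 (H i))) =
        C (ω ^ d) * ∑ i, c i * ∑ j, C (sg j * (starRingEnd ℂ) (eval w (F j))) *
          ps V i0 (vec d F (θ i) j) := by
      rw [Finset.mul_sum]
      refine Finset.sum_congr rfl fun i _ => ?_
      rw [← hid i, ← Finset.mul_sum]
      ring
    rw [h1, ← hswap fun j => eval w (F j), hS w hwZ, mul_zero]
  have hfin := congrArg (eval η) hzero
  rw [map_sum, map_zero] at hfin
  have hev1 : eval η (ee V i0 x ξ (X x1)) = Y x1 := by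
    rw [GL09_X1, map_add, eval_C, map_sum, hYx1]
    simp only [map_mul, eval_C]
  have h2 : (Y x1) ^ (k + 1) * eval₂ (eval η) Y P = 0 := by
    rw [← hfin]
    have h3 : eval₂ (eval η) Y P = ∑ i, eval η (c i) *
        eval₂ (eval η) Y (map (ps V i0 : CA m →+* MvPolynomial (Fin m) ℂ) (e0 (H i))) := by
      rw [hPdef, eval₂_sum]
      refine Finset.sum_congr rfl fun i _ => ?_
      rw [eval₂_mul, eval₂_C]
    rw [h3, Finset.mul_sum]
    refine Finset.sum_congr rfl fun i _ => ?_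
    rw [map_mul, map_mul, map_pow, hev1, GL19_ev V i0 x ξ η Y hY0 (fun _ => rfl) hYx1]
    ring
  rcases mul_eq_zero.1 h2 with h3 | h3
  · exact hY1 (pow_eq_zero_iff (Nat.succ_ne_zero k) |>.1 h3)
  · exact hYP h3

end Pool.Agent.DAng
end

section

set_option autoImplicit false

namespace Pool.Agent.DAng

open MvPolynomial

/-- EXISTENCE OF THE FRAME. PROOF. `GL02` with `c j = eval (zz V i0) (F j)`, `S = SS F V i0`: `c none ≠ 0` (`hF.ball`, `‖zz‖^2 = ∑ |V i i0|^2 = 1`, `GL16_col`), `S4_B c c = 0` and `S4_B v c = 0` for the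
generators: `hF.quad` at `z = w`, `conj zz` (`Zp`: `∑_i w_{i+1} conj (V i i0) = conj 1 = 1`; `zz 0 = 0`; `S3_evcj`). -/
theorem GL22_frame {m N d : ℕ} (F : Option (Fin N) → MvPolynomial (Fin (m + 1)) ℂ) (hF : Good d F)
    (V : Matrix (Fin m) (Fin m) ℂ) (hV : V ∈ Matrix.unitaryGroup (Fin m) ℂ) (i0 : Fin m) :
    ∃ (M : ℕ) (s : Fin M → Option (Fin N) → ℂ), M + 1 ≤ N ∧ Fra F V i0 s := by
  have hcol := GL16_col V hV i0 i0
  rw [if_pos rfl] at hcol
  have hz0 : zz V i0 0 = 0 := rfl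
  have hzs : ∀ i : Fin m, zz V i0 i.succ = V i i0 := fun i => rfl
  have hc0 : eval (zz V i0) (F none) ≠ 0 := by
    refine hF.ball _ ?_
    rw [Fin.sum_univ_succ, hz0, norm_zero]
    simp only [hzs]
    have h1 : ((∑ i, ‖V i i0‖ ^ 2 : ℝ) : ℂ) = 1 := by
      rw [← hcol]
      push_cast
      refine Finset.sum_congr rfl fun i _ => ?_
      rw [Complex.mul_conj']
    have h2 : (∑ i, ‖V i i0‖ ^ 2 : ℝ) = 1 := by exact_mod_cast h1
    rw [h2]
    norm_num
  have key : ∀ w : Fin (m + 1) → ℂ, Zp V i0 w →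
      S4_B (fun j => eval w (F j)) (fun j => eval (zz V i0) (F j)) = 0 := by
    intro w hw
    have h1 := hF.quad w (fun i => (starRingEnd ℂ) (zz V i0 i)) (by
      rw [Fin.sum_univ_succ, hz0, map_zero, mul_zero, zero_add]
      simp only [hzs]
      have h2 := congrArg (starRingEnd ℂ) hw
      rw [map_sum, map_one] at h2
      rw [← h2]
      refine Finset.sum_congr rfl fun i _ => ?_
      rw [map_mul, Complex.conj_conj]
      ring)
    unfold S4_B
    rw [← h1]
    refine Finset.sum_congr rfl fun j _ => ?_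
    rw [S3_evcj]
  have hzz : Zp V i0 (zz V i0) := by
    unfold Zp
    simp only [hzs]
    exact hcol
  obtain ⟨M, s, hM, hs1, hs2⟩ := GL02 (fun j => eval (zz V i0) (F j)) hc0 (key _ hzz) (SS F V i0) (by
    intro v hv
    unfold SS at hv
    induction hv using Submodule.span_induction with
    | mem v hv =>
      obtain ⟨w, hw, rfl⟩ := hv
      exact key w hw
    | zero => simp [S4_B]
    | add x y _ _ hx hy =>
      have h3 : S4_B (x + y) (fun j => eval (zz V i0) (F j)) =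
          S4_B x (fun j => eval (zz V i0) (F j)) + S4_B y (fun j => eval (zz V i0) (F j)) := by
        unfold S4_B
        rw [← Finset.sum_add_distrib]
        refine Finset.sum_congr rfl fun j _ => ?_
        rw [Pi.add_apply]
        ring
      rw [h3, hx, hy, add_zero]
    | smul a x _ hx =>
      have h3 : S4_B (a • x) (fun j => eval (zz V i0) (F j)) =
          a * S4_B x (fun j => eval (zz V i0) (F j)) := by
        unfold S4_B
        rw [Finset.mul_sum]
        refine Finset.sum_congr rfl fun j _ => ?_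
        rw [Pi.smul_apply, smul_eq_mul]
        ring
      rw [h3, hx, mul_zero])
  exact ⟨M, s, hM, hs1, hs2⟩

end Pool.Agent.DAng
end

section

set_option autoImplicit false

namespace Pool.Agent.DAng

open MvPolynomial

/-- THE GLOBAL PART. PROOF. `d = 0`: `M = 0`, `D = 0`, `r = 0`, `Fc = ⊤`, and `1 ≤ N` (`GL22_frame` for `V = 1`). `d > 0`: `GL04`; `UU d u` is finite dimensional of dimension `d` (`V13_li`, `finrank_span_eq_card`);
`D` from `GL21`; `Δ` from `GL07`; for `k < D` the `θ, H, Δ_k` of `GL20`. `V` from `GL21_V` for the product `Δ * ∏_{k<D} Δ_k` (each factor has nonzero image), `M, s` from `GL22_frame`.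
`Fc j = FcG i0 (GW d F₂ u V i0 s (j - 1))`, `r j = finrank (..U_{j-1}..)` for `1 ≤ j ≤ D` and `0` otherwise. Isotropy: `GL17`. Monotone: `FcG_mono`, `GL06_WW`. Derivatives: `FcG_dv` with
`q = ps V i0 Δ`, `GL12`. Families: `GL19` (members of `GW`), `FcG_fam`; for `r j = 0` the empty family. Sum: `∑_{j ∈ Icc 1 D} r j = ∑_{k<D} ..= d`. -/
theorem GLOB {m N d : ℕ} (hm : 2 ≤ m) (F : Option (Fin N) → MvPolynomial (Fin (m + 1)) ℂ)
    (hF : Good d F) :
    ∃ (M D : ℕ) (r : ℕ → ℕ) (Fc : ℕ → Submodule (MvPolynomial (Fin m) ℂ) (PV m M))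
      (b : ∀ j, Fin (r j) → PV m M), M + 1 ≤ N ∧
      (∀ v ∈ Fc 1, ∀ v' ∈ Fc 1, ss m ∣ prg v v') ∧ (∀ j, 1 ≤ j → Fc (j + 1) ≤ Fc j) ∧
      (∀ j, 1 ≤ j → ∀ v ∈ Fc (j + 1), ∀ i, dv (Pi.single i 1) v ∈ Fc j) ∧
      (∀ j, LinearIndependent (MvPolynomial (Fin m) ℂ) (b j)) ∧ (∀ j i, b j i ∈ Fc j) ∧
      d ≤ ∑ j ∈ Finset.Icc 1 D, r j := by
  classical
  have hm0 : 0 < m := by omega
  rcases Nat.eq_zero_or_pos d with h0 | h0
  · obtain ⟨M, s, hM, _⟩ := GL22_frame F hF 1 (one_mem _) (i00 hm0)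
    refine ⟨0, 0, fun _ => 0, fun _ => ⊤, fun _ => Fin.elim0, by omega, ?_, fun _ _ => le_refl _,
      fun _ _ _ _ _ => Submodule.mem_top, fun _ => linearIndependent_empty_type,
      fun _ i => i.elim0, by omega⟩
    intro v _ v' _
    have h : prg v v' = 0 := by
      unfold prg
      exact Fin.sum_univ_zero _
    rw [h]
    exact dvd_zero _
  · obtain ⟨F₂, u, hF2, hC⟩ := GL04 hm0 h0 F hF
    have hUfin : FiniteDimensional (KA m) (UU d u) :=
      FiniteDimensional.span_of_finite (KA m) (Set.finite_range _)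
    have hUd : Module.finrank (KA m) (UU d u) = d := by
      have h1 := finrank_span_eq_card (V13_li _ hC.li)
      rw [Fintype.card_fin] at h1
      exact h1
    obtain ⟨D, hD⟩ := GL21 (UU d u)
    obtain ⟨Δ, hΔ0, hΔ⟩ := GL07 u hC.li
    choose θ H Δk hΔk hθ hH hli using fun k => GL20 F₂ u hC k
    have hP : Δ * ∏ k ∈ Finset.range D, Δk k ≠ 0 :=
      mul_ne_zero hΔ0 (Finset.prod_ne_zero_iff.2 fun k _ => hΔk k)
    obtain ⟨V, hV, hPV⟩ := GL21_V hm (i00 hm0) _ hP
    rw [map_mul, map_prod] at hPV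
    have hΔV : ps V (i00 hm0) Δ ≠ 0 := left_ne_zero_of_mul hPV
    have hΔkV : ∀ k ∈ Finset.range D, ps V (i00 hm0) (Δk k) ≠ 0 :=
      Finset.prod_ne_zero_iff.1 (right_ne_zero_of_mul hPV)
    obtain ⟨M, s, hM, hs⟩ := GL22_frame F₂ hF2 V hV (i00 hm0)
    obtain ⟨f, hf⟩ : ∃ f : ℕ → ℕ, ∀ k, f k = Module.finrank (KA m) ((Uk (UU d u) k).map
        (e0 (m := m) (B := KA m)).toLinearMap) := ⟨_, fun _ => rfl⟩
    have fam : ∀ j, ∃ (r : ℕ) (b : Fin r → PV m M),
        LinearIndependent (MvPolynomial (Fin m) ℂ) b ∧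
        (∀ i, b i ∈ FcG (i00 hm0) (GW d F₂ u V (i00 hm0) s (j - 1))) ∧
        r = if 1 ≤ j ∧ j ≤ D then f (j - 1) else 0 := by
      intro j
      by_cases hj : 1 ≤ j ∧ j ≤ D
      · have h1 := GL19 F₂ hF2.deg u hC.quot V hV (i00 hm0) s hs (j - 1) (θ (j - 1)) (H (j - 1))
          (hθ (j - 1)) (hli (j - 1) (ps V (i00 hm0) : CA m →+* MvPolynomial (Fin m) ℂ)
            (hΔkV (j - 1) (Finset.mem_range.2 (by omega))))
        obtain ⟨b, hb1, hb2⟩ := FcG_fam (i00 hm0) (GW d F₂ u V (i00 hm0) s (j - 1)) _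
          (fun i => ⟨vec d F₂ (θ (j - 1) i), ⟨θ (j - 1) i, H (j - 1) i, rfl, hθ (j - 1) i,
            hH (j - 1) i⟩, rfl⟩) h1
        exact ⟨_, b, hb1, hb2, by rw [if_pos hj, hf]⟩
      · exact ⟨0, Fin.elim0, linearIndependent_empty_type, fun i => i.elim0, by rw [if_neg hj]⟩
    choose r b hb1 hb2 hr using fam
    refine ⟨M, D, r, fun j => FcG (i00 hm0) (GW d F₂ u V (i00 hm0) s (j - 1)), b, hM, ?_, ?_, ?_,
      hb1, hb2, ?_⟩
    · intro v hv v' hv'
      exact GL17 hm F₂ hF2.quad u V hV (i00 hm0) s hs v v' hv hv'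
    · intro j hj
      obtain ⟨k, rfl⟩ : ∃ k, j = k + 1 := ⟨j - 1, by omega⟩
      apply FcG_mono
      rintro x ⟨v, hv, hx⟩
      exact ⟨v, GL06_WW F₂ u hC k hv, hx⟩
    · intro j hj v hv i
      obtain ⟨k, rfl⟩ : ∃ k, j = k + 1 := ⟨j - 1, by omega⟩
      refine FcG_dv (i00 hm0) (GW d F₂ u V (i00 hm0) s (k + 1)) (GW d F₂ u V (i00 hm0) s k)
        (ps V (i00 hm0) Δ) hΔV ?_ ?_ v hv i
      · rintro x ⟨v, hv, hx⟩
        exact ⟨v, GL06_WW F₂ u hC k hv, hx⟩
      · intro l x hx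
        exact GL12 F₂ u hC hF2.deg V (i00 hm0) s hs.mem Δ hΔ k x hx l
    · have h1 : ∑ j ∈ Finset.Icc 1 D, r j = ∑ k ∈ Finset.range D, f k := by
        refine Finset.sum_nbij' (fun j => j - 1) (fun k => k + 1) ?_ ?_ ?_ ?_ ?_
        · intro j hj
          rw [Finset.mem_Icc] at hj
          exact Finset.mem_range.2 (by omega)
        · intro k hk
          rw [Finset.mem_range] at hk
          exact Finset.mem_Icc.2 (by omega)
        · intro j hj
          rw [Finset.mem_Icc] at hj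
          exact Nat.sub_add_cancel hj.1
        · intro k hk
          exact Nat.add_sub_cancel k 1
        · intro j hj
          rw [Finset.mem_Icc] at hj
          rw [hr j, if_pos hj]
      rw [h1, Finset.sum_congr rfl fun k _ => hf k, ← hD, hUd]

end Pool.Agent.DAng
end
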