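import Pool.Agent.Lib.MP_e3689b_an.Mg.G020
import Pool.Agent.Lib.MP_e3689b_an.VD
import Pool.Agent.Lib.MP_e3689b_an.Mg.G007
import Pool.Agent.Lib.MP_e3689b_an.Mg.G016

section

set_option autoImplicit false

namespace Pool.Agent.DAng

open MvPolynomial

/-- Variant of `S4` (same symbols): the span of `c` and all `v i β` has dimension `≥ |ι| (ρ - 1) + 1`.
PROOF. `W` = the span, `π = S4_pi c`. As in the proof of `S4` the subspaces `p i = range (T i)`, `T i = (S4_pi c).comp (Fintype.linearCombination ℂ (v i))`, are mutually orthogonal of dimension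
`≥ ρ - 1` (`S4_rank`), and contained in `π(W)`; the union of orthonormal bases is linearly independent in `π(W)`, so `dim π(W) ≥ |ι| (ρ - 1)` (copy from S4.lean). `π c = 0` and `0 ≠ c ∈ W`, so the kernel of
`π` on `W` has dimension `≥ 1`; rank-nullity for `(S4_pi c).domRestrict W`. -/
theorem V15 {N ρ : ℕ} {ι : Type} [Fintype ι] (c : Option (Fin N) → ℂ) (hc0 : c none ≠ 0)
    (hc : ∑ j, sg j * (c j * (starRingEnd ℂ) (c j)) = 0)
    (v : ι → Fin ρ → Option (Fin N) → ℂ) (hli : ∀ i, LinearIndependent ℂ (v i))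
    (hvc : ∀ i β, ∑ j, sg j * (v i β j * (starRingEnd ℂ) (c j)) = 0)
    (hvv : ∀ i i' β β', i ≠ i' → ∑ j, sg j * (v i β j * (starRingEnd ℂ) (v i' β' j)) = 0) :
    Fintype.card ι * (ρ - 1) + 1 ≤
      Module.finrank ℂ (Submodule.span ℂ (insert c (Set.range (fun p : ι × Fin ρ => v p.1 p.2)))) := by
  classical
  have hc' : S4_B c c = 0 := hc
  obtain ⟨W, hW⟩ : ∃ W, W = Submodule.span ℂ (insert c (Set.range (fun p : ι × Fin ρ => v p.1 p.2))) :=
    ⟨_, rfl⟩
  rw [← hW]
  obtain ⟨T, hT⟩ : ∃ T : ι → ((Fin ρ → ℂ) →ₗ[ℂ] EuclideanSpace ℂ (Fin N)),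
      ∀ i, T i = (S4_pi c).comp (Fintype.linearCombination ℂ (v i)) := ⟨_, fun _ => rfl⟩
  have hTa : ∀ i a, T i a = S4_pi c (∑ β, a β • v i β) := by
    intro i a
    rw [hT, LinearMap.comp_apply, Fintype.linearCombination_apply]
  have hBc : ∀ i (a : Fin ρ → ℂ), S4_B (∑ β, a β • v i β) c = 0 := by
    intro i a
    rw [S4_B_lin]
    refine Finset.sum_eq_zero fun β _ => ?_
    have h1 : S4_B (v i β) c = 0 := hvc i β
    rw [h1, mul_zero]
  have hBB : ∀ i i' (a a' : Fin ρ → ℂ), i ≠ i' →
      S4_B (∑ β, a β • v i β) (∑ β, a' β • v i' β) = 0 := by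
    intro i i' a a' hii
    rw [S4_B_lin]
    refine Finset.sum_eq_zero fun β _ => ?_
    have h1 : S4_B (v i β) (∑ β, a' β • v i' β) = 0 := by
      rw [S4_B_conj, S4_B_lin]
      rw [Finset.sum_eq_zero, map_zero]
      intro β' _
      have h2 : S4_B (v i' β') (v i β) = 0 := hvv i' i β' β hii.symm
      rw [h2, mul_zero]
    rw [h1, mul_zero]
  have hin2 : ∀ i i' (a a' : Fin ρ → ℂ), i ≠ i' → inner ℂ (T i a) (T i' a') = 0 := by
    intro i i' a a' hii
    rw [PiLp.inner_apply, hTa, hTa]
    have h1 := S4_inner hc0 hc' (hBc i' a') (hBc i a) (hBB i' i a' a hii.symm)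
    rw [← h1]
    refine Finset.sum_congr rfl fun j _ => ?_
    rw [RCLike.inner_apply]
  have hV : OrthogonalFamily ℂ (fun i => LinearMap.range (T i))
      (fun i => (LinearMap.range (T i)).subtypeₗᵢ) := by
    intro o o' hoo x y
    obtain ⟨a, ha⟩ := x.2
    obtain ⟨a', ha'⟩ := y.2
    change inner ℂ (x : EuclideanSpace ℂ (Fin N)) (y : EuclideanSpace ℂ (Fin N)) = 0
    rw [← ha, ← ha']
    exact hin2 o o' a a' hoo
  have hON := hV.orthonormal_sigma_orthonormal
    (v_family := fun o => ⇑(stdOrthonormalBasis ℂ (LinearMap.range (T o))))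
    (fun o => (stdOrthonormalBasis ℂ (LinearMap.range (T o))).orthonormal)
  have hli2 := hON.linearIndependent
  have hle : ∀ i, LinearMap.range (T i) ≤ W.map (S4_pi c) := by
    rintro i _ ⟨a, rfl⟩
    rw [hTa]
    refine Submodule.mem_map_of_mem ?_
    refine Submodule.sum_mem _ fun β _ => Submodule.smul_mem _ _ ?_
    rw [hW]
    exact Submodule.subset_span (Or.inr ⟨(i, β), rfl⟩)
  have hcard : Fintype.card ι * (ρ - 1) ≤ Module.finrank ℂ (W.map (S4_pi c)) := by
    have h1 : LinearIndependent ℂ (fun x : (Σ i, Fin (Module.finrank ℂ (LinearMap.range (T i)))) =>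
        (⟨((stdOrthonormalBasis ℂ (LinearMap.range (T x.1))) x.2 : EuclideanSpace ℂ (Fin N)),
          hle x.1 (Subtype.mem _)⟩ : W.map (S4_pi c))) := by
      apply LinearIndependent.of_comp (W.map (S4_pi c)).subtype
      exact hli2
    have h2 := h1.fintype_card_le_finrank
    rw [Fintype.card_sigma] at h2
    simp only [Fintype.card_fin] at h2
    have h4 := Finset.sum_le_sum fun (i : ι) (_ : i ∈ Finset.univ) =>
      (show ρ - 1 ≤ Module.finrank ℂ (LinearMap.range (T i)) from by rw [hT]; exact S4_rank (hli i))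
    rw [Finset.sum_const, Finset.card_univ, smul_eq_mul] at h4
    exact h4.trans h2
  have hcW : c ∈ W := by
    rw [hW]
    exact Submodule.subset_span (Or.inl rfl)
  have hrn := LinearMap.finrank_range_add_finrank_ker ((S4_pi c).domRestrict W)
  have hrange : LinearMap.range ((S4_pi c).domRestrict W) = W.map (S4_pi c) :=
    LinearMap.range_domRestrict W (S4_pi c)
  rw [hrange] at hrn
  have hpc : S4_pi c c = 0 := by
    ext j
    rw [S4_pi_apply, div_self hc0, one_mul, sub_self]
    rfl
  have hne : LinearMap.ker ((S4_pi c).domRestrict W) ≠ ⊥ := by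
    intro h0
    have h1 : (⟨c, hcW⟩ : W) ∈ LinearMap.ker ((S4_pi c).domRestrict W) := by
      rw [LinearMap.mem_ker, LinearMap.domRestrict_apply]
      exact hpc
    rw [h0, Submodule.mem_bot] at h1
    apply hc0
    have h2 := congrArg (fun x : W => (x : Option (Fin N) → ℂ) none) h1
    exact h2
  have hker : Module.finrank ℂ (LinearMap.ker ((S4_pi c).domRestrict W)) ≠ 0 := fun h =>
    hne (Submodule.finrank_eq_zero.1 h)
  omega

end Pool.Agent.DAng
end

section

set_option autoImplicit false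

namespace Pool.Agent.DAng

open MvPolynomial

/-- The values of `F` on the lines `x + t y_i` span a space of dimension `≥ |ι| (ρ - 1) + 1`.
PROOF. `V15` with `c j = eval x (F j)`, `v i β j = (lin x (y i) (F j)).coeff (g β)`: the hypotheses are verified exactly as in the proof of `S5` (S5.lean: `S3` and the nonvanishing minors). The vectors `c` and
`v i β` lie in the span of the values (`c`: the point `x`; `v i β`: `V17` for `G j = lin x (y i) (F j)` and `lin_eval`), so the dimension of their span is at most the dimension of that span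
(`Submodule.finrank_mono`, `Submodule.span_le`). -/
theorem V18 {m N ρ : ℕ} {ι : Type} [Fintype ι] [DecidableEq ι]
    (F : Option (Fin N) → MvPolynomial (Fin (m + 1)) ℂ) (hQ : Quad F)
    (x : Fin (m + 1) → ℂ) (y : ι → Fin (m + 1) → ℂ) (hq : eval x (F none) ≠ 0)
    (hxx : ∑ k, x k * (starRingEnd ℂ) (x k) = 1)
    (hxy : ∀ i, ∑ k, x k * (starRingEnd ℂ) (y i k) = 0)
    (hyx : ∀ i, ∑ k, y i k * (starRingEnd ℂ) (x k) = 0)
    (hyy : ∀ i i', i ≠ i' → ∑ k, y i k * (starRingEnd ℂ) (y i' k) = 0)
    (f : Fin ρ → Option (Fin N)) (g : Fin ρ → ℕ) (h : ∀ i, mnr F f g x (y i) ≠ 0) :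
    Fintype.card ι * (ρ - 1) + 1 ≤ Module.finrank ℂ (Submodule.span ℂ (Set.range
      (fun (z : {z : Fin (m + 1) → ℂ // z = x ∨ ∃ i t, z = fun k => x k + t * y i k})
        (j : Option (Fin N)) => eval z.1 (F j)))) := by
  classical
  have hexp : ∀ (u w : Fin (m + 1) → ℂ) (s t : ℂ),
      ∑ k, (x k + s * u k) * (starRingEnd ℂ) (x k + t * w k) =
        ∑ k, x k * (starRingEnd ℂ) (x k) + (starRingEnd ℂ) t * ∑ k, x k * (starRingEnd ℂ) (w k)
          + s * ∑ k, u k * (starRingEnd ℂ) (x k)
          + s * (starRingEnd ℂ) t * ∑ k, u k * (starRingEnd ℂ) (w k) := by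
    intro u w s t
    rw [Finset.mul_sum, Finset.mul_sum, Finset.mul_sum, ← Finset.sum_add_distrib,
      ← Finset.sum_add_distrib, ← Finset.sum_add_distrib]
    refine Finset.sum_congr rfl fun k _ => ?_
    rw [map_add, map_mul]
    ring
  have hc1 : ∀ (G : MvPolynomial (Fin (m + 1)) ℂ), (lin x 0 G).coeff 0 = eval x G := by
    intro G
    rw [Polynomial.coeff_zero_eq_eval_zero, lin_eval]
    have h1 : (fun i => x i + 0 * (0 : Fin (m + 1) → ℂ) i) = x := by
      funext i
      rw [zero_mul, add_zero]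
    rw [h1]
  have key := V15 (ι := ι) (ρ := ρ) (fun j => eval x (F j)) hq
    (by
      have h1 := S3 F hQ x 0 x 0 (fun s t => by
        rw [hexp, hxx]
        simp) 0 0
      simp only [hc1] at h1
      exact h1)
    (fun i β j => (lin x (y i) (F j)).coeff (g β))
    (by
      intro i
      rw [Fintype.linearIndependent_iff]
      intro a ha
      have h1 : (Matrix.of (fun α β : Fin ρ => (lin x (y i) (F (f α))).coeff (g β))).mulVec a = 0 := by
        funext α
        have h2 := congrFun ha (f α)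
        simp only [Finset.sum_apply, Pi.smul_apply, smul_eq_mul] at h2
        have h20 : ∑ x_1, a x_1 * (lin x (y i) (F (f α))).coeff (g x_1) = 0 := h2
        rw [Matrix.mulVec, dotProduct]
        simp only [Matrix.of_apply, Pi.zero_apply]
        rw [← h20]
        exact Finset.sum_congr rfl fun β _ => mul_comm _ _
      have h3 := Matrix.eq_zero_of_mulVec_eq_zero (h i) h1
      intro β
      rw [h3]
      rfl)
    (by
      intro i β
      have h1 := S3 F hQ x (y i) x 0 (fun s t => by
        rw [hexp, hxx, hyx]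
        simp) (g β) 0
      simp only [hc1] at h1
      exact h1)
    (by
      intro i i' β β' hii
      exact S3 F hQ x (y i) x (y i') (fun s t => by
        rw [hexp, hxx, hyx, hxy, hyy i i' hii]
        simp) (g β) (g β'))
  refine key.trans (Submodule.finrank_mono (Submodule.span_le.2 ?_))
  rintro w (rfl | ⟨⟨i, β⟩, rfl⟩)
  · exact Submodule.subset_span ⟨⟨x, Or.inl rfl⟩, rfl⟩
  · have h1 := V17 (fun j => lin x (y i) (F j)) (g β)
    refine Submodule.span_mono ?_ h1
    rintro _ ⟨t, rfl⟩
    refine ⟨⟨fun k => x k + t * y i k, Or.inr ⟨i, t, rfl⟩⟩, ?_⟩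
    funext j
    exact (lin_eval x (y i) (F j) t).symm

end Pool.Agent.DAng
end
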