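import Pool.Agent.Lib.MP_e3689b_an.Mg.G002
import Pool.Agent.Lib.MP_e3689b_an.Mg.G004
import Pool.Agent.Lib.MP_e3689b_an.Mg.G011
import Pool.Agent.Lib.MP_e3689b_an.Mg.G021
import Pool.Agent.Lib.MP_e3689b_an.Mg.G023
import Pool.Agent.Lib.MP_e3689b_an.Mg.G009
import Pool.Agent.Lib.MP_e3689b_an.Mg.G005
import Pool.Agent.Lib.MP_e3689b_an.Mg.G003
import Pool.Agent.Lib.MP_e3689b_an.Mg.G014

section

set_option autoImplicit false

namespace Pool.Agent.DAng

open MvPolynomial

private theorem V09_io_Pik {m N d : ℕ} (F : Option (Fin N) → MvPolynomial (Fin (m + 1)) ℂ) (k : ℕ) :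
    kap (io (Pik m d F k)) = ∑ j, algebraMap (CA m) (KA m) (C (sg j) * (phi m (F j)).coeff k) •
      kap (io (gam m d (F j))) := by
  unfold Pik
  rw [map_sum, map_sum]
  refine Finset.sum_congr rfl fun j _ => ?_
  rw [map_mul, map_mul, io_C, ← MvPolynomial.algebraMap_eq, AlgHom.commutes, ← Algebra.smul_def]

private theorem V09_zero {m N d : ℕ} (F : Option (Fin N) → MvPolynomial (Fin (m + 1)) ℂ)
    (u : ℕ → CR m) (hu : IsQuot m d F u) (k : ℕ) : kap (io (Pik m d F k)) = 0 := by
  obtain ⟨-, h1, h2⟩ := hu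
  rw [io_kap]
  have h3 : kap (Pik m d F k) = 0 := by
    cases k with
    | zero => rw [h1, map_mul, kap_X0, zero_mul]
    | succ k => rw [h2, map_add, map_mul, map_mul, kap_X0, kap_X1, zero_mul, zero_mul, add_zero]
  rw [h3, map_zero]

private theorem V09_sg {m N : ℕ} (j : Option (Fin N)) :
    algebraMap (CA m) (KA m) (C (sg j)) ≠ 0 := by
  intro h
  have h1 := (map_eq_zero_iff _ (IsFractionRing.injective (CA m) (KA m))).1 h
  rw [MvPolynomial.C_eq_zero] at h1
  unfold sg at h1
  cases j <;> simp at h1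

/-- `dim FF + ρ ≤ N + 1` if some minor of size `ρ` of the coefficient matrix does not vanish.
PROOF. Let `K = KA m`, `T : (Option (Fin N) → K) →ₗ[K] MvPolynomial (Fin m) K`, `T c = ∑_j c_j • kap (io (gam F_j))` (`Fintype.linearCombination K _`); its range is `FF` (`Fintype.range_linearCombination`).
For `β : Fin ρ` let `w β j = algebraMap (C (sg j) * (phi m (F j)).coeff (g β))`. `T (w β) = kap (io (Pik (g β))) = 0` because `Pik 0 = X_0 u_0`, `Pik (k+1) = X_0 u_{k+1} + X_1 u_k` (`io_kap`, `kap_X0`, `kap_X1`).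
The `w β` are linearly independent: a relation restricted to the coordinates `f α` (divide by the sign) is a relation between the columns of the matrix
`(phi m (F (f α))).coeff (g β)` mapped to `K`, whose determinant is not zero (`Matrix.eq_zero_of_mulVec_eq_zero`, see the end of S5.lean). So `dim ker T ≥ ρ` and
`dim FF = dim range T = N + 1 - dim ker T` (`LinearMap.finrank_range_add_finrank_ker`, `Fintype.card_option`). -/
theorem V09 {m N d ρ : ℕ} (F : Option (Fin N) → MvPolynomial (Fin (m + 1)) ℂ) (u : ℕ → CR m)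
    (hu : IsQuot m d F u) (f : Fin ρ → Option (Fin N)) (g : Fin ρ → ℕ)
    (h : (Matrix.of (fun α β : Fin ρ => (phi m (F (f α))).coeff (g β))).det ≠ 0) :
    Module.finrank (KA m) (FF d F) + ρ ≤ N + 1 := by
  classical
  obtain ⟨v, hv⟩ : ∃ v : Option (Fin N) → MvPolynomial (Fin m) (KA m),
    v = fun j => kap (io (gam m d (F j))) := ⟨_, rfl⟩
  obtain ⟨w, hw⟩ : ∃ w : Fin ρ → Option (Fin N) → KA m,
    w = fun β j => algebraMap (CA m) (KA m) (C (sg j) * (phi m (F j)).coeff (g β)) := ⟨_, rfl⟩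
  have hrange : LinearMap.range (Fintype.linearCombination (KA m) v) = FF d F := by
    rw [Fintype.range_linearCombination, hv]
    rfl
  have hker : ∀ β, w β ∈ LinearMap.ker (Fintype.linearCombination (KA m) v) := by
    intro β
    rw [LinearMap.mem_ker, Fintype.linearCombination_apply, ← V09_zero F u hu (g β), V09_io_Pik,
      hw, hv]
  have hli : LinearIndependent (KA m) w := by
    rw [Fintype.linearIndependent_iff]
    intro a ha
    have h1 : ((Matrix.of (fun α β : Fin ρ => (phi m (F (f α))).coeff (g β))).map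
        (algebraMap (CA m) (KA m))).mulVec a = 0 := by
      funext α
      have h2 := congrFun ha (f α)
      simp only [Finset.sum_apply, Pi.smul_apply, smul_eq_mul, Pi.zero_apply] at h2
      have h3 : algebraMap (CA m) (KA m) (C (sg (f α))) *
          ∑ β, algebraMap (CA m) (KA m) ((phi m (F (f α))).coeff (g β)) * a β = 0 := by
        rw [← h2, Finset.mul_sum]
        refine Finset.sum_congr rfl fun β _ => ?_
        have h7 : w β (f α) = algebraMap (CA m) (KA m) (C (sg (f α))) *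
            algebraMap (CA m) (KA m) ((phi m (F (f α))).coeff (g β)) := by
          rw [hw]
          exact map_mul _ _ _
        rw [h7]
        ring
      exact (mul_eq_zero.1 h3).resolve_left (V09_sg (f α))
    have h4 : ((Matrix.of (fun α β : Fin ρ => (phi m (F (f α))).coeff (g β))).map
        (algebraMap (CA m) (KA m))).det ≠ 0 := by
      have h5 : ((Matrix.of (fun α β : Fin ρ => (phi m (F (f α))).coeff (g β))).map
          (algebraMap (CA m) (KA m))).det = algebraMap (CA m) (KA m)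
            (Matrix.of (fun α β : Fin ρ => (phi m (F (f α))).coeff (g β))).det :=
        (RingHom.map_det _ _).symm
      rw [h5]
      intro h6
      exact h ((map_eq_zero_iff _ (IsFractionRing.injective (CA m) (KA m))).1 h6)
    intro β
    exact congrFun (Matrix.eq_zero_of_mulVec_eq_zero h4 h1) β
  have hli' : LinearIndependent (KA m)
      (fun β => (⟨w β, hker β⟩ : LinearMap.ker (Fintype.linearCombination (KA m) v))) :=
    LinearIndependent.of_comp (LinearMap.ker (Fintype.linearCombination (KA m) v)).subtype hli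
  have h1 := hli'.fintype_card_le_finrank
  rw [Fintype.card_fin] at h1
  have h2 := LinearMap.finrank_range_add_finrank_ker (Fintype.linearCombination (KA m) v)
  rw [hrange, Module.finrank_fintype_fun_eq_card, Fintype.card_option, Fintype.card_fin] at h2
  omega

end Pool.Agent.DAng
end

section

set_option autoImplicit false

namespace Pool.Agent.DAng

open MvPolynomial

/-- the values of the dual variables: `X_0 = X_1 = 0`, `X_i = x i` -/
noncomputable def xst {m : ℕ} (x : Fin m → ℂ) : Sg m → ℂ := fun v => Sum.elim x (fun _ => 0) (ofLex v)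

/-- PROOF. Both sides are ring homomorphisms in `P : CR m`, agreeing on the constants (`evA a b c`) and on the variables. -/
theorem V19_kap {m : ℕ} (a b x : Fin m → ℂ) (P : CR m) :
    evA a b (eval (fun i => (C (x i) : CA m)) (kap P)) = evR a b (xst x) P := by
  obtain ⟨φ, hφ⟩ : ∃ φ : CR m →+* ℂ, ∀ P, φ P =
      evA a b (eval (fun i => (C (x i) : CA m)) (kap P)) :=
    ⟨(evA a b).comp ((eval (fun i => (C (x i) : CA m))).comp
      (kap : CR m →ₐ[CA m] MvPolynomial (Fin m) (CA m)).toRingHom), fun _ => rfl⟩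
  rw [← hφ]
  have h : φ = evR a b (xst x) := by
    refine MvPolynomial.ringHom_ext (fun c => ?_) (fun v => ?_)
    · have h1 : kap (C c : CR m) = C c := (kap (B := CA m)).commutes c
      rw [hφ, h1, eval_C, evR, coe_eval₂Hom, eval₂_C]
    · have h1 : kap (X v : CR m) = Sum.elim (fun i : Fin m => X i) (fun _ => 0) (ofLex v) := by
        rw [kap, aeval_X]
      have h2 : evR a b (xst x) (X v) = Sum.elim x (fun _ => 0) (ofLex v) := by
        rw [evR, coe_eval₂Hom, eval₂_X]
        rfl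
      rw [hφ, h1, h2]
      cases ofLex v with
      | inl i =>
        rw [Sum.elim_inl, Sum.elim_inl, eval_X]
        unfold evA
        rw [eval_C]
      | inr i =>
        rw [Sum.elim_inr, Sum.elim_inr, map_zero, map_zero]
  rw [h]

/-- PROOF. `io_kap`; `eval` of `io Q = map (algebraMap) Q` at the image of a point is the image of the value (`eval_map`, `eval₂_comp`..., `IsScalarTower.algebraMap_apply ℂ (CA m) (KA m)`). -/
theorem V19_io {m : ℕ} (x : Fin m → ℂ) (P : CR m) :
    eval (fun i => algebraMap ℂ (KA m) (x i)) (kap (io P)) =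
      algebraMap (CA m) (KA m) (eval (fun i => (C (x i) : CA m)) (kap P)) := by
  rw [io_kap]
  obtain ⟨Q, hQ⟩ : ∃ Q, Q = kap P := ⟨_, rfl⟩
  rw [← hQ]
  have h0 : ∀ i, algebraMap ℂ (KA m) (x i) = algebraMap (CA m) (KA m) (C (x i)) := by
    intro i
    rw [IsScalarTower.algebraMap_apply ℂ (CA m) (KA m), algebraMap_eq]
  simp only [h0]
  rw [io, eval_map]
  have h := eval₂_comp_left (algebraMap (CA m) (KA m)) (RingHom.id (CA m))
    (fun i => (C (x i) : CA m)) Q
  rw [RingHom.comp_id] at h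
  exact h.symm

/-- PROOF. `gam_eval`: `w_0 = X_0 - ∑ a_i X_i = 0 + conj (z (i00.succ)) = 1` (`z (i00.succ) = 1`), `w_1 - part: X_1 - ∑ b_i X_i = 0 = conj (z 0)` and `- X_i = conj (z i.succ)`; `S3_evcj`. -/
theorem V19_gam {m d : ℕ} (hm : 0 < m) (G : MvPolynomial (Fin (m + 1)) ℂ) (hG : G.totalDegree ≤ d)
    (z : Fin (m + 1) → ℂ) (h0 : z 0 = 0) (h1 : z (i00 hm).succ = 1) :
    evR (a00 hm) 0 (xst (fun i => - (starRingEnd ℂ) (z i.succ))) (gam m d G) =
      (starRingEnd ℂ) (eval z G) := by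
  obtain ⟨y, hy⟩ : ∃ y : Fin m → ℂ, y = fun i => - (starRingEnd ℂ) (z i.succ) := ⟨_, rfl⟩
  rw [← hy]
  have hX : ∀ v : Sg m, evR (a00 hm) 0 (xst y) (X v) = Sum.elim y (fun _ => 0) (ofLex v) := by
    intro v
    rw [evR, coe_eval₂Hom, eval₂_X]
    rfl
  have hXi : ∀ i : Fin m, evR (a00 hm) 0 (xst y) (X (xi i)) = y i := fun i => hX (xi i)
  have hX0 : evR (a00 hm) 0 (xst y) (X x0) = 0 := hX x0
  have hX1 : evR (a00 hm) 0 (xst y) (X x1) = 0 := hX x1
  have hCC : ∀ c : CA m, evR (a00 hm) 0 (xst y) (C c) = evA (a00 hm) 0 c := by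
    intro c
    rw [evR, coe_eval₂Hom, eval₂_C]
  have hw0 : evR (a00 hm) 0 (xst y) (w0 m) = 1 := by
    unfold w0
    rw [map_sub, map_sum, hX0]
    have h : ∀ i : Fin m, evR (a00 hm) 0 (xst y) (C (X (Sum.inl i)) * X (xi i)) =
        (if i = i00 hm then y i else 0) := by
      intro i
      rw [map_mul, hCC, hXi, evA, eval_X, Sum.elim_inl, a00, Pi.single_apply]
      split_ifs
      · rw [one_mul]
      · rw [zero_mul]
    rw [Finset.sum_congr rfl fun i _ => h i, Finset.sum_ite_eq' Finset.univ (i00 hm) y,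
      if_pos (Finset.mem_univ _), hy]
    simp only [h1, map_one]
    ring
  have hw : (fun i => - evR (a00 hm) 0 (xst y) (ww m i) / 1) = fun i => (starRingEnd ℂ) (z i) := by
    funext i
    refine Fin.cases ?_ (fun j => ?_) i
    · unfold ww
      rw [Fin.cons_zero, map_sub, map_sum, hX1, h0]
      have h : ∀ i : Fin m, evR (a00 hm) 0 (xst y) (C (X (Sum.inr i)) * X (xi i)) = 0 := by
        intro i
        rw [map_mul, hCC, evA, eval_X, Sum.elim_inr, Pi.zero_apply, zero_mul]
      rw [Finset.sum_congr rfl fun i _ => h i, Finset.sum_const_zero, map_zero]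
      ring
    · unfold ww
      rw [Fin.cons_succ, hXi, hy]
      ring
  rw [gam_eval G hG (a00 hm) 0 (xst y) (by rw [hw0]; exact one_ne_zero), hw0, one_pow, one_mul,
    hw, S3_evcj]

theorem V19_sum {m : ℕ} (i j : Fin (m + 1)) :
    ∑ k, ev i k * (starRingEnd ℂ) (ev j k) = if i = j then 1 else 0 := by
  have h : ∀ k, ev i k * (starRingEnd ℂ) (ev j k) = if k = i then (if i = j then 1 else 0) else 0 := by
    intro k
    unfold ev
    rw [Pi.single_apply, Pi.single_apply]
    by_cases hk : k = i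
    · subst hk
      by_cases hj : k = j
      · simp [hj]
      · simp [hj]
    · simp [hk]
  rw [Finset.sum_congr rfl fun k _ => h k, Finset.sum_ite_eq' Finset.univ i,
    if_pos (Finset.mem_univ _)]

/-- THE STAR. There are `p = (m-1)(ρ-1) + 1` star points at which some minor of size `p` of the `kap (gam F_j)` does not vanish.
PROOF. `V18` with `ι = {i : Fin m // i ≠ i00 hm}` (`card = m - 1`), `x = ev (i00 hm).succ`, `y i = ev i.1.succ` (orthonormal vectors; `F none` at `x`: `hF.ball`). `V10_sel` gives `f'` and points `z l` with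
`det (eval (z l) (F (f' k))) ≠ 0`. All `z l` have `z l 0 = 0`, `z l (i00).succ = 1` and at most one further nonzero coordinate. Put `x l i = - conj (z l i.succ)` (a star point). By `V19_io` the matrix is
`algebraMap` of `D k l = eval (C ∘ x l) (kap (gam F_{f' k}))`, and `evA (a00 hm) 0 (D k l) = conj (eval (z l) (F (f' k)))` by `V19_kap`, `V19_gam`. So `evA .. (det D) = conj (det ..) ≠ 0`
(`RingHom.map_det`), `det D ≠ 0`, and its image in the fraction field is not `0`. -/
theorem V19 {m N ρ d : ℕ} (hm : 0 < m) (F : Option (Fin N) → MvPolynomial (Fin (m + 1)) ℂ)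
    (hF : Good d F) (f : Fin ρ → Option (Fin N)) (g : Fin ρ → ℕ)
    (h : ∀ i, i ≠ (i00 hm).succ → mnr F f g (ev (i00 hm).succ) (ev i) ≠ 0) :
    ∃ (f' : Fin ((m - 1) * (ρ - 1) + 1) → Option (Fin N))
      (x : Fin ((m - 1) * (ρ - 1) + 1) → Fin m → ℂ), (∀ l, IsStar (i00 hm) (x l)) ∧
      (Matrix.of (fun k l : Fin ((m - 1) * (ρ - 1) + 1) =>
        eval (fun i => algebraMap ℂ (KA m) (x l i)) (kap (io (gam m d (F (f' k))))))).det ≠ 0 := by
  classical
  have hcard : Fintype.card {i : Fin m // i ≠ i00 hm} = m - 1 := by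
    rw [Fintype.card_subtype_compl, Fintype.card_fin, Fintype.card_subtype_eq]
  have h18 := V18 (ι := {i : Fin m // i ≠ i00 hm}) F hF.quad (ev (i00 hm).succ)
    (fun i => ev i.1.succ)
    (hF.ball _ (by
      have h1 := V19_sum (i00 hm).succ (i00 hm).succ
      rw [if_pos rfl] at h1
      have h2 : ((∑ i, ‖(ev (i00 hm).succ : Fin (m + 1) → ℂ) i‖ ^ 2 : ℝ) : ℂ) = 1 := by
        rw [← h1]
        push_cast
        refine Finset.sum_congr rfl fun i _ => ?_
        rw [Complex.mul_conj, Complex.normSq_eq_norm_sq]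
        push_cast
        rfl
      have h3 : (∑ i, ‖(ev (i00 hm).succ : Fin (m + 1) → ℂ) i‖ ^ 2 : ℝ) = 1 := by exact_mod_cast h2
      exact h3.le))
    (by rw [V19_sum, if_pos rfl])
    (fun i => by
      rw [V19_sum, if_neg]
      intro e
      exact i.2 (Fin.succ_injective _ e).symm)
    (fun i => by
      rw [V19_sum, if_neg]
      intro e
      exact i.2 (Fin.succ_injective _ e))
    (fun i i' hii => by
      rw [V19_sum, if_neg]
      intro e
      exact hii (Subtype.ext (Fin.succ_injective _ e)))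
    f g (fun i => h _ (by
      intro e
      exact i.2 (Fin.succ_injective _ e)))
  rw [hcard] at h18
  obtain ⟨f', z, hz⟩ := V10_sel _ _ h18
  have hz0 : ∀ l, (z l).1 0 = 0 := by
    intro l
    rcases (z l).2 with h1 | ⟨i, t, h1⟩
    · rw [h1, ev, Pi.single_apply, if_neg]
      exact (Fin.succ_ne_zero _).symm
    · rw [h1]
      simp only [ev]
      rw [Pi.single_apply, Pi.single_apply, if_neg (Fin.succ_ne_zero _).symm,
        if_neg (Fin.succ_ne_zero _).symm]
      ring
  have hz1 : ∀ l, (z l).1 (i00 hm).succ = 1 := by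
    intro l
    rcases (z l).2 with h1 | ⟨i, t, h1⟩
    · rw [h1, ev, Pi.single_apply, if_pos rfl]
    · rw [h1]
      simp only [ev]
      rw [Pi.single_apply, Pi.single_apply, if_pos rfl, if_neg]
      · ring
      · intro e
        exact i.2 (Fin.succ_injective _ e).symm
  refine ⟨f', fun l i => - (starRingEnd ℂ) ((z l).1 i.succ), ?_, ?_⟩
  · intro l i j hij hi hj
    have hev : ∀ (a b : Fin m), a ≠ b → (ev b.succ : Fin (m + 1) → ℂ) a.succ = 0 := by
      intro a b hab
      rw [ev, Pi.single_apply, if_neg]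
      intro e
      exact hab (Fin.succ_injective _ e)
    rcases (z l).2 with h1 | ⟨k, t, h1⟩
    · simp only [h1]
      rw [hev i _ hi, map_zero, neg_zero, zero_mul]
    · simp only [h1]
      rw [hev i _ hi, hev j _ hj]
      by_cases hik : i = k.1
      · have hjk : j ≠ k.1 := fun e => hij (hik.trans e.symm)
        rw [hev j _ hjk]
        simp only [mul_zero, add_zero, map_zero, neg_zero]
      · rw [hev i _ hik]
        simp only [mul_zero, add_zero, map_zero, neg_zero, zero_mul]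
  · obtain ⟨D, hD⟩ : ∃ D : Matrix (Fin ((m - 1) * (ρ - 1) + 1)) (Fin ((m - 1) * (ρ - 1) + 1)) (CA m),
        D = Matrix.of (fun k l => eval (fun i => (C (- (starRingEnd ℂ) ((z l).1 i.succ)) : CA m))
          (kap (gam m d (F (f' k))))) := ⟨_, rfl⟩
    have e1 : (Matrix.of (fun k l : Fin ((m - 1) * (ρ - 1) + 1) =>
        eval (fun i => algebraMap ℂ (KA m) (- (starRingEnd ℂ) ((z l).1 i.succ)))
          (kap (io (gam m d (F (f' k))))))) = (algebraMap (CA m) (KA m)).mapMatrix D := by
      ext k l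
      rw [hD, RingHom.mapMatrix_apply, Matrix.map_apply, Matrix.of_apply, Matrix.of_apply]
      exact V19_io (fun i => - (starRingEnd ℂ) ((z l).1 i.succ)) (gam m d (F (f' k)))
    rw [e1, ← RingHom.map_det]
    intro h0
    have hD0 : D.det = 0 := by
      apply IsFractionRing.injective (CA m) (KA m)
      rw [h0, map_zero]
    have e2 : (evA (a00 hm) 0).mapMatrix D = (starRingEnd ℂ).mapMatrix
        (Matrix.of (fun k l => eval (z l).1 (F (f' k)))) := by
      ext k l
      rw [hD, RingHom.mapMatrix_apply, Matrix.map_apply, Matrix.of_apply, RingHom.mapMatrix_apply,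
        Matrix.map_apply, Matrix.of_apply, V19_kap, V19_gam hm _ (hF.deg _) _ (hz0 l) (hz1 l)]
    have e3 := congrArg Matrix.det e2
    rw [← RingHom.map_det, ← RingHom.map_det, hD0, map_zero] at e3
    exact hz ((map_eq_zero _).1 e3.symm)

end Pool.Agent.DAng
end

section

set_option autoImplicit false

namespace Pool.Agent.DAng

open MvPolynomial

section
variable {m : ℕ} {K : Type} [Field K]

/-- PROOF. `j = 0`, `α = 0`. -/
theorem GG_Hb (U : Submodule K (MvPolynomial (Sg m) K)) (o : ℕ) : Hb U (o - 1) ≤ GG U o := by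
  intro h hh
  refine Submodule.subset_span ⟨0, 0, h, by simpa using hh, by simp, ?_⟩
  rw [monomial_zero', C_1, one_mul]

/-- PROOF. `Submodule.span_induction`; generator `monomial α 1 * h` with `h ∈ Hb U (o + 1 + j - 1)`: `X i * monomial α 1 * h = monomial (α + single i 1) 1 * h` with `j + 1`, as
`o + (j + 1) - 1 = o + 1 + j - 1`. -/
theorem GG_X (U : Submodule K (MvPolynomial (Sg m) K)) (o : ℕ) (i : Fin m) (P : MvPolynomial (Fin m) K)
    (hP : P ∈ GG U (o + 1)) : X i * P ∈ GG U o := by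
  unfold GG at hP
  induction hP using Submodule.span_induction with
  | mem P hP =>
    obtain ⟨j, α, h, hh, hα, rfl⟩ := hP
    refine Submodule.subset_span ⟨j + 1, α + Finsupp.single i 1, h, ?_, ?_, ?_⟩
    · have e : o + (j + 1) - 1 = o + 1 + j - 1 := by omega
      rw [e]
      exact hh
    · rw [map_add, hα, Finsupp.degree_single]
    · rw [← mul_assoc, X, monomial_mul, add_comm, one_mul]
  | zero => rw [mul_zero]; exact Submodule.zero_mem _
  | add P P' _ _ h1 h2 => rw [mul_add]; exact Submodule.add_mem _ h1 h2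
  | smul c P _ h1 => rw [mul_smul_comm]; exact Submodule.smul_mem _ _ h1

/-- PROOF. all generators are `0`: `o + j - 1 ≥ D`. -/
theorem GG_bot (U : Submodule K (MvPolynomial (Sg m) K)) (D : ℕ) (hD : ∀ k, D ≤ k → Hb U k = ⊥)
    (o : ℕ) (ho : D < o) : GG U o = ⊥ := by
  unfold GG
  rw [Submodule.span_eq_bot]
  rintro P ⟨j, α, h, hh, hα, rfl⟩
  rw [hD (o + j - 1) (by omega), Submodule.mem_bot] at hh
  rw [hh, mul_zero]
end

/-- PROOF. `Submodule.span_induction`; generator `monomial α 1 * h`, `h ∈ Hb U (2 + j - 1)`, `α.degree = j`: `X i * (X k * (monomial α 1 * h)) = monomial (α + single i 1 + single k 1) 1 * h` and `V08` with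
`k := j + 1` (`2 + j - 1 = j + 1`, degree `j + 2`). -/
theorem GG_FF {m N d : ℕ} (F : Option (Fin N) → MvPolynomial (Fin (m + 1)) ℂ) (u : ℕ → CR m)
    (hu : IsQuot m d F u) (P : MvPolynomial (Fin m) (KA m)) (hP : P ∈ GG (UU d u) 2) (i k : Fin m) :
    X i * (X k * P) ∈ FF d F := by
  unfold GG at hP
  induction hP using Submodule.span_induction with
  | mem P hP =>
    obtain ⟨j, α, h, hh, hα, rfl⟩ := hP
    have e : X i * (X k * (monomial α (1 : KA m) * h)) =
        monomial (α + Finsupp.single i 1 + Finsupp.single k 1) 1 * h := by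
      rw [← mul_assoc, ← mul_assoc, X, X, monomial_mul, monomial_mul, one_mul, one_mul]
      congr 2
      ac_rfl
    rw [e]
    refine V08 F u hu (j + 1) h ?_ _ ?_
    · have e2 : 2 + j - 1 = j + 1 := by omega
      rw [← e2]
      exact hh
    · rw [map_add, map_add, hα, Finsupp.degree_single, Finsupp.degree_single]
  | zero => rw [mul_zero, mul_zero]; exact Submodule.zero_mem _
  | add P P' _ _ h1 h2 => rw [mul_add, mul_add]; exact Submodule.add_mem _ h1 h2
  | smul c P _ h1 => rw [mul_smul_comm, mul_smul_comm]; exact Submodule.smul_mem _ _ h1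

/-- PROOF. By induction on `n` for `GG (n + 2)`: `M ↦ M + single i 1` is an injection of `lead (GG (n+3))` into `lead (GG (n+2))` (`lead_mul`, `GG_X`; `i = i00 hm`), and
`M ↦ M + single i 1 + single i 1` of `lead (GG 2)` into `lead FF` (`GG_FF`, `lead_mul` twice via the comap submodule, or directly with `MonomialOrder.degree_mul`), which is finite (`lead_finite`;
`FF` is finite dimensional: `FiniteDimensional.span_of_finite`). `Set.Finite.of_injOn` or `Set.Finite.preimage`. -/
theorem GG_finite {m N d : ℕ} (hm : 0 < m) (F : Option (Fin N) → MvPolynomial (Fin (m + 1)) ℂ) (u : ℕ → CR m)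
    (hu : IsQuot m d F u) (mo : MonomialOrder.{0, 0} (Fin m)) (n : ℕ) :
    (lead mo (GG (UU d u) (n + 2))).Finite := by
  have hinj : ∀ i : Fin m, Function.Injective (fun M : Fin m →₀ ℕ => M + Finsupp.single i 1) :=
    fun i => add_left_injective _
  induction n with
  | zero =>
    have : FiniteDimensional (KA m) (FF d F) := by
      unfold FF
      exact FiniteDimensional.span_of_finite _ (Set.finite_range _)
    let W1 : Submodule (KA m) (MvPolynomial (Fin m) (KA m)) :=
      (FF d F).comap (LinearMap.mulLeft (KA m) (X (i00 hm)))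
    have h1 : ∀ P ∈ GG (UU d u) 2, X (i00 hm) * P ∈ W1 := by
      intro P hP
      rw [Submodule.mem_comap, LinearMap.mulLeft_apply]
      exact GG_FF F u hu P hP _ _
    have h2 : ∀ P ∈ W1, X (i00 hm) * P ∈ FF d F := by
      intro P hP
      exact hP
    refine ((lead_finite mo (FF d F)).preimage
      (f := fun M : Fin m →₀ ℕ => M + Finsupp.single (i00 hm) 1 + Finsupp.single (i00 hm) 1)
      (((hinj (i00 hm)).comp (hinj (i00 hm))).injOn)).subset ?_
    intro M hM
    exact lead_mul mo W1 (FF d F) (i00 hm) h2 _ (lead_mul mo _ W1 (i00 hm) h1 M hM)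
  | succ n ih =>
    refine (ih.preimage (f := fun M : Fin m →₀ ℕ => M + Finsupp.single (i00 hm) 1)
      ((hinj (i00 hm)).injOn)).subset ?_
    intro M hM
    refine lead_mul mo _ _ (i00 hm) (fun P hP => ?_) M hM
    exact GG_X _ _ _ P hP

end Pool.Agent.DAng
end

section

set_option autoImplicit false

namespace Pool.Agent.DAng

open MvPolynomial

theorem V25_R0 {m : ℕ} {K : Type} [Field K] (U : Submodule K (MvPolynomial (Sg m) K)) :
    Rk U 0 = U.map (e0 (m := m) (B := K)).toLinearMap := by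
  ext P
  unfold Rk
  rw [Submodule.mem_comap, LinearMap.mulLeft_apply, pow_zero, one_mul]

theorem V25_Rk {m : ℕ} {K : Type} [Field K] (U : Submodule K (MvPolynomial (Sg m) K))
    [FiniteDimensional K U] (k : ℕ) :
    Module.finrank K (Rk U k) ≤ Module.finrank K (U.map (e0 (m := m) (B := K)).toLinearMap) := by
  induction k with
  | zero => rw [V25_R0]
  | succ k ih =>
    have h := V03_R U k
    omega

theorem V25_Hb {m : ℕ} {K : Type} [Field K] (U : Submodule K (MvPolynomial (Sg m) K))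
    [FiniteDimensional K U] (k : ℕ) :
    Module.finrank K (Hb U k) ≤ Module.finrank K (U.map (e0 (m := m) (B := K)).toLinearMap) := by
  have h := V03_R U k
  have h2 := V25_Rk U k
  omega

/-- THE INEQUALITIES for a family in the tangent chart.
PROOF. `u` from `H8`; linear independence of `u` from `B4`, `L3`, `L4` (see the proof of `T1`). `U = UU d u`. `V12`, `V13`: `ρ - 1 ≤ dim e0(U)`; `V14` with `r = d + 1 - ρ`: (P) and
`dim e0(U) ≤ ρ - 1`. `V04`: `D`. `mo = MonomialOrder.lex`. `S o = lead (Hb U (o-1))` (finite: `lead_finite`, `Hb` is the image of the finite dimensional `Rk U`), `(S o).card = dim Hb U (o-1)`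
(`lead_ncard`). `X o = lead (GG U o)` for `o ≥ 2` (`GG_finite`), `∅` for `o < 2`. `X o = ∅` for `o > D`: `GG_bot`. `S o ⊆ X o`: `GG_Hb`; `bd (X (o+1)) ⊆ X o`: `lead_mul`, `GG_X`. (C): `V04` and
`dim U = d` (`V13_li`). (D): the elements of `bd (bd (X 2))` are leading exponents of `FF` (`GG_FF`), so `card ≤ dim FF ≤ N + 1 - ρ` (`lead_card`, `V09`). (E): `V19`, `V20` with `G = GG U 2`,
`v j = kap (io (gam m d (F j)))` and `V09`: `(m-1)(ρ-1) + 1 + |PP| ≤ N + 1 - ρ`. -/
theorem V25 {m N d ρ : ℕ} (hm : 0 < m) (hd : 0 < d)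
    (F : Option (Fin N) → MvPolynomial (Fin (m + 1)) ℂ) (hF : Good d F)
    (f : Fin ρ → Option (Fin N)) (g : Fin ρ → ℕ) (hρ : 1 ≤ ρ) (hρd : ρ ≤ d + 1)
    (θ : Fin (d + 1 - ρ) → ℕ → CA m) (hθ : LinearIndependent (CA m) θ) (hθd : ∀ l k, d < k → θ l k = 0)
    (hrel : ∀ l j, ∑ k ∈ Finset.range (d + 1), θ l k * (phi m (F j)).coeff k = 0)
    (hdet : (Matrix.of (fun α β : Fin ρ => (phi m (F (f α))).coeff (g β))).det ≠ 0)
    (hmin : ∀ i, i ≠ (i00 hm).succ → mnr F f g (ev (i00 hm).succ) (ev i) ≠ 0) :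
    ∃ (D : ℕ) (S X : ℕ → Finset (Fin m →₀ ℕ)),
      (∀ o, D < o → X o = ∅) ∧ (∀ o, 2 ≤ o → S o ⊆ X o ∧ bd (X (o + 1)) ⊆ X o) ∧
      (∀ o, (S o).card ≤ ρ - 1) ∧
      d ≤ (ρ - 1) + ∑ o ∈ Finset.Icc 2 D, (o - 1) * (S o).card ∧
      (ρ - 1) + (bd (bd (X 2))).card ≤ N ∧
      m * (ρ - 1) + 1 + (PP (i00 hm) (X 2)).card ≤ N := by
  classical
  obtain ⟨u, hu⟩ := H8 F hF.deg hF.quad
  have hli : LinearIndependent (CA m) (fun k : Fin d => u k) := by
    obtain ⟨a, b, ha, hz, hdc⟩ := B4 F hF.red hF.top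
    obtain ⟨T, hT⟩ := L3 F hF.deg u hu hF.ball a b ha hz hdc
    exact L4 u a b (fun l => Xs a b (T l)) hT
  have hliK : LinearIndependent (KA m) (fun k : Fin d => io (u k)) := V13_li _ hli
  have hUd : Module.finrank (KA m) (UU d u) = d := by
    have h1 := finrank_span_eq_card hliK
    rw [Fintype.card_fin] at h1
    exact h1
  have hUfin : FiniteDimensional (KA m) (UU d u) :=
    FiniteDimensional.span_of_finite (KA m) (Set.finite_range _)
  have h00 : (0 : Fin (m + 1)) ≠ (i00 hm).succ := (Fin.succ_ne_zero _).symm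
  obtain ⟨h', x, hx, hx2⟩ := V12 hm F hF f g (hmin 0 h00)
  have hlow : ρ - 1 ≤ Module.finrank (KA m) ((UU d u).map (e0 (m := m) (B := KA m)).toLinearMap) :=
    V13 F u hu (a00 hm) 0 g h' x hx hx2
  obtain ⟨hP, hup⟩ := V14 hd F u hu hli θ hθ hθd hrel (by omega)
  obtain ⟨D, hD1, hD2⟩ := V04 (UU d u) hP
  have hHbf : ∀ k, FiniteDimensional (KA m) (Hb (UU d u) k) := by
    intro k
    have := V03_finR (UU d u) k
    unfold Hb
    infer_instance
  obtain ⟨mo⟩ : Nonempty (MonomialOrder.{0, 0} (Fin m)) := ⟨MonomialOrder.lex⟩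
  obtain ⟨S, hS⟩ : ∃ S : ℕ → Finset (Fin m →₀ ℕ), ∀ o,
      (∀ M, M ∈ S o ↔ M ∈ lead mo (Hb (UU d u) (o - 1))) ∧
        (S o).card = Module.finrank (KA m) (Hb (UU d u) (o - 1)) := by
    refine ⟨fun o => (@lead_finite _ _ _ mo (Hb (UU d u) (o - 1)) (hHbf _)).toFinset, fun o => ⟨?_, ?_⟩⟩
    · intro M
      rw [Set.Finite.mem_toFinset]
    · exact @lead_ncard _ _ _ mo (Hb (UU d u) (o - 1)) (hHbf _)
  obtain ⟨X', hX'⟩ : ∃ X' : ℕ → Finset (Fin m →₀ ℕ), ∀ n M,
      M ∈ X' (n + 2) ↔ M ∈ lead mo (GG (UU d u) (n + 2)) := by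
    refine ⟨fun o => (GG_finite hm F u hu mo (o - 2)).toFinset, fun n M => ?_⟩
    simp only [Nat.add_sub_cancel]
    rw [Set.Finite.mem_toFinset]
  have hFFfin : FiniteDimensional (KA m) (FF d F) :=
    FiniteDimensional.span_of_finite (KA m) (Set.finite_range _)
  have hFFdim := V09 F u hu f g hdet
  obtain ⟨Y, hX⟩ : ∃ Y : ℕ → Finset (Fin m →₀ ℕ), ∀ o, Y o = if 2 ≤ o then X' o else ∅ :=
    ⟨_, fun _ => rfl⟩
  have hX2 : ∀ n M, M ∈ Y (n + 2) ↔ M ∈ lead mo (GG (UU d u) (n + 2)) := by
    intro n M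
    rw [hX, if_pos (by omega), hX']
  refine ⟨D, S, Y, ?_, ?_, ?_, ?_, ?_, ?_⟩
  · intro o ho
    rcases Nat.lt_or_ge o 2 with h2 | h2
    · rw [hX, if_neg (by omega)]
    · obtain ⟨n, rfl⟩ : ∃ n, o = n + 2 := ⟨o - 2, by omega⟩
      rw [Finset.eq_empty_iff_forall_notMem]
      intro M hM
      rw [hX2, GG_bot (UU d u) D hD1 (n + 2) ho] at hM
      obtain ⟨P, hP1, hP2, _⟩ := hM
      exact hP2 ((Submodule.mem_bot _).1 hP1)
  · intro o ho
    obtain ⟨n, rfl⟩ : ∃ n, o = n + 2 := ⟨o - 2, by omega⟩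
    constructor
    · intro M hM
      rw [hX2]
      rw [(hS _).1] at hM
      exact lead_mono mo _ _ (GG_Hb (UU d u) (n + 2)) hM
    · intro M hM
      simp only [bd, bdT, Finset.mem_biUnion, Finset.mem_image] at hM
      obtain ⟨i, _, M', hM', rfl⟩ := hM
      rw [hX2]
      have h1 : M' ∈ lead mo (GG (UU d u) (n + 2 + 1)) := by
        have h2 := (hX2 (n + 1) M').1 (by
          have h3 : n + 1 + 2 = n + 2 + 1 := by omega
          rw [h3]; exact hM')
        have h3 : n + 1 + 2 = n + 2 + 1 := by omega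
        rwa [h3] at h2
      exact lead_mul mo _ _ i (fun P hP' => GG_X (UU d u) (n + 2) i P hP') M' h1
  · intro o
    rw [(hS o).2]
    have h1 := V25_Hb (UU d u) (o - 1)
    omega
  · have h1 : ∑ o ∈ Finset.Icc 2 D, (o - 1) * (S o).card =
        ∑ o ∈ Finset.Icc 2 D, (o - 1) * Module.finrank (KA m) (Hb (UU d u) (o - 1)) :=
      Finset.sum_congr rfl fun o _ => by rw [(hS o).2]
    rw [h1]
    omega
  · have h1 : (bd (bd (Y 2))).card ≤ Module.finrank (KA m) (FF d F) := by
      refine lead_card mo (FF d F) _ ?_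
      intro M hM
      simp only [bd, bdT, Finset.mem_biUnion, Finset.mem_image] at hM
      obtain ⟨i, _, M1, ⟨j, _, M2, hM2, rfl⟩, rfl⟩ := hM
      obtain ⟨P, hP1, hP2, hP3⟩ := (hX2 0 M2).1 hM2
      refine ⟨X i * (X j * P), GG_FF F u hu P hP1 i j, ?_, ?_⟩
      · exact mul_ne_zero (X_ne_zero i) (mul_ne_zero (X_ne_zero j) hP2)
      · rw [mo.degree_mul (X_ne_zero i) (mul_ne_zero (X_ne_zero j) hP2),
          mo.degree_mul (X_ne_zero j) hP2, mo.degree_X, mo.degree_X, hP3]
        abel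
    omega
  · obtain ⟨f', xs, hxs, hdets⟩ := V19 hm F hF f g hmin
    have h1 := V20 (i00 hm) mo (fun j => kap (io (gam m d (F j)))) (GG (UU d u) 2)
      (fun P hP' i k => GG_FF F u hu P hP' i k) f' xs hxs hdets (Y 2)
      (fun M hM => (hX2 0 M).1 hM)
    have h2 : Module.finrank (KA m) (Submodule.span (KA m)
      (Set.range (fun j => kap (io (gam m d (F j)))))) = Module.finrank (KA m) (FF d F) := rfl
    rw [h2] at h1
    have h3 : m * (ρ - 1) = (m - 1) * (ρ - 1) + (ρ - 1) := by
      obtain ⟨m', rfl⟩ : ∃ m', m = m' + 1 := ⟨m - 1, by omega⟩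
      rw [Nat.add_sub_cancel]
      ring
    omega

end Pool.Agent.DAng
end

section

set_option autoImplicit false

namespace Pool.Agent.DAng

open MvPolynomial

/-- PROOF. See the beginning of the proof of `T1`. -/
theorem V26_good {n N d : ℕ} (p : Fin N → MvPolynomial (Fin n) ℂ) (q : MvPolynomial (Fin n) ℂ)
    (hred : ∀ r : MvPolynomial (Fin n) ℂ, r ∣ q → (∀ j, r ∣ p j) → IsUnit r)
    (hq : ∀ z : Fin n → ℂ, ∑ i, ‖z i‖ ^ 2 ≤ 1 → eval z q ≠ 0)
    (hs : ∀ z : Fin n → ℂ, ∑ i, ‖z i‖ ^ 2 = 1 → ∑ j, ‖eval z (p j) / eval z q‖ ^ 2 = 1)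
    (hd : max (Finset.univ.sup (fun j => (p j).totalDegree)) q.totalDegree = d) :
    Good d (fun j : Option (Fin N) => j.elim q p) := by
  have hqz : q ≠ 0 := by
    intro h
    apply hq 0 (by simp)
    rw [h]; simp
  have hF : ∀ j : Option (Fin N), (j.elim q p).totalDegree ≤ d := by
    intro j
    rcases j with _ | j
    · exact hd ▸ le_max_right _ _
    · refine le_trans ?_ (hd ▸ le_max_left _ _)
      exact Finset.le_sup (f := fun j => (p j).totalDegree) (Finset.mem_univ j)
  refine ⟨Z6 p q hq hs, hF, ?_, ?_, hq⟩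
  · rcases Nat.eq_zero_or_pos d with h0 | h0
    · refine ⟨none, hqz, ?_⟩
      have := hF none
      omega
    · rcases le_total (Finset.univ.sup (fun j => (p j).totalDegree)) q.totalDegree with hle | hle
      · refine ⟨none, hqz, ?_⟩
        rw [max_eq_right hle] at hd
        exact hd
      · rw [max_eq_left hle] at hd
        have hne : (Finset.univ : Finset (Fin N)).Nonempty := by
          by_contra hc
          rw [Finset.not_nonempty_iff_eq_empty] at hc
          rw [hc, Finset.sup_empty] at hd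
          simp at hd
          omega
        obtain ⟨j, _, hj⟩ := Finset.exists_mem_eq_sup Finset.univ hne (fun j => (p j).totalDegree)
        refine ⟨some j, ?_, ?_⟩
        · intro hz
          have hz' : p j = 0 := hz
          rw [hj, hz', totalDegree_zero] at hd
          omega
        · change (p j).totalDegree = d
          rw [← hj, hd]
  · intro r hr
    exact hred r (hr none) (fun j => hr (some j))

theorem V26_bd {m : ℕ} : bd (∅ : Finset (Fin m →₀ ℕ)) = ∅ := by
  classical
  rw [Finset.eq_empty_iff_forall_notMem]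
  intro M hM
  simp only [bd, bdT, Finset.mem_biUnion, Finset.mem_image] at hM
  obtain ⟨_, _, M', hM', _⟩ := hM
  exact absurd hM' (Finset.notMem_empty M')

theorem V26_PP {m : ℕ} (i : Fin m) : PP i (∅ : Finset (Fin m →₀ ℕ)) = ∅ := by
  classical
  rw [Finset.eq_empty_iff_forall_notMem]
  intro M hM
  simp only [PP, Finset.mem_biUnion, Finset.mem_image] at hM
  obtain ⟨M', hM', _⟩ := hM
  exact absurd hM' (Finset.notMem_empty M')

/-- THE ALGEBRAIC PART. PROOF. `F j = j.elim q p` is `Good d` (see the beginning of the proof of `T1`). `d = 0`: `D = 0`, `s = 0`, all sets empty, `N ≥ 1` from `T1`. `d > 0`: `V23`, `V25`, `s = ρ - 1`. -/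
theorem ALG {m N d : ℕ} (hm : 0 < m) (p : Fin N → MvPolynomial (Fin (m + 1)) ℂ) (q : MvPolynomial (Fin (m + 1)) ℂ)
    (hred : ∀ r : MvPolynomial (Fin (m + 1)) ℂ, r ∣ q → (∀ j, r ∣ p j) → IsUnit r)
    (hq : ∀ z : Fin (m + 1) → ℂ, ∑ i, ‖z i‖ ^ 2 ≤ 1 → eval z q ≠ 0)
    (hs : ∀ z : Fin (m + 1) → ℂ, ∑ i, ‖z i‖ ^ 2 = 1 → ∑ j, ‖eval z (p j) / eval z q‖ ^ 2 = 1)
    (hd : max (Finset.univ.sup (fun j => (p j).totalDegree)) q.totalDegree = d) :
    ∃ (s D : ℕ) (S X : ℕ → Finset (Fin m →₀ ℕ)) (i0 : Fin m),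
      (∀ o, D < o → X o = ∅) ∧ (∀ o, 2 ≤ o → S o ⊆ X o ∧ bd (X (o + 1)) ⊆ X o) ∧
      (∀ o, (S o).card ≤ s) ∧
      d ≤ s + ∑ o ∈ Finset.Icc 2 D, (o - 1) * (S o).card ∧
      s + (bd (bd (X 2))).card ≤ N ∧
      m * s + 1 + (PP i0 (X 2)).card ≤ N := by
  classical
  rcases Nat.eq_zero_or_pos d with h0 | h0
  · obtain ⟨s, hs1, hs2, _⟩ := T1 p q hred hq hs hd
    refine ⟨0, 0, fun _ => ∅, fun _ => ∅, i00 hm, fun _ _ => rfl, fun o _ => ⟨fun _ h => h, ?_⟩,
      fun _ => by simp, ?_, ?_, ?_⟩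
    · rw [V26_bd]
    · omega
    · rw [V26_bd, V26_bd, Finset.card_empty]
      omega
    · rw [V26_PP, Finset.card_empty]
      omega
  · have hG := V26_good p q hred hq hs hd
    obtain ⟨F₂, ρ, f, g, hF2, h1, h2, ⟨θ, hθ1, hθ2, hθ3⟩, hdet, hmin⟩ := V23 hm _ hG
    obtain ⟨D, S, Y, a1, a2, a3, a4, a5, a6⟩ := V25 hm h0 F₂ hF2 f g h1 h2 θ hθ1 hθ2 hθ3 hdet hmin
    exact ⟨ρ - 1, D, S, Y, i00 hm, a1, a2, a3, a4, a5, a6⟩

end Pool.Agent.DAng
end
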