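import Pool.Agent.Lib.MP_e3689b_an.Mg.G021

section

set_option autoImplicit false

namespace Pool.Agent.DAng

open MvPolynomial

theorem K1_mem {σ : Type*} (T : Finset σ) (S : Finset (σ →₀ ℕ)) (x : σ →₀ ℕ) :
    x ∈ bdT T S ↔ ∃ s ∈ T, ∃ M ∈ S, M + Finsupp.single s 1 = x := by
  unfold bdT
  simp only [Finset.mem_biUnion, Finset.mem_image]

/-- `|∂_T S| ≥ |S| + |T| - 1` for nonempty `S`.
PROOF. Choose a monomial order `mo` on `σ` (`MonomialOrder.lex` needs a linear well order on `σ`; alternatively use any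
linear order on `σ →₀ ℕ` compatible with addition; if it is more convenient first replace `σ` by the finite set of
variables which occur, or choose a well order on `σ` with `linearOrderOfSTO WellOrderingRel` and use the order dual). Let `s ∈ T` be the
variable with the largest `single s 1`, `M` the smallest element of `S`. The elements `M' + single s 1`, `M' ∈ S`, are `|S|` distinct
elements of `bdT T S`; the elements `M + single t 1`, `t ∈ T`, `t ≠ s`, are `|T| - 1` distinct elements, all smaller than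
`M + single s 1`, hence smaller than all of the first kind.
(Alternative proof without orders: induction on `|T|`, removing a variable and slicing; or choose weights.) -/
theorem K1 {σ : Type*} [Fintype σ] (T : Finset σ) (hT : T.Nonempty) (S : Finset (σ →₀ ℕ))
    (hS : S.Nonempty) :
    S.card + T.card ≤ (bdT T S).card + 1 := by
  classical
  let _ : LinearOrder σ := LinearOrder.lift' (Fintype.equivFin σ) (Equiv.injective _)
  let mo : MonomialOrder σ := MonomialOrder.lex
  obtain ⟨s, hsT, hs⟩ := Finset.exists_max_image T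
    (fun s => mo.toSyn (Finsupp.single s 1)) hT
  obtain ⟨M, hMS, hM⟩ := Finset.exists_min_image S (fun M => mo.toSyn M) hS
  set A : Finset (σ →₀ ℕ) := S.image (fun M' => M' + Finsupp.single s 1) with hA
  set B : Finset (σ →₀ ℕ) := (T.erase s).image (fun t => M + Finsupp.single t 1) with hB
  have hAc : A.card = S.card :=
    Finset.card_image_of_injective _ fun a b hab => add_right_cancel hab
  have hBc : B.card = T.card - 1 := by
    rw [hB, Finset.card_image_of_injective _ fun a b hab => ?_, Finset.card_erase_of_mem hsT]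
    exact (Finsupp.single_left_injective one_ne_zero) (add_left_cancel hab)
  have hd : Disjoint A B := by
    rw [Finset.disjoint_left]
    intro x hxA hxB
    obtain ⟨M', hM', rfl⟩ := Finset.mem_image.1 hxA
    obtain ⟨t, ht, he⟩ := Finset.mem_image.1 hxB
    have h1 : mo.toSyn M + mo.toSyn (Finsupp.single t 1) =
        mo.toSyn M' + mo.toSyn (Finsupp.single s 1) := by
      rw [← map_add, ← map_add, he]
    have h2 : mo.toSyn (Finsupp.single t 1) < mo.toSyn (Finsupp.single s 1) := by
      refine lt_of_le_of_ne (hs t (Finset.mem_of_mem_erase ht)) fun h => ?_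
      exact Finset.ne_of_mem_erase ht
        ((Finsupp.single_left_injective one_ne_zero) (mo.toSyn.injective h))
    exact absurd h1 (ne_of_lt (add_lt_add_of_le_of_lt (hM M' hM') h2))
  have hsub : A ∪ B ⊆ bdT T S := by
    intro x hx
    rcases Finset.mem_union.1 hx with hx | hx
    · obtain ⟨M', hM', he⟩ := Finset.mem_image.1 hx
      exact (K1_mem T S x).2 ⟨s, hsT, M', hM', he⟩
    · obtain ⟨t, ht, he⟩ := Finset.mem_image.1 hx
      exact (K1_mem T S x).2 ⟨t, Finset.mem_of_mem_erase ht, M, hMS, he⟩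
  have h1 := Finset.card_le_card hsub
  rw [Finset.card_union_of_disjoint hd, hAc, hBc] at h1
  have h2 : 0 < T.card := Finset.card_pos.2 hT
  omega

end Pool.Agent.DAng
end

section

set_option autoImplicit false

namespace Pool.Agent.DAng

open MvPolynomial

/-- Sequences, exact form. Let `k : ℕ → ℕ`, `k c = 0` for `c ≥ L`, previous value `κ`, and `e : ℕ → ℕ` with `e c ≥ 1` if `k c > 0`,
and `e c + k c ≥ k (c-1)` (with `k(-1) = κ`). Then with `E = ∑_{c ≤ L} e c`: `κ ≤ E` and `2 ∑_{c<L} k c ≤ E (E - 1)`.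
PROOF. Induction on `L` for all `k, e, κ` (split off `c = 0` with `Finset.sum_range_succ'` and apply the induction hypothesis to the
shifted sequences with previous value `k 0`). `L = 0`: `κ ≤ e 0 + k 0 = e 0`, sum `0`. Step: let `E'` be the sum of the other `e c`; `k 0 ≤ E'`
and `2 ∑' k ≤ E'(E'-1)` by induction. `κ ≤ e 0 + k 0 ≤ E`. If `k 0 = 0`: `2∑ k ≤ E'(E'-1) ≤ E(E-1)`. If `k 0 > 0`: `e 0 ≥ 1` and
`2 ∑ k = 2 k 0 + 2 ∑' k ≤ 2 E' + E'(E'-1) = E'(E'+1) ≤ (E-1) E`. -/
theorem K2 (L : ℕ) : ∀ (k e : ℕ → ℕ) (κ : ℕ), (∀ c, L ≤ c → k c = 0) → (∀ c, 0 < k c → 1 ≤ e c) →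
    κ ≤ e 0 + k 0 → (∀ c, k c ≤ e (c + 1) + k (c + 1)) →
    κ ≤ ∑ c ∈ Finset.range (L + 1), e c ∧
    2 * ∑ c ∈ Finset.range (L + 1), k c ≤
      (∑ c ∈ Finset.range (L + 1), e c) * ((∑ c ∈ Finset.range (L + 1), e c) - 1) := by
  induction L with
  | zero =>
    intro k e κ hk he h0 hs
    have h1 : k 0 = 0 := hk 0 le_rfl
    rw [h1, add_zero] at h0
    simp [h1, h0]
  | succ L ih =>
    intro k e κ hk he h0 hs
    obtain ⟨h1, h2⟩ := ih (fun c => k (c + 1)) (fun c => e (c + 1)) (k 0)
      (fun c hc => hk (c + 1) (by omega)) (fun c hc => he (c + 1) hc) (hs 0)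
      (fun c => hs (c + 1))
    rw [Finset.sum_range_succ' (fun c => e c), Finset.sum_range_succ' (fun c => k c)]
    generalize ∑ c ∈ Finset.range (L + 1), e (c + 1) = E' at h1 h2 ⊢
    generalize ∑ c ∈ Finset.range (L + 1), k (c + 1) = K' at h2 ⊢
    refine ⟨by omega, ?_⟩
    rcases Nat.eq_zero_or_pos (k 0) with h3 | h3
    · rw [h3, add_zero]
      exact h2.trans (Nat.mul_le_mul (Nat.le_add_right _ _)
        (Nat.sub_le_sub_right (Nat.le_add_right _ _) 1))
    · have h4 := he 0 h3
      obtain ⟨f, hf⟩ : ∃ f, e 0 = f + 1 := ⟨e 0 - 1, by omega⟩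
      obtain ⟨m, rfl⟩ : ∃ m, E' = m + 1 := ⟨E' - 1, by omega⟩
      rw [hf]
      have h5 : m + 1 + (f + 1) - 1 = m + 1 + f := by omega
      have h6 : m + 1 - 1 = m := by omega
      rw [h5]
      rw [h6] at h2
      nlinarith

/-- Sequences, power form. Let `p ≥ 1`, `A ≥ 0` real; `k : ℕ → ℕ`, `k c = 0` for `c ≥ L`, previous value `κ`,
`e : ℕ → ℕ` with `k c ≤ A p (k c)^(p-1) (e c)` and `e c + k c ≥ k (c-1)`.
Then `κ ≤ E` and `∑ k c ≤ A E^p`, `E = ∑_{c ≤ L} e c`.
PROOF. Induction on `L` as in `K2`: `E = e 0 + E'`, `E' ≥ k 0`, and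
`E^p ≥ E'^p + p E'^(p-1) e 0 ≥ E'^p + p (k 0)^(p-1) e 0` (tangent line inequality for the convex function `x^p`:
`Real.one_add_mul_self_le_rpow_one_add` (Bernoulli) applied to `E = E' (1 + e 0/E')`, the case `E' = 0` trivial, then `k 0 = 0`). So
`A E^p ≥ A E'^p + k 0`. -/
theorem K2' (A p : ℝ) (hA : 0 ≤ A) (hp : 1 ≤ p) (L : ℕ) : ∀ (k e : ℕ → ℕ) (κ : ℕ),
    (∀ c, L ≤ c → k c = 0) → (∀ c, (k c : ℝ) ≤ A * p * (k c : ℝ) ^ (p - 1) * (e c : ℝ)) →
    κ ≤ e 0 + k 0 → (∀ c, k c ≤ e (c + 1) + k (c + 1)) →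
    κ ≤ ∑ c ∈ Finset.range (L + 1), e c ∧
    ∑ c ∈ Finset.range (L + 1), (k c : ℝ) ≤
      A * (∑ c ∈ Finset.range (L + 1), (e c : ℝ)) ^ p := by
  induction L with
  | zero =>
    intro k e κ hk he h0 hs
    have h1 : k 0 = 0 := hk 0 le_rfl
    rw [h1, add_zero] at h0
    refine ⟨by simpa using h0, ?_⟩
    simp only [zero_add, Finset.range_one, Finset.sum_singleton, h1, Nat.cast_zero]
    exact mul_nonneg hA (Real.rpow_nonneg (Nat.cast_nonneg _) _)
  | succ L ih =>
    intro k e κ hk he h0 hs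
    obtain ⟨h1, h2⟩ := ih (fun c => k (c + 1)) (fun c => e (c + 1)) (k 0)
      (fun c hc => hk (c + 1) (by omega)) (fun c => he (c + 1)) (hs 0)
      (fun c => hs (c + 1))
    have h0' := he 0
    rw [Finset.sum_range_succ' (fun c => e c), Finset.sum_range_succ' (fun c => (k c : ℝ)),
      Finset.sum_range_succ' (fun c => (e c : ℝ))]
    have h1' : (k 0 : ℝ) ≤ ∑ c ∈ Finset.range (L + 1), (e (c + 1) : ℝ) := by
      exact_mod_cast h1
    refine ⟨by omega, ?_⟩
    generalize ∑ c ∈ Finset.range (L + 1), (e (c + 1) : ℝ) = E' at h1' h2 ⊢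
    generalize ∑ c ∈ Finset.range (L + 1), (k (c + 1) : ℝ) = K' at h2 ⊢
    have hk0 : (0 : ℝ) ≤ (k 0 : ℝ) := Nat.cast_nonneg _
    have he0 : (0 : ℝ) ≤ (e 0 : ℝ) := Nat.cast_nonneg _
    generalize (k 0 : ℝ) = x at *
    generalize (e 0 : ℝ) = y at *
    have hE : 0 ≤ E' := hk0.trans h1'
    have key : E' ^ p + p * x ^ (p - 1) * y ≤ (E' + y) ^ p := by
      rcases hE.eq_or_lt with h3 | h3
      · have hx : x = 0 := le_antisymm (by rw [h3]; exact h1') hk0
        rw [← h3, hx, zero_add, Real.zero_rpow (by linarith)]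
        rcases hp.eq_or_lt with h4 | h4
        · rw [← h4]
          simp
        · rw [Real.zero_rpow (by linarith)]
          simpa using Real.rpow_nonneg he0 p
      · have h4 : 1 + p * (y / E') ≤ (1 + y / E') ^ p :=
          one_add_mul_self_le_rpow_one_add (by have := div_nonneg he0 h3.le; linarith) hp
        have h5 : (E' + y) ^ p = E' ^ p * (1 + y / E') ^ p := by
          rw [← Real.mul_rpow h3.le (by have := div_nonneg he0 h3.le; linarith)]
          congr 1
          field_simp
        have h6 : x ^ (p - 1) ≤ E' ^ (p - 1) := Real.rpow_le_rpow hk0 h1' (by linarith)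
        have h7 : E' ^ p = E' ^ (p - 1) * E' := by
          rw [Real.rpow_sub_one h3.ne']
          field_simp
        rw [h5]
        calc E' ^ p + p * x ^ (p - 1) * y ≤ E' ^ p + p * E' ^ (p - 1) * y := by
              have h8 : p * x ^ (p - 1) * y ≤ p * E' ^ (p - 1) * y :=
                mul_le_mul_of_nonneg_right (mul_le_mul_of_nonneg_left h6 (by linarith)) he0
              linarith
          _ = E' ^ p * (1 + p * (y / E')) := by
              rw [h7]
              field_simp
          _ ≤ E' ^ p * (1 + y / E') ^ p :=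
              mul_le_mul_of_nonneg_left h4 (Real.rpow_nonneg h3.le p)
    calc K' + x ≤ A * E' ^ p + A * p * x ^ (p - 1) * y := add_le_add h2 h0'
      _ = A * (E' ^ p + p * x ^ (p - 1) * y) := by ring
      _ ≤ A * (E' + y) ^ p := mul_le_mul_of_nonneg_left key hA

end Pool.Agent.DAng
end

section

set_option autoImplicit false

namespace Pool.Agent.DAng

open MvPolynomial

open Classical in
/-- Slices. `S_c = {M ∈ S : M s = c}`. If `s ∉ T`, then
`|∂_{T ∪ {s}} S| ≥ ∑_{c ≤ L} max |∂_T S_c| |S_{c-1}|` (with `S_{-1} = ∅`), for every `L`.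
PROOF. The sets `(bdT (insert s T) S).filter (fun M => M s = c)`, `c ≤ L`, are pairwise disjoint subsets of `bdT (insert s T) S`.
The one with index `c` contains `bdT T S_c` (multiplying by `t ≠ s` does not change the exponent of `s`) and, if `c ≥ 1`, the image of
`S_{c-1}` under `M ↦ M + single s 1` (injective). -/
theorem K3 {σ : Type*} [Fintype σ] (T : Finset σ) (s : σ) (hs : s ∉ T) (S : Finset (σ →₀ ℕ)) (L : ℕ) :
    ∑ c ∈ Finset.range (L + 1), max (bdT T (S.filter (fun M => M s = c))).card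
      (if c = 0 then 0 else (S.filter (fun M => M s = c - 1)).card) ≤ (bdT (insert s T) S).card := by
  have hle : ∀ c : ℕ, max (bdT T (S.filter (fun M => M s = c))).card
      (if c = 0 then 0 else (S.filter (fun M => M s = c - 1)).card)
      ≤ ((bdT (insert s T) S).filter (fun M => M s = c)).card := by
    intro c
    apply max_le
    · apply Finset.card_le_card
      intro M hM
      simp only [bdT, Finset.mem_biUnion, Finset.mem_image, Finset.mem_filter] at hM ⊢
      obtain ⟨t, ht, M', ⟨hM', hc⟩, rfl⟩ := hM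
      refine ⟨⟨t, Finset.mem_insert_of_mem ht, M', hM', rfl⟩, ?_⟩
      have hts : t ≠ s := fun h => hs (h ▸ ht)
      rw [Finsupp.add_apply, Finsupp.single_eq_of_ne' hts, add_zero, hc]
    · split_ifs with h0
      · exact Nat.zero_le _
      · have hinj : Function.Injective (fun M : σ →₀ ℕ => M + Finsupp.single s 1) :=
          fun A B h => add_right_cancel h
        rw [← Finset.card_image_of_injective _ hinj]
        apply Finset.card_le_card
        intro M hM
        simp only [bdT, Finset.mem_biUnion, Finset.mem_image, Finset.mem_filter] at hM ⊢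
        obtain ⟨M', ⟨hM', hc⟩, rfl⟩ := hM
        refine ⟨⟨s, Finset.mem_insert_self _ _, M', hM', rfl⟩, ?_⟩
        rw [Finsupp.add_apply, Finsupp.single_eq_same, hc]
        omega
  refine le_trans (Finset.sum_le_sum (fun c _ => hle c)) ?_
  rw [← Finset.card_biUnion]
  · apply Finset.card_le_card
    intro M hM
    simp only [Finset.mem_biUnion, Finset.mem_filter] at hM
    obtain ⟨_, _, h, _⟩ := hM
    exact h
  · intro a _ b _ hab
    rw [Function.onFun, Finset.disjoint_left]
    intro M hM hM'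
    rw [Finset.mem_filter] at hM hM'
    exact hab (hM.2.symm.trans hM'.2)

end Pool.Agent.DAng
end

section

set_option autoImplicit false

namespace Pool.Agent.DAng

open MvPolynomial

/-- At least three variables: `2|S| ≤ G (G - 1)`, `G = |∂_T S| - |S|`.
PROOF. Write `T = insert s T'` with `|T'| ≥ 2`. Let `L` be larger than all exponents `M s`, `M ∈ S`; `k c = |S_c|`,
`m c = max |∂_{T'} S_c| (|S_{c-1}|)`, `e c = m c - k c`. By `K1` (`|T'| ≥ 2`) `|∂_{T'} S_c| ≥ k c + 1` if `k c > 0`, so `m c ≥ k c` always, `e c ≥ 1`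
if `k c > 0`, and `e c + k c ≥ k (c-1)`. By `K3`: `|∂_T S| ≥ ∑_{c ≤ L} (k c + e c) = |S| + ∑ e c`. Apply `K2` with `κ = 0`, and monotonicity of
`x (x - 1)`. -/
theorem K5 {σ : Type*} [Fintype σ] (T : Finset σ) (h3 : 3 ≤ T.card) (S : Finset (σ →₀ ℕ)) :
    2 * S.card ≤ ((bdT T S).card - S.card) * ((bdT T S).card - S.card - 1) := by
  classical
  obtain ⟨s, hs⟩ : T.Nonempty := Finset.card_pos.mp (by omega)
  obtain ⟨T', hsT', hT'⟩ : ∃ T' : Finset σ, s ∉ T' ∧ insert s T' = T :=
    ⟨T.erase s, Finset.notMem_erase s T, Finset.insert_erase hs⟩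
  have hc : T'.card + 1 = T.card := by rw [← hT', Finset.card_insert_of_notMem hsT']
  have hT'n : T'.Nonempty := Finset.card_pos.mp (by omega)
  obtain ⟨L, hL⟩ : ∃ L : ℕ, ∀ M ∈ S, M s < L :=
    ⟨S.sup (fun M => M s) + 1, fun M hM => Nat.lt_succ_of_le (Finset.le_sup (f := fun M : σ →₀ ℕ => M s) hM)⟩
  have h3' := K3 T' s hsT' S L
  rw [hT'] at h3'
  obtain ⟨k, hk⟩ : ∃ k : ℕ → ℕ, ∀ c, k c = (S.filter (fun M => M s = c)).card := ⟨_, fun _ => rfl⟩
  obtain ⟨m, hm⟩ : ∃ m : ℕ → ℕ, ∀ c, m c = max (bdT T' (S.filter (fun M => M s = c))).card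
      (if c = 0 then 0 else (S.filter (fun M => M s = c - 1)).card) := ⟨_, fun _ => rfl⟩
  have h4 : ∑ c ∈ Finset.range (L + 1), m c ≤ (bdT T S).card := by
    refine le_trans (le_of_eq ?_) h3'
    exact Finset.sum_congr rfl fun c _ => hm c
  have hkL : ∀ c, L ≤ c → k c = 0 := by
    intro c hLc
    rw [hk, Finset.card_eq_zero, Finset.filter_eq_empty_iff]
    intro M hM h
    have := hL M hM
    omega
  have hpos : ∀ c, 0 < k c → k c + 1 ≤ m c := by
    intro c h0
    rw [hk] at h0
    have h1 := K1 T' hT'n _ (Finset.card_pos.mp h0)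
    have h2 : (bdT T' (S.filter (fun M => M s = c))).card ≤ m c := by
      rw [hm]
      exact le_max_left _ _
    rw [hk]
    omega
  have hkm : ∀ c, k c ≤ m c := by
    intro c
    rcases Nat.eq_zero_or_pos (k c) with h | h
    · rw [h]
      exact Nat.zero_le _
    · have := hpos c h
      omega
  have hprev : ∀ c, k c ≤ m (c + 1) := by
    intro c
    rw [hm, hk, if_neg (Nat.succ_ne_zero c), Nat.add_sub_cancel]
    exact le_max_right _ _
  have hsumk : S.card = ∑ c ∈ Finset.range (L + 1), k c := by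
    rw [Finset.card_eq_sum_card_fiberwise (f := fun M : σ →₀ ℕ => M s) (t := Finset.range (L + 1))]
    · exact Finset.sum_congr rfl fun c _ => (hk c).symm
    · intro M hM
      have := hL M hM
      simp only [Finset.coe_range, Set.mem_Iio]
      omega
  have hK := (K2 L k (fun c => m c - k c) 0 hkL
    (fun c h0 => by
      have := hpos c h0
      show 1 ≤ m c - k c
      omega)
    (Nat.zero_le _)
    (fun c => by
      have h5 := hprev c
      have h6 := hkm (c + 1)
      show k c ≤ m (c + 1) - k (c + 1) + k (c + 1)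
      omega)).2
  have hE : ∑ c ∈ Finset.range (L + 1), (m c - k c) ≤ (bdT T S).card - S.card := by
    have h7 : ∑ c ∈ Finset.range (L + 1), (m c - k c) + ∑ c ∈ Finset.range (L + 1), k c
        = ∑ c ∈ Finset.range (L + 1), m c := by
      rw [← Finset.sum_add_distrib]
      exact Finset.sum_congr rfl fun c _ => Nat.sub_add_cancel (hkm c)
    omega
  rw [← hsumk] at hK
  refine le_trans hK (Nat.mul_le_mul hE (Nat.sub_le_sub_right hE 1))

end Pool.Agent.DAng
end
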