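import Mathlib
import Pool.Agent.Lib.MP_e3689b_an.Mg.G024

section

set_option autoImplicit false

/-!
# Negative squares: growth of a space of polynomials multiplied by all affine functions
-/

namespace Pool.Agent.DAng

open MvPolynomial

/-- Rank and nullity: a subspace of `T` which is killed by `ρ`. -/
theorem NS2_rank {V V' : Type*} [AddCommGroup V] [Module ℂ V] [AddCommGroup V'] [Module ℂ V']
    (ρ : V →ₗ[ℂ] V') (T K : Submodule ℂ V) [FiniteDimensional ℂ T] (hKT : K ≤ T)
    (hK : ∀ x ∈ K, ρ x = 0) :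
    Module.finrank ℂ K + Module.finrank ℂ (T.map ρ) ≤ Module.finrank ℂ T := by
  have h1 := LinearMap.finrank_range_add_finrank_ker (ρ.domRestrict T)
  have h2 : LinearMap.range (ρ.domRestrict T) = T.map ρ := by
    rw [LinearMap.range_domRestrict]
  rw [h2] at h1
  have h3 : K.comap T.subtype ≤ LinearMap.ker (ρ.domRestrict T) := by
    intro x hx
    rw [LinearMap.mem_ker]
    exact hK x.1 hx
  have h4 : Module.finrank ℂ (K.comap T.subtype) = Module.finrank ℂ K :=
    (Submodule.comapSubtypeEquivOfLe hKT).finrank_eq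
  have h5 := Submodule.finrank_mono h3
  omega

/-- A nonzero finite dimensional space of polynomials in one variable is not invariant under the
multiplication by the variable. -/
theorem NS2_mulX (A B : Submodule ℂ (Polynomial ℂ)) [FiniteDimensional ℂ B] (hAB : A ≤ B)
    (hX : ∀ f ∈ A, Polynomial.X * f ∈ B) (hA : A ≠ ⊥) :
    Module.finrank ℂ A + 1 ≤ Module.finrank ℂ B := by
  by_contra hcon
  have hEq : A = B := Submodule.eq_of_le_of_finrank_le hAB (by omega)
  subst hEq
  have : Nontrivial A := (Submodule.nontrivial_iff_ne_bot).2 hA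
  set M : Module.End ℂ A := (LinearMap.mulLeft ℂ (Polynomial.X : Polynomial ℂ)).restrict hX with hM
  obtain ⟨μ, hμ⟩ := Module.End.exists_eigenvalue M
  obtain ⟨f, hf⟩ := hμ.exists_hasEigenvector
  have h1 : M f = μ • f := hf.apply_eq_smul
  have h2 : Polynomial.X * (f : Polynomial ℂ) = μ • (f : Polynomial ℂ) :=
    congrArg Subtype.val h1
  have h3 : (Polynomial.X - Polynomial.C μ) * (f : Polynomial ℂ) = 0 := by
    rw [sub_mul, h2, Polynomial.smul_eq_C_mul, sub_self]
  rcases mul_eq_zero.1 h3 with h4 | h4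
  · exact Polynomial.X_sub_C_ne_zero μ h4
  · exact hf.2 (Subtype.ext h4)

variable {m : ℕ} (a b : Fin m → ℂ)

/-- the substitution of the variables with index `> k` by their values on the line
`t ↦ (t, a + t b)` -/
noncomputable def nsS (k : ℕ) :
    MvPolynomial (Fin (m + 1)) ℂ →ₐ[ℂ] MvPolynomial (Fin (m + 1)) ℂ :=
  aeval (Fin.cons (X 0)
    (fun i : Fin m => if i.val < k then X i.succ else C (a i) + C (b i) * X 0))

/-- the restriction to the line `t ↦ (t, a + t b)` -/
noncomputable def nsR : MvPolynomial (Fin (m + 1)) ℂ →ₐ[ℂ] Polynomial ℂ :=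
  aeval (Fin.cons Polynomial.X
    (fun i : Fin m => Polynomial.C (a i) + Polynomial.C (b i) * Polynomial.X))

theorem nsS_X0 (k : ℕ) : nsS a b k (X 0) = X 0 := by
  unfold nsS
  rw [aeval_X, Fin.cons_zero]

theorem nsS_lt (k : ℕ) (i : Fin m) (h : i.val < k) : nsS a b k (X i.succ) = X i.succ := by
  unfold nsS
  rw [aeval_X, Fin.cons_succ, if_pos h]

theorem nsS_ge (k : ℕ) (i : Fin m) (h : ¬ i.val < k) :
    nsS a b k (X i.succ) = C (a i) + C (b i) * X 0 := by
  unfold nsS
  rw [aeval_X, Fin.cons_succ, if_neg h]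

theorem nsS_C (k : ℕ) (c : ℂ) : nsS a b k (C c) = C c := by
  unfold nsS
  rw [aeval_C]
  rfl

theorem nsS_full : nsS a b m = AlgHom.id ℂ _ := by
  apply MvPolynomial.algHom_ext
  intro i
  refine Fin.cases ?_ (fun i => ?_) i
  · rw [nsS_X0]
    rfl
  · rw [nsS_lt a b m i i.isLt]
    rfl

theorem nsS_comp (k : ℕ) (f : MvPolynomial (Fin (m + 1)) ℂ) :
    nsS a b k (nsS a b (k + 1) f) = nsS a b k f := by
  have h1 : (nsS a b k).comp (nsS a b (k + 1)) = nsS a b k := by
    apply MvPolynomial.algHom_ext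
    intro i
    rw [AlgHom.comp_apply]
    refine Fin.cases ?_ (fun i => ?_) i
    · rw [nsS_X0]
    · by_cases h : i.val < k + 1
      · rw [nsS_lt a b (k + 1) i h]
      · rw [nsS_ge a b (k + 1) i h, nsS_ge a b k i (by omega), map_add, map_mul, nsS_C, nsS_C,
          nsS_X0]
  rw [← AlgHom.comp_apply, h1]

theorem nsR_nsS (k : ℕ) (f : MvPolynomial (Fin (m + 1)) ℂ) :
    nsR a b (nsS a b k f) = nsR a b f := by
  have hX0 : nsR a b (X 0) = Polynomial.X := by
    unfold nsR
    rw [aeval_X, Fin.cons_zero]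
  have hC : ∀ c, nsR a b (C c) = Polynomial.C c := by
    intro c
    unfold nsR
    rw [aeval_C]
    rfl
  have h1 : (nsR a b).comp (nsS a b k) = nsR a b := by
    apply MvPolynomial.algHom_ext
    intro i
    rw [AlgHom.comp_apply]
    refine Fin.cases ?_ (fun i => ?_) i
    · rw [nsS_X0]
    · by_cases h : i.val < k
      · rw [nsS_lt a b k i h]
      · rw [nsS_ge a b k i h, map_add, map_mul, hC, hC, hX0]
        unfold nsR
        rw [aeval_X, Fin.cons_succ]
  rw [← AlgHom.comp_apply, h1]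

/-- the affine function which vanishes on the smaller plane -/
noncomputable def nsl (i : Fin m) : MvPolynomial (Fin (m + 1)) ℂ :=
  X i.succ - (C (a i) + C (b i) * X 0)

theorem nsl_ne (i : Fin m) : nsl a b i ≠ 0 := by
  intro h
  have h1 := congrArg (eval (Pi.single i.succ (a i + 1) : Fin (m + 1) → ℂ)) h
  unfold nsl at h1
  rw [map_sub, map_add, map_mul, eval_C, eval_C, eval_X, eval_X, Pi.single_eq_same,
    Pi.single_eq_of_ne (Fin.succ_ne_zero i).symm, map_zero] at h1
  simp at h1

theorem nsS_nsl (k : ℕ) (hk : k < m) : nsS a b (k + 1) (nsl a b ⟨k, hk⟩) = nsl a b ⟨k, hk⟩ := by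
  unfold nsl
  rw [map_sub, map_add, map_mul, nsS_C, nsS_C, nsS_X0,
    nsS_lt a b (k + 1) ⟨k, hk⟩ (Nat.lt_succ_self k)]

theorem nsS_nsl_zero (k : ℕ) (hk : k < m) : nsS a b k (nsl a b ⟨k, hk⟩) = 0 := by
  unfold nsl
  rw [map_sub, map_add, map_mul, nsS_C, nsS_C, nsS_X0,
    nsS_ge a b k ⟨k, hk⟩ (lt_irrefl k), sub_self]

section growth

variable (E T : Submodule ℂ (MvPolynomial (Fin (m + 1)) ℂ)) [FiniteDimensional ℂ E]
  [FiniteDimensional ℂ T] (hET : E ≤ T) (hX : ∀ i, ∀ f ∈ E, X i * f ∈ T)

include hET hX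

omit [FiniteDimensional ℂ E] in
theorem NS2_step (k : ℕ) (hk : k < m) :
    Module.finrank ℂ (E.map (nsS a b (k + 1)).toLinearMap) +
      Module.finrank ℂ (T.map (nsS a b k).toLinearMap) ≤
        Module.finrank ℂ (T.map (nsS a b (k + 1)).toLinearMap) := by
  set l := nsl a b ⟨k, hk⟩ with hl
  have hlT : ∀ f ∈ E, l * f ∈ T := by
    intro f hf
    rw [hl]
    unfold nsl
    rw [sub_mul, add_mul, mul_assoc, ← MvPolynomial.smul_eq_C_mul, ← MvPolynomial.smul_eq_C_mul]
    exact T.sub_mem (hX _ f hf) (T.add_mem (T.smul_mem _ (hET hf)) (T.smul_mem _ (hX _ f hf)))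
  set K : Submodule ℂ (MvPolynomial (Fin (m + 1)) ℂ) :=
    (E.map (nsS a b (k + 1)).toLinearMap).map (LinearMap.mulLeft ℂ l) with hK
  have h1 := NS2_rank (nsS a b k).toLinearMap (T.map (nsS a b (k + 1)).toLinearMap) K (by
    rintro _ ⟨_, ⟨f, hf, rfl⟩, rfl⟩
    refine ⟨l * f, hlT f hf, ?_⟩
    show nsS a b (k + 1) (l * f) = l * nsS a b (k + 1) f
    rw [map_mul, hl, nsS_nsl]) (by
    rintro _ ⟨_, ⟨f, hf, rfl⟩, rfl⟩
    show nsS a b k (l * nsS a b (k + 1) f) = 0
    rw [map_mul, hl, nsS_nsl_zero, zero_mul])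
  have h2 : (T.map (nsS a b (k + 1)).toLinearMap).map (nsS a b k).toLinearMap =
      T.map (nsS a b k).toLinearMap := by
    rw [← Submodule.map_comp]
    congr 1
    apply LinearMap.ext
    intro f
    exact nsS_comp a b k f
  have h3 : Module.finrank ℂ K = Module.finrank ℂ (E.map (nsS a b (k + 1)).toLinearMap) :=
    (Submodule.equivMapOfInjective (LinearMap.mulLeft ℂ l)
      (mul_right_injective₀ (nsl_ne a b ⟨k, hk⟩)) _).symm.finrank_eq
  rw [h2, h3] at h1
  exact h1

omit hET hX in
theorem NS2_lower (k : ℕ) (F : Submodule ℂ (MvPolynomial (Fin (m + 1)) ℂ))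
    [FiniteDimensional ℂ F] :
    Module.finrank ℂ (F.map (nsR a b).toLinearMap) ≤
      Module.finrank ℂ (F.map (nsS a b k).toLinearMap) := by
  have h1 : F.map (nsR a b).toLinearMap =
      (F.map (nsS a b k).toLinearMap).map (nsR a b).toLinearMap := by
    rw [← Submodule.map_comp]
    congr 1
    apply LinearMap.ext
    intro f
    exact (nsR_nsS a b k f).symm
  rw [h1]
  exact Submodule.finrank_map_le _ _

/-- GROWTH. -/
theorem NS2_growth (hm : 0 < m) (d : ℕ) (hd : 0 < d)
    (hE : d ≤ Module.finrank ℂ (E.map (nsR a b).toLinearMap)) :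
    Module.finrank ℂ E + m * d + 1 ≤ Module.finrank ℂ T := by
  have h0 : d + 1 ≤ Module.finrank ℂ (T.map (nsR a b).toLinearMap) := by
    have h1 := NS2_mulX (E.map (nsR a b).toLinearMap) (T.map (nsR a b).toLinearMap)
      (Submodule.map_mono hET) (by
        rintro _ ⟨f, hf, rfl⟩
        refine ⟨X 0 * f, hX 0 f hf, ?_⟩
        show nsR a b (X 0 * f) = Polynomial.X * nsR a b f
        rw [map_mul]
        congr 1
        unfold nsR
        rw [aeval_X, Fin.cons_zero]) (by
        intro hbot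
        rw [hbot, finrank_bot] at hE
        omega)
    omega
  have key : ∀ k, k ≤ m → k * d + d + 1 ≤
      Module.finrank ℂ (T.map (nsS a b k).toLinearMap) := by
    intro k
    induction k with
    | zero =>
      intro _
      have h1 := NS2_lower a b 0 T
      omega
    | succ k ih =>
      intro hk
      have h1 := ih (by omega)
      have h2 := NS2_step a b E T hET hX k hk
      have h3 := NS2_lower a b (k + 1) E
      have h4 : (k + 1) * d = k * d + d := by ring
      omega
  obtain ⟨m', rfl⟩ : ∃ m', m = m' + 1 := ⟨m - 1, by omega⟩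
  have h1 := key m' (by omega)
  have h2 := NS2_step a b E T hET hX m' (by omega)
  have hid : ∀ F : Submodule ℂ (MvPolynomial (Fin (m' + 1 + 1)) ℂ),
      F.map (nsS a b (m' + 1)).toLinearMap = F := by
    intro F
    rw [nsS_full]
    exact Submodule.map_id F
  rw [hid, hid] at h2
  have h4 : (m' + 1) * d = m' * d + d := by ring
  omega

end growth

end Pool.Agent.DAng
end

section

set_option autoImplicit false

/-!
# Negative squares: polarisation, and the spans of the components of equal squared norms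
-/

namespace Pool.Agent.DAng

open MvPolynomial

/-- Equal squared norms of families of polynomials give equal squared norms after applying a linear functional. -/
theorem NS1_functional {n : ℕ} {ι κ : Type*} [Fintype ι] [Fintype κ]
    (φ : ι → MvPolynomial (Fin n) ℂ) (ψ : κ → MvPolynomial (Fin n) ℂ)
    (h : ∀ z w : Fin n → ℂ, ∑ a, eval z (φ a) * (starRingEnd ℂ) (eval w (φ a)) =
      ∑ b, eval z (ψ b) * (starRingEnd ℂ) (eval w (ψ b)))
    (L : MvPolynomial (Fin n) ℂ →ₗ[ℂ] ℂ) : ∑ a, ‖L (φ a)‖ ^ 2 = ∑ b, ‖L (ψ b)‖ ^ 2 := by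
  have h1 : ∀ w : Fin n → ℂ, ∑ a, (starRingEnd ℂ) (eval w (φ a)) • φ a =
      ∑ b, (starRingEnd ℂ) (eval w (ψ b)) • ψ b := by
    intro w
    apply MvPolynomial.funext
    intro z
    rw [map_sum, map_sum]
    simp only [smul_eval]
    have h2 := h z w
    simp only [mul_comm (eval z _)] at h2
    exact h2
  have h2 : ∀ w : Fin n → ℂ, ∑ a, (starRingEnd ℂ) (eval w (φ a)) * L (φ a) =
      ∑ b, (starRingEnd ℂ) (eval w (ψ b)) * L (ψ b) := by
    intro w
    have h3 := congrArg L (h1 w)
    simpa only [map_sum, map_smul, smul_eq_mul] using h3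
  have h3 : ∑ a, (starRingEnd ℂ) (L (φ a)) • φ a = ∑ b, (starRingEnd ℂ) (L (ψ b)) • ψ b := by
    apply MvPolynomial.funext
    intro w
    rw [map_sum, map_sum]
    simp only [smul_eval]
    have h4 := congrArg (starRingEnd ℂ) (h2 w)
    simp only [map_sum, map_mul, Complex.conj_conj] at h4
    simp only [mul_comm _ (eval w _)]
    exact h4
  have h4 := congrArg L h3
  simp only [map_sum, map_smul, smul_eq_mul] at h4
  have h5 : ∀ z : ℂ, (starRingEnd ℂ) z * z = ((‖z‖ ^ 2 : ℝ) : ℂ) := by
    intro z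
    rw [mul_comm, Complex.mul_conj, Complex.normSq_eq_norm_sq]
  simp only [h5] at h4
  exact_mod_cast h4

/-- The components of one family lie in the span of the other one. -/
theorem NS1_mem {n : ℕ} {ι κ : Type*} [Fintype ι] [Fintype κ]
    (φ : ι → MvPolynomial (Fin n) ℂ) (ψ : κ → MvPolynomial (Fin n) ℂ)
    (h : ∀ z w : Fin n → ℂ, ∑ a, eval z (φ a) * (starRingEnd ℂ) (eval w (φ a)) =
      ∑ b, eval z (ψ b) * (starRingEnd ℂ) (eval w (ψ b))) (a : ι) :
    φ a ∈ Submodule.span ℂ (Set.range ψ) := by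
  by_contra hcon
  obtain ⟨L, hL1, hL2⟩ := Submodule.exists_dual_map_eq_bot_of_notMem hcon inferInstance
  have hψ : ∀ b, L (ψ b) = 0 := by
    intro b
    have h1 : L (ψ b) ∈ (Submodule.span ℂ (Set.range ψ)).map L :=
      Submodule.mem_map_of_mem (Submodule.subset_span ⟨b, rfl⟩)
    rw [hL2] at h1
    exact (Submodule.mem_bot ℂ).1 h1
  have h2 := NS1_functional φ ψ h L
  simp only [hψ, norm_zero, ne_eq, OfNat.ofNat_ne_zero, not_false_eq_true, zero_pow,
    Finset.sum_const_zero] at h2
  have h3 := (Finset.sum_eq_zero_iff_of_nonneg (fun _ _ => sq_nonneg _)).1 h2 a (Finset.mem_univ a)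
  exact hL1 (norm_eq_zero.1 (pow_eq_zero_iff two_ne_zero |>.1 h3))

/-- evaluation of the conjugated polynomial -/
theorem NS1_cj {n : ℕ} (G : MvPolynomial (Fin n) ℂ) (z : Fin n → ℂ) :
    eval (fun i => (starRingEnd ℂ) (z i)) (cj G) = (starRingEnd ℂ) (eval z G) := by
  unfold cj
  rw [eval_map]
  exact (eval₂_comp_left (starRingEnd ℂ) (RingHom.id ℂ) z G).symm

/-- Polarisation of the identity `|q|² - ∑ |p_j|² = (1 - |z|²) (∑ |g_j|² - ∑ |h_j|²)`. -/
theorem NS1_polar {n N π ν : ℕ} (p : Fin N → MvPolynomial (Fin n) ℂ) (q : MvPolynomial (Fin n) ℂ)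
    (g : Fin π → MvPolynomial (Fin n) ℂ) (h : Fin ν → MvPolynomial (Fin n) ℂ)
    (hid : ∀ z : Fin n → ℂ, ‖eval z q‖ ^ 2 - ∑ j, ‖eval z (p j)‖ ^ 2 =
      (1 - ∑ i, ‖z i‖ ^ 2) * (∑ j, ‖eval z (g j)‖ ^ 2 - ∑ j, ‖eval z (h j)‖ ^ 2))
    (z w : Fin n → ℂ) :
    eval z q * (starRingEnd ℂ) (eval w q) - ∑ j, eval z (p j) * (starRingEnd ℂ) (eval w (p j)) =
      (1 - ∑ i, z i * (starRingEnd ℂ) (w i)) *
        (∑ j, eval z (g j) * (starRingEnd ℂ) (eval w (g j)) -
          ∑ j, eval z (h j) * (starRingEnd ℂ) (eval w (h j))) := by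
  set K : MvPolynomial (Fin n) ℂ → MvPolynomial (Fin n ⊕ Fin n) ℂ := fun G =>
    rename Sum.inl G * rename Sum.inr (cj G) with hK
  set P : MvPolynomial (Fin n ⊕ Fin n) ℂ := K q - ∑ j, K (p j) -
    (1 - ∑ i, X (Sum.inl i) * X (Sum.inr i)) * (∑ j, K (g j) - ∑ j, K (h j)) with hP
  have hKev : ∀ (G : MvPolynomial (Fin n) ℂ) (z w : Fin n → ℂ),
      eval (Sum.elim z (fun i => (starRingEnd ℂ) (w i))) (K G) =
        eval z G * (starRingEnd ℂ) (eval w G) := by
    intro G z w
    simp only [hK]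
    rw [map_mul, eval_rename, eval_rename, Sum.elim_comp_inl, Sum.elim_comp_inr, NS1_cj]
  have hPev : ∀ z w : Fin n → ℂ, eval (Sum.elim z (fun i => (starRingEnd ℂ) (w i))) P =
      eval z q * (starRingEnd ℂ) (eval w q) -
        ∑ j, eval z (p j) * (starRingEnd ℂ) (eval w (p j)) -
      (1 - ∑ i, z i * (starRingEnd ℂ) (w i)) *
        (∑ j, eval z (g j) * (starRingEnd ℂ) (eval w (g j)) -
          ∑ j, eval z (h j) * (starRingEnd ℂ) (eval w (h j))) := by
    intro z w
    rw [hP]
    simp only [map_sub, map_mul, map_sum, hKev, map_one, eval_X, Sum.elim_inl, Sum.elim_inr]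
  have hP0 : P = 0 := by
    apply Z1
    intro z
    rw [hPev]
    have h5 : ∀ z : ℂ, z * (starRingEnd ℂ) z = ((‖z‖ ^ 2 : ℝ) : ℂ) := by
      intro z
      rw [Complex.mul_conj, Complex.normSq_eq_norm_sq]
    simp only [h5]
    have h6 := hid z
    rw [← sub_eq_zero] at h6
    exact_mod_cast congrArg (fun x : ℝ => (x : ℂ)) h6
  have h7 := hPev z w
  rw [hP0, map_zero] at h7
  exact (sub_eq_zero.1 h7.symm)

end Pool.Agent.DAng
end

section

set_option autoImplicit false

/-!
# Negative squares: diagonalisation of a difference of squared norms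
-/

namespace Pool.Agent.DAng

open MvPolynomial

theorem NS4_eval {n : ℕ} (A : Finset (Fin n →₀ ℕ)) (f : MvPolynomial (Fin n) ℂ)
    (hf : f.support ⊆ A) (z : Fin n → ℂ) :
    eval z f = ∑ α : A, coeff α.1 f * eval z (monomial α.1 1) := by
  conv_lhs => rw [f.as_sum]
  rw [map_sum, Finset.sum_coe_sort A (fun α => coeff α f * eval z (monomial α 1))]
  rw [← Finset.sum_subset hf]
  · refine Finset.sum_congr rfl fun α _ => ?_
    rw [eval_monomial, eval_monomial, one_mul]
  · intro α _ hα
    rw [MvPolynomial.notMem_support_iff.1 hα, zero_mul]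

theorem NS4_comm3 {A : Type*} [Fintype A] (T : A → A → A → ℂ) :
    ∑ k, ∑ α, ∑ β, T k α β = ∑ α, ∑ β, ∑ k, T k α β := by
  rw [Finset.sum_comm]
  refine Finset.sum_congr rfl fun α _ => ?_
  rw [Finset.sum_comm]

/-- A difference of two squared norms is a real combination of squares of linearly independent polynomials. -/
theorem NS4_diag {n : ℕ} {ι κ : Type*} [Fintype ι] [Fintype κ]
    (g : ι → MvPolynomial (Fin n) ℂ) (h : κ → MvPolynomial (Fin n) ℂ) :
    ∃ (τ : Type) (_ : Fintype τ) (c : τ → ℝ) (G : τ → MvPolynomial (Fin n) ℂ),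
      LinearIndependent ℂ G ∧ ∀ z w : Fin n → ℂ,
        ∑ j, eval z (g j) * (starRingEnd ℂ) (eval w (g j)) -
          ∑ j, eval z (h j) * (starRingEnd ℂ) (eval w (h j)) =
        ∑ k, (c k : ℂ) * (eval z (G k) * (starRingEnd ℂ) (eval w (G k))) := by
  classical
  set A : Finset (Fin n →₀ ℕ) := (Finset.univ.biUnion fun j => (g j).support) ∪
    (Finset.univ.biUnion fun j => (h j).support) with hA
  have hgA : ∀ j, (g j).support ⊆ A := fun j =>
    (Finset.subset_biUnion_of_mem (fun j => (g j).support) (Finset.mem_univ j)).trans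
      Finset.subset_union_left
  have hhA : ∀ j, (h j).support ⊆ A := fun j =>
    (Finset.subset_biUnion_of_mem (fun j => (h j).support) (Finset.mem_univ j)).trans
      Finset.subset_union_right
  set M : Matrix A A ℂ := Matrix.of fun α β =>
    ∑ j, coeff α.1 (g j) * (starRingEnd ℂ) (coeff β.1 (g j)) -
      ∑ j, coeff α.1 (h j) * (starRingEnd ℂ) (coeff β.1 (h j)) with hM
  have hMh : M.IsHermitian := by
    ext α β
    rw [Matrix.conjTranspose_apply]
    simp only [hM, Matrix.of_apply, star_sub, star_sum, star_mul']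
    have e : ∀ x y : ℂ, star x * star ((starRingEnd ℂ) y) = y * (starRingEnd ℂ) x := by
      intro x y
      rw [← starRingEnd_apply, ← starRingEnd_apply, Complex.conj_conj, mul_comm]
    simp only [e]
  set U : Matrix A A ℂ := (hMh.eigenvectorUnitary : Matrix A A ℂ) with hU
  have hUU : star U * U = 1 := Unitary.coe_star_mul_self _
  have hspec : ∀ α β, M α β = ∑ k, U α k * ((hMh.eigenvalues k : ℝ) : ℂ) *
      (starRingEnd ℂ) (U β k) := by
    intro α β
    have h1 := hMh.spectral_theorem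
    rw [Unitary.conjStarAlgAut_apply] at h1
    have h2 := congrFun (congrFun h1 α) β
    rw [h2, Matrix.mul_apply]
    refine Finset.sum_congr rfl fun k _ => ?_
    rw [Matrix.mul_diagonal, Matrix.star_apply]
    rfl
  set G : A → MvPolynomial (Fin n) ℂ := fun k => ∑ α : A, monomial α.1 (U α k) with hG
  have hGev : ∀ z k, eval z (G k) = ∑ α : A, U α k * eval z (monomial α.1 1) := by
    intro z k
    simp only [hG, map_sum]
    refine Finset.sum_congr rfl fun α _ => ?_
    rw [eval_monomial, eval_monomial, one_mul]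
  have hGco : ∀ (k : A) (β : A), coeff β.1 (G k) = U β k := by
    intro k β
    simp only [hG, coeff_sum, coeff_monomial]
    rw [Finset.sum_eq_single β]
    · rw [if_pos rfl]
    · intro α _ hα
      rw [if_neg (fun h => hα (Subtype.ext h))]
    · intro h
      exact absurd (Finset.mem_univ _) h
  refine ⟨A, inferInstance, hMh.eigenvalues, G, ?_, fun z w => ?_⟩
  · rw [Fintype.linearIndependent_iff]
    intro y hy
    have h1 : U.mulVec y = 0 := by
      funext β
      have h2 := congrArg (coeff β.1) hy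
      rw [coeff_sum, coeff_zero] at h2
      simp only [coeff_smul, hGco, smul_eq_mul] at h2
      rw [Matrix.mulVec, dotProduct, Pi.zero_apply, ← h2]
      exact Finset.sum_congr rfl fun k _ => mul_comm _ _
    have h3 : y = 0 := by
      have h4 := congrArg (fun x => (star U).mulVec x) h1
      simp only [Matrix.mulVec_mulVec, hUU, Matrix.one_mulVec, Matrix.mulVec_zero] at h4
      exact h4
    intro k
    rw [h3]
    rfl
  · have hL : ∀ f : MvPolynomial (Fin n) ℂ, f.support ⊆ A →
        eval z f * (starRingEnd ℂ) (eval w f) = ∑ α : A, ∑ β : A,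
          (coeff α.1 f * (starRingEnd ℂ) (coeff β.1 f)) *
            (eval z (monomial α.1 1) * (starRingEnd ℂ) (eval w (monomial β.1 1))) := by
      intro f hf
      rw [NS4_eval A f hf z, NS4_eval A f hf w, map_sum, Finset.sum_mul_sum]
      refine Finset.sum_congr rfl fun α _ => Finset.sum_congr rfl fun β _ => ?_
      rw [map_mul]
      ring
    have h1 : ∑ j, eval z (g j) * (starRingEnd ℂ) (eval w (g j)) -
        ∑ j, eval z (h j) * (starRingEnd ℂ) (eval w (h j)) =
        ∑ α : A, ∑ β : A, M α β *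
          (eval z (monomial α.1 1) * (starRingEnd ℂ) (eval w (monomial β.1 1))) := by
      rw [Finset.sum_congr rfl fun j _ => hL (g j) (hgA j),
        Finset.sum_congr rfl fun j _ => hL (h j) (hhA j), Finset.sum_comm,
        Finset.sum_comm (s := Finset.univ (α := κ)), ← Finset.sum_sub_distrib]
      refine Finset.sum_congr rfl fun α _ => ?_
      rw [Finset.sum_comm, Finset.sum_comm (s := Finset.univ (α := κ)),
        ← Finset.sum_sub_distrib]
      refine Finset.sum_congr rfl fun β _ => ?_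
      rw [← Finset.sum_mul, ← Finset.sum_mul, ← sub_mul]
      rfl
    rw [h1]
    have h2 : ∀ k : A, ((hMh.eigenvalues k : ℝ) : ℂ) *
        (eval z (G k) * (starRingEnd ℂ) (eval w (G k))) = ∑ α : A, ∑ β : A,
          (U α k * ((hMh.eigenvalues k : ℝ) : ℂ) * (starRingEnd ℂ) (U β k)) *
            (eval z (monomial α.1 1) * (starRingEnd ℂ) (eval w (monomial β.1 1))) := by
      intro k
      rw [hGev, hGev, map_sum, Finset.sum_mul_sum, Finset.mul_sum]
      refine Finset.sum_congr rfl fun α _ => ?_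
      rw [Finset.mul_sum]
      refine Finset.sum_congr rfl fun β _ => ?_
      rw [map_mul]
      ring
    rw [Finset.sum_congr rfl fun k _ => h2 k, NS4_comm3]
    refine Finset.sum_congr rfl fun α _ => ?_
    refine Finset.sum_congr rfl fun β _ => ?_
    rw [hspec, Finset.sum_mul]

/-- A difference of two squared norms can be written with linearly independent polynomials, without more
negative squares. -/
theorem NS4 {n : ℕ} {ι κ : Type*} [Fintype ι] [Fintype κ]
    (g : ι → MvPolynomial (Fin n) ℂ) (h : κ → MvPolynomial (Fin n) ℂ) :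
    ∃ (ι' κ' : Type) (_ : Fintype ι') (_ : Fintype κ') (g' : ι' → MvPolynomial (Fin n) ℂ)
      (h' : κ' → MvPolynomial (Fin n) ℂ), LinearIndependent ℂ (Sum.elim g' h') ∧
      Fintype.card κ' ≤ Fintype.card κ ∧ ∀ z w : Fin n → ℂ,
        ∑ j, eval z (g j) * (starRingEnd ℂ) (eval w (g j)) -
          ∑ j, eval z (h j) * (starRingEnd ℂ) (eval w (h j)) =
        ∑ j, eval z (g' j) * (starRingEnd ℂ) (eval w (g' j)) -
          ∑ j, eval z (h' j) * (starRingEnd ℂ) (eval w (h' j)) := by
  classical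
  obtain ⟨τ, _, c, G, hG, hid⟩ := NS4_diag g h
  set g' : {k : τ // 0 < c k} → MvPolynomial (Fin n) ℂ := fun k =>
    ((Real.sqrt (c k.1) : ℝ) : ℂ) • G k.1 with hg'
  set h' : {k : τ // c k < 0} → MvPolynomial (Fin n) ℂ := fun k =>
    ((Real.sqrt (-c k.1) : ℝ) : ℂ) • G k.1 with hh'
  have hev : ∀ (x : ℝ) (hx : 0 ≤ x) (f : MvPolynomial (Fin n) ℂ) (z w : Fin n → ℂ),
      eval z (((Real.sqrt x : ℝ) : ℂ) • f) *
        (starRingEnd ℂ) (eval w (((Real.sqrt x : ℝ) : ℂ) • f)) =
        (x : ℂ) * (eval z f * (starRingEnd ℂ) (eval w f)) := by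
    intro x hx f z w
    rw [smul_eval, smul_eval, map_mul, Complex.conj_ofReal]
    have h1 : ((Real.sqrt x : ℝ) : ℂ) * ((Real.sqrt x : ℝ) : ℂ) = (x : ℂ) := by
      rw [← Complex.ofReal_mul, Real.mul_self_sqrt hx]
    linear_combination (eval z f * (starRingEnd ℂ) (eval w f)) * h1
  have hsum : ∀ z w : Fin n → ℂ, ∑ j, eval z (g' j) * (starRingEnd ℂ) (eval w (g' j)) -
      ∑ j, eval z (h' j) * (starRingEnd ℂ) (eval w (h' j)) =
      ∑ k, (c k : ℂ) * (eval z (G k) * (starRingEnd ℂ) (eval w (G k))) := by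
    intro z w
    have h1 : ∑ j, eval z (g' j) * (starRingEnd ℂ) (eval w (g' j)) =
        ∑ k ∈ Finset.univ.filter (fun k => 0 < c k),
          (c k : ℂ) * (eval z (G k) * (starRingEnd ℂ) (eval w (G k))) := by
      rw [Finset.sum_subtype (Finset.univ.filter (fun k => 0 < c k)) (p := fun k => 0 < c k)
        (by simp)]
      exact Finset.sum_congr rfl fun k _ => hev _ k.2.le _ z w
    have h2 : ∑ j, eval z (h' j) * (starRingEnd ℂ) (eval w (h' j)) =
        ∑ k ∈ Finset.univ.filter (fun k => c k < 0),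
          -((c k : ℂ) * (eval z (G k) * (starRingEnd ℂ) (eval w (G k)))) := by
      rw [Finset.sum_subtype (Finset.univ.filter (fun k => c k < 0)) (p := fun k => c k < 0)
        (by simp)]
      refine Finset.sum_congr rfl fun k _ => ?_
      have h3 := hev (-c k.1) (neg_nonneg.2 k.2.le) (G k.1) z w
      rw [Complex.ofReal_neg, neg_mul] at h3
      exact h3
    rw [h1, h2, Finset.sum_neg_distrib, sub_neg_eq_add]
    rw [Finset.sum_filter, Finset.sum_filter, ← Finset.sum_add_distrib]
    refine Finset.sum_congr rfl fun k _ => ?_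
    rcases lt_trichotomy (c k) 0 with h3 | h3 | h3
    · rw [if_neg (not_lt.2 h3.le), if_pos h3, zero_add]
    · rw [h3, if_neg (lt_irrefl _), Complex.ofReal_zero, zero_mul, add_zero]
    · rw [if_pos h3, if_neg (not_lt.2 h3.le), add_zero]
  have hli : LinearIndependent ℂ (Sum.elim g' h') := by
    set e : {k : τ // 0 < c k} ⊕ {k : τ // c k < 0} → τ :=
      Sum.elim (fun k => k.1) (fun k => k.1) with he
    have hinj : Function.Injective e := by
      rintro (⟨k, hk⟩ | ⟨k, hk⟩) (⟨l, hl⟩ | ⟨l, hl⟩) hkl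
      · have h1 : k = l := hkl
        subst h1
        rfl
      · have h1 : k = l := hkl
        subst h1
        exact absurd hk (not_lt.2 hl.le)
      · have h1 : k = l := hkl
        subst h1
        exact absurd hl (not_lt.2 hk.le)
      · have h1 : k = l := hkl
        subst h1
        rfl
    have h1 : LinearIndependent ℂ (G ∘ e) := hG.comp e hinj
    have hne : ∀ x : {k : τ // 0 < c k} ⊕ {k : τ // c k < 0},
        (Sum.elim (fun k => ((Real.sqrt (c k.1) : ℝ) : ℂ))
          (fun k => ((Real.sqrt (-c k.1) : ℝ) : ℂ)) x : ℂ) ≠ 0 := by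
      rintro (⟨k, hk⟩ | ⟨k, hk⟩)
      · simp only [Sum.elim_inl, ne_eq, Complex.ofReal_eq_zero]
        exact (Real.sqrt_pos.2 hk).ne'
      · simp only [Sum.elim_inr, ne_eq, Complex.ofReal_eq_zero]
        exact (Real.sqrt_pos.2 (neg_pos.2 hk)).ne'
    have h2 := h1.units_smul (fun x => Units.mk0 _ (hne x))
    have h3 : ((fun x => Units.mk0 _ (hne x)) • (G ∘ e) :
        {k : τ // 0 < c k} ⊕ {k : τ // c k < 0} → MvPolynomial (Fin n) ℂ) = Sum.elim g' h' := by
      funext x
      rcases x with x | x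
      · rfl
      · rfl
    rw [h3] at h2
    exact h2
  have hkern : ∀ z w : Fin n → ℂ,
      ∑ a, eval z (Sum.elim g h' a) * (starRingEnd ℂ) (eval w (Sum.elim g h' a)) =
      ∑ b, eval z (Sum.elim h g' b) * (starRingEnd ℂ) (eval w (Sum.elim h g' b)) := by
    intro z w
    rw [Fintype.sum_sum_type, Fintype.sum_sum_type]
    simp only [Sum.elim_inl, Sum.elim_inr]
    have h1 := (hid z w).trans (hsum z w).symm
    linear_combination h1
  refine ⟨_, _, inferInstance, inferInstance, g', h', hli, ?_, fun z w => ?_⟩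
  · have h1 : Set.range (Sum.elim g' h') ⊆
        (Submodule.span ℂ (Set.range (Sum.elim h g')) : Set (MvPolynomial (Fin n) ℂ)) := by
      rintro _ ⟨x, rfl⟩
      rcases x with x | x
      · exact Submodule.subset_span ⟨Sum.inr x, rfl⟩
      · exact NS1_mem _ _ hkern (Sum.inr x)
    have hfin : FiniteDimensional ℂ (Submodule.span ℂ (Set.range (Sum.elim h g'))) :=
      FiniteDimensional.span_of_finite ℂ (Set.finite_range _)
    have h2 : Module.finrank ℂ (Submodule.span ℂ (Set.range (Sum.elim g' h'))) ≤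
        Module.finrank ℂ (Submodule.span ℂ (Set.range (Sum.elim h g'))) :=
      Submodule.finrank_mono (Submodule.span_le.2 h1)
    have h3 := finrank_span_eq_card hli
    have h4 := finrank_range_le_card (R := ℂ) (Sum.elim h g')
    rw [Set.finrank] at h4
    rw [Fintype.card_sum] at h3 h4
    omega
  · exact (hid z w).trans (hsum z w).symm

end Pool.Agent.DAng
end
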